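import Mathlib
import Pool.Agent.W218.LF.Gmom
import Pool.Agent.W38.PRb

set_option autoImplicit false

/-! Moments of `n / φ(n)` over the values of functions at primes. -/

namespace Pool.Agent.W218.PF

open Finset Pool.Agent.Erdos456 Pool.Agent.Erdos456.Mert Pool.Agent.W218.HF Pool.Agent.W218.LF

/-- primes in a residue class: `q ^ 2 ≤ X` -/
lemma bt_class {X q r : ℕ} (hX : 2 ≤ X) (hq : 1 ≤ q) (hqX : q ^ 2 ≤ X) :
    ((((Icc 1 X).filter (fun t : ℕ => t.Prime ∧ t % q = r)).card : ℕ) : ℝ) ≤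
      80 * GG q * (X / (q * Real.log X)) := by
  have hq0 : (0 : ℝ) < q := by exact_mod_cast hq
  have hXr : (2 : ℝ) ≤ X := by exact_mod_cast hX
  have hlX : 0 < Real.log X := Real.log_pos (by linarith)
  have hqleX : q ≤ X := by nlinarith
  set N : ℕ := X / q + 1 with hN
  have hN2 : 2 ≤ N := by
    have : 1 ≤ X / q := (Nat.le_div_iff_mul_le (by omega)).2 (by omega)
    omega
  have h := Pool.Agent.W38.PR.bt_unif (a := r) (q := q) (N := N) hq hN2
  have h1 : ((Icc 1 X).filter (fun t : ℕ => t.Prime ∧ t % q = r)).card ≤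
      ((range N).filter (fun k => (r + k * q).Prime)).card := by
    apply card_le_card_of_injOn (fun t => t / q)
    · intro t ht
      rw [mem_coe, mem_filter, mem_Icc] at ht
      rw [mem_coe, mem_filter, mem_range]
      refine ⟨?_, ?_⟩
      · show t / q < N
        have := Nat.div_le_div_right (c := q) ht.1.2
        omega
      · show (r + t / q * q).Prime
        have e : r + t / q * q = t := by
          rw [← ht.2.2]; exact Nat.mod_add_div' t q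
        rw [e]; exact ht.2.1
    · intro t ht s hs hts
      rw [mem_coe, mem_filter, mem_Icc] at ht hs
      have h2 : t / q = s / q := hts
      rw [← Nat.mod_add_div' t q, ← Nat.mod_add_div' s q, h2, ht.2.2, hs.2.2]
  have h2 : ((((Icc 1 X).filter (fun t : ℕ => t.Prime ∧ t % q = r)).card : ℕ) : ℝ) ≤
      20 * ((q : ℝ) / Nat.totient q) * (N / Real.log N) := le_trans (by exact_mod_cast h1) h
  refine h2.trans ?_
  have hNup : (N : ℝ) ≤ 2 * (X / q) := by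
    rw [hN]; push_cast
    have h3 : ((X / q : ℕ) : ℝ) ≤ (X : ℝ) / q := Nat.cast_div_le
    have h4 : (1 : ℝ) ≤ (X : ℝ) / q := by
      rw [le_div_iff₀ hq0, one_mul]; exact_mod_cast hqleX
    linarith
  have hNlow : (X : ℝ) / q ≤ N := by
    rw [hN, div_le_iff₀ hq0]
    have h3 : X < (X / q + 1) * q := by
      have := Nat.lt_mul_div_succ X (show 0 < q by omega)
      rw [mul_comm]; exact this
    exact_mod_cast h3.le
  have hNlog : Real.log X / 2 ≤ Real.log N := by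
    have h3 : (X : ℝ) ≤ N ^ 2 := by
      have h4 : (q : ℝ) ≤ X / q := by
        rw [le_div_iff₀ hq0]
        have : q * q ≤ X := by rw [← sq]; exact hqX
        exact_mod_cast this
      have h5 : (X : ℝ) = q * (X / q) := by field_simp
      have h6 : (0 : ℝ) ≤ X / q := by positivity
      calc (X : ℝ) = q * (X / q) := h5
        _ ≤ (X / q) * (X / q) := mul_le_mul_of_nonneg_right h4 h6
        _ ≤ N * N := mul_le_mul hNlow hNlow h6 (Nat.cast_nonneg N)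
        _ = _ := by ring
    have h7 := Real.log_le_log (by linarith : (0 : ℝ) < X) h3
    rw [Real.log_pow] at h7
    push_cast at h7
    linarith
  have hGG : (q : ℝ) / Nat.totient q = GG q := rfl
  rw [hGG]
  have hG0 := GG_nonneg q
  have h3 : (N : ℝ) / Real.log N ≤ 4 * (X / (q * Real.log X)) := by
    calc (N : ℝ) / Real.log N ≤ (2 * (X / q)) / (Real.log X / 2) := by gcongr
      _ = _ := by field_simp; ring
  calc 20 * GG q * ((N : ℝ) / Real.log N) ≤ 20 * GG q * (4 * (X / (q * Real.log X))) := by gcongr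
    _ = _ := by ring

/-- the number of primes `t ≤ X` with `F t` divisible by all primes of `S` -/
lemma count_dvdP {X ℓ : ℕ} {F : ℕ → ℤ} (hX : 2 ≤ X) (S : Finset ℕ) (hS : ∀ p ∈ S, p.Prime)
    (hF : ∀ p ∈ S, ∃ Z ⊆ range p, Z.card ≤ ℓ ∧ ∀ t, p ∣ (F t).natAbs → t % p ∈ Z) :
    ((((PP X).filter (fun t : ℕ => ∀ p ∈ S, p ∣ (F t).natAbs)).card : ℕ) : ℝ) ≤
      (ℓ : ℝ) ^ S.card * (80 * (X / Real.log X) * ∏ p ∈ S, (2 / (p : ℝ)) +
        (X : ℝ) ^ (7 / 8 : ℝ) * ∏ p ∈ S, (1 / (p : ℝ) ^ (3 / 4 : ℝ)) + 1) := by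
  classical
  have hXr : (2 : ℝ) ≤ X := by exact_mod_cast hX
  have hlX : 0 < Real.log X := Real.log_pos (by linarith)
  set P : ℕ := ∏ p ∈ S, p with hP
  have hP1 : 1 ≤ P := Nat.succ_le_of_lt (prod_pos fun p hp => (hS p hp).pos)
  have hP0 : (0 : ℝ) < P := by exact_mod_cast hP1
  have t1 : 0 ≤ 80 * (X / Real.log X) * ∏ p ∈ S, (2 / (p : ℝ)) :=
    mul_nonneg (by positivity) (prod_nonneg fun p _ => by positivity)
  have t2 : 0 ≤ (X : ℝ) ^ (7 / 8 : ℝ) * ∏ p ∈ S, (1 / (p : ℝ) ^ (3 / 4 : ℝ)) :=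
    mul_nonneg (by positivity) (prod_nonneg fun p _ => by positivity)
  by_cases hPX : P ^ 2 ≤ X
  · -- small modulus
    choose! Z hZ1 hZ2 hZ3 using hF
    set A := (PP X).filter (fun t : ℕ => ∀ p ∈ S, p ∣ (F t).natAbs) with hA
    set f : ℕ → (∀ p ∈ S, ℕ) := fun t p _ => t % p with hf
    have himg : A.image f ⊆ S.pi Z := by
      intro φ hφ
      rw [mem_image] at hφ
      obtain ⟨t, ht, rfl⟩ := hφ
      rw [mem_pi]
      intro p hp
      exact hZ3 p hp t ((mem_filter.1 ht).2 p hp)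
    have hcard : (A.image f).card ≤ ℓ ^ S.card := by
      refine (card_le_card himg).trans ?_
      rw [card_pi]
      calc ∏ p ∈ S, (Z p).card ≤ ∏ _p ∈ S, ℓ := prod_le_prod' fun p hp => hZ2 p hp
        _ = ℓ ^ S.card := prod_const _
    set M : ℝ := 80 * GG P * (X / (P * Real.log X)) with hM
    have hM0 : 0 ≤ M := by
      have := GG_nonneg P
      positivity
    have hfib : ∀ φ ∈ A.image f, (A.filter (fun t => f t = φ)).card ≤ ⌊M⌋₊ := by
      intro φ hφ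
      rw [mem_image] at hφ
      obtain ⟨s, hs, rfl⟩ := hφ
      apply Nat.le_floor
      have hsub : A.filter (fun t => f t = f s) ⊆
          (Icc 1 X).filter (fun t : ℕ => t.Prime ∧ t % P = s % P) := by
        intro t ht
        rw [mem_filter, hA, mem_filter] at ht
        have h1 : t ∈ PP X := ht.1.1
        simp only [PP, mem_filter] at h1
        rw [mem_filter]
        refine ⟨h1.1, h1.2, ?_⟩
        have h2 : s ≡ t [MOD P] := by
          rw [Nat.modEq_iff_dvd, Int.natCast_dvd]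
          apply Finset.prod_primes_dvd
          · intro p hp; exact (hS p hp).prime
          · intro p hp
            have h2 : t % p = s % p := congrFun (congrFun ht.2 p) hp
            have h3 : s ≡ t [MOD p] := h2.symm
            exact Int.natCast_dvd.1 ((Nat.modEq_iff_dvd).1 h3)
        exact h2.symm
      have h1 : ((A.filter (fun t => f t = f s)).card : ℝ) ≤
          ((((Icc 1 X).filter (fun t : ℕ => t.Prime ∧ t % P = s % P)).card : ℕ) : ℝ) := by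
        exact_mod_cast card_le_card hsub
      exact h1.trans (bt_class hX hP1 hPX)
    have h4 := card_le_mul_card_image A _ hfib
    have h5 : (A.card : ℝ) ≤ (⌊M⌋₊ : ℝ) * ((A.image f).card : ℝ) := by exact_mod_cast h4
    have h6 : ((⌊M⌋₊ : ℕ) : ℝ) ≤ M := Nat.floor_le hM0
    have h7 : ((A.image f).card : ℝ) ≤ (ℓ : ℝ) ^ S.card := by exact_mod_cast hcard
    have h8 : GG P ≤ ∏ p ∈ S, (2 : ℝ) := by
      rw [GG_eq_prod hP1]
      have h9 : P.primeFactors = S := Nat.primeFactors_prod hS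
      rw [h9]
      apply prod_le_prod
      · intro p hp
        exact zero_le_one.trans (factor_ge_one (hS p hp))
      · intro p hp
        have hp2 : (2 : ℝ) ≤ p := by exact_mod_cast (hS p hp).two_le
        rw [inv_le_comm₀ _ (by norm_num)]
        · have : (p : ℝ)⁻¹ ≤ 2⁻¹ := inv_anti₀ (by norm_num) hp2
          linarith
        · have : (p : ℝ)⁻¹ ≤ 2⁻¹ := inv_anti₀ (by norm_num) hp2
          have : (2 : ℝ)⁻¹ < 1 := by norm_num
          linarith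
    have h9 : M ≤ 80 * (X / Real.log X) * ∏ p ∈ S, (2 / (p : ℝ)) := by
      have e : ∏ p ∈ S, (2 / (p : ℝ)) = (∏ p ∈ S, (2 : ℝ)) / P := by
        rw [prod_div_distrib, hP]; push_cast; rfl
      rw [e, hM]
      calc 80 * GG P * (X / (P * Real.log X)) ≤ 80 * (∏ p ∈ S, (2 : ℝ)) * (X / (P * Real.log X)) := by
            gcongr
        _ = _ := by field_simp
    calc (A.card : ℝ) ≤ M * (ℓ : ℝ) ^ S.card := by
          refine h5.trans (mul_le_mul h6 h7 (by positivity) hM0)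
      _ = (ℓ : ℝ) ^ S.card * M := mul_comm _ _
      _ ≤ _ := by
          apply mul_le_mul_of_nonneg_left _ (by positivity)
          linarith
  · -- large modulus
    have h1 := count_dvd_gen (X := X) (ℓ := ℓ) (F := F) S hS hF
    have hsub : (((PP X).filter (fun t : ℕ => ∀ p ∈ S, p ∣ (F t).natAbs)).card : ℝ) ≤
        (((Icc 1 X).filter (fun t : ℕ => ∀ p ∈ S, p ∣ (F t).natAbs)).card : ℝ) := by
      have : (PP X).filter (fun t : ℕ => ∀ p ∈ S, p ∣ (F t).natAbs) ⊆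
          (Icc 1 X).filter (fun t : ℕ => ∀ p ∈ S, p ∣ (F t).natAbs) :=
        filter_subset_filter _ (filter_subset _ _)
      exact_mod_cast card_le_card this
    refine hsub.trans (h1.trans ?_)
    apply mul_le_mul_of_nonneg_left _ (by positivity)
    have hPX' : (X : ℝ) ≤ (P : ℝ) ^ 2 := by
      have : X ≤ P ^ 2 := by omega
      exact_mod_cast this
    have e1 : ∏ p ∈ S, (1 / (p : ℝ)) = 1 / P := by
      rw [hP]; push_cast; rw [prod_div_distrib, prod_const_one]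
    have e2 : ∏ p ∈ S, (1 / (p : ℝ) ^ (3 / 4 : ℝ)) = 1 / (P : ℝ) ^ (3 / 4 : ℝ) := by
      rw [hP]; push_cast
      rw [prod_div_distrib, prod_const_one, ← Real.finsetProd_rpow _ _ fun p _ => Nat.cast_nonneg p]
    have h2 : (X : ℝ) * (1 / P) ≤ (X : ℝ) ^ (7 / 8 : ℝ) * (1 / (P : ℝ) ^ (3 / 4 : ℝ)) := by
      have hX0 : (0 : ℝ) < X := by linarith
      have h3 : (X : ℝ) = (X : ℝ) ^ (7 / 8 : ℝ) * (X : ℝ) ^ (1 / 8 : ℝ) := by
        rw [← Real.rpow_add hX0]; norm_num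
      have h4 : (P : ℝ) = (P : ℝ) ^ (3 / 4 : ℝ) * (P : ℝ) ^ (1 / 4 : ℝ) := by
        rw [← Real.rpow_add hP0]; norm_num
      have h5 : (X : ℝ) ^ (1 / 8 : ℝ) ≤ (P : ℝ) ^ (1 / 4 : ℝ) := by
        calc (X : ℝ) ^ (1 / 8 : ℝ) ≤ ((P : ℝ) ^ 2) ^ (1 / 8 : ℝ) :=
              Real.rpow_le_rpow hX0.le hPX' (by norm_num)
          _ = (P : ℝ) ^ (1 / 4 : ℝ) := by
              rw [← Real.rpow_natCast, ← Real.rpow_mul hP0.le]; norm_num
      have hP4 : 0 < (P : ℝ) ^ (1 / 4 : ℝ) := Real.rpow_pos_of_pos hP0 _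
      have hP34 : 0 < (P : ℝ) ^ (3 / 4 : ℝ) := Real.rpow_pos_of_pos hP0 _
      calc (X : ℝ) * (1 / P) = (X : ℝ) ^ (7 / 8 : ℝ) * (X : ℝ) ^ (1 / 8 : ℝ) *
            (1 / ((P : ℝ) ^ (3 / 4 : ℝ) * (P : ℝ) ^ (1 / 4 : ℝ))) := by rw [← h3, ← h4]
        _ ≤ (X : ℝ) ^ (7 / 8 : ℝ) * (P : ℝ) ^ (1 / 4 : ℝ) *
            (1 / ((P : ℝ) ^ (3 / 4 : ℝ) * (P : ℝ) ^ (1 / 4 : ℝ))) := by gcongr
        _ = _ := by field_simp
    rw [e1]
    rw [e2] at t2 ⊢
    linarith

lemma log_le_pow : ∀ X : ℕ, 2 ≤ X → Real.log X ≤ 8 * (X : ℝ) ^ (1 / 8 : ℝ) := by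
  intro X hX
  have hXr : (2 : ℝ) ≤ X := by exact_mod_cast hX
  have h := Real.log_le_rpow_div (x := (X : ℝ)) (by linarith) (show (0 : ℝ) < 1 / 8 by norm_num)
  calc Real.log X ≤ (X : ℝ) ^ (1 / 8 : ℝ) / (1 / 8) := h
    _ = _ := by ring

lemma pow78_le (X : ℕ) (hX : 2 ≤ X) : (X : ℝ) ^ (7 / 8 : ℝ) ≤ 8 * (X / Real.log X) := by
  have hXr : (2 : ℝ) ≤ X := by exact_mod_cast hX
  have hX0 : (0 : ℝ) < X := by linarith
  have hlX : 0 < Real.log X := Real.log_pos (by linarith)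
  have h := log_le_pow X hX
  rw [← mul_div_assoc, le_div_iff₀ hlX]
  have h3 : (X : ℝ) = (X : ℝ) ^ (7 / 8 : ℝ) * (X : ℝ) ^ (1 / 8 : ℝ) := by
    rw [← Real.rpow_add hX0]; norm_num
  calc (X : ℝ) ^ (7 / 8 : ℝ) * Real.log X ≤ (X : ℝ) ^ (7 / 8 : ℝ) * (8 * (X : ℝ) ^ (1 / 8 : ℝ)) := by
        gcongr
    _ = 8 * ((X : ℝ) ^ (7 / 8 : ℝ) * (X : ℝ) ^ (1 / 8 : ℝ)) := by ring
    _ = 8 * X := by rw [← h3]

/-- `∏ (1 + h / p)` is small -/
lemma prod_mertens_small (h : ℕ) : ∃ C : ℝ, 0 < C ∧ ∀ X : ℕ, 2 ≤ X →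
    ∏ p ∈ PP X, (1 + (h : ℝ) / (p : ℝ)) ≤ C * (X / Real.log X) := by
  obtain ⟨C, hC, hM⟩ := prod_mertens_gen (2 * h + h ^ 2)
  refine ⟨Real.sqrt C * 8, by positivity, ?_⟩
  intro X hX
  have hXr : (2 : ℝ) ≤ X := by exact_mod_cast hX
  have hX0 : (0 : ℝ) < X := by linarith
  set R : ℝ := ∏ p ∈ PP X, (1 + (h : ℝ) / (p : ℝ)) with hR
  have hR0 : 0 ≤ R := prod_nonneg fun p _ => by positivity
  have h1 : R ^ 2 ≤ C * X := by
    refine le_trans ?_ (hM X (by omega))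
    rw [hR, ← prod_pow]
    apply prod_le_prod
    · intro p _; positivity
    · intro p hp
      have hp1 : (1 : ℝ) ≤ p := by
        have : p ∈ PP X := hp
        simp only [PP, mem_filter] at this
        exact_mod_cast this.2.one_lt.le
      have hp0 : (0 : ℝ) < p := by linarith
      have h2 : ((h : ℝ) / p) ^ 2 ≤ (h : ℝ) ^ 2 / p := by
        rw [div_pow, div_le_div_iff₀ (by positivity) hp0]
        have : (h : ℝ) ^ 2 * p ≤ (h : ℝ) ^ 2 * p ^ 2 := by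
          apply mul_le_mul_of_nonneg_left _ (by positivity)
          nlinarith
        linarith
      push_cast
      calc (1 + (h : ℝ) / p) ^ 2 = 1 + 2 * ((h : ℝ) / p) + ((h : ℝ) / p) ^ 2 := by ring
        _ ≤ 1 + 2 * ((h : ℝ) / p) + (h : ℝ) ^ 2 / p := by linarith
        _ = _ := by ring
  have h2 : R ≤ Real.sqrt (C * X) := by
    rw [← Real.sqrt_sq hR0]
    exact Real.sqrt_le_sqrt h1
  have h3 : Real.sqrt (X : ℝ) ≤ (X : ℝ) ^ (7 / 8 : ℝ) := by
    rw [Real.sqrt_eq_rpow]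
    apply Real.rpow_le_rpow_of_exponent_le (by linarith) (by norm_num)
  calc R ≤ Real.sqrt (C * X) := h2
    _ = Real.sqrt C * Real.sqrt X := Real.sqrt_mul hC.le _
    _ ≤ Real.sqrt C * (8 * (X / Real.log X)) := by
        gcongr
        exact h3.trans (pow78_le X hX)
    _ = _ := by ring

/-- products over primes with exponent `7/4` -/
lemma prod_conv (h : ℕ) : ∃ C : ℝ, 0 < C ∧ ∀ X : ℕ,
    ∏ p ∈ PP X, (1 + (h : ℝ) / (p : ℝ) ^ (7 / 4 : ℝ)) ≤ C := by
  have hs : Summable (fun n : ℕ => 1 / (n : ℝ) ^ (7 / 4 : ℝ)) :=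
    Real.summable_one_div_nat_rpow.2 (by norm_num)
  refine ⟨Real.exp (h * ∑' n : ℕ, 1 / (n : ℝ) ^ (7 / 4 : ℝ)), Real.exp_pos _, ?_⟩
  intro X
  refine (prod_exp_le _ _ fun p _ => by positivity).trans (Real.exp_le_exp.2 ?_)
  have e : ∑ p ∈ PP X, (h : ℝ) / (p : ℝ) ^ (7 / 4 : ℝ) = h * ∑ p ∈ PP X, 1 / (p : ℝ) ^ (7 / 4 : ℝ) := by
    rw [mul_sum]; apply sum_congr rfl; intro p _; ring
  rw [e]
  apply mul_le_mul_of_nonneg_left _ (Nat.cast_nonneg h)
  exact hs.sum_le_tsum _ fun n _ => by positivity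

/-- the moments over the values of a function at primes -/
theorem gmomP (m ℓ : ℕ) (hm : 1 ≤ m) : ∃ C : ℝ, 0 < C ∧ ∀ (X : ℕ) (F : ℕ → ℤ) (g : ℕ), 2 ≤ X →
    0 < g → (∀ t ∈ PP X, (((F t).natAbs : ℕ) : ℝ) ≤ Real.exp (4 * X)) →
    (∀ p : ℕ, p.Prime → ¬ p ∣ g → ∃ Z ⊆ range p, Z.card ≤ ℓ ∧ ∀ t, p ∣ (F t).natAbs → t % p ∈ Z) →
    ∑ t ∈ PP X, (GG (F t).natAbs) ^ m ≤ C * (GG g) ^ m * (X / Real.log X) := by
  classical
  set h : ℕ := 2 ^ (m + 1) * ℓ with hh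
  obtain ⟨C₁, hC₁, hM⟩ := prod_mertens_small h
  obtain ⟨C₂, hC₂, hM2⟩ := prod_conv h
  obtain ⟨C₃, hC₃, hM3⟩ := prod_conv (2 * h)
  refine ⟨Real.exp 6 ^ m * (80 * C₃ + 8 * C₂ + C₁), by positivity, ?_⟩
  intro X F g hX hg0 hbd hF
  have hX1 : 1 ≤ X := by omega
  have hXr : (2 : ℝ) ≤ X := by exact_mod_cast hX
  have hlX : 0 < Real.log X := Real.log_pos (by linarith)
  set W : Finset ℕ := (PP X).filter (fun p => ¬ p ∣ g) with hW
  have hWp : ∀ p ∈ W, p.Prime := fun p hp => by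
    rw [hW, mem_filter] at hp
    have h1 : p ∈ PP X := hp.1
    simp only [PP, mem_filter] at h1
    exact h1.2
  set w : Finset ℕ → ℝ := fun S => ∏ p ∈ S, ((2 : ℝ) ^ (m + 1) / (p : ℝ)) with hw
  have hw0 : ∀ S, 0 ≤ w S := fun S => prod_nonneg fun p _ => by positivity
  -- pointwise bound
  have hpt : ∀ t ∈ PP X, (GG (F t).natAbs) ^ m ≤ Real.exp 6 ^ m * (GG g ^ m *
      ∑ S ∈ W.powerset, if (∀ p ∈ S, p ∣ (F t).natAbs) then w S else 0) := by
    intro t ht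
    set n := (F t).natAbs with hn
    have hR0 : 0 ≤ ∑ S ∈ W.powerset, (if (∀ p ∈ S, p ∣ n) then w S else 0) :=
      sum_nonneg fun S _ => by split_ifs; exacts [hw0 S, le_rfl]
    have hGgm : 0 ≤ GG g ^ m := pow_nonneg (GG_nonneg g) m
    rcases Nat.eq_zero_or_pos n with h0 | h0
    · rw [h0] at hR0 ⊢
      rw [GG_zero, zero_pow (by omega)]
      positivity
    have h1 := GG_le_small h0 hX1 (hbd t ht)
    set Fs := (PP X).filter (fun p => p ∣ n) with hFs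
    have hFp : ∀ p ∈ Fs, p.Prime := fun p hp => by
      rw [hFs, mem_filter] at hp
      have h2 : p ∈ PP X := hp.1
      simp only [PP, mem_filter] at h2
      exact h2.2
    have hsp := Finset.prod_filter_mul_prod_filter_not Fs (fun p => p ∣ g)
      (fun p : ℕ => (1 - (p : ℝ)⁻¹)⁻¹)
    have h2 : ∏ p ∈ Fs.filter (fun p => p ∣ g), (1 - (p : ℝ)⁻¹)⁻¹ ≤ GG g := by
      rw [GG_eq_prod hg0]
      apply Finset.prod_le_prod_of_subset_of_one_le
      · intro p hp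
        rw [mem_filter] at hp
        rw [Nat.mem_primeFactors]
        exact ⟨hFp p hp.1, hp.2, hg0.ne'⟩
      · intro p hp
        rw [mem_filter] at hp
        exact zero_le_one.trans (factor_ge_one (hFp p hp.1))
      · intro p hp _
        exact factor_ge_one (Nat.prime_of_mem_primeFactors hp)
    set V := Fs.filter (fun p => ¬ p ∣ g) with hV
    have hV0 : 0 ≤ ∏ p ∈ V, (1 - (p : ℝ)⁻¹)⁻¹ := prod_nonneg fun p hp => by
      rw [hV, mem_filter] at hp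
      exact zero_le_one.trans (factor_ge_one (hFp p hp.1))
    have h3 : GG n ≤ Real.exp 6 * (GG g * ∏ p ∈ V, (1 - (p : ℝ)⁻¹)⁻¹) := by
      refine h1.trans ?_
      rw [← hsp]
      gcongr
    have h4 : (∏ p ∈ V, (1 - (p : ℝ)⁻¹)⁻¹) ^ m ≤ ∏ p ∈ V, (1 + 2 ^ (m + 1) / (p : ℝ)) := by
      rw [← prod_pow]
      apply prod_le_prod
      · intro p hp
        have : 0 ≤ (1 - (p : ℝ)⁻¹)⁻¹ := by
          rw [hV, mem_filter] at hp
          exact zero_le_one.trans (factor_ge_one (hFp p hp.1))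
        positivity
      · intro p hp
        rw [hV, mem_filter] at hp
        exact pow_factor m (hFp p hp.1)
    have h5 : ∏ p ∈ V, (1 + 2 ^ (m + 1) / (p : ℝ)) =
        ∑ S ∈ W.powerset, if (∀ p ∈ S, p ∣ n) then w S else 0 := by
      rw [prod_one_add, ← sum_filter]
      apply sum_congr _ fun _ _ => rfl
      ext S
      simp only [mem_powerset, mem_filter, subset_iff, hV, hW, hFs]
      constructor
      · intro h
        exact ⟨fun p hp => ⟨(h hp).1.1, (h hp).2⟩, fun p hp => (h hp).1.2⟩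
      · rintro ⟨h, h'⟩ p hp
        exact ⟨⟨(h hp).1, h' p hp⟩, (h hp).2⟩
    rw [← h5]
    calc GG n ^ m ≤ (Real.exp 6 * (GG g * ∏ p ∈ V, (1 - (p : ℝ)⁻¹)⁻¹)) ^ m :=
          pow_le_pow_left₀ (GG_nonneg n) h3 m
      _ = Real.exp 6 ^ m * (GG g ^ m * (∏ p ∈ V, (1 - (p : ℝ)⁻¹)⁻¹) ^ m) := by
          rw [mul_pow, mul_pow]
      _ ≤ _ := by
          gcongr
  refine (sum_le_sum hpt).trans ?_
  rw [← mul_sum, ← mul_sum, sum_comm]
  have hin : ∀ S ∈ W.powerset, ∑ t ∈ PP X,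
      (if (∀ p ∈ S, p ∣ (F t).natAbs) then w S else 0) ≤
      80 * (X / Real.log X) * ∏ p ∈ S, (((2 * h : ℕ) : ℝ) / (p : ℝ) ^ (7 / 4 : ℝ)) +
      (X : ℝ) ^ (7 / 8 : ℝ) * ∏ p ∈ S, ((h : ℝ) / (p : ℝ) ^ (7 / 4 : ℝ)) +
      ∏ p ∈ S, ((h : ℝ) / (p : ℝ)) := by
    intro S hS
    rw [mem_powerset] at hS
    rw [← sum_filter, sum_const, nsmul_eq_mul]
    have h1 := count_dvdP (X := X) (ℓ := ℓ) (F := F) hX S (fun p hp => hWp p (hS hp)) (fun p hp => by
      have hpW := hS hp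
      rw [hW, mem_filter] at hpW
      exact hF p (hWp p (hS hp)) hpW.2)
    have h2 := mul_le_mul_of_nonneg_right h1 (hw0 S)
    refine h2.trans ?_
    have hp0 : ∀ p ∈ S, (0 : ℝ) < p := fun p hp => by exact_mod_cast (hWp p (hS hp)).pos
    have hp1 : ∀ p ∈ S, (1 : ℝ) ≤ p := fun p hp => by exact_mod_cast (hWp p (hS hp)).one_lt.le
    have e1 : (∏ p ∈ S, (2 / (p : ℝ))) * (w S * (ℓ : ℝ) ^ S.card) ≤
        ∏ p ∈ S, (((2 * h : ℕ) : ℝ) / (p : ℝ) ^ (7 / 4 : ℝ)) := by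
      rw [hw, ← prod_const, ← prod_mul_distrib, ← prod_mul_distrib]
      apply prod_le_prod
      · intro p _; positivity
      · intro p hp
        have hpp := hp0 p hp
        have h3 : (p : ℝ) ^ (7 / 4 : ℝ) ≤ (p : ℝ) ^ 2 := by
          rw [← Real.rpow_natCast]
          apply Real.rpow_le_rpow_of_exponent_le (hp1 p hp) (by norm_num)
        have e : 2 / (p : ℝ) * (2 ^ (m + 1) / (p : ℝ) * ℓ) = ((2 * h : ℕ) : ℝ) / (p : ℝ) ^ 2 := by
          rw [hh]; push_cast; field_simp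
        rw [e]
        apply div_le_div_of_nonneg_left (by positivity) (Real.rpow_pos_of_pos hpp _) h3
    have e2 : (∏ p ∈ S, (1 / (p : ℝ) ^ (3 / 4 : ℝ))) * (w S * (ℓ : ℝ) ^ S.card) =
        ∏ p ∈ S, ((h : ℝ) / (p : ℝ) ^ (7 / 4 : ℝ)) := by
      rw [hw, ← prod_const, ← prod_mul_distrib, ← prod_mul_distrib]
      apply prod_congr rfl
      intro p hp
      have hpp := hp0 p hp
      have h3 : (p : ℝ) ^ (7 / 4 : ℝ) = (p : ℝ) ^ (3 / 4 : ℝ) * p := by
        nth_rewrite 3 [← Real.rpow_one (p : ℝ)]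
        rw [← Real.rpow_add hpp]; norm_num
      have h4 : 0 < (p : ℝ) ^ (3 / 4 : ℝ) := Real.rpow_pos_of_pos hpp _
      rw [h3, hh]; push_cast; field_simp
    have e3 : w S * (ℓ : ℝ) ^ S.card = ∏ p ∈ S, ((h : ℝ) / (p : ℝ)) := by
      rw [hw, ← prod_const, ← prod_mul_distrib]
      apply prod_congr rfl
      intro p _
      rw [hh]; push_cast; ring
    calc (ℓ : ℝ) ^ S.card * (80 * (X / Real.log X) * ∏ p ∈ S, (2 / (p : ℝ)) +
        (X : ℝ) ^ (7 / 8 : ℝ) * ∏ p ∈ S, (1 / (p : ℝ) ^ (3 / 4 : ℝ)) + 1) * w S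
        = 80 * (X / Real.log X) * ((∏ p ∈ S, (2 / (p : ℝ))) * (w S * (ℓ : ℝ) ^ S.card)) +
          (X : ℝ) ^ (7 / 8 : ℝ) * ((∏ p ∈ S, (1 / (p : ℝ) ^ (3 / 4 : ℝ))) * (w S * (ℓ : ℝ) ^ S.card)) +
          w S * (ℓ : ℝ) ^ S.card := by ring
      _ ≤ _ := by
          refine add_le_add (add_le_add ?_ (le_of_eq (by rw [e2]))) (le_of_eq e3)
          exact mul_le_mul_of_nonneg_left e1 (by positivity)
  have hsum := sum_le_sum hin
  rw [sum_add_distrib, sum_add_distrib, ← mul_sum, ← mul_sum] at hsum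
  have e1 : ∑ S ∈ W.powerset, ∏ p ∈ S, (((2 * h : ℕ) : ℝ) / (p : ℝ) ^ (7 / 4 : ℝ)) =
      ∏ p ∈ W, (1 + ((2 * h : ℕ) : ℝ) / (p : ℝ) ^ (7 / 4 : ℝ)) := (prod_one_add _).symm
  have e2 : ∑ S ∈ W.powerset, ∏ p ∈ S, ((h : ℝ) / (p : ℝ) ^ (7 / 4 : ℝ)) =
      ∏ p ∈ W, (1 + (h : ℝ) / (p : ℝ) ^ (7 / 4 : ℝ)) := (prod_one_add _).symm
  have e3 : ∑ S ∈ W.powerset, ∏ p ∈ S, ((h : ℝ) / (p : ℝ)) = ∏ p ∈ W, (1 + (h : ℝ) / (p : ℝ)) :=
    (prod_one_add _).symm
  rw [e1, e2, e3] at hsum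
  have hWsub : W ⊆ PP X := filter_subset _ _
  have h1 : ∏ p ∈ W, (1 + ((2 * h : ℕ) : ℝ) / (p : ℝ) ^ (7 / 4 : ℝ)) ≤ C₃ := by
    refine le_trans ?_ (hM3 X)
    apply Finset.prod_le_prod_of_subset_of_one_le hWsub
    · intro p _; positivity
    · intro p _ _
      have : (0 : ℝ) ≤ ((2 * h : ℕ) : ℝ) / (p : ℝ) ^ (7 / 4 : ℝ) := by positivity
      linarith
  have h2 : ∏ p ∈ W, (1 + (h : ℝ) / (p : ℝ) ^ (7 / 4 : ℝ)) ≤ C₂ := by
    refine le_trans ?_ (hM2 X)
    apply Finset.prod_le_prod_of_subset_of_one_le hWsub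
    · intro p _; positivity
    · intro p _ _
      have : (0 : ℝ) ≤ (h : ℝ) / (p : ℝ) ^ (7 / 4 : ℝ) := by positivity
      linarith
  have h3 : ∏ p ∈ W, (1 + (h : ℝ) / (p : ℝ)) ≤ C₁ * (X / Real.log X) := by
    refine le_trans ?_ (hM X hX)
    apply Finset.prod_le_prod_of_subset_of_one_le hWsub
    · intro p _; positivity
    · intro p _ _
      have : (0 : ℝ) ≤ (h : ℝ) / (p : ℝ) := by positivity
      linarith
  have hGg := GG_nonneg g
  have h78 := pow78_le X hX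
  have hfin : ∑ S ∈ W.powerset, ∑ t ∈ PP X,
        (if (∀ p ∈ S, p ∣ (F t).natAbs) then w S else 0) ≤
      (80 * C₃ + 8 * C₂ + C₁) * (X / Real.log X) := by
    refine hsum.trans ?_
    calc _ ≤ 80 * (X / Real.log X) * C₃ + (8 * (X / Real.log X)) * C₂ + C₁ * (X / Real.log X) := by
          gcongr
      _ = _ := by ring
  calc Real.exp 6 ^ m * (GG g ^ m * ∑ S ∈ W.powerset, ∑ t ∈ PP X,
        (if (∀ p ∈ S, p ∣ (F t).natAbs) then w S else 0))
      ≤ Real.exp 6 ^ m * (GG g ^ m * ((80 * C₃ + 8 * C₂ + C₁) * (X / Real.log X))) := by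
        gcongr
    _ = _ := by ring

end Pool.Agent.W218.PF
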