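import Mathlib
import Pool.Agent.W218.LF.Second2
import Pool.Agent.W218.PF.GmomP

set_option autoImplicit false

/-! Second moment over the linear coefficients, arguments in a set of primes. -/

namespace Pool.Agent.W218.PF

open Finset Pool.Agent.Erdos456 Pool.Agent.Erdos456.Mert Pool.Agent.W218.HF Pool.Agent.W218.LF

/-- two arguments -/
theorem pair_countG : ∃ C : ℝ, 0 < C ∧ ∀ (B b1 t₁ t₂ : ℕ) (G₁ G₂ : ℤ), 4 ≤ B → B ≤ b1 →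
    2 * b1 ≤ 3 * B → 1 ≤ t₁ → 1 ≤ t₂ → t₁ ≠ t₂ →
    IsCoprime (t₁ : ℤ) G₁ → IsCoprime (t₂ : ℤ) G₂ → 0 ≤ G₁ + b1 * t₁ → 0 ≤ G₂ + b1 * t₂ →
    ∑ b ∈ Ioc b1 (2 * B), pr (G₁ + b * t₁) * pr (G₂ + b * t₂) ≤
      C * (GG t₁ * GG t₂ * GG ((t₁ : ℤ) * G₂ - (t₂ : ℤ) * G₁).natAbs) ^ 2 * (B / Real.log B ^ 2) := by
  obtain ⟨C₃, hC₃, hsv⟩ := sieve_two'
  refine ⟨C₃ * 4, by positivity, ?_⟩
  intro B b1 t₁ t₂ G₁ G₂ hB h1 h2 ht₁ ht₂ hne12 hc₁ hc₂ hG₁ hG₂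
  obtain ⟨hlB, hN2, _, hNl2⟩ := window_logs hB h1 h2
  rw [ioc_image, sum_image (fun n _ m _ h => by
      have h' : b1 + n = b1 + m := h
      omega)]
  set N := 2 * B - b1 with hN
  have hlN : 0 ≤ Real.log N := Real.log_natCast_nonneg N
  set e₁ : ℕ := (G₁ + b1 * t₁).toNat with he₁
  set e₂ : ℕ := (G₂ + b1 * t₂).toNat with he₂
  have hee₁ : ((e₁ : ℕ) : ℤ) = G₁ + b1 * t₁ := Int.toNat_of_nonneg hG₁
  have hee₂ : ((e₂ : ℕ) : ℤ) = G₂ + b1 * t₂ := Int.toNat_of_nonneg hG₂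
  have hcop : ∀ (t e : ℕ) (G : ℤ), ((e : ℕ) : ℤ) = G + b1 * t → IsCoprime (t : ℤ) G →
      Nat.Coprime t e := by
    intro t e G h3 h6
    have h7 : IsCoprime (t : ℤ) ((e : ℕ) : ℤ) := by
      rw [h3]
      have := h6.add_mul_left_right (b1 : ℤ)
      have e3 : G + t * (b1 : ℤ) = G + b1 * t := by ring
      rwa [e3] at this
    exact Nat.isCoprime_iff_coprime.1 h7
  have hcop₁ := hcop t₁ e₁ G₁ hee₁ hc₁
  have hcop₂ := hcop t₂ e₂ G₂ hee₂ hc₂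
  have hkey : ((t₁ * e₂ : ℕ) : ℤ) - ((t₂ * e₁ : ℕ) : ℤ) = (t₁ : ℤ) * G₂ - (t₂ : ℤ) * G₁ := by
    push_cast
    rw [hee₁, hee₂]; ring
  have hne : t₁ * e₂ ≠ t₂ * e₁ := by
    intro h
    have h3 : t₁ ∣ t₂ := by
      have : t₁ ∣ t₂ * e₁ := by rw [← h]; exact dvd_mul_right _ _
      exact hcop₁.dvd_of_dvd_mul_right this
    have h4 : t₂ ∣ t₁ := by
      have : t₂ ∣ t₁ * e₂ := by rw [h]; exact dvd_mul_right _ _
      exact hcop₂.dvd_of_dvd_mul_right this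
    exact hne12 (Nat.dvd_antisymm h3 h4)
  have h3 := hsv t₁ e₁ t₂ e₂ N (by omega) (by omega) hcop₁ hcop₂ hne hN2
  rw [hkey] at h3
  rw [sum_pr_pr]
  have h4 : (Icc 1 N).filter (fun n : ℕ => (G₁ + ((b1 + n : ℕ) : ℤ) * t₁).toNat.Prime ∧
      (G₂ + ((b1 + n : ℕ) : ℤ) * t₂).toNat.Prime) =
      (Icc 1 N).filter (fun n => (t₁ * n + e₁).Prime ∧ (t₂ * n + e₂).Prime) := by
    apply filter_congr
    intro n _
    have h5 : G₁ + ((b1 + n : ℕ) : ℤ) * t₁ = ((t₁ * n + e₁ : ℕ) : ℤ) := by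
      push_cast; rw [hee₁]; ring
    have h6 : G₂ + ((b1 + n : ℕ) : ℤ) * t₂ = ((t₂ * n + e₂ : ℕ) : ℤ) := by
      push_cast; rw [hee₂]; ring
    rw [h5, h6, Int.toNat_natCast, Int.toNat_natCast]
  rw [h4]
  refine h3.trans ?_
  set v := ((t₁ : ℤ) * G₂ - (t₂ : ℤ) * G₁).natAbs with hv
  have h7 : GG (t₁ * t₂ * v) ≤ GG t₁ * GG t₂ * GG v := by
    calc GG (t₁ * t₂ * v) ≤ GG (t₁ * t₂) * GG v := GG_mul_le _ _
      _ ≤ (GG t₁ * GG t₂) * GG v := by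
          apply mul_le_mul_of_nonneg_right (GG_mul_le _ _) (GG_nonneg _)
  have h8 : GG (t₁ * t₂ * v) ^ 2 ≤ (GG t₁ * GG t₂ * GG v) ^ 2 := pow_le_pow_left₀ (GG_nonneg _) h7 2
  calc C₃ * GG (t₁ * t₂ * v) ^ 2 * N / Real.log N ^ 2
      = C₃ * GG (t₁ * t₂ * v) ^ 2 * (N / Real.log N ^ 2) := by ring
    _ ≤ C₃ * (GG t₁ * GG t₂ * GG v) ^ 2 * (4 * (B / Real.log B ^ 2)) := by gcongr
    _ = _ := by ring

/-- the second moment, abstract form: `M` measures the size of the set `T` of arguments -/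
theorem second3 (k : ℕ) (hk : 1 ≤ k) : ∃ C : ℝ, 0 < C ∧
    ∀ (B b1 : ℕ) (G : Fin k → ℕ → ℤ) (T : Finset ℕ) (M A C₀ C₃ : ℝ), 4 ≤ B → B ≤ b1 →
    2 * b1 ≤ 3 * B → 1 ≤ Real.log B → 0 ≤ M → 0 ≤ A → 0 ≤ C₀ → 0 ≤ C₃ →
    Real.log B ^ k ≤ A * M → (T.card : ℝ) ≤ C₀ * M →
    (∀ t ∈ T, 1 ≤ t ∧ GG t ≤ 2) →
    (∀ t ∈ T, ∀ i, IsCoprime (t : ℤ) (G i t) ∧ 0 ≤ G i t + b1 * t) →
    (∀ i, ∑ t₁ ∈ T, ∑ t₂ ∈ T,
      GG ((t₁ : ℤ) * G i t₂ - (t₂ : ℤ) * G i t₁).natAbs ^ (6 * k) ≤ C₃ * M ^ 2) →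
    ∑ b ∈ Fintype.piFinset (fun _ : Fin k => Ioc b1 (2 * B)),
      (∑ t ∈ T, ∏ i, pr (G i t + b i * t)) ^ 2 ≤
      C * (A * C₀ + C₀ ^ 2 + C₃) * (M ^ 2 * (B / Real.log B ^ 2) ^ k) := by
  classical
  obtain ⟨C₄, hC₄, hpair⟩ := pair_countG
  refine ⟨80 ^ k + C₄ ^ k * (k * (2 * 2 ^ (6 * k) + 1)), by positivity, ?_⟩
  intro B b1 G T M A C₀ C₃ hB hb1 hb2 hlB1 hM hA hC₀ hC₃ hlog hTcard hT1 hTc hdet
  have hBr : (4 : ℝ) ≤ B := by exact_mod_cast hB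
  have hlB0 : 0 < Real.log B := by linarith
  have hkr : (1 : ℝ) ≤ k := by exact_mod_cast hk
  set Q : ℝ := B / Real.log B ^ 2 with hQ
  have hQ0 : 0 ≤ Q := by positivity
  -- expand
  have hexp : ∑ b ∈ Fintype.piFinset (fun _ : Fin k => Ioc b1 (2 * B)),
      (∑ t ∈ T, ∏ i, pr (G i t + b i * t)) ^ 2 =
      ∑ t₁ ∈ T, ∑ t₂ ∈ T, ∏ i, ∑ β ∈ Ioc b1 (2 * B),
        pr (G i t₁ + β * t₁) * pr (G i t₂ + β * t₂) := by
    have h1 : ∀ b : Fin k → ℕ, (∑ t ∈ T, ∏ i, pr (G i t + b i * t)) ^ 2 =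
        ∑ t₁ ∈ T, ∑ t₂ ∈ T, ∏ i, (pr (G i t₁ + b i * t₁) * pr (G i t₂ + b i * t₂)) := by
      intro b
      rw [sq, sum_mul_sum]
      apply sum_congr rfl
      intro t₁ _
      apply sum_congr rfl
      intro t₂ _
      rw [prod_mul_distrib]
    rw [sum_congr rfl fun b _ => h1 b, sum_comm]
    apply sum_congr rfl
    intro t₁ _
    rw [sum_comm]
    apply sum_congr rfl
    intro t₂ _
    rw [Finset.prod_univ_sum]
  rw [hexp]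
  have hterm : ∀ t₁ ∈ T, ∀ t₂ ∈ T, ∏ i, ∑ β ∈ Ioc b1 (2 * B),
        pr (G i t₁ + β * t₁) * pr (G i t₂ + β * t₂) ≤
      (if t₁ = t₂ then 80 ^ k * (A * M * Q ^ k) else 0) +
      C₄ ^ k * Q ^ k * ∑ i, (2 * 2 ^ (6 * k) +
        GG ((t₁ : ℤ) * G i t₂ - (t₂ : ℤ) * G i t₁).natAbs ^ (6 * k)) := by
    intro t₁ h₁ t₂ h₂
    have ht₁ := hT1 t₁ h₁
    have ht₂ := hT1 t₂ h₂
    have hoff0 : 0 ≤ C₄ ^ k * Q ^ k * ∑ i, (2 * 2 ^ (6 * k) +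
        GG ((t₁ : ℤ) * G i t₂ - (t₂ : ℤ) * G i t₁).natAbs ^ (6 * k)) := by
      refine mul_nonneg (by positivity) (sum_nonneg fun i _ => ?_)
      have a3 := GG_nonneg ((t₁ : ℤ) * G i t₂ - (t₂ : ℤ) * G i t₁).natAbs
      positivity
    by_cases h12 : t₁ = t₂
    · subst h12
      rw [if_pos rfl]
      have h3 : ∏ i, ∑ β ∈ Ioc b1 (2 * B), pr (G i t₁ + β * t₁) * pr (G i t₁ + β * t₁) ≤
          ∏ _i : Fin k, (80 * (B / Real.log B)) := by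
        apply prod_le_prod
        · intro i _
          exact sum_nonneg fun β _ => mul_nonneg (pr_nonneg _) (pr_nonneg _)
        · intro i _
          have h4 := single_count hB hb1 hb2 (t := t₁) (G := G i t₁) ht₁.1 (hTc t₁ h₁ i).2
          have h5 : 40 * GG t₁ * (B / Real.log B) ≤ 80 * (B / Real.log B) := by
            have : (0 : ℝ) ≤ B / Real.log B := by positivity
            nlinarith [ht₁.2]
          refine le_trans (le_of_eq ?_) (h4.trans h5)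
          exact sum_congr rfl fun β _ => pr_sq _
      rw [prod_const, card_univ, Fintype.card_fin] at h3
      have h5 : (80 * (B / Real.log B)) ^ k = 80 ^ k * (Real.log B ^ k * Q ^ k) := by
        rw [← mul_pow, ← mul_pow]
        congr 1
        rw [hQ]; field_simp
      have h6 : 80 ^ k * (Real.log B ^ k * Q ^ k) ≤ 80 ^ k * (A * M * Q ^ k) := by
        gcongr
      linarith
    · rw [if_neg h12, zero_add]
      have h3 : ∏ i, ∑ β ∈ Ioc b1 (2 * B), pr (G i t₁ + β * t₁) * pr (G i t₂ + β * t₂) ≤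
          ∏ i : Fin k, (C₄ * Q * (GG t₁ * GG t₂ * GG ((t₁ : ℤ) * G i t₂ -
            (t₂ : ℤ) * G i t₁).natAbs) ^ 2) := by
        apply prod_le_prod
        · intro i _
          exact sum_nonneg fun β _ => mul_nonneg (pr_nonneg _) (pr_nonneg _)
        · intro i _
          have h4 := hpair B b1 t₁ t₂ (G i t₁) (G i t₂) hB hb1 hb2 ht₁.1 ht₂.1 h12
            (hTc t₁ h₁ i).1 (hTc t₂ h₂ i).1 (hTc t₁ h₁ i).2 (hTc t₂ h₂ i).2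
          refine h4.trans (le_of_eq ?_)
          ring
      rw [prod_mul_distrib, prod_const, card_univ, Fintype.card_fin, mul_pow] at h3
      refine h3.trans ?_
      apply mul_le_mul_of_nonneg_left _ (by positivity)
      refine (prod_le_sum_pow hk _ fun i => sq_nonneg _).trans ?_
      apply sum_le_sum
      intro i _
      refine (amgm_pow (GG_nonneg _) (GG_nonneg _) (GG_nonneg _) k).trans ?_
      have h7 : GG t₁ ^ (6 * k) ≤ 2 ^ (6 * k) := pow_le_pow_left₀ (GG_nonneg _) ht₁.2 _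
      have h8 : GG t₂ ^ (6 * k) ≤ 2 ^ (6 * k) := pow_le_pow_left₀ (GG_nonneg _) ht₂.2 _
      linarith
  have h1 := sum_le_sum fun t₁ h₁ => sum_le_sum fun t₂ h₂ => hterm t₁ h₁ t₂ h₂
  refine h1.trans ?_
  have hcard0 : (0 : ℝ) ≤ T.card := Nat.cast_nonneg _
  have e1 : ∑ t₁ ∈ T, ∑ t₂ ∈ T, ((if t₁ = t₂ then 80 ^ k * (A * M * Q ^ k) else 0) +
      C₄ ^ k * Q ^ k * ∑ i, (2 * 2 ^ (6 * k) +
        GG ((t₁ : ℤ) * G i t₂ - (t₂ : ℤ) * G i t₁).natAbs ^ (6 * k))) =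
      T.card * (80 ^ k * (A * M * Q ^ k)) + C₄ ^ k * Q ^ k * ∑ i : Fin k, (T.card * (T.card *
        (2 * 2 ^ (6 * k))) + ∑ t₁ ∈ T, ∑ t₂ ∈ T,
        GG ((t₁ : ℤ) * G i t₂ - (t₂ : ℤ) * G i t₁).natAbs ^ (6 * k)) := by
    have h2 : ∀ t₁ ∈ T, ∑ t₂ ∈ T, ((if t₁ = t₂ then 80 ^ k * (A * M * Q ^ k) else 0) +
      C₄ ^ k * Q ^ k * ∑ i, (2 * 2 ^ (6 * k) +
        GG ((t₁ : ℤ) * G i t₂ - (t₂ : ℤ) * G i t₁).natAbs ^ (6 * k))) =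
        80 ^ k * (A * M * Q ^ k) + C₄ ^ k * Q ^ k * ∑ t₂ ∈ T, ∑ i, (2 * 2 ^ (6 * k) +
        GG ((t₁ : ℤ) * G i t₂ - (t₂ : ℤ) * G i t₁).natAbs ^ (6 * k)) := by
      intro t₁ h₁
      rw [sum_add_distrib, sum_ite_eq, if_pos h₁, ← mul_sum]
    rw [sum_congr rfl h2, sum_add_distrib, sum_const, nsmul_eq_mul, ← mul_sum,
      sum3_comm T (fun t₁ t₂ i => 2 * 2 ^ (6 * k) +
        GG ((t₁ : ℤ) * G i t₂ - (t₂ : ℤ) * G i t₁).natAbs ^ (6 * k))]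
    congr 2
    apply sum_congr rfl
    intro i _
    simp only [sum_add_distrib, sum_const, nsmul_eq_mul]
  rw [e1]
  have h3 : ∑ i : Fin k, (T.card * (T.card * (2 * 2 ^ (6 * k))) + ∑ t₁ ∈ T, ∑ t₂ ∈ T,
        GG ((t₁ : ℤ) * G i t₂ - (t₂ : ℤ) * G i t₁).natAbs ^ (6 * k)) ≤
      k * (2 * 2 ^ (6 * k) + 1) * (C₀ ^ 2 + C₃) * M ^ 2 := by
    have h4 : ∀ i : Fin k, (T.card * (T.card * (2 * 2 ^ (6 * k))) + ∑ t₁ ∈ T, ∑ t₂ ∈ T,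
        GG ((t₁ : ℤ) * G i t₂ - (t₂ : ℤ) * G i t₁).natAbs ^ (6 * k)) ≤
        (2 * 2 ^ (6 * k) + 1) * (C₀ ^ 2 + C₃) * M ^ 2 := by
      intro i
      have h5 := hdet i
      have h6 : (T.card : ℝ) * (T.card * (2 * 2 ^ (6 * k))) ≤
          (C₀ * M) * ((C₀ * M) * (2 * 2 ^ (6 * k))) := by gcongr
      have h7 : (C₀ * M) * ((C₀ * M) * (2 * 2 ^ (6 * k))) = 2 * 2 ^ (6 * k) * (C₀ ^ 2 * M ^ 2) := by
        ring
      have h8 : 0 ≤ 2 * 2 ^ (6 * k) * (C₃ * M ^ 2) := by positivity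
      have h9 : 0 ≤ C₀ ^ 2 * M ^ 2 := by positivity
      have e : (2 * 2 ^ (6 * k) + 1) * (C₀ ^ 2 + C₃) * M ^ 2 =
          2 * 2 ^ (6 * k) * (C₀ ^ 2 * M ^ 2) + 2 * 2 ^ (6 * k) * (C₃ * M ^ 2) +
          C₀ ^ 2 * M ^ 2 + C₃ * M ^ 2 := by ring
      rw [e]
      linarith
    calc _ ≤ ∑ _i : Fin k, (2 * 2 ^ (6 * k) + 1) * (C₀ ^ 2 + C₃) * M ^ 2 := sum_le_sum fun i _ => h4 i
      _ = _ := by rw [sum_const, card_univ, Fintype.card_fin, nsmul_eq_mul]; ring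
  calc _ ≤ (C₀ * M) * (80 ^ k * (A * M * Q ^ k)) +
        C₄ ^ k * Q ^ k * (k * (2 * 2 ^ (6 * k) + 1) * (C₀ ^ 2 + C₃) * M ^ 2) := by
        gcongr
    _ ≤ _ := by
        have p1 : 0 ≤ C₄ ^ k * (k * (2 * 2 ^ (6 * k) + 1)) * (A * C₀) * (M ^ 2 * Q ^ k) := by positivity
        have p2 : 0 ≤ (80 : ℝ) ^ k * (C₀ ^ 2 + C₃) * (M ^ 2 * Q ^ k) := by positivity
        have e : (80 ^ k + C₄ ^ k * (k * (2 * 2 ^ (6 * k) + 1))) * (A * C₀ + C₀ ^ 2 + C₃) *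
            (M ^ 2 * Q ^ k) = (C₀ * M) * (80 ^ k * (A * M * Q ^ k)) +
            C₄ ^ k * Q ^ k * (k * (2 * 2 ^ (6 * k) + 1) * (C₀ ^ 2 + C₃) * M ^ 2) +
            C₄ ^ k * (k * (2 * 2 ^ (6 * k) + 1)) * (A * C₀) * (M ^ 2 * Q ^ k) +
            80 ^ k * (C₀ ^ 2 + C₃) * (M ^ 2 * Q ^ k) := by ring
        rw [e]
        linarith

end Pool.Agent.W218.PF
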