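import Mathlib
import Pool.Agent.W218.LF.Block2
import Pool.Agent.W218.PF.Second3

set_option autoImplicit false

/-! First moment over the linear coefficient, one block of arguments, general functions. -/

namespace Pool.Agent.W218.PF

open Finset Pool.Agent.Erdos456 Pool.Agent.Erdos456.Mert Pool.Agent.W218.HF Pool.Agent.W218.LF H343E

/-- Bombieri-Vinogradov with one class `G t` for every modulus `t` -/
theorem bvR (U : ℕ) : ∃ K X0 : ℕ, ∀ X : ℕ, X0 ≤ X → ∀ D : ℕ, (D : ℝ) ≤ X / Real.log X ^ K →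
    (D : ℝ) ^ 2 ≤ X / Real.log X ^ K → ∀ (G : ℕ → ℤ) (S : Finset ℕ), S ⊆ Icc 1 D →
    (∀ t ∈ S, IsCoprime (t : ℤ) (G t)) →
    ∑ t ∈ S, |piAP X t (G t % t).toNat - pi1 X / (Nat.totient t : ℝ)| ≤ X / Real.log X ^ U := by
  classical
  obtain ⟨K, X0, h⟩ := primes_of U (unsmoothed (U + 2))
  refine ⟨K, X0, ?_⟩
  intro X hX D hD1 hD2 G S hS hc
  set L : ℕ → Finset ℕ := fun q => if 0 < q ∧ IsCoprime (q : ℤ) (G q) then {(G q % q).toNat} else ∅ with hL
  have hfam : Fam 1 L := by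
    constructor
    · intro q a ha
      by_cases hq : 0 < q ∧ IsCoprime (q : ℤ) (G q)
      · rw [hL] at ha
        simp only [if_pos hq, mem_singleton] at ha
        subst ha
        have hqi : (0 : ℤ) < q := by exact_mod_cast hq.1
        have h0 := Int.emod_nonneg (G q) hqi.ne'
        have h1 := Int.emod_lt_of_pos (G q) hqi
        refine ⟨by omega, ?_⟩
        have h2 : IsCoprime (G q) (q : ℤ) := hq.2.symm
        have h3 : IsCoprime (G q % (q : ℤ)) (q : ℤ) := by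
          rw [Int.emod_def]
          have := h2.add_mul_right_left (-(G q / q))
          have e2 : G q + -(G q / q) * q = G q - q * (G q / q) := by ring
          rwa [e2] at this
        rw [Int.isCoprime_iff_gcd_eq_one] at h3
        have h4 : (((G q % (q : ℤ)).toNat : ℕ) : ℤ) = G q % (q : ℤ) := Int.toNat_of_nonneg h0
        rw [← h4] at h3
        exact h3
      · rw [hL] at ha
        simp only [if_neg hq] at ha
        exact absurd ha (notMem_empty _)
    · intro q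
      by_cases hq : 0 < q ∧ IsCoprime (q : ℤ) (G q)
      · rw [hL]; simp only [if_pos hq, card_singleton]; norm_num
      · rw [hL]; simp only [if_neg hq, card_empty]; norm_num
  have h1 := h X hX 1 le_rfl D hD1 (by rw [one_mul]; exact hD2) L hfam
  rw [one_mul] at h1
  refine le_trans ?_ h1
  have h2 : ∑ t ∈ S, |piAP X t (G t % t).toNat - pi1 X / (Nat.totient t : ℝ)| =
      ∑ t ∈ S, ∑ a ∈ L t, |piAP X t a - pi1 X / (Nat.totient t : ℝ)| := by
    apply sum_congr rfl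
    intro t ht
    have h3 : 0 < t ∧ IsCoprime (t : ℤ) (G t) := ⟨by
      have := mem_Icc.1 (hS ht); omega, hc t ht⟩
    rw [hL]
    simp only [if_pos h3, sum_singleton]
  rw [h2]
  exact sum_le_sum_of_subset_of_nonneg hS fun t _ _ => sum_nonneg fun a _ => abs_nonneg _

theorem block3 (U : ℕ) : ∃ K : ℕ, ∀ (D : ℕ) (η : ℝ), 0 < η → (2 * D + 6) * η ≤ 1 / 8 →
    ∃ B0 : ℕ, ∀ B : ℕ, B0 ≤ B → ∀ (x : ℕ) (y V : ℝ) (G : ℕ → ℤ) (T : Finset ℕ),
    3 / η ≤ y → y ≤ x → y * Real.log B ^ K ≤ B → |V| ≤ B * y →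
    (∀ t ∈ T, (1 - η) * y < t ∧ (t : ℝ) ≤ y ∧ IsCoprime (t : ℤ) (G t) ∧
      |((G t : ℤ) : ℝ) - V| ≤ D * η * (B * y) + B) →
    ∑ t ∈ T, max 0 ((1 - (2 * D + 6) * η) * (B / Real.log (3 * B * x)) * GG t -
        ∑ b ∈ Ioc (lo η B) (2 * B), pr (G t + b * t)) ≤ 6 * (B * y / Real.log B ^ U) := by
  classical
  obtain ⟨K, X0, hBV⟩ := bvR U
  refine ⟨K + 1, ?_⟩
  intro D η hη hη2
  obtain ⟨x₀, hpnt⟩ := Pool.Agent.H373R2.SH.pnt_windowB 4 (by norm_num) η hη
  refine ⟨max (max X0 x₀) (max 3 ⌈Real.exp (3 ^ K / η)⌉₊), ?_⟩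
  intro B hB x y V G T hy hyx hyB hV hT
  have hBX : X0 ≤ B := (le_max_left _ _).trans ((le_max_left _ _).trans hB)
  have hBx₀ : x₀ ≤ B := (le_max_right _ _).trans ((le_max_left _ _).trans hB)
  have hB3 : 3 ≤ B := (le_max_left _ _).trans ((le_max_right _ _).trans hB)
  have hBe : ⌈Real.exp (3 ^ K / η)⌉₊ ≤ B := (le_max_right _ _).trans ((le_max_right _ _).trans hB)
  have hBe' : Real.exp (3 ^ K / η) ≤ B := (Nat.le_ceil _).trans (by exact_mod_cast hBe)
  have hBr : (3 : ℝ) ≤ B := by exact_mod_cast hB3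
  have hl3 : 3 ^ K / η ≤ Real.log B := by
    rw [Real.le_log_iff_exp_le (by linarith)]; exact hBe'
  have hl3' : (3 : ℝ) ^ K ≤ η * Real.log B := by
    rw [div_le_iff₀ hη] at hl3; linarith
  have hl1 : 1 ≤ Real.log B := by
    rw [Real.le_log_iff_exp_le (by linarith)]
    have := Real.exp_one_lt_d9
    linarith
  have hD0 : (0 : ℝ) ≤ D := Nat.cast_nonneg D
  have hDη0 : 0 ≤ (D : ℝ) * η := by positivity
  have hη48 : η ≤ 1 / 48 := by
    have e : (2 * (D : ℝ) + 6) * η = 2 * (D * η) + 6 * η := by ring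
    rw [e] at hη2
    linarith
  have hy60 : 60 ≤ y := by
    have : (60 : ℝ) ≤ 3 / η := by
      rw [le_div_iff₀ hη]; linarith
    linarith
  have hy0 : 0 < y := by linarith
  have hηy : 3 ≤ η * y := by
    rw [div_le_iff₀ hη] at hy; linarith
  have hyB1 : y ≤ B := by
    have : y * 1 ≤ y * Real.log B ^ (K + 1) :=
      mul_le_mul_of_nonneg_left (one_le_pow₀ hl1) hy0.le
    linarith
  have hB0 : (0 : ℝ) < B := by linarith
  have hBy0 : 0 < (B : ℝ) * y := by positivity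
  set ρ : ℝ := 1 - η with hρ
  have hρ0 : 0 < ρ := by rw [hρ]; linarith
  obtain ⟨hV1, hV2⟩ := abs_le.1 hV
  set b1 : ℕ := lo η B with hb1
  have hb1le : (b1 : ℝ) ≤ (1 + η) * B := Nat.floor_le (by positivity)
  have hb1lt : (1 + η) * B < b1 + 1 := Nat.lt_floor_add_one _
  have hb1y : (b1 : ℝ) * y ≤ B * y + η * (B * y) := by
    have := mul_le_mul_of_nonneg_right hb1le hy0.le
    linarith
  have hb1y' : B * y + η * (B * y) - y ≤ (b1 : ℝ) * y := by
    have := mul_le_mul_of_nonneg_right hb1lt.le hy0.le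
    linarith
  set X₁ : ℕ := ⌈V + b1 * y + D * η * (B * y) + B⌉₊ with hX₁
  set X₂ : ℕ := ⌊V + 2 * (B * y) - (D + 2) * η * (B * y) - B⌋₊ with hX₂
  have hηBy : 3 * (B : ℝ) ≤ η * (B * y) := by
    have := mul_le_mul_of_nonneg_left hηy hB0.le
    linarith
  have hDBy : 0 ≤ D * η * (B * y) := by positivity
  have hDBy8 : (2 * D + 6) * η * (B * y) ≤ (1 / 8) * (B * y) := mul_le_mul_of_nonneg_right hη2 hBy0.le
  have eD : (2 * D + 6) * η * (B * y) = 2 * (D * η * (B * y)) + 6 * (η * (B * y)) := by ring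
  have eD2 : (D + 2) * η * (B * y) = D * η * (B * y) + 2 * (η * (B * y)) := by ring
  rw [eD] at hDBy8
  have F2 : V + b1 * y + D * η * (B * y) + B ≤ X₁ := Nat.le_ceil _
  have hin1 : 0 ≤ V + b1 * y + D * η * (B * y) + B := by linarith
  have F1 : (X₁ : ℝ) < V + b1 * y + D * η * (B * y) + B + 1 := Nat.ceil_lt_add_one hin1
  have hinner : 0 ≤ V + 2 * (B * y) - (D + 2) * η * (B * y) - B := by
    rw [eD2]; linarith
  have F3 : (X₂ : ℝ) ≤ V + 2 * (B * y) - (D + 2) * η * (B * y) - B := Nat.floor_le hinner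
  have F4 : V + 2 * (B * y) - (D + 2) * η * (B * y) - B - 1 < X₂ := by
    have := Nat.lt_floor_add_one (V + 2 * (B * y) - (D + 2) * η * (B * y) - B)
    rw [← hX₂] at this
    linarith
  have hdiff : (1 - (2 * D + 5) * η) * (B * y) ≤ (X₂ : ℝ) - X₁ := by
    have h3 : (1 - (2 * D + 5) * η) * (B * y) = B * y - 2 * (D * η * (B * y)) - 5 * (η * (B * y)) := by
      ring
    rw [h3]
    rw [eD2] at F4
    linarith
  have hlow : (7 / 8 : ℝ) * (B * y) ≤ (1 - (2 * D + 5) * η) * (B * y) := by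
    apply mul_le_mul_of_nonneg_right _ hBy0.le
    linarith
  have hX12r : (X₁ : ℝ) ≤ X₂ := by linarith
  have hX12 : X₁ ≤ X₂ := by exact_mod_cast hX12r
  have hX2up : (X₂ : ℝ) ≤ 3 * (B * y) := by
    rw [eD2] at F3; linarith
  have hX1up : (X₁ : ℝ) ≤ 3 * (B * y) := hX12r.trans hX2up
  have hηBy1 : η * (B * y) ≤ X₁ := by linarith
  have hηBy2' : η * (B * y) ≤ X₂ := by linarith
  have hX1low : (B : ℝ) ≤ X₁ := by linarith
  have hX2low : (B : ℝ) ≤ X₂ := by linarith
  set W : ℕ := X₂ - X₁ with hW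
  have hWr : (W : ℝ) = (X₂ : ℝ) - X₁ := by rw [hW, Nat.cast_sub hX12]
  -- logs
  have hlogX : ∀ X : ℕ, (B : ℝ) ≤ X → (X : ℝ) ≤ 3 * (B * y) →
      Real.log B ≤ Real.log X ∧ Real.log X ≤ 3 * Real.log B := by
    intro X h1 h2
    refine ⟨Real.log_le_log hB0 h1, ?_⟩
    have h3 : (X : ℝ) ≤ (B : ℝ) ^ 3 := by
      have h4 : (B : ℝ) * y ≤ B * B := mul_le_mul_of_nonneg_left hyB1 hB0.le
      calc (X : ℝ) ≤ 3 * (B * B) := by linarith
        _ ≤ B * (B * B) := mul_le_mul_of_nonneg_right (by linarith) (by positivity)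
        _ = _ := by ring
    have h4 := Real.log_le_log (by linarith) h3
    rw [Real.log_pow] at h4
    exact_mod_cast h4
  -- level of distribution
  set E : ℕ := ⌊y⌋₊ with hE
  have hEy : (E : ℝ) ≤ y := Nat.floor_le hy0.le
  have hlev : ∀ X : ℕ, (B : ℝ) ≤ X → (X : ℝ) ≤ 3 * (B * y) → η * (B * y) ≤ X →
      (E : ℝ) ^ 2 ≤ X / Real.log X ^ K := by
    intro X h1 h2 h3
    obtain ⟨h4, h5⟩ := hlogX X h1 h2
    have h6 : 0 < Real.log X := by linarith
    rw [le_div_iff₀ (by positivity)]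
    calc (E : ℝ) ^ 2 * Real.log X ^ K ≤ y ^ 2 * (3 * Real.log B) ^ K := by
          gcongr
      _ = (y * 3 ^ K * Real.log B ^ K) * y := by rw [mul_pow]; ring
      _ ≤ (y * (η * Real.log B) * Real.log B ^ K) * y := by
          gcongr
      _ = η * (y * Real.log B ^ (K + 1)) * y := by ring
      _ ≤ η * B * y := by gcongr
      _ = η * (B * y) := by ring
      _ ≤ X := h3
  have hlev1 : ∀ X : ℕ, (B : ℝ) ≤ X → (X : ℝ) ≤ 3 * (B * y) → η * (B * y) ≤ X →
      (E : ℝ) ≤ X / Real.log X ^ K := by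
    intro X h1 h2 h3
    refine le_trans ?_ (hlev X h1 h2 h3)
    have : E ≤ E ^ 2 := Nat.le_self_pow (by norm_num) E
    exact_mod_cast this
  have hTS : T ⊆ Icc 1 E := by
    intro t ht
    obtain ⟨h1, h2, h3⟩ := hT t ht
    rw [mem_Icc]
    have h4 : (0 : ℝ) < t := lt_trans (by positivity) h1
    exact ⟨by exact_mod_cast h4, Nat.le_floor h2⟩
  have hTc : ∀ t ∈ T, IsCoprime (t : ℤ) (G t) := fun t ht => (hT t ht).2.2.1
  have hX0X1 : X0 ≤ X₁ := by
    have : (X0 : ℝ) ≤ X₁ := le_trans (by exact_mod_cast hBX) hX1low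
    exact_mod_cast this
  have hX0X2 : X0 ≤ X₂ := hX0X1.trans hX12
  have E1 := hBV X₁ hX0X1 E (hlev1 X₁ hX1low hX1up hηBy1) (hlev X₁ hX1low hX1up hηBy1) G T hTS hTc
  have E2 := hBV X₂ hX0X2 E (hlev1 X₂ hX2low hX2up hηBy2') (hlev X₂ hX2low hX2up hηBy2') G T hTS hTc
  have hErr : ∀ X : ℕ, (B : ℝ) ≤ X → (X : ℝ) ≤ 3 * (B * y) →
      (X : ℝ) / Real.log X ^ U ≤ 3 * (B * y / Real.log B ^ U) := by
    intro X h1 h2
    obtain ⟨h4, h5⟩ := hlogX X h1 h2
    have h6 : 0 < Real.log B := by linarith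
    calc (X : ℝ) / Real.log X ^ U ≤ (3 * (B * y)) / Real.log B ^ U := by gcongr
      _ = _ := by ring
  have E1' := E1.trans (hErr X₁ hX1low hX1up)
  have E2' := E2.trans (hErr X₂ hX2low hX2up)
  -- the window
  have hWlow : (B : ℝ) ≤ W := by rw [hWr]; linarith
  have hWx₀ : x₀ ≤ W := by
    have : (x₀ : ℝ) ≤ W := le_trans (by exact_mod_cast hBx₀) hWlow
    exact_mod_cast this
  have hX1W : X₁ ≤ 4 * W := by
    have : (X₁ : ℝ) ≤ 4 * W := by rw [hWr]; linarith
    exact_mod_cast this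
  have hP := hpnt W hWx₀ X₁ hX1W
  have hWX : W + X₁ = X₂ := by omega
  rw [hWX, ← pi1_eq, ← pi1_eq] at hP
  set M : ℝ := (1 - η) * ((1 - (2 * D + 5) * η) * (B * y) / Real.log (3 * B * x)) with hM
  have hWup : (W : ℝ) ≤ 3 * B * x := by
    have h1 : (B : ℝ) * y ≤ B * x := mul_le_mul_of_nonneg_left hyx hB0.le
    have h2 : (W : ℝ) ≤ X₂ := by
      have : W ≤ X₂ := by omega
      exact_mod_cast this
    linarith
  have hW3 : (3 : ℝ) ≤ W := by linarith
  have hlW : 0 < Real.log W := Real.log_pos (by linarith)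
  have hlWup : Real.log W ≤ Real.log (3 * B * x) := Real.log_le_log (by linarith) hWup
  have hMle : M ≤ pi1 X₂ - pi1 X₁ := by
    refine le_trans ?_ hP
    rw [hM]
    apply mul_le_mul_of_nonneg_left _ (by linarith)
    apply div_le_div₀ (by linarith) _ hlW hlWup
    rw [hWr]; exact hdiff
  have hlog3 : 0 < Real.log (3 * B * x) := by linarith
  have hM0 : 0 ≤ M := by
    rw [hM]
    have h2 : 0 ≤ (1 - (2 * D + 5) * η) * (B * y) := by linarith
    have h3 : 0 ≤ 1 - η := by linarith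
    positivity
  -- termwise
  have hterm : ∀ t ∈ T, max 0 ((1 - (2 * D + 6) * η) * (B / Real.log (3 * B * x)) * GG t -
        ∑ b ∈ Ioc b1 (2 * B), pr (G t + b * t)) ≤
      |piAP X₁ t (G t % t).toNat - pi1 X₁ / (Nat.totient t : ℝ)| +
      |piAP X₂ t (G t % t).toNat - pi1 X₂ / (Nat.totient t : ℝ)| := by
    intro t ht
    obtain ⟨h1, h2, h3, hclose⟩ := hT t ht
    obtain ⟨hcl1, hcl2⟩ := abs_le.1 hclose
    have ht0r : (0 : ℝ) < t := lt_trans (by positivity) h1
    have ht0 : 0 < t := by exact_mod_cast ht0r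
    have hφ : (0 : ℝ) < Nat.totient t := by exact_mod_cast Nat.totient_pos.2 ht0
    have g1 : G t + (b1 : ℤ) * t ≤ X₁ := by
      have : ((G t : ℤ) : ℝ) + (b1 : ℝ) * t ≤ X₁ := by
        refine le_trans ?_ F2
        have i1 : (b1 : ℝ) * t ≤ b1 * y := by gcongr
        linarith
      exact_mod_cast this
    have g2 : (X₂ : ℤ) ≤ G t + ((2 * B : ℕ) : ℤ) * t := by
      have : (X₂ : ℝ) ≤ ((G t : ℤ) : ℝ) + ((2 * B : ℕ) : ℝ) * t := by
        refine F3.trans ?_
        have i1 : (B : ℝ) * (ρ * y) ≤ B * t := by gcongr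
        have i2 : (B : ℝ) * (ρ * y) = B * y - η * (B * y) := by rw [hρ]; ring
        rw [eD2]
        push_cast
        linarith
      exact_mod_cast this
    have h4 := to_b2 (t := t) (b1 := b1) (M := 2 * B) (X₁ := X₁) (X₂ := X₂) (G := G t) (c := G t)
      ht0 (by rw [sub_self]; exact dvd_zero _) g1 g2
    have h5 : piAP X₂ t (G t % t).toNat - piAP X₁ t (G t % t).toNat ≤
        ∑ b ∈ Ioc b1 (2 * B), pr (G t + b * t) := by
      rw [piAP_diff X₁ X₂ t _ hX12]
      exact h4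
    have h6 := neg_abs_le (piAP X₂ t (G t % t).toNat - pi1 X₂ / (Nat.totient t : ℝ))
    have h7 := le_abs_self (piAP X₁ t (G t % t).toNat - pi1 X₁ / (Nat.totient t : ℝ))
    have h8 : (1 - (2 * D + 6) * η) * (B / Real.log (3 * B * x)) * GG t ≤
        pi1 X₂ / (Nat.totient t : ℝ) - pi1 X₁ / (Nat.totient t : ℝ) := by
      rw [← sub_div]
      have h11 : (1 - (2 * D + 6) * η) * (B / Real.log (3 * B * x)) ≤ M / y := by
        rw [le_div_iff₀ hy0, hM]
        have h12 : 0 ≤ (B : ℝ) * y / Real.log (3 * B * x) := by positivity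
        have e1 : (1 - (2 * D + 6) * η) * (B / Real.log (3 * B * x)) * y =
            (1 - (2 * D + 6) * η) * (B * y / Real.log (3 * B * x)) := by ring
        have e2 : (1 - η) * ((1 - (2 * D + 5) * η) * (B * y) / Real.log (3 * B * x)) =
            ((1 - η) * (1 - (2 * D + 5) * η)) * (B * y / Real.log (3 * B * x)) := by ring
        rw [e1, e2]
        apply mul_le_mul_of_nonneg_right _ h12
        have : 0 ≤ (2 * (D : ℝ) + 5) * η * η := by positivity
        have e3 : (1 - η) * (1 - (2 * (D : ℝ) + 5) * η) =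
            1 - (2 * D + 6) * η + (2 * D + 5) * η * η := by ring
        rw [e3]
        linarith
      have h13 : M * GG t / y ≤ M / (Nat.totient t : ℝ) := by
        unfold GG
        rw [div_le_div_iff₀ hy0 hφ]
        have e9 : M * ((t : ℝ) / (Nat.totient t : ℝ)) * (Nat.totient t : ℝ) = M * t := by
          field_simp
        rw [e9]
        exact mul_le_mul_of_nonneg_left h2 hM0
      have h14 := mul_le_mul_of_nonneg_right h11 (GG_nonneg t)
      have e3 : M / y * GG t = M * GG t / y := by ring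
      rw [e3] at h14
      exact h14.trans (h13.trans (div_le_div_of_nonneg_right hMle hφ.le))
    apply max_le
    · positivity
    · linarith
  calc _ ≤ ∑ t ∈ T, (|piAP X₁ t (G t % t).toNat - pi1 X₁ / (Nat.totient t : ℝ)| +
      |piAP X₂ t (G t % t).toNat - pi1 X₂ / (Nat.totient t : ℝ)|) := sum_le_sum hterm
    _ ≤ 6 * (B * y / Real.log B ^ U) := by
      rw [sum_add_distrib]; linarith

end Pool.Agent.W218.PF
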