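import Mathlib
import Pool.Agent.W218.LF.FirstTotal2
import Pool.Agent.W218.PF.Block3

set_option autoImplicit false

/-! First moment over the linear coefficients: all prime arguments. -/

namespace Pool.Agent.W218.PF

open Finset Pool.Agent.Erdos456 Pool.Agent.Erdos456.Mert Pool.Agent.W218.HF Pool.Agent.W218.LF

/-- the number of linear coefficients for which the value at `t` is prime -/
noncomputable def nnG (b1 B : ℕ) (G : ℕ → ℤ) (t : ℕ) : ℝ :=
  ∑ b ∈ Ioc b1 (2 * B), pr (G t + b * t)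

lemma nnG_nonneg (b1 B : ℕ) (G : ℕ → ℤ) (t : ℕ) : 0 ≤ nnG b1 B G t :=
  sum_nonneg fun _ _ => pr_nonneg _

lemma mem_PP {X t : ℕ} (h : t ∈ PP X) : 1 ≤ t ∧ t ≤ X ∧ t.Prime := by
  simp only [PP, mem_filter, mem_Icc] at h
  exact ⟨h.1.1, h.1.2, h.2⟩

lemma GG_prime {t : ℕ} (ht : t.Prime) : GG t ≤ 2 := by
  rw [GG_eq_prod ht.pos, ht.primeFactors, prod_singleton]
  have hp2 : (2 : ℝ) ≤ t := by exact_mod_cast ht.two_le
  rw [inv_le_comm₀ _ (by norm_num)]
  · have : (t : ℝ)⁻¹ ≤ 2⁻¹ := inv_anti₀ (by norm_num) hp2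
    linarith
  · have : (t : ℝ)⁻¹ ≤ 2⁻¹ := inv_anti₀ (by norm_num) hp2
    have : (2 : ℝ)⁻¹ < 1 := by norm_num
    linarith

/-- upper bound for the number of primes -/
lemma cheb {X : ℕ} (hX : 2 ≤ X) : ((PP X).card : ℝ) ≤ 80 * (X / Real.log X) := by
  have h := bt_class (X := X) (q := 1) (r := 0) hX le_rfl (by rw [one_pow]; omega)
  have e : (Icc 1 X).filter (fun t : ℕ => t.Prime ∧ t % 1 = 0) = PP X := by
    ext t
    simp only [PP, mem_filter, mem_Icc, Nat.mod_one, and_true]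
  rw [e] at h
  have e2 : GG 1 = 1 := by simp [GG]
  rw [e2] at h
  simpa using h

/-- the values `G t`, `t ∈ T`, in a short block vary little -/
def Blocks (η : ℝ) (D B x : ℕ) (G : ℕ → ℤ) (T : Finset ℕ) : Prop :=
  ∀ y : ℝ, 3 / η ≤ y → y ≤ x → ∃ V : ℝ, |V| ≤ B * y ∧ ∀ t ∈ T, (1 - η) * y < t → (t : ℝ) ≤ y →
    |((G t : ℤ) : ℝ) - V| ≤ D * η * (B * y) + B

theorem first3 (k : ℕ) (hk : 1 ≤ k) : ∃ K : ℕ, ∀ (d : ℕ) (η : ℝ), 0 < η →
    (2 * d + 6) * η ≤ 1 / 8 → ∀ δ : ℝ, 0 < δ → ∃ J B0 : ℕ, ∀ B : ℕ, B0 ≤ B →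
    ∀ (x : ℕ) (G : Fin k → ℕ → ℤ) (T : Finset ℕ), Real.log B ≤ x →
    x * Real.log B ^ K ≤ B → T ⊆ PP x → (∀ i, Blocks η d B x (G i) T) →
    (∀ t ∈ T, ∀ i, IsCoprime (t : ℤ) (G i t)) → δ * (x / Real.log x) ≤ T.card →
    3 / η ≤ (1 - η) ^ J * x ∧
    (1 - (k * (2 * d + 7) + 2) * η) * (B / Real.log (B * x)) ^ k * ∑ t ∈ T, GG t ^ k ≤
      ∑ t ∈ T.filter (fun t : ℕ => (1 - η) ^ J * (x : ℝ) < t), ∏ i, nnG (lo η B) B (G i) t := by
  classical
  obtain ⟨K, hblock⟩ := block3 (k + 2)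
  refine ⟨K, ?_⟩
  intro d η hη hη2 δ hδ
  obtain ⟨B₁, hblock⟩ := hblock d η hη hη2
  set C₁ : ℝ := 160 * 2 ^ k with hC₁def
  have hC₁ : 0 < C₁ := by positivity
  set C₅ : ℝ := 2 with hC₅def
  have hC₅ : 0 < C₅ := by norm_num
  have hd0 : (0 : ℝ) ≤ d := Nat.cast_nonneg d
  have hdη0 : 0 ≤ (d : ℝ) * η := by positivity
  have hη48 : η ≤ 1 / 48 := by
    have e : (2 * (d : ℝ) + 6) * η = 2 * (d * η) + 6 * η := by ring
    rw [e] at hη2
    linarith
  set ρ : ℝ := 1 - η with hρ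
  have hρ0 : 0 < ρ := by rw [hρ]; linarith
  have hρ1 : ρ < 1 := by rw [hρ]; linarith
  obtain ⟨J, hJ⟩ := exists_pow_lt_of_lt_one (show 0 < η * δ / C₁ by positivity) hρ1
  have hρJ : 0 < ρ ^ J := by positivity
  set Z : ℝ := C₅ ^ (k - 1) * (6 * k * J) * 2 ^ k with hZ
  have hZ0 : 0 ≤ Z := by positivity
  refine ⟨J, max (max B₁ 3) ⌈Real.exp (3 / η / ρ ^ J + Z / (η * δ) + 2 / η + 4 / (ρ ^ J) ^ 2)⌉₊, ?_⟩
  intro B hB x G T hlog hxB hT hbl hTc hTcard
  have hB1 : B₁ ≤ B := (le_max_left _ _).trans ((le_max_left _ _).trans hB)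
  have hB3 : 3 ≤ B := (le_max_right _ _).trans ((le_max_left _ _).trans hB)
  have hBe : ⌈Real.exp (3 / η / ρ ^ J + Z / (η * δ) + 2 / η + 4 / (ρ ^ J) ^ 2)⌉₊ ≤ B :=
    (le_max_right _ _).trans hB
  have hBe' : Real.exp (3 / η / ρ ^ J + Z / (η * δ) + 2 / η + 4 / (ρ ^ J) ^ 2) ≤ B :=
    (Nat.le_ceil _).trans (by exact_mod_cast hBe)
  have hBr : (3 : ℝ) ≤ B := by exact_mod_cast hB3
  have hB0 : (0 : ℝ) < B := by linarith
  have hl : 3 / η / ρ ^ J + Z / (η * δ) + 2 / η + 4 / (ρ ^ J) ^ 2 ≤ Real.log B := by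
    rw [Real.le_log_iff_exp_le hB0]; exact hBe'
  have p1 : 0 ≤ 3 / η / ρ ^ J := by positivity
  have p2 : 0 ≤ Z / (η * δ) := by positivity
  have p3 : 0 ≤ 2 / η := by positivity
  have p4 : 0 ≤ 4 / (ρ ^ J) ^ 2 := by positivity
  have hl1 : 3 / η ≤ ρ ^ J * Real.log B := by
    have : 3 / η / ρ ^ J ≤ Real.log B := by linarith
    rw [div_le_iff₀ hρJ] at this
    linarith
  have hl2 : Z ≤ η * δ * Real.log B := by
    have : Z / (η * δ) ≤ Real.log B := by linarith
    rw [div_le_iff₀ (by positivity)] at this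
    linarith
  have hl3 : 2 ≤ η * Real.log B := by
    have : 2 / η ≤ Real.log B := by linarith
    rw [div_le_iff₀ hη] at this
    linarith
  have hlB1 : 1 ≤ Real.log B := by
    rw [Real.le_log_iff_exp_le hB0]
    have := Real.exp_one_lt_d9
    linarith
  have hlB0 : 0 < Real.log B := by linarith
  have hx0 : 0 < (x : ℝ) := by linarith
  have hx1 : 1 ≤ x := by
    have : 0 < x := by exact_mod_cast hx0
    omega
  have hx1r : (1 : ℝ) ≤ x := by exact_mod_cast hx1
  have hyJ : 3 / η ≤ ρ ^ J * x := hl1.trans (by gcongr)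
  refine ⟨hyJ, ?_⟩
  have hxleB : (x : ℝ) ≤ B := by
    have : (x : ℝ) * 1 ≤ x * Real.log B ^ K :=
      mul_le_mul_of_nonneg_left (one_le_pow₀ hlB1) hx0.le
    linarith
  set M0 : ℝ := (1 - (2 * d + 6) * η) * (B / Real.log (3 * B * x)) with hM0
  have hx2 : (2 : ℝ) ≤ x := by
    have h1 : 4 / (ρ ^ J) ^ 2 ≤ Real.log B := by linarith
    have h2 : (4 : ℝ) ≤ 4 / (ρ ^ J) ^ 2 := by
      rw [le_div_iff₀ (by positivity)]
      have h3 : (ρ ^ J) ^ 2 ≤ 1 := pow_le_one₀ hρJ.le (pow_le_one₀ hρ0.le hρ1.le)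
      linarith
    linarith
  have hlx0 : 0 < Real.log x := Real.log_pos (by linarith)
  have hlxB : Real.log x ≤ Real.log B := Real.log_le_log hx0 hxleB
  set Df : Fin k → ℕ → ℝ := fun i t => max 0 (M0 * GG t - nnG (lo η B) B (G i) t) with hDf
  -- blocks
  have hind : ∀ i : Fin k, ∀ j : ℕ, j ≤ J →
      ∑ t ∈ T.filter (fun t : ℕ => ρ ^ j * (x : ℝ) < t), Df i t ≤
        j * (6 * (B * x / Real.log B ^ (k + 2))) := by
    intro i j
    induction j with
    | zero =>
      intro _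
      have h0 : T.filter (fun t : ℕ => ρ ^ 0 * (x : ℝ) < t) = ∅ := by
        apply filter_eq_empty_iff.2
        intro t ht h
        have h1 := (mem_PP (hT ht)).2.1
        have h2 : (t : ℝ) ≤ x := by exact_mod_cast h1
        rw [pow_zero, one_mul] at h
        linarith
      rw [h0]
      simp
    | succ j ih =>
      intro hj
      have ih' := ih (by omega)
      have hsplit : T.filter (fun t : ℕ => ρ ^ (j + 1) * (x : ℝ) < t) =
          T.filter (fun t : ℕ => ρ ^ j * (x : ℝ) < t) ∪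
          T.filter (fun t : ℕ => ρ * (ρ ^ j * (x : ℝ)) < t ∧ (t : ℝ) ≤ ρ ^ j * x) := by
        ext t
        simp only [mem_filter, mem_union]
        have e1 : ρ ^ (j + 1) * (x : ℝ) = ρ * (ρ ^ j * x) := by ring
        constructor
        · rintro ⟨h1, h2⟩
          rw [e1] at h2
          by_cases h3 : ρ ^ j * (x : ℝ) < t
          · exact Or.inl ⟨h1, h3⟩
          · exact Or.inr ⟨h1, h2, not_lt.1 h3⟩
        · rintro (⟨h1, h2⟩ | ⟨h1, h2, h3⟩)
          · refine ⟨h1, lt_of_le_of_lt ?_ h2⟩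
            rw [e1]
            have h7 : 0 ≤ η * (ρ ^ j * (x : ℝ)) := by positivity
            have e7 : ρ * (ρ ^ j * (x : ℝ)) = ρ ^ j * x - η * (ρ ^ j * x) := by rw [hρ]; ring
            rw [e7]; linarith
          · exact ⟨h1, by rw [e1]; exact h2⟩
      have hdisj : Disjoint (T.filter (fun t : ℕ => ρ ^ j * (x : ℝ) < t))
          (T.filter (fun t : ℕ => ρ * (ρ ^ j * (x : ℝ)) < t ∧ (t : ℝ) ≤ ρ ^ j * x)) := by
        rw [disjoint_left]
        intro t h1 h2
        rw [mem_filter] at h1 h2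
        linarith [h1.2, h2.2.2]
      have hρj : ρ ^ j ≤ 1 := pow_le_one₀ hρ0.le hρ1.le
      have hρjJ : ρ ^ J ≤ ρ ^ j := pow_le_pow_of_le_one hρ0.le hρ1.le (by omega)
      have hyx : ρ ^ j * (x : ℝ) ≤ x := by
        have := mul_le_mul_of_nonneg_right hρj hx0.le
        linarith
      have hy0 : 0 < ρ ^ j * (x : ℝ) := by positivity
      obtain ⟨V, hV, hcl⟩ := hbl i (ρ ^ j * x) (hyJ.trans (by gcongr)) hyx
      have hb := hblock B hB1 x (ρ ^ j * x) V (G i)
        (T.filter (fun t : ℕ => ρ * (ρ ^ j * (x : ℝ)) < t ∧ (t : ℝ) ≤ ρ ^ j * x))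
        (hyJ.trans (by gcongr)) hyx
        (le_trans (mul_le_mul_of_nonneg_right hyx (by positivity)) hxB) hV
        (by
          intro t ht
          rw [mem_filter] at ht
          exact ⟨ht.2.1, ht.2.2, hTc t ht.1 i, hcl t ht.1 ht.2.1 ht.2.2⟩)
      rw [hsplit, sum_union hdisj]
      have herr : (B : ℝ) * (ρ ^ j * x) / Real.log B ^ (k + 2) ≤ B * x / Real.log B ^ (k + 2) := by
        gcongr
      have hb' : ∑ t ∈ T.filter (fun t : ℕ => ρ * (ρ ^ j * (x : ℝ)) < t ∧ (t : ℝ) ≤ ρ ^ j * x),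
          Df i t ≤ 6 * (B * (ρ ^ j * x) / Real.log B ^ (k + 2)) := hb
      push_cast
      linarith
  -- logs
  have hBx0 : 0 < (B : ℝ) * x := by positivity
  have hL1 : Real.log B ≤ Real.log (B * x) := by
    apply Real.log_le_log hB0
    have := mul_le_mul_of_nonneg_left hx1r hB0.le
    linarith
  have hL2 : Real.log (B * x) ≤ 2 * Real.log B := by
    rw [Real.log_mul hB0.ne' hx0.ne']
    have := Real.log_le_log hx0 hxleB
    linarith
  have hL0 : 0 < Real.log (B * x) := by linarith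
  have hL3 : Real.log (3 * B * x) ≤ (1 + η) * Real.log (B * x) := by
    have e1 : (3 : ℝ) * B * x = 3 * (B * x) := by ring
    rw [e1, Real.log_mul (by norm_num) hBx0.ne']
    have h2 : Real.log 3 ≤ 2 := by
      rw [Real.log_le_iff_le_exp (by norm_num)]
      have := Real.add_one_le_exp (2 : ℝ)
      linarith
    have h3 : 2 ≤ η * Real.log (B * x) := hl3.trans (by gcongr)
    linarith
  have hL4' : Real.log (B * x) ≤ Real.log (3 * B * x) := Real.log_le_log hBx0 (by linarith)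
  have hL4 : 0 < Real.log (3 * B * x) := by linarith
  set Q : ℝ := B / Real.log (B * x) with hQ
  have hQ0 : 0 < Q := by positivity
  have ha0 : 0 < 1 - (2 * (d : ℝ) + 6) * η := by linarith
  have hM0pos : 0 < M0 := by rw [hM0]; positivity
  have hM0low : (1 - (2 * d + 7) * η) * Q ≤ M0 := by
    have h1 : (1 - η) * Q ≤ B / Real.log (3 * B * x) := by
      rw [hQ, le_div_iff₀ hL4]
      calc (1 - η) * (B / Real.log (B * x)) * Real.log (3 * B * x)
          ≤ (1 - η) * (B / Real.log (B * x)) * ((1 + η) * Real.log (B * x)) := by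
            apply mul_le_mul_of_nonneg_left hL3
            apply mul_nonneg hρ0.le (by positivity)
        _ = (1 - η ^ 2) * B := by field_simp; ring
        _ ≤ B := by
            have h7 : 0 ≤ η ^ 2 * (B : ℝ) := by positivity
            have e7 : (1 - η ^ 2) * (B : ℝ) = B - η ^ 2 * B := by ring
            rw [e7]; linarith
    rw [hM0]
    calc (1 - (2 * d + 7) * η) * Q ≤ (1 - (2 * d + 6) * η) * (1 - η) * Q := by
          apply mul_le_mul_of_nonneg_right _ hQ0.le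
          have : 0 ≤ (2 * (d : ℝ) + 6) * η * η := by positivity
          linarith
      _ = (1 - (2 * d + 6) * η) * ((1 - η) * Q) := by ring
      _ ≤ _ := mul_le_mul_of_nonneg_left h1 ha0.le
  have hM0up : M0 ≤ B / Real.log B := by
    rw [hM0]
    have h1 : (B : ℝ) / Real.log (3 * B * x) ≤ B / Real.log B :=
      div_le_div_of_nonneg_left hB0.le hlB0 (hL1.trans hL4')
    have h2 : 1 - (2 * (d : ℝ) + 6) * η ≤ 1 := by
      have : 0 ≤ (2 * (d : ℝ) + 6) * η := by positivity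
      linarith
    calc (1 - (2 * d + 6) * η) * (B / Real.log (3 * B * x)) ≤ 1 * (B / Real.log B) := by
          apply mul_le_mul h2 h1 (by positivity) (by norm_num)
      _ = _ := one_mul _
  -- product lower bound
  set T' := T.filter (fun t : ℕ => ρ ^ J * (x : ℝ) < t) with hT'
  have hprod : ∀ t ∈ T', M0 ^ k * GG t ^ k - (C₅ * B) ^ (k - 1) * ∑ i, Df i t ≤
      ∏ i, nnG (lo η B) B (G i) t := by
    intro t ht
    have htT := (mem_filter.1 ht).1
    have ht1 := mem_PP (hT htT)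
    have hGt : 0 < GG t := GG_pos (by omega)
    have hMt : 0 < M0 * GG t := by positivity
    have h1 := prod_lower (univ : Finset (Fin k)) (fun i => nnG (lo η B) B (G i) t)
      (fun i => Df i t) (M0 * GG t) hMt (fun i _ => nnG_nonneg _ _ _ _)
      (fun i _ => le_max_left _ _) (fun i _ => by
        have : M0 * GG t - nnG (lo η B) B (G i) t ≤ Df i t := le_max_right _ _
        linarith)
    rw [card_univ, Fintype.card_fin] at h1
    refine le_trans ?_ h1
    have e1 : M0 ^ k * GG t ^ k = (M0 * GG t) ^ k := (mul_pow _ _ _).symm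
    rw [mul_sub, mul_one, e1, ← sum_div]
    apply sub_le_sub_left
    have hS0 : 0 ≤ ∑ i, Df i t := sum_nonneg fun i _ => le_max_left _ _
    have h2 : (M0 * GG t) ^ k * ((∑ i, Df i t) / (M0 * GG t)) = (M0 * GG t) ^ (k - 1) * ∑ i, Df i t := by
      obtain ⟨m, rfl⟩ : ∃ m, k = m + 1 := ⟨k - 1, by omega⟩
      rw [Nat.add_sub_cancel, pow_succ]
      field_simp
    rw [h2]
    have h3 : M0 * GG t ≤ C₅ * B := by
      have h4 : GG t ≤ C₅ * Real.log B := by
        have := GG_prime ht1.2.2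
        rw [hC₅def]; linarith
      calc M0 * GG t ≤ (B / Real.log B) * (C₅ * Real.log B) :=
            mul_le_mul hM0up h4 hGt.le (by positivity)
        _ = C₅ * B := by field_simp
    gcongr
  have hsumprod := sum_le_sum hprod
  rw [sum_sub_distrib, ← mul_sum, ← mul_sum] at hsumprod
  have hDfsum : ∑ t ∈ T', ∑ i, Df i t ≤ k * (J * (6 * (B * x / Real.log B ^ (k + 2)))) := by
    rw [sum_comm]
    calc _ ≤ ∑ _i : Fin k, (J : ℝ) * (6 * (B * x / Real.log B ^ (k + 2))) :=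
          sum_le_sum fun i _ => hind i J le_rfl
      _ = _ := by rw [sum_const, card_univ, Fintype.card_fin, nsmul_eq_mul]
  -- small t
  set m : ℝ := ∑ t ∈ T, GG t ^ k with hm
  have hsm : ∑ t ∈ T.filter (fun t : ℕ => ¬ ρ ^ J * (x : ℝ) < t), GG t ^ k ≤ η * (δ * (x / Real.log x)) := by
    set X : ℕ := ⌊ρ ^ J * (x : ℝ)⌋₊ with hX
    have h1 : T.filter (fun t : ℕ => ¬ ρ ^ J * (x : ℝ) < t) ⊆ PP X := by
      intro t ht
      rw [mem_filter] at ht
      have h2 := mem_PP (hT ht.1)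
      simp only [PP, mem_filter, mem_Icc]
      exact ⟨⟨h2.1, Nat.le_floor (not_lt.1 ht.2)⟩, h2.2.2⟩
    have hXle : (X : ℝ) ≤ ρ ^ J * x := Nat.floor_le (by positivity)
    have hsq : 2 * Real.sqrt x ≤ ρ ^ J * x := by
      have h3 : 4 / (ρ ^ J) ^ 2 ≤ x := by linarith
      rw [div_le_iff₀ (by positivity)] at h3
      have h4 : 2 ≤ ρ ^ J * Real.sqrt x := by
        have h5 : (2 : ℝ) ^ 2 ≤ (ρ ^ J * Real.sqrt x) ^ 2 := by
          rw [mul_pow, Real.sq_sqrt hx0.le]; linarith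
        exact le_of_sq_le_sq h5 (by positivity)
      calc 2 * Real.sqrt x ≤ (ρ ^ J * Real.sqrt x) * Real.sqrt x := by gcongr
        _ = ρ ^ J * x := by rw [mul_assoc, Real.mul_self_sqrt hx0.le]
    have hs1 : 1 ≤ Real.sqrt x := by
      rw [Real.one_le_sqrt]; linarith
    have hXsq : Real.sqrt x ≤ X := by
      have := Nat.lt_floor_add_one (ρ ^ J * (x : ℝ))
      rw [← hX] at this
      linarith
    have hs2 : 1 < Real.sqrt x := by
      rw [Real.lt_sqrt (by norm_num)]; linarith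
    have hX2 : 2 ≤ X := by
      have h3 : (1 : ℝ) < X := by linarith
      have h4 : 1 < X := by exact_mod_cast h3
      omega
    have h2 := cheb hX2
    have hlX : Real.log x / 2 ≤ Real.log X := by
      rw [← Real.log_sqrt hx0.le]
      exact Real.log_le_log (by linarith) hXsq
    have h3 : (X : ℝ) / Real.log X ≤ 2 * (ρ ^ J * (x / Real.log x)) := by
      calc (X : ℝ) / Real.log X ≤ (ρ ^ J * x) / (Real.log x / 2) := by gcongr
        _ = _ := by field_simp
    have h4 : ∑ t ∈ T.filter (fun t : ℕ => ¬ ρ ^ J * (x : ℝ) < t), GG t ^ k ≤ (PP X).card * 2 ^ k := by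
      calc _ ≤ ∑ t ∈ T.filter (fun t : ℕ => ¬ ρ ^ J * (x : ℝ) < t), (2 : ℝ) ^ k := by
            apply sum_le_sum
            intro t ht
            exact pow_le_pow_left₀ (GG_nonneg t) (GG_prime (mem_PP (hT (mem_filter.1 ht).1)).2.2) k
        _ = ((T.filter (fun t : ℕ => ¬ ρ ^ J * (x : ℝ) < t)).card : ℝ) * 2 ^ k := by
            rw [sum_const, nsmul_eq_mul]
        _ ≤ _ := by
            gcongr
    have h5 : C₁ * ρ ^ J ≤ η * δ := by
      rw [lt_div_iff₀ hC₁] at hJ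
      linarith
    calc _ ≤ ((PP X).card : ℝ) * 2 ^ k := h4
      _ ≤ (80 * (2 * (ρ ^ J * (x / Real.log x)))) * 2 ^ k := by
          gcongr
          exact h2.trans (by gcongr)
      _ = (C₁ * ρ ^ J) * (x / Real.log x) := by rw [hC₁def]; ring
      _ ≤ (η * δ) * (x / Real.log x) := by gcongr
      _ = _ := by ring
  have hmcard : δ * (x / Real.log x) ≤ m := by
    refine hTcard.trans ?_
    rw [hm, card_eq_sum_ones]
    push_cast
    apply sum_le_sum
    intro t ht
    exact one_le_pow₀ (one_le_GG (by have := (mem_PP (hT ht)).1; omega))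
  have hbig : (1 - η) * m ≤ ∑ t ∈ T', GG t ^ k := by
    have h1 := sum_filter_add_sum_filter_not T (fun t : ℕ => ρ ^ J * (x : ℝ) < t) (fun t => GG t ^ k)
    rw [← hm] at h1
    have h2 : η * (δ * (x / Real.log x)) ≤ η * m := by gcongr
    linarith
  have hm0 : 0 < m := lt_of_lt_of_le (by positivity) hmcard
  -- error
  have herr : (C₅ * B) ^ (k - 1) * (k * (J * (6 * (B * x / Real.log B ^ (k + 2))))) ≤
      η * (Q ^ k * m) := by
    have h1 : (C₅ * B) ^ (k - 1) * (k * (J * (6 * (B * x / Real.log B ^ (k + 2))))) =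
        (C₅ ^ (k - 1) * (6 * k * J)) * (B ^ k * x / Real.log B ^ (k + 2)) := by
      obtain ⟨n, rfl⟩ : ∃ n, k = n + 1 := ⟨k - 1, by omega⟩
      rw [Nat.add_sub_cancel, mul_pow, pow_succ (B : ℝ) n]
      ring
    have h2 : (B : ℝ) ^ k / (2 ^ k * Real.log B ^ k) ≤ Q ^ k := by
      rw [← mul_pow, ← div_pow]
      apply pow_le_pow_left₀ (by positivity)
      rw [hQ]
      gcongr
    have h3 : (C₅ ^ (k - 1) * (6 * k * J)) * (B ^ k * x / Real.log B ^ (k + 2)) =
        Z * ((B : ℝ) ^ k / (2 ^ k * Real.log B ^ k)) * (x / Real.log B) / Real.log B := by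
      rw [hZ, pow_succ (Real.log B) (k + 1), pow_succ (Real.log B) k]
      field_simp
    rw [h1, h3]
    calc Z * ((B : ℝ) ^ k / (2 ^ k * Real.log B ^ k)) * (x / Real.log B) / Real.log B
        ≤ (η * δ * Real.log B) * Q ^ k * (x / Real.log x) / Real.log B := by gcongr
      _ = η * (Q ^ k * (δ * (x / Real.log x))) := by field_simp
      _ ≤ η * (Q ^ k * m) := by gcongr
  have hmain : (1 - (k * (2 * d + 7) + 1) * η) * Q ^ k * m ≤ M0 ^ k * ∑ t ∈ T', GG t ^ k := by
    have hbase : 0 ≤ 1 - (2 * (d : ℝ) + 7) * η := by linarith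
    have h1 : ((1 - (2 * d + 7) * η) * Q) ^ k ≤ M0 ^ k :=
      pow_le_pow_left₀ (mul_nonneg hbase hQ0.le) hM0low k
    rw [mul_pow] at h1
    set q : ℝ := (1 - (2 * d + 7) * η) ^ k with hq
    have hq1 : q ≤ 1 := pow_le_one₀ hbase (by
      have : 0 ≤ (2 * (d : ℝ) + 7) * η := by positivity
      linarith)
    have hq0 : 0 ≤ q := pow_nonneg hbase k
    have hq2 : 1 - k * (2 * d + 7) * η ≤ q := by
      have := one_add_mul_le_pow (show (-2 : ℝ) ≤ -((2 * d + 7) * η) by linarith) k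
      have e : 1 + (k : ℝ) * -((2 * d + 7) * η) = 1 - k * (2 * d + 7) * η := by ring
      rw [e] at this
      have e2 : 1 + -((2 * (d : ℝ) + 7) * η) = 1 - (2 * d + 7) * η := by ring
      rwa [e2] at this
    calc (1 - (k * (2 * d + 7) + 1) * η) * Q ^ k * m ≤ (q * (1 - η)) * Q ^ k * m := by
          apply mul_le_mul_of_nonneg_right _ hm0.le
          apply mul_le_mul_of_nonneg_right _ (by positivity)
          have := mul_le_mul_of_nonneg_right hq1 hη.le
          linarith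
      _ = (q * Q ^ k) * ((1 - η) * m) := by ring
      _ ≤ M0 ^ k * ((1 - η) * m) := by
          apply mul_le_mul_of_nonneg_right h1
          exact mul_nonneg hρ0.le hm0.le
      _ ≤ M0 ^ k * ∑ t ∈ T', GG t ^ k := by gcongr
  have herr2 : (C₅ * B) ^ (k - 1) * ∑ t ∈ T', ∑ i, Df i t ≤ η * (Q ^ k * m) :=
    le_trans (by gcongr) herr
  have e3 : (1 - (k * (2 * d + 7) + 2) * η) * Q ^ k * m =
      (1 - (k * (2 * d + 7) + 1) * η) * Q ^ k * m - η * (Q ^ k * m) := by ring
  rw [e3]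
  linarith

end Pool.Agent.W218.PF
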