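import Mathlib
import Pool.Agent.W218.LF.Main2
import Pool.Agent.W218.PF.First3

set_option autoImplicit false

/-! The main theorem on linear coefficients, prime arguments. -/

namespace Pool.Agent.W218.PF

open Finset Pool.Agent.Erdos456 Pool.Agent.Erdos456.Mert Pool.Agent.W218.HF Pool.Agent.W218.LF

/-- the `t ∈ T` for which all `G_i(t) + b_i t` have no prime factor `≤ z` -/
noncomputable def roughG (z : ℕ) {k : ℕ} (G : Fin k → ℕ → ℤ) (b : Fin k → ℕ)
    (T : Finset ℕ) : ℕ :=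
  (T.filter (fun t : ℕ => ∀ i, ∀ p ≤ z, p.Prime → ¬ ((p : ℤ) ∣ G i t + b i * t))).card

/-- the number of `t ∈ T` for which all `G_i(t) + b_i t` are prime -/
noncomputable def primeG {k : ℕ} (G : Fin k → ℕ → ℤ) (b : Fin k → ℕ) (T : Finset ℕ) : ℕ :=
  (T.filter (fun t : ℕ => ∀ i, (G i t + b i * t).toNat.Prime)).card

lemma primeG_eq {k : ℕ} (G : Fin k → ℕ → ℤ) (b : Fin k → ℕ) (T : Finset ℕ) :
    (primeG G b T : ℝ) = ∑ t ∈ T, ∏ i, pr (G i t + b i * t) := by
  classical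
  unfold primeG
  rw [card_filter]
  push_cast
  apply sum_congr rfl
  intro t _
  by_cases h : ∀ i, (G i t + b i * t).toNat.Prime
  · rw [if_pos h]
    symm
    apply prod_eq_one
    intro i _
    unfold pr
    rw [if_pos (h i)]
  · rw [if_neg h]
    push Not at h
    obtain ⟨i, hi⟩ := h
    symm
    apply prod_eq_zero (mem_univ i)
    unfold pr
    rw [if_neg hi]

lemma roughG_eq (z : ℕ) {k : ℕ} (G : Fin k → ℕ → ℤ) (b : Fin k → ℕ) (T : Finset ℕ) :
    (roughG z G b T : ℝ) = ∑ t ∈ T, ∏ i, ro z (G i t + b i * t) := by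
  classical
  unfold roughG
  rw [card_filter]
  push_cast
  apply sum_congr rfl
  intro t _
  by_cases h : ∀ i, ∀ p ≤ z, p.Prime → ¬ ((p : ℤ) ∣ G i t + b i * t)
  · rw [if_pos h]
    symm
    apply prod_eq_one
    intro i _
    unfold ro
    rw [if_pos (h i)]
  · rw [if_neg h]
    push Not at h
    obtain ⟨i, hi⟩ := h
    symm
    apply prod_eq_zero (mem_univ i)
    unfold ro
    rw [if_neg]
    push Not
    exact hi

theorem main3 (k : ℕ) (hk : 1 ≤ k) : ∃ K : ℕ, ∀ d : ℕ, ∀ δ A C₃ : ℝ, 0 < δ → 0 < A → 0 ≤ C₃ →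
    ∀ θ : ℝ, θ < 1 → ∃ η : ℝ, 0 < η ∧ ∃ B0 : ℕ, ∀ B : ℕ, B0 ≤ B → ∀ z : ℕ, Pz z ≤ η * B →
    ∀ (x : ℕ) (G : Fin k → ℕ → ℤ) (T : Finset ℕ), T ⊆ PP x →
    (∀ t ∈ T, ∀ i, IsCoprime (t : ℤ) (G i t)) →
    (∀ i, ∀ t ∈ T, |((G i t : ℤ) : ℝ)| ≤ B + B * t) →
    (∀ i, ∀ ε : ℝ, 0 < ε → ε ≤ 1 → Blocks ε d B x (G i) T) →
    (∀ i, ∑ t₁ ∈ T, ∑ t₂ ∈ T,
      GG ((t₁ : ℤ) * G i t₂ - (t₂ : ℤ) * G i t₁).natAbs ^ (6 * k) ≤ C₃ * (x / Real.log x) ^ 2) →
    Real.log B ^ k ≤ A * (x / Real.log x) → x * Real.log B ^ K ≤ B →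
    δ * (x / Real.log x) ≤ T.card →
    η * B ^ k ≤ ((((Fintype.piFinset (fun _ : Fin k => Ioc B (2 * B))).filter (fun b =>
      θ * (roughG z G b T / Wz z ^ k) / Real.log (B * x) ^ k ≤ primeG G b T ∧
      η * (x / Real.log x) / Real.log B ^ k ≤ primeG G b T)).card : ℕ) : ℝ) := by
  classical
  obtain ⟨K, hfirst⟩ := first3 k hk
  refine ⟨K, ?_⟩
  intro d δ A C₃ hδ hA hC₃ θ hθ
  obtain ⟨C₂', hC₂', hsecond⟩ := second3 k hk
  have hkr : (1 : ℝ) ≤ k := by exact_mod_cast hk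
  have hd0 : (0 : ℝ) ≤ d := Nat.cast_nonneg d
  set C₂ : ℝ := C₂' * (A * 80 + 80 ^ 2 + C₃) with hC₂def
  have hC₂ : 0 < C₂ := by positivity
  set θ₀ : ℝ := max θ 0 with hθ₀
  have hθ0 : 0 ≤ θ₀ := le_max_right _ _
  have hθ1 : θ₀ < 1 := max_lt hθ one_pos
  have hθθ : θ ≤ θ₀ := le_max_left _ _
  set κ : ℝ := 1 - θ₀ with hκ
  have hκ0 : 0 < κ := by rw [hκ]; linarith
  have hκ1 : κ ≤ 1 := by rw [hκ]; linarith
  set a : ℝ := k * (2 * d + 7) + 2 with ha
  have ha0 : 2 * (d : ℝ) + 6 ≤ a := by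
    rw [ha]
    have : 1 * (2 * (d : ℝ) + 7) ≤ k * (2 * d + 7) := mul_le_mul_of_nonneg_right hkr (by linarith)
    linarith
  have hapos : 0 < a := by linarith
  set η₀ : ℝ := κ / (8 * a) with hη₀
  have hη0 : 0 < η₀ := by positivity
  have haη : a * η₀ = κ / 8 := by rw [hη₀]; field_simp
  have hη18 : (2 * (d : ℝ) + 6) * η₀ ≤ 1 / 8 := by
    have := mul_le_mul_of_nonneg_right ha0 hη0.le
    linarith
  have hη48 : η₀ ≤ 1 / 48 := by
    have e : (2 * (d : ℝ) + 6) * η₀ = 2 * (d * η₀) + 6 * η₀ := by ring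
    have : 0 ≤ (d : ℝ) * η₀ := by positivity
    rw [e] at hη18
    linarith
  obtain ⟨J, B₁, hfirst⟩ := hfirst d η₀ hη0 hη18 δ hδ
  set η₁ : ℝ := δ * κ / (8 * 2 ^ k) with hη₁
  have hη10 : 0 < η₁ := by positivity
  refine ⟨min (κ / (8 * 2 ^ k)) (min η₁ (κ ^ 2 * δ ^ 2 / (4 * 4 ^ k) / C₂)), by positivity, ?_⟩
  set ηf : ℝ := min (κ / (8 * 2 ^ k)) (min η₁ (κ ^ 2 * δ ^ 2 / (4 * 4 ^ k) / C₂)) with hηf
  refine ⟨max (max B₁ 4) ⌈Real.exp (A * (Real.exp (A + 1) + 3))⌉₊, ?_⟩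
  intro B hB z hBP x G T hT hTc hval hbl hdet hlogk hxB hTcard
  have hB1 : B₁ ≤ B := (le_max_left _ _).trans ((le_max_left _ _).trans hB)
  have hB4 : 4 ≤ B := (le_max_right _ _).trans ((le_max_left _ _).trans hB)
  have hBA : Real.exp (A * (Real.exp (A + 1) + 3)) ≤ B :=
    (Nat.le_ceil _).trans (by exact_mod_cast (le_max_right _ _).trans hB)
  have hBr : (4 : ℝ) ≤ B := by exact_mod_cast hB4
  have hB0 : (0 : ℝ) < B := by linarith
  have hlB : 1 ≤ Real.log B := by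
    rw [Real.le_log_iff_exp_le hB0]
    have := Real.exp_one_lt_d9
    linarith
  have hlB0 : 0 < Real.log B := by linarith
  have hlBA : A * (Real.exp (A + 1) + 3) ≤ Real.log B := by
    rw [Real.le_log_iff_exp_le hB0]; exact hBA
  have hlogk1 : Real.log B ≤ A * (x / Real.log x) := (le_self_pow₀ hlB (by omega)).trans hlogk
  set X : ℝ := x / Real.log x with hX
  have hX3 : Real.exp (A + 1) + 3 ≤ X := by
    have h1 : A * (Real.exp (A + 1) + 3) ≤ A * X := hlBA.trans hlogk1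
    exact le_of_mul_le_mul_left h1 hA
  have hexpA := Real.exp_pos (A + 1)
  have hx3 : 3 ≤ x := by
    by_contra hcon
    have hx2 : x ≤ 2 := by omega
    have h2 : X ≤ 3 := by
      rw [hX]
      interval_cases x
      · simp
      · simp
      · have h3 := Real.log_two_gt_d9
        rw [div_le_iff₀ (by push_cast; linarith)]
        push_cast
        linarith
    linarith
  have hx3r : (3 : ℝ) ≤ x := by exact_mod_cast hx3
  have hx0 : 0 < (x : ℝ) := by linarith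
  have hx1r : (1 : ℝ) ≤ x := by linarith
  have hlx1 : 1 ≤ Real.log x := by
    rw [Real.le_log_iff_exp_le hx0]
    have := Real.exp_one_lt_d9
    linarith
  have hlx0 : 0 < Real.log x := by linarith
  have hXx : X ≤ x := by
    rw [hX, div_le_iff₀ hlx0]
    have := mul_le_mul_of_nonneg_left hlx1 hx0.le
    linarith
  have hlxA : A ≤ Real.log x := by
    rw [Real.le_log_iff_exp_le hx0]
    have h4 : Real.exp A ≤ Real.exp (A + 1) := Real.exp_le_exp.2 (by linarith)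
    linarith
  have hlog : Real.log B ≤ x := by
    refine hlogk1.trans ?_
    rw [hX, ← mul_div_assoc, div_le_iff₀ hlx0]
    have := mul_le_mul_of_nonneg_left hlxA hx0.le
    linarith
  have hX0 : 0 < X := by rw [hX]; positivity
  have hxleB : (x : ℝ) ≤ B := by
    have : (x : ℝ) * 1 ≤ x * Real.log B ^ K :=
      mul_le_mul_of_nonneg_left (one_le_pow₀ hlB) hx0.le
    linarith
  set L : ℝ := Real.log (B * x) with hL
  have hL1 : Real.log B ≤ L := by
    apply Real.log_le_log hB0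
    have := mul_le_mul_of_nonneg_left hx1r hB0.le
    linarith
  have hL2 : L ≤ 2 * Real.log B := by
    rw [hL, Real.log_mul hB0.ne' hx0.ne']
    have := Real.log_le_log hx0 hxleB
    linarith
  have hL0 : 0 < L := by linarith
  obtain ⟨hJx, hF⟩ := hfirst B hB1 x G T hlog hxB hT (fun i => hbl i η₀ hη0 (by linarith)) hTc hTcard
  set b1 : ℕ := lo η₀ B with hb1
  set T' : Finset ℕ := T.filter (fun t : ℕ => (1 - η₀) ^ J * (x : ℝ) < t) with hT'
  set m : ℝ := ∑ t ∈ T, GG t ^ k with hm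
  have hb1le : (b1 : ℝ) ≤ (1 + η₀) * B := Nat.floor_le (by positivity)
  have hb1lt : (1 + η₀) * B < b1 + 1 := Nat.lt_floor_add_one _
  have hb1B : B ≤ b1 := by
    apply Nat.le_floor
    have : 0 ≤ η₀ * (B : ℝ) := by positivity
    linarith
  have hb12 : 2 * b1 ≤ 3 * B := by
    have : (2 : ℝ) * b1 ≤ 3 * B := by
      have h1 : η₀ * (B : ℝ) ≤ 1 / 48 * B := mul_le_mul_of_nonneg_right hη48 hB0.le
      linarith
    exact_mod_cast this
  have hT'sub : T' ⊆ T := filter_subset _ _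
  -- second moment
  have hTcard80 : (T'.card : ℝ) ≤ 80 * X := by
    have h1 : (T'.card : ℝ) ≤ ((PP x).card : ℝ) := by exact_mod_cast card_le_card (hT'sub.trans hT)
    exact h1.trans (cheb (by omega))
  have hS := hsecond B b1 G T' X A 80 C₃ hB4 hb1B hb12 hlB hX0.le hA.le (by norm_num) hC₃ hlogk
    hTcard80 (fun t ht => by
      have h1 := mem_PP (hT (hT'sub ht))
      exact ⟨h1.1, GG_prime h1.2.2⟩) (by
    intro t ht i
    have ht' := mem_filter.1 ht
    have h1 : 3 / η₀ < t := lt_of_le_of_lt hJx ht'.2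
    have h2 : 3 < η₀ * t := by
      rw [div_lt_iff₀ hη0] at h1; linarith
    refine ⟨hTc t ht'.1 i, ?_⟩
    have htI := mem_PP (hT ht'.1)
    have h3 := (abs_le.1 (hval i t ht'.1)).1
    have htx : (t : ℝ) ≤ x := by exact_mod_cast htI.2.1
    have ht0 : (0 : ℝ) ≤ t := Nat.cast_nonneg t
    have h4 : (b1 : ℝ) * t ≥ ((1 + η₀) * B - 1) * t := by
      apply mul_le_mul_of_nonneg_right _ ht0
      linarith
    have h5 : 3 * (B : ℝ) ≤ (η₀ * t) * B := mul_le_mul_of_nonneg_right h2.le hB0.le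
    have h6 : ((1 + η₀) * B - 1) * t = B * t + (η₀ * t) * B - t := by ring
    have h7 : (0 : ℝ) ≤ ((G i t : ℤ) : ℝ) + (b1 : ℝ) * t := by linarith
    exact_mod_cast h7) (fun i => by
      refine le_trans ?_ (hdet i)
      refine le_trans (sum_le_sum_of_subset_of_nonneg hT'sub fun t₁ _ _ =>
        sum_nonneg fun t₂ _ => pow_nonneg (GG_nonneg _) _) ?_
      apply sum_le_sum
      intro t₁ _
      exact sum_le_sum_of_subset_of_nonneg hT'sub fun t₂ _ _ => pow_nonneg (GG_nonneg _) _)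
  rw [← hC₂def] at hS
  -- double counting
  set PF := Fintype.piFinset (fun _ : Fin k => Ioc b1 (2 * B)) with hPF
  set PB := Fintype.piFinset (fun _ : Fin k => Ioc B (2 * B)) with hPB
  have hPFsub : PF ⊆ PB := by
    intro b hb
    rw [hPF, Fintype.mem_piFinset] at hb
    rw [hPB, Fintype.mem_piFinset]
    intro i
    have := mem_Ioc.1 (hb i)
    exact mem_Ioc.2 ⟨by omega, this.2⟩
  set N' : (Fin k → ℕ) → ℝ := fun b => ∑ t ∈ T', ∏ i, pr (G i t + b i * t) with hN'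
  have hN'eq : ∀ b, N' b = primeG G b T' := fun b => (primeG_eq G b T').symm
  have hN'0 : ∀ b, 0 ≤ N' b := fun b => by rw [hN'eq]; exact Nat.cast_nonneg _
  have hswap : ∑ t ∈ T', ∏ i, nnG b1 B (G i) t = ∑ b ∈ PF, N' b := by
    simp only [hN', nnG]
    rw [sum_comm]
    apply sum_congr rfl
    intro t _
    rw [hPF, Finset.prod_univ_sum]
  rw [hswap] at hF
  have hN'le : ∀ b, N' b ≤ primeG G b T := by
    intro b
    rw [hN'eq]
    unfold primeG
    have := card_le_card (filter_subset_filter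
      (fun t : ℕ => ∀ i, (G i t + b i * t).toNat.Prime) hT'sub)
    exact_mod_cast this
  have hWz := Wz_pos z
  -- sieve average
  have hR : ∑ b ∈ PB, (roughG z G b T : ℝ) / Wz z ^ k ≤ (B + Pz z) ^ k * m := by
    have h1 : ∑ b ∈ PB, (roughG z G b T : ℝ) / Wz z ^ k =
        ∑ t ∈ T, ∏ i, ((∑ β ∈ Ioc B (2 * B), ro z (G i t + β * t)) / Wz z) := by
      rw [← sum_div, sum_congr rfl fun b _ => roughG_eq z G b T, sum_comm, sum_div]
      apply sum_congr rfl
      intro t _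
      rw [prod_div_distrib, prod_const, card_univ, Fintype.card_fin, Finset.prod_univ_sum]
    rw [h1, hm, mul_sum]
    apply sum_le_sum
    intro t ht
    have ht0 : 0 < t := by have := (mem_PP (hT ht)).1; omega
    calc _ ≤ ∏ _i : Fin k, ((B + Pz z) * GG t) := by
          apply prod_le_prod
          · intro i _
            exact div_nonneg (sum_nonneg fun β _ => ro_nonneg _ _) hWz.le
          · intro i _
            exact ro_sum z B t _ ht0
      _ = (B + Pz z) ^ k * GG t ^ k := by rw [prod_const, card_univ, Fintype.card_fin, mul_pow]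
  have hmcard : δ * X ≤ m := by
    refine hTcard.trans ?_
    rw [hm, card_eq_sum_ones]
    push_cast
    apply sum_le_sum
    intro t ht
    exact one_le_pow₀ (one_le_GG (by have := (mem_PP (hT ht)).1; omega))
  have hm0 : 0 < m := lt_of_lt_of_le (by positivity) hmcard
  set S := PB.filter (fun b =>
      θ * (roughG z G b T / Wz z ^ k) / L ^ k ≤ primeG G b T ∧
      ηf * X / Real.log B ^ k ≤ primeG G b T) with hSdef
  have hPBcard : (PB.card : ℝ) = B ^ k := by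
    rw [hPB, Fintype.card_piFinset]
    simp only [prod_const, card_univ, Fintype.card_fin, Nat.card_Ioc]
    have : 2 * B - B = B := by omega
    rw [this]; push_cast; rfl
  -- the bad b
  have hbad : ∑ b ∈ PF.filter (fun b => b ∉ S), N' b ≤
      θ₀ * ((B + Pz z) ^ k * m) / L ^ k + B ^ k * (2 ^ k * η₁ * X / L ^ k) := by
    have h1 : ∀ b ∈ PF.filter (fun b => b ∉ S), N' b ≤
        θ₀ * ((roughG z G b T : ℝ) / Wz z ^ k) / L ^ k + 2 ^ k * η₁ * X / L ^ k := by
      intro b hb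
      rw [mem_filter] at hb
      have hb1 : b ∈ PB := hPFsub hb.1
      have h2 : ¬ (θ * (roughG z G b T / Wz z ^ k) / L ^ k ≤ primeG G b T ∧
          ηf * X / Real.log B ^ k ≤ primeG G b T) := by
        intro h
        exact hb.2 (by rw [hSdef, mem_filter]; exact ⟨hb1, h⟩)
      have hR0 : 0 ≤ (roughG z G b T : ℝ) / Wz z ^ k := by positivity
      have h3 : 0 ≤ θ₀ * ((roughG z G b T : ℝ) / Wz z ^ k) / L ^ k := by positivity
      have h4 : 0 ≤ 2 ^ k * η₁ * X / L ^ k := by positivity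
      refine (hN'le b).trans ?_
      rw [not_and_or, not_le, not_le] at h2
      rcases h2 with h2 | h2
      · have h5 : θ * ((roughG z G b T : ℝ) / Wz z ^ k) / L ^ k ≤
            θ₀ * ((roughG z G b T : ℝ) / Wz z ^ k) / L ^ k := by gcongr
        linarith
      · have h5 : ηf * X / Real.log B ^ k ≤ 2 ^ k * η₁ * X / L ^ k := by
          rw [div_le_div_iff₀ (by positivity) (by positivity)]
          have h6 : ηf ≤ η₁ := (min_le_right _ _).trans (min_le_left _ _)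
          calc ηf * X * L ^ k ≤ η₁ * X * (2 * Real.log B) ^ k := by gcongr
            _ = _ := by rw [mul_pow]; ring
        linarith
    refine (sum_le_sum h1).trans ?_
    rw [sum_add_distrib]
    have hsub : PF.filter (fun b => b ∉ S) ⊆ PB := (filter_subset _ _).trans hPFsub
    apply add_le_add
    · calc _ ≤ ∑ b ∈ PB, θ₀ * ((roughG z G b T : ℝ) / Wz z ^ k) / L ^ k := by
            apply sum_le_sum_of_subset_of_nonneg hsub
            intro b _ _; positivity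
        _ = θ₀ * (∑ b ∈ PB, (roughG z G b T : ℝ) / Wz z ^ k) / L ^ k := by
            rw [← sum_div, ← mul_sum]
        _ ≤ _ := by gcongr
    · rw [sum_const, nsmul_eq_mul]
      have h2 : ((PF.filter (fun b => b ∉ S)).card : ℝ) ≤ B ^ k := by
        rw [← hPBcard]
        exact_mod_cast card_le_card hsub
      gcongr
  set Q : ℝ := B / L with hQ
  have hQ0 : 0 < Q := by positivity
  have hPzk : ((B : ℝ) + Pz z) ^ k ≤ (1 + κ / 8) * B ^ k := by
    have h1 : (Pz z : ℝ) ≤ (κ / (8 * 2 ^ k)) * B :=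
      hBP.trans (mul_le_mul_of_nonneg_right (min_le_left _ _) hB0.le)
    have h2 : (B : ℝ) + Pz z ≤ (1 + κ / (8 * 2 ^ k)) * B := by linarith
    have h3 : κ / (8 * 2 ^ k) ≤ 1 := by
      rw [div_le_one (by positivity)]
      have : (1 : ℝ) ≤ 2 ^ k := one_le_pow₀ (by norm_num)
      linarith
    calc ((B : ℝ) + Pz z) ^ k ≤ ((1 + κ / (8 * 2 ^ k)) * B) ^ k := pow_le_pow_left₀ (by positivity) h2 k
      _ = (1 + κ / (8 * 2 ^ k)) ^ k * B ^ k := mul_pow _ _ _
      _ ≤ (1 + 2 ^ k * (κ / (8 * 2 ^ k))) * B ^ k := by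
          have := pow_le_lin (show 0 ≤ κ / (8 * 2 ^ k) by positivity) h3 k
          gcongr
      _ = _ := by
          congr 2
          field_simp
  have hbad2 : θ₀ * ((B + Pz z) ^ k * m) / L ^ k + B ^ k * (2 ^ k * η₁ * X / L ^ k) ≤
      (θ₀ + κ / 4) * (Q ^ k * m) := by
    have eQ : Q ^ k = B ^ k / L ^ k := by rw [hQ, div_pow]
    have h1 : θ₀ * ((B + Pz z) ^ k * m) / L ^ k ≤ (θ₀ + κ / 8) * (Q ^ k * m) := by
      have h2 : θ₀ * ((B + Pz z) ^ k) ≤ (θ₀ + κ / 8) * B ^ k := by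
        calc θ₀ * ((B + Pz z) ^ k) ≤ θ₀ * ((1 + κ / 8) * B ^ k) := by gcongr
          _ = (θ₀ + θ₀ * (κ / 8)) * B ^ k := by ring
          _ ≤ (θ₀ + 1 * (κ / 8)) * B ^ k := by gcongr
          _ = _ := by ring
      calc θ₀ * ((B + Pz z) ^ k * m) / L ^ k = (θ₀ * ((B + Pz z) ^ k)) * m / L ^ k := by ring
        _ ≤ ((θ₀ + κ / 8) * B ^ k) * m / L ^ k := by gcongr
        _ = _ := by rw [eQ]; ring
    have h2 : B ^ k * (2 ^ k * η₁ * X / L ^ k) ≤ κ / 8 * (Q ^ k * m) := by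
      rw [eQ, hη₁]
      have h3 : (B : ℝ) ^ k * (2 ^ k * (δ * κ / (8 * 2 ^ k)) * X / L ^ k) =
          κ / 8 * (B ^ k / L ^ k * (δ * X)) := by
        field_simp
      rw [h3]
      gcongr
    linarith
  have hgood : (κ / 2) * (Q ^ k * m) ≤ ∑ b ∈ PF.filter (fun b => b ∈ S), N' b := by
    have h1 := sum_filter_add_sum_filter_not PF (fun b => b ∈ S) N'
    have h2 : (1 - (k * (2 * d + 7) + 2) * η₀) * (B / L) ^ k * m = (1 - κ / 8) * (Q ^ k * m) := by
      have e : (k * (2 * (d : ℝ) + 7) + 2) * η₀ = κ / 8 := haη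
      rw [e]; ring
    rw [h2] at hF
    have h3 : θ₀ = 1 - κ := by rw [hκ]; ring
    have h4 : (1 - κ / 8) * (Q ^ k * m) - (θ₀ + κ / 4) * (Q ^ k * m) = (5 * κ / 8) * (Q ^ k * m) := by
      rw [h3]; ring
    have h5 : (κ / 2) * (Q ^ k * m) ≤ (5 * κ / 8) * (Q ^ k * m) := by
      apply mul_le_mul_of_nonneg_right _ (by positivity)
      linarith
    linarith
  -- Cauchy-Schwarz
  have hCS : (∑ b ∈ PF.filter (fun b => b ∈ S), N' b) ^ 2 ≤
      (S.card : ℝ) * (C₂ * (X ^ 2 * (B / Real.log B ^ 2) ^ k)) := by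
    have h1 := sum_mul_sq_le_sq_mul_sq (PF.filter (fun b => b ∈ S)) (fun _ => (1 : ℝ)) N'
    simp only [one_mul, one_pow, sum_const, nsmul_eq_mul, mul_one] at h1
    refine h1.trans ?_
    apply mul_le_mul
    · have : (PF.filter (fun b => b ∈ S)).card ≤ S.card := by
        apply card_le_card
        intro b hb
        exact (mem_filter.1 hb).2
      exact_mod_cast this
    · refine le_trans ?_ hS
      exact sum_le_sum_of_subset_of_nonneg (filter_subset _ _) fun b _ _ => by positivity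
    · exact sum_nonneg fun b _ => by positivity
    · positivity
  have hfin : (κ / 2 * (Q ^ k * m)) ^ 2 ≤ (S.card : ℝ) * (C₂ * (X ^ 2 * (B / Real.log B ^ 2) ^ k)) := by
    refine le_trans ?_ hCS
    exact pow_le_pow_left₀ (by positivity) hgood 2
  have hQlow : (B / (2 * Real.log B)) ^ k * (δ * X) ≤ Q ^ k * m := by
    rw [hQ]
    gcongr
  have hfin2 : (κ / 2 * ((B / (2 * Real.log B)) ^ k * (δ * X))) ^ 2 ≤
      (S.card : ℝ) * (C₂ * (X ^ 2 * (B / Real.log B ^ 2) ^ k)) := by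
    refine le_trans ?_ hfin
    gcongr
  clear_value X
  have e1 : (κ / 2 * ((B / (2 * Real.log B)) ^ k * (δ * X))) ^ 2 =
      (κ ^ 2 * δ ^ 2 / (4 * 4 ^ k) * B ^ k) * (X ^ 2 * (B / Real.log B ^ 2) ^ k) := by
    have e4 : (4 : ℝ) ^ k = (2 ^ k) ^ 2 := by rw [← pow_mul, mul_comm k 2, pow_mul]; norm_num
    rw [div_pow, div_pow, mul_pow 2 (Real.log B) k, e4, ← pow_mul, ← pow_mul, mul_comm 2 k, pow_mul,
      pow_mul]
    field_simp
    ring
  rw [e1] at hfin2
  have hpos : 0 < X ^ 2 * (B / Real.log B ^ 2) ^ k := by positivity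
  have hfin3 : κ ^ 2 * δ ^ 2 / (4 * 4 ^ k) * B ^ k ≤ S.card * C₂ := by
    have h1 : (S.card : ℝ) * (C₂ * (X ^ 2 * (B / Real.log B ^ 2) ^ k)) =
        (S.card * C₂) * (X ^ 2 * (B / Real.log B ^ 2) ^ k) := by ring
    rw [h1] at hfin2
    exact le_of_mul_le_mul_right hfin2 hpos
  have hfin4 : κ ^ 2 * δ ^ 2 / (4 * 4 ^ k) / C₂ * B ^ k ≤ S.card := by
    have e2 : κ ^ 2 * δ ^ 2 / (4 * 4 ^ k) / C₂ * B ^ k = (κ ^ 2 * δ ^ 2 / (4 * 4 ^ k) * B ^ k) / C₂ := by
      ring
    rw [e2, div_le_iff₀ hC₂]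
    exact hfin3
  have hfin5 : ηf * B ^ k ≤ κ ^ 2 * δ ^ 2 / (4 * 4 ^ k) / C₂ * B ^ k := by
    gcongr
    exact (min_le_right _ _).trans (min_le_right _ _)
  exact hfin5.trans hfin4

end Pool.Agent.W218.PF
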