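import Mathlib
import Pool.Agent.W218.LF.Gmom

set_option autoImplicit false

/-! The singular series of the forms `n, a_i + b_i n`. -/

namespace Pool.Agent.W218.PF

open Finset Pool.Agent.Erdos456 Pool.Agent.Erdos456.Mert Pool.Agent.W218.HF Pool.Agent.W218.LF

/-- the number of residues `r` modulo `p` for which `p` divides `r * ∏ (a_i + b_i r)` -/
def om {k : ℕ} (a b : Fin k → ℤ) (p : ℕ) : ℕ :=
  ((range p).filter (fun r : ℕ => (p : ℤ) ∣ (r : ℤ) * ∏ i, (a i + b i * r))).card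

/-- the local factor at `p` of the singular series -/
noncomputable def fac {k : ℕ} (a b : Fin k → ℤ) (p : ℕ) : ℝ :=
  (1 - (om a b p : ℝ) / p) / (1 - 1 / (p : ℝ)) ^ (k + 1)

/-- the singular series -/
noncomputable def singular {k : ℕ} (a b : Fin k → ℤ) : ℝ := ∏' p : Nat.Primes, fac a b p

lemma om_le {k : ℕ} (a b : Fin k → ℤ) (p : ℕ) : om a b p ≤ p := by
  unfold om
  calc _ ≤ (range p).card := card_filter_le _ _
    _ = p := card_range p

lemma one_sub_inv_pos {p : ℕ} (hp : p.Prime) : 0 < 1 - 1 / (p : ℝ) := by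
  have hp2 : (2 : ℝ) ≤ p := by exact_mod_cast hp.two_le
  have : 1 / (p : ℝ) ≤ 1 / 2 := one_div_le_one_div_of_le (by norm_num) hp2
  linarith

lemma fac_nonneg {k : ℕ} (a b : Fin k → ℤ) {p : ℕ} (hp : p.Prime) : 0 ≤ fac a b p := by
  unfold fac
  have h1 := one_sub_inv_pos hp
  have hp0 : (0 : ℝ) < p := by exact_mod_cast hp.pos
  have h2 : (om a b p : ℝ) / p ≤ 1 := by
    rw [div_le_one hp0]; exact_mod_cast om_le a b p
  apply div_nonneg (by linarith) (by positivity)

lemma fac_le {k : ℕ} (a b : Fin k → ℤ) {p : ℕ} (hp : p.Prime) :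
    fac a b p ≤ 1 + 2 ^ (k + 2) / (p : ℝ) := by
  have h := pow_factor (k + 1) hp
  refine le_trans ?_ h
  unfold fac
  have h1 := one_sub_inv_pos hp
  have hp0 : (0 : ℝ) < p := by exact_mod_cast hp.pos
  have h2 : 0 ≤ (om a b p : ℝ) / p := by positivity
  rw [inv_pow, ← one_div, ← one_div]
  apply div_le_div_of_nonneg_right (by linarith) (by positivity)

/-- exactly `k + 1` roots -/
lemma om_eq {k : ℕ} (a b : Fin k → ℤ) {p : ℕ} (hp : p.Prime) (ha : ∀ i, ¬ (p : ℤ) ∣ a i)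
    (hb : ∀ i, ¬ (p : ℤ) ∣ b i) (hab : ∀ i j, i ≠ j → ¬ (p : ℤ) ∣ a i * b j - a j * b i) :
    om a b p = k + 1 := by
  classical
  have : Fact p.Prime := ⟨hp⟩
  have hz : ∀ n : ℤ, (p : ℤ) ∣ n ↔ (n : ZMod p) = 0 := fun n => (ZMod.intCast_zmod_eq_zero_iff_dvd n p).symm
  set ρ : Option (Fin k) → ZMod p := fun o => match o with
    | none => 0
    | some i => -(a i : ZMod p) / (b i : ZMod p) with hρ
  have hb' : ∀ i, (b i : ZMod p) ≠ 0 := fun i h => hb i ((hz _).2 h)
  have ha' : ∀ i, (a i : ZMod p) ≠ 0 := fun i h => ha i ((hz _).2 h)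
  have hinj : Function.Injective ρ := by
    intro o₁ o₂ h
    rcases o₁ with _ | i <;> rcases o₂ with _ | j
    · rfl
    · exfalso
      have h1 : (0 : ZMod p) = -(a j : ZMod p) / (b j : ZMod p) := h
      rw [eq_div_iff (hb' j), zero_mul] at h1
      exact ha' j (neg_eq_zero.1 h1.symm)
    · exfalso
      have h1 : -(a i : ZMod p) / (b i : ZMod p) = 0 := h
      rw [div_eq_zero_iff] at h1
      rcases h1 with h1 | h1
      · exact ha' i (neg_eq_zero.1 h1)
      · exact hb' i h1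
    · have h1 : -(a i : ZMod p) / (b i : ZMod p) = -(a j : ZMod p) / (b j : ZMod p) := h
      rw [div_eq_div_iff (hb' i) (hb' j)] at h1
      by_contra hne
      have hij : i ≠ j := fun h => hne (by rw [h])
      apply hab i j hij
      rw [hz]
      push_cast
      linear_combination -h1
  have hset : (range p).filter (fun r : ℕ => (p : ℤ) ∣ (r : ℤ) * ∏ i, (a i + b i * r)) =
      (univ : Finset (Option (Fin k))).image (fun o => (ρ o).val) := by
    ext r
    simp only [mem_filter, mem_range, mem_image, mem_univ, true_and]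
    have hiff : (p : ℤ) ∣ (r : ℤ) * ∏ i, (a i + b i * r) ↔ ∃ o, ρ o = (r : ZMod p) := by
      rw [hz]
      push_cast
      rw [mul_eq_zero, prod_eq_zero_iff]
      constructor
      · rintro (h | ⟨i, _, h⟩)
        · exact ⟨none, by show (0 : ZMod p) = r; rw [h]⟩
        · refine ⟨some i, ?_⟩
          show -(a i : ZMod p) / (b i : ZMod p) = r
          rw [div_eq_iff (hb' i)]
          linear_combination -h
      · rintro ⟨o, ho⟩
        rcases o with _ | i
        · left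
          have : (0 : ZMod p) = r := ho
          exact this.symm
        · right
          refine ⟨i, mem_univ i, ?_⟩
          have h1 : -(a i : ZMod p) / (b i : ZMod p) = r := ho
          rw [div_eq_iff (hb' i)] at h1
          linear_combination -h1
    rw [hiff]
    constructor
    · rintro ⟨h1, o, ho⟩
      exact ⟨o, by rw [ho, ZMod.val_natCast, Nat.mod_eq_of_lt h1]⟩
    · rintro ⟨o, ho⟩
      refine ⟨by rw [← ho]; exact ZMod.val_lt _, o, ?_⟩
      rw [← ho, ZMod.natCast_val, ZMod.cast_id]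
  unfold om
  rw [hset, card_image_of_injective]
  · simp
  · exact (ZMod.val_injective p).comp hinj

lemma pow_upper {n : ℕ} {u : ℝ} (h0 : 0 ≤ u) (h1 : u ≤ 1) :
    (1 - u) ^ n ≤ 1 - n * u + (n : ℝ) ^ 2 * u ^ 2 := by
  induction n with
  | zero => simp
  | succ n ih =>
    have h2 : (1 - u) ^ (n + 1) ≤ (1 - n * u + (n : ℝ) ^ 2 * u ^ 2) * (1 - u) := by
      rw [pow_succ]
      exact mul_le_mul_of_nonneg_right ih (by linarith)
    refine h2.trans ?_
    push_cast
    have h3 : 0 ≤ (n : ℝ) ^ 2 * u ^ 3 := by positivity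
    have h4 : 0 ≤ (n : ℝ) * u ^ 2 := by positivity
    have h5 : 0 ≤ u ^ 2 := by positivity
    nlinarith

/-- the local factor when there are `k + 1` roots -/
lemma fac_generic {k : ℕ} (a b : Fin k → ℤ) {p : ℕ} (hp : p.Prime) (h : om a b p = k + 1) :
    fac a b p ≤ 1 ∧ 1 - fac a b p ≤ 2 ^ (k + 1) * ((k : ℝ) + 1) ^ 2 / (p : ℝ) ^ 2 := by
  have hp2 : (2 : ℝ) ≤ p := by exact_mod_cast hp.two_le
  have hp0 : (0 : ℝ) < p := by linarith
  have h1 := one_sub_inv_pos hp
  unfold fac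
  rw [h]
  push_cast
  set u : ℝ := 1 / (p : ℝ) with hu
  have hu0 : 0 < u := by positivity
  have hu2 : u ≤ 1 / 2 := one_div_le_one_div_of_le (by norm_num) hp2
  have e1 : ((k : ℝ) + 1) / p = (k + 1) * u := by rw [hu]; ring
  have e2 : 2 ^ (k + 1) * ((k : ℝ) + 1) ^ 2 / (p : ℝ) ^ 2 = 2 ^ (k + 1) * ((k : ℝ) + 1) ^ 2 * u ^ 2 := by
    rw [hu]; ring
  rw [e1, e2]
  have hd : 0 < (1 - u) ^ (k + 1) := by positivity
  have h3 : 1 - (k + 1) * u ≤ (1 - u) ^ (k + 1) := by
    have := one_add_mul_le_pow (show (-2 : ℝ) ≤ -u by linarith) (k + 1)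
    push_cast at this
    have e : 1 + -u = 1 - u := by ring
    rw [e] at this
    linarith
  constructor
  · rw [div_le_one hd]; exact h3
  · have h4 := pow_upper (n := k + 1) hu0.le (by linarith)
    push_cast at h4
    have h5 : (1 / 2 : ℝ) ^ (k + 1) ≤ (1 - u) ^ (k + 1) := pow_le_pow_left₀ (by norm_num) (by linarith) _
    have h6 : 1 - (1 - (k + 1) * u) / (1 - u) ^ (k + 1) =
        ((1 - u) ^ (k + 1) - (1 - (k + 1) * u)) / (1 - u) ^ (k + 1) := by
      field_simp
    rw [h6, div_le_iff₀ hd]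
    have h7 : ((k : ℝ) + 1) ^ 2 * u ^ 2 = 2 ^ (k + 1) * ((k : ℝ) + 1) ^ 2 * u ^ 2 * (1 / 2 : ℝ) ^ (k + 1) := by
      have : (2 : ℝ) ^ (k + 1) * (1 / 2 : ℝ) ^ (k + 1) = 1 := by
        rw [← mul_pow]; norm_num
      calc ((k : ℝ) + 1) ^ 2 * u ^ 2 = ((k : ℝ) + 1) ^ 2 * u ^ 2 * (2 ^ (k + 1) * (1 / 2 : ℝ) ^ (k + 1)) := by
            rw [this, mul_one]
        _ = _ := by ring
    have h8 : 2 ^ (k + 1) * ((k : ℝ) + 1) ^ 2 * u ^ 2 * (1 / 2 : ℝ) ^ (k + 1) ≤
        2 ^ (k + 1) * ((k : ℝ) + 1) ^ 2 * u ^ 2 * (1 - u) ^ (k + 1) :=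
      mul_le_mul_of_nonneg_left h5 (by positivity)
    linarith

/-- generic primes: those larger than `N` not dividing the coefficients and determinants -/
def Gen {k : ℕ} (a b : Fin k → ℤ) (p : ℕ) : Prop :=
  (∀ i, ¬ (p : ℤ) ∣ a i) ∧ (∀ i, ¬ (p : ℤ) ∣ b i) ∧ ∀ i j, i ≠ j → ¬ (p : ℤ) ∣ a i * b j - a j * b i

/-- convergence of the singular series -/
lemma multipliable_fac {k : ℕ} (a b : Fin k → ℤ) (N : ℕ) (hN : ∀ p : ℕ, p.Prime → N < p → Gen a b p) :
    Multipliable (fun p : Nat.Primes => fac a b p) := by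
  set M : ℝ := 2 ^ (k + 1) * ((k : ℝ) + 1) ^ 2 + 2 ^ (k + 2) * (N : ℝ) ^ 2 + (N : ℝ) ^ 2 with hM
  have hbd : ∀ p : Nat.Primes, ‖fac a b p - 1‖ ≤ M * (1 / ((p : ℕ) : ℝ) ^ 2) := by
    intro p
    have hp := p.2
    have hp2 : (2 : ℝ) ≤ ((p : ℕ) : ℝ) := by exact_mod_cast hp.two_le
    have hp0 : (0 : ℝ) < ((p : ℕ) : ℝ) := by linarith
    rw [Real.norm_eq_abs, mul_one_div, abs_le]
    by_cases hpN : (p : ℕ) ≤ N
    · have hpN' : ((p : ℕ) : ℝ) ≤ N := by exact_mod_cast hpN
      have h1 := fac_nonneg a b hp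
      have h2 := fac_le a b hp
      have h3 : 1 ≤ M / ((p : ℕ) : ℝ) ^ 2 := by
        rw [le_div_iff₀ (by positivity), one_mul]
        have h5 : ((p : ℕ) : ℝ) ^ 2 ≤ (N : ℝ) ^ 2 := by gcongr
        have h6 : 0 ≤ 2 ^ (k + 1) * ((k : ℝ) + 1) ^ 2 + 2 ^ (k + 2) * (N : ℝ) ^ 2 := by positivity
        linarith
      have h4 : 2 ^ (k + 2) / ((p : ℕ) : ℝ) ≤ M / ((p : ℕ) : ℝ) ^ 2 := by
        rw [div_le_div_iff₀ hp0 (by positivity)]
        have h5 : ((p : ℕ) : ℝ) ≤ (N : ℝ) ^ 2 := by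
          have : (N : ℝ) ≤ (N : ℝ) ^ 2 := by
            have : (1 : ℝ) ≤ N := by linarith
            nlinarith
          linarith
        have h6 : (2 : ℝ) ^ (k + 2) * ((p : ℕ) : ℝ) ≤ M := by
          have h7 : (2 : ℝ) ^ (k + 2) * ((p : ℕ) : ℝ) ≤ 2 ^ (k + 2) * (N : ℝ) ^ 2 := by gcongr
          have h8 : 0 ≤ 2 ^ (k + 1) * ((k : ℝ) + 1) ^ 2 + (N : ℝ) ^ 2 := by positivity
          linarith
        calc (2 : ℝ) ^ (k + 2) * ((p : ℕ) : ℝ) ^ 2 = (2 ^ (k + 2) * ((p : ℕ) : ℝ)) * ((p : ℕ) : ℝ) := by ring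
          _ ≤ M * ((p : ℕ) : ℝ) := by gcongr
      constructor <;> linarith
    · push Not at hpN
      obtain ⟨g1, g2, g3⟩ := hN p hp hpN
      obtain ⟨h1, h2⟩ := fac_generic a b hp (om_eq a b hp g1 g2 g3)
      have h3 : 2 ^ (k + 1) * ((k : ℝ) + 1) ^ 2 / ((p : ℕ) : ℝ) ^ 2 ≤ M / ((p : ℕ) : ℝ) ^ 2 := by
        apply div_le_div_of_nonneg_right _ (by positivity)
        have : 0 ≤ 2 ^ (k + 2) * (N : ℝ) ^ 2 + (N : ℝ) ^ 2 := by positivity
        linarith
      have h4 : 0 ≤ M / ((p : ℕ) : ℝ) ^ 2 := by positivity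
      constructor <;> linarith
  have hs : Summable (fun p : Nat.Primes => M * (1 / ((p : ℕ) : ℝ) ^ 2)) := by
    apply Summable.mul_left
    exact (Real.summable_one_div_nat_pow.2 (by norm_num : 1 < 2)).comp_injective
      (Subtype.coe_injective)
  have h1 : Summable (fun p : Nat.Primes => ‖fac a b p - 1‖) :=
    Summable.of_nonneg_of_le (fun p => norm_nonneg _) hbd hs
  have h2 := multipliable_one_add_of_summable h1
  simpa using h2

/-- the tail of the singular series -/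
lemma singular_le {k : ℕ} (a b : Fin k → ℤ) (z : ℕ) (E : Finset ℕ)
    (hE : ∀ p ∈ E, p.Prime) (hgen : ∀ p : ℕ, p.Prime → z < p → p ∉ E → Gen a b p) :
    singular a b ≤ (∏ p ∈ (range (z + 1)).filter Nat.Prime, fac a b p) *
      Real.exp (∑ p ∈ E, 2 ^ (k + 2) / (p : ℝ)) := by
  classical
  have hmul : Multipliable (fun p : Nat.Primes => fac a b p) := by
    apply multipliable_fac a b (max z (E.sup id))
    intro p hp hlt
    apply hgen p hp (lt_of_le_of_lt (le_max_left _ _) hlt)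
    intro hpE
    have h1 : p ≤ E.sup id := Finset.le_sup (f := id) hpE
    have h2 := lt_of_le_of_lt (le_max_right z (E.sup id)) hlt
    omega
  have hprod := hmul.hasProd
  set s0 : Finset Nat.Primes := ((range (z + 1)).filter Nat.Prime).attach.image
    (fun p => (⟨p.1, (mem_filter.1 p.2).2⟩ : Nat.Primes)) with hs0
  have hmem : ∀ p : Nat.Primes, p ∈ s0 ↔ (p : ℕ) ≤ z := by
    intro p
    rw [hs0, mem_image]
    constructor
    · rintro ⟨q, _, hq⟩
      rw [← hq]
      have := mem_range.1 (mem_filter.1 q.2).1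
      show q.1 ≤ z
      omega
    · intro h
      exact ⟨⟨p.1, mem_filter.2 ⟨mem_range.2 (by omega), p.2⟩⟩, mem_attach _ _, rfl⟩
  have hs0prod : ∏ p ∈ s0, fac a b p = ∏ p ∈ (range (z + 1)).filter Nat.Prime, fac a b p := by
    apply prod_bij (fun (p : Nat.Primes) _ => (p : ℕ))
    · intro p hp
      rw [hmem] at hp
      exact mem_filter.2 ⟨mem_range.2 (by omega), p.2⟩
    · intro p _ q _ h
      exact Subtype.ext h
    · intro q hq
      have h1 := mem_filter.1 hq
      exact ⟨⟨q, h1.2⟩, (hmem _).2 (by have := mem_range.1 h1.1; show q ≤ z; omega), rfl⟩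
    · intro p _; rfl
  apply le_of_tendsto hprod
  filter_upwards [Filter.eventually_ge_atTop s0] with s hs
  have hsub : s0 ⊆ s := hs
  rw [← Finset.prod_sdiff hsub, hs0prod, mul_comm]
  apply mul_le_mul_of_nonneg_left
  · have h1 : ∏ p ∈ s \ s0, fac a b p ≤
        ∏ p ∈ (s \ s0).filter (fun p : Nat.Primes => (p : ℕ) ∈ E), (1 + 2 ^ (k + 2) / ((p : ℕ) : ℝ)) := by
      rw [← prod_filter_mul_prod_filter_not (s \ s0) (fun p : Nat.Primes => (p : ℕ) ∈ E)]
      calc _ ≤ (∏ p ∈ (s \ s0).filter (fun p : Nat.Primes => (p : ℕ) ∈ E), (1 + 2 ^ (k + 2) / ((p : ℕ) : ℝ))) * 1 := by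
            apply mul_le_mul
            · apply prod_le_prod
              · intro p _; exact fac_nonneg a b p.2
              · intro p _; exact fac_le a b p.2
            · apply prod_le_one
              · intro p _; exact fac_nonneg a b p.2
              · intro p hp
                rw [mem_filter, mem_sdiff, hmem] at hp
                obtain ⟨g1, g2, g3⟩ := hgen p p.2 (by omega) hp.2
                exact (fac_generic a b p.2 (om_eq a b p.2 g1 g2 g3)).1
            · exact prod_nonneg fun p _ => fac_nonneg a b p.2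
            · exact prod_nonneg fun p _ => by positivity
        _ = _ := mul_one _
    refine h1.trans ?_
    have h2 : ∏ p ∈ (s \ s0).filter (fun p : Nat.Primes => (p : ℕ) ∈ E), (1 + 2 ^ (k + 2) / ((p : ℕ) : ℝ)) ≤
        Real.exp (∑ p ∈ (s \ s0).filter (fun p : Nat.Primes => (p : ℕ) ∈ E), 2 ^ (k + 2) / ((p : ℕ) : ℝ)) := by
      rw [Real.exp_sum]
      apply prod_le_prod
      · intro p _; positivity
      · intro p _
        have := Real.add_one_le_exp (2 ^ (k + 2) / ((p : ℕ) : ℝ))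
        linarith
    refine h2.trans (Real.exp_le_exp.2 ?_)
    have h3 : ∑ p ∈ (s \ s0).filter (fun p : Nat.Primes => (p : ℕ) ∈ E), 2 ^ (k + 2) / ((p : ℕ) : ℝ) =
        ∑ q ∈ ((s \ s0).filter (fun p : Nat.Primes => (p : ℕ) ∈ E)).image (fun p : Nat.Primes => (p : ℕ)),
          2 ^ (k + 2) / (q : ℝ) := by
      rw [sum_image]
      intro p _ q _ h
      exact Subtype.ext h
    rw [h3]
    apply sum_le_sum_of_subset_of_nonneg
    · intro q hq
      rw [mem_image] at hq
      obtain ⟨p, hp, rfl⟩ := hq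
      exact (mem_filter.1 hp).2
    · intro q _ _; positivity
  · exact prod_nonneg fun p hp => fac_nonneg a b (mem_filter.1 hp).2

end Pool.Agent.W218.PF
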