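import Mathlib
import Pool.Agent.W218.PF.Main3
import Pool.Agent.W218.PF.Sing
import Pool.Agent.H373R2.BH.Local

set_option autoImplicit false

/-! The primes `q ≤ x` for which all `a_i + b_i q` have no prime factor `≤ z`. -/

namespace Pool.Agent.W218.PF

open Finset Pool.Agent.Erdos456 Pool.Agent.Erdos456.Mert Pool.Agent.W218.HF Pool.Agent.W218.LF H343E

/-- the primes up to `z` -/
def PS (z : ℕ) : Finset ℕ := (range (z + 1)).filter Nat.Prime

lemma PS_eq (z : ℕ) : PS z = (Icc 1 z).filter Nat.Prime := by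
  unfold PS
  ext p
  simp only [mem_filter, mem_Icc, mem_range]
  constructor
  · rintro ⟨h2, h3⟩; exact ⟨⟨h3.one_lt.le, by omega⟩, h3⟩
  · rintro ⟨h2, h3⟩; exact ⟨by omega, h3⟩

lemma prime_PS {z p : ℕ} (hp : p ∈ PS z) : p.Prime := (mem_filter.1 hp).2

lemma dvd_mod_iff3 {k : ℕ} (a : Fin k → ℤ) (b : Fin k → ℕ) (p t : ℕ) :
    (p : ℤ) ∣ ((t % p : ℕ) : ℤ) * ∏ i, (a i + (b i : ℤ) * ((t % p : ℕ) : ℤ)) ↔
      (p : ℤ) ∣ (t : ℤ) * ∏ i, (a i + (b i : ℤ) * t) := by
  have h : ((t % p : ℕ) : ℤ) ≡ (t : ℤ) [ZMOD p] := by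
    push_cast
    exact Int.mod_modEq _ _
  have h2 : ((t % p : ℕ) : ℤ) * ∏ i, (a i + (b i : ℤ) * ((t % p : ℕ) : ℤ)) ≡
      (t : ℤ) * ∏ i, (a i + (b i : ℤ) * t) [ZMOD p] := by
    refine Int.ModEq.mul h ?_
    apply Int.ModEq.prod
    intro i _
    exact Int.ModEq.add_left _ (Int.ModEq.mul_left _ h)
  rw [Int.dvd_iff_emod_eq_zero, Int.dvd_iff_emod_eq_zero, h2]

open Classical in
/-- the number of good classes -/
lemma good_classes {k : ℕ} (a : Fin k → ℤ) (b : Fin k → ℕ) (z : ℕ) :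
    (((range (∏ p ∈ PS z, p)).filter (fun u : ℕ => ∀ p ∈ PS z,
      ¬ (p : ℤ) ∣ (u : ℤ) * ∏ i, (a i + (b i : ℤ) * u))).card) =
      ∏ p ∈ PS z, (p - om a (fun i => (b i : ℤ)) p) := by
  have h2 := Pool.Agent.H373R2.BH.crt_count (PS z) (fun p hp => prime_PS hp)
    (fun p r => ¬ (p : ℤ) ∣ (r : ℤ) * ∏ i, (a i + (b i : ℤ) * r))
  have h3 : ((range (∏ p ∈ PS z, p)).filter (fun u : ℕ => ∀ p ∈ PS z,
      ¬ (p : ℤ) ∣ (u : ℤ) * ∏ i, (a i + (b i : ℤ) * u))).card =
      ((range (∏ p ∈ PS z, p)).filter (fun r : ℕ => ∀ p ∈ PS z,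
        ¬ (p : ℤ) ∣ ((r % p : ℕ) : ℤ) * ∏ i, (a i + (b i : ℤ) * ((r % p : ℕ) : ℤ)))).card := by
    congr 1
    apply filter_congr
    intro u _
    simp only [dvd_mod_iff3]
  rw [h3, h2]
  apply prod_congr rfl
  intro p _
  have h4 := card_filter_add_card_filter_not (s := range p)
    (fun r : ℕ => (p : ℤ) ∣ (r : ℤ) * ∏ i, (a i + (b i : ℤ) * r))
  rw [card_range] at h4
  have h5 : om a (fun i => (b i : ℤ)) p =
      ((range p).filter (fun r : ℕ => (p : ℤ) ∣ (r : ℤ) * ∏ i, (a i + (b i : ℤ) * r))).card := by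
    unfold om
    congr
  omega

lemma isLittle (K : ℕ) (c : ℝ) (hc : 0 < c) : ∃ x0 : ℕ, ∀ x : ℕ, x0 ≤ x →
    c * Real.log x ^ K ≤ x := by
  have h := Real.isLittleO_pow_log_id_atTop (n := K)
  have h1 := h.def (c := 1 / c) (by positivity)
  have h2 : ∀ᶠ x : ℝ in Filter.atTop, c * Real.log x ^ K ≤ x := by
    filter_upwards [h1, Filter.eventually_ge_atTop (1 : ℝ)] with x hx hx1
    rw [Real.norm_eq_abs, Real.norm_eq_abs, id, abs_of_nonneg (by linarith : 0 ≤ x)] at hx
    have h3 := (le_abs_self (Real.log x ^ K)).trans hx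
    calc c * Real.log x ^ K ≤ c * (1 / c * x) := by gcongr
      _ = x := by field_simp
  obtain ⟨y0, hy0⟩ := Filter.eventually_atTop.1 (tendsto_natCast_atTop_atTop.eventually h2)
  exact ⟨y0, hy0⟩

/-- the set of arguments -/
def TT (x y0 : ℕ) : Finset ℕ := (PP x).filter (fun q => y0 < q)

/-- the prime number theorem, lower bound -/
lemma pnt_low (ε : ℝ) (hε : 0 < ε) : ∃ x0 : ℕ, ∀ x : ℕ, x0 ≤ x →
    (1 - ε) * (x / Real.log x) ≤ pi1 x := by
  obtain ⟨x0, h⟩ := Pool.Agent.H373R2.SH.pnt_windowB 1 le_rfl ε hε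
  refine ⟨x0, fun x hx => ?_⟩
  have h1 := h x hx 0 (by omega)
  rw [Nat.add_zero] at h1
  rw [pi1_eq]
  simpa using h1

open Classical in
theorem rough_low3 (k z y0 : ℕ) (hzy : z ≤ y0) (ε : ℝ) (hε : 0 < ε) : ∃ x0 : ℕ, ∀ x : ℕ, x0 ≤ x →
    ∀ (a : Fin k → ℤ) (b : Fin k → ℕ), (∀ p ∈ PS z, om a (fun i => (b i : ℤ)) p < p) →
    (1 - ε) * (∏ p ∈ PS z, fac a (fun i => (b i : ℤ)) p) * (x / Real.log x) ≤
      (roughG z (fun i _ => a i) b (TT x y0) : ℝ) / Wz z ^ k := by
  set P : ℕ := ∏ p ∈ PS z, p with hP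
  have hP1 : 1 ≤ P := Nat.succ_le_of_lt (prod_pos fun p hp => (prime_PS hp).pos)
  have hP0 : (0 : ℝ) < P := by exact_mod_cast hP1
  obtain ⟨K, X0, hBV⟩ := bvR 2
  obtain ⟨x1, hx1⟩ := isLittle K ((P : ℝ) ^ 2) (by positivity)
  obtain ⟨x2, hx2⟩ := pnt_low (ε / 3) (by positivity)
  obtain ⟨x3, hx3⟩ := isLittle 1 (3 * (y0 + 1 : ℝ) * P / ε) (by positivity)
  refine ⟨max (max X0 x1) (max (max x2 x3) (max 3 ⌈Real.exp (3 * P / ε)⌉₊)), ?_⟩
  intro x hx a b hom
  have hxX0 : X0 ≤ x := ((le_max_left _ _).trans (le_max_left _ _)).trans hx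
  have hxx1 : x1 ≤ x := ((le_max_right _ _).trans (le_max_left _ _)).trans hx
  have hxx2 : x2 ≤ x := ((le_max_left _ _).trans ((le_max_left _ _).trans (le_max_right _ _))).trans hx
  have hxx3 : x3 ≤ x := ((le_max_right _ _).trans ((le_max_left _ _).trans (le_max_right _ _))).trans hx
  have hx3' : 3 ≤ x := ((le_max_left _ _).trans ((le_max_right _ _).trans (le_max_right _ _))).trans hx
  have hxe : ⌈Real.exp (3 * P / ε)⌉₊ ≤ x :=
    ((le_max_right _ _).trans ((le_max_right _ _).trans (le_max_right _ _))).trans hx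
  have hxr : (3 : ℝ) ≤ x := by exact_mod_cast hx3'
  have hx0 : (0 : ℝ) < x := by linarith
  have hlx1 : 1 ≤ Real.log x := by
    rw [Real.le_log_iff_exp_le hx0]
    have := Real.exp_one_lt_d9
    linarith
  have hlx0 : 0 < Real.log x := by linarith
  have hlxP : 3 * P / ε ≤ Real.log x := by
    rw [Real.le_log_iff_exp_le hx0]
    exact (Nat.le_ceil _).trans (by exact_mod_cast hxe)
  have hPsq : (P : ℝ) ^ 2 ≤ x / Real.log x ^ K := by
    rw [le_div_iff₀ (by positivity)]
    exact hx1 x hxx1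
  have hPle : (P : ℝ) ≤ x / Real.log x ^ K := by
    refine le_trans ?_ hPsq
    have : P ≤ P ^ 2 := Nat.le_self_pow (by norm_num) P
    exact_mod_cast this
  have hPNT := hx2 x hxx2
  have hy0x := hx3 x hxx3
  rw [pow_one] at hy0x
  set Gd := (range P).filter (fun u : ℕ => ∀ p ∈ PS z,
      ¬ (p : ℤ) ∣ (u : ℤ) * ∏ i, (a i + (b i : ℤ) * u)) with hGd
  have hcard : Gd.card = ∏ p ∈ PS z, (p - om a (fun i => (b i : ℤ)) p) := good_classes a b z
  have hN1 : 1 ≤ Gd.card := by
    rw [hcard]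
    exact Nat.succ_le_of_lt (prod_pos fun p hp => by have := hom p hp; omega)
  have hφ : Nat.totient P = ∏ p ∈ PS z, (p - 1) := by
    have : ∀ s : Finset ℕ, (∀ p ∈ s, p.Prime) → Nat.totient (∏ p ∈ s, p) = ∏ p ∈ s, (p - 1) := by
      intro s hs
      induction s using Finset.induction_on with
      | empty => simp
      | insert p s hp ih =>
        rw [prod_insert hp, prod_insert hp, Nat.totient_mul, Nat.totient_prime (hs p (mem_insert_self _ _)),
          ih fun q hq => hs q (mem_insert_of_mem hq)]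
        exact Nat.Coprime.prod_right fun q hq =>
          (Nat.coprime_primes (hs p (mem_insert_self _ _)) (hs q (mem_insert_of_mem hq))).2 (by
            rintro rfl; exact hp hq)
    exact this (PS z) fun p hp => prime_PS hp
  have hφ0 : (0 : ℝ) < Nat.totient P := by exact_mod_cast Nat.totient_pos.2 (by omega)
  have hφP : (Nat.totient P : ℝ) ≤ P := by exact_mod_cast Nat.totient_le P
  -- each good class
  have hclass : ∀ r ∈ Gd, pi1 x / (Nat.totient P : ℝ) - x / Real.log x ^ 2 ≤ piAP x P r := by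
    intro r hr
    rw [hGd, mem_filter, mem_range] at hr
    have hcop : IsCoprime (P : ℤ) (r : ℤ) := by
      rw [Nat.isCoprime_iff_coprime, hP]
      apply Nat.Coprime.prod_left
      intro p hp
      rw [(prime_PS hp).coprime_iff_not_dvd]
      intro hpr
      apply hr.2 p hp
      exact dvd_mul_of_dvd_left (by exact_mod_cast hpr) _
    have h := hBV x hxX0 P hPle hPsq (fun _ => (r : ℤ)) {P} (by
      rw [singleton_subset_iff, mem_Icc]; exact ⟨hP1, le_rfl⟩) (by
      intro t ht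
      rw [mem_singleton] at ht
      rw [ht]; exact hcop)
    rw [sum_singleton] at h
    have e : ((r : ℤ) % (P : ℤ)).toNat = r := by
      rw [← Int.natCast_mod, Int.toNat_natCast, Nat.mod_eq_of_lt hr.1]
    rw [e] at h
    have := (abs_le.1 h).1
    linarith
  -- the rough count
  have hcount : ∑ r ∈ Gd, piAP x P r ≤ (roughG z (fun i _ => a i) b (TT x y0) : ℝ) + (y0 + 1 : ℝ) := by
    have h1 : ∑ r ∈ Gd, piAP x P r =
        (((Gd.biUnion fun r => (Icc 1 x).filter (fun p => p.Prime ∧ p ≡ r [MOD P])).card : ℕ) : ℝ) := by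
      rw [card_biUnion]
      · push_cast
        rfl
      · intro r hr s hs hrs
        rw [Function.onFun, disjoint_left]
        intro p hp hp'
        rw [mem_filter] at hp hp'
        rw [mem_coe, hGd, mem_filter, mem_range] at hr hs
        apply hrs
        have h2 : r ≡ s [MOD P] := hp.2.2.symm.trans hp'.2.2
        exact Nat.ModEq.eq_of_lt_of_lt h2 hr.1 hs.1
    rw [h1]
    have h2 : (Gd.biUnion fun r => (Icc 1 x).filter (fun p => p.Prime ∧ p ≡ r [MOD P])) ⊆
        ((TT x y0).filter (fun t : ℕ => ∀ i, ∀ p ≤ z, p.Prime →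
          ¬ ((p : ℤ) ∣ (fun (i : Fin k) (_ : ℕ) => a i) i t + b i * t))) ∪ range (y0 + 1) := by
      intro t ht
      rw [mem_biUnion] at ht
      obtain ⟨r, hr, ht⟩ := ht
      rw [mem_filter, mem_Icc] at ht
      rw [hGd, mem_filter, mem_range] at hr
      rw [mem_union, mem_range]
      by_cases hty : t ≤ y0
      · right; omega
      · left
        rw [mem_filter]
        refine ⟨?_, ?_⟩
        · unfold TT
          simp only [PP, mem_filter, mem_Icc]
          exact ⟨⟨⟨ht.1.1, ht.1.2⟩, ht.2.1⟩, by omega⟩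
        · intro i p hpz hpp hdvd
          have hp : p ∈ PS z := by
            unfold PS
            rw [mem_filter, mem_range]; exact ⟨by omega, hpp⟩
          have h3 := hr.2 p hp
          rw [← dvd_mod_iff3] at h3
          have h4 : t % p = r % p := by
            have : t ≡ r [MOD p] := ht.2.2.of_dvd (dvd_prod_of_mem (fun p => p) hp)
            exact this
          rw [← h4, dvd_mod_iff3] at h3
          apply h3
          exact dvd_mul_of_dvd_right (Dvd.dvd.trans hdvd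
            (dvd_prod_of_mem (fun j => a j + (b j : ℤ) * (t : ℤ)) (mem_univ i))) _
    have h3 := (card_le_card h2).trans (card_union_le _ _)
    rw [card_range] at h3
    have h4 : (((Gd.biUnion fun r => (Icc 1 x).filter (fun p => p.Prime ∧ p ≡ r [MOD P])).card : ℕ) : ℝ) ≤
        ((roughG z (fun i _ => a i) b (TT x y0) + (y0 + 1) : ℕ) : ℝ) := by
      refine Nat.cast_le.2 (h3.trans (le_of_eq ?_))
      unfold roughG
      congr
    refine h4.trans (le_of_eq ?_)
    push_cast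
    ring
  -- combine
  have hWz : Wz z = ∏ p ∈ PS z, (1 - 1 / (p : ℝ)) := by
    unfold Wz; rw [PS_eq]
  have hWz0 := Wz_pos z
  set F : ℝ := ∏ p ∈ PS z, fac a (fun i => (b i : ℤ)) p with hF
  have hFeq : F * Wz z ^ k = Gd.card / Nat.totient P := by
    rw [hF, hWz, hcard, hφ, ← prod_pow, ← prod_mul_distrib]
    push_cast
    rw [← prod_div_distrib]
    apply prod_congr rfl
    intro p hp
    have hpp := prime_PS hp
    have hp1 : 1 ≤ p := hpp.one_lt.le
    rw [Nat.cast_sub (om_le _ _ _), Nat.cast_sub hp1]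
    have h1 := one_sub_inv_pos hpp
    have hp0 : (0 : ℝ) < p := by exact_mod_cast hpp.pos
    have hp2 : (2 : ℝ) ≤ p := by exact_mod_cast hpp.two_le
    have hpm : (p : ℝ) - 1 ≠ 0 := by
      have : (0 : ℝ) < (p : ℝ) - 1 := by linarith
      exact this.ne'
    unfold fac
    rw [pow_succ (1 - 1 / (p : ℝ)) k]
    have e1 : 1 - 1 / (p : ℝ) = ((p : ℝ) - 1) / p := by field_simp
    have e2 : (1 - (om a (fun i => (b i : ℤ)) p : ℝ) / p) = ((p : ℝ) - om a (fun i => (b i : ℤ)) p) / p := by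
      field_simp
    have h2 : (1 - 1 / (p : ℝ)) ^ k ≠ 0 := by positivity
    rw [e2, div_mul_eq_mul_div, mul_comm ((1 - 1 / (p : ℝ)) ^ k) (1 - 1 / (p : ℝ)),
      mul_div_mul_right _ _ h2, e1]
    push_cast
    field_simp
  have hsum := sum_le_sum hclass
  rw [sum_const, nsmul_eq_mul] at hsum
  set N : ℝ := (Gd.card : ℝ) with hN
  have hN0 : 1 ≤ N := by rw [hN]; exact_mod_cast hN1
  set X : ℝ := x / Real.log x with hX
  have hX0 : 0 < X := by rw [hX]; positivity
  have hXl : x / Real.log x ^ 2 = X / Real.log x := by rw [hX]; field_simp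
  rw [le_div_iff₀ (by positivity)]
  have e3 : (1 - ε) * F * X * Wz z ^ k = (1 - ε) * (N / Nat.totient P) * X := by
    calc (1 - ε) * F * X * Wz z ^ k = (1 - ε) * (F * Wz z ^ k) * X := by ring
      _ = _ := by rw [hFeq]
  rw [e3]
  have g1 : N * (X / Real.log x) ≤ ε / 3 * (N / Nat.totient P) * X := by
    have h1 : (Nat.totient P : ℝ) ≤ ε / 3 * Real.log x := by
      rw [div_le_iff₀ hε] at hlxP
      linarith
    have h2 : 1 / Real.log x ≤ ε / 3 / Nat.totient P := by
      rw [div_le_div_iff₀ hlx0 hφ0]; linarith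
    calc N * (X / Real.log x) = N * X * (1 / Real.log x) := by ring
      _ ≤ N * X * (ε / 3 / Nat.totient P) := by gcongr
      _ = _ := by ring
  have g2 : (y0 + 1 : ℝ) ≤ ε / 3 * (N / Nat.totient P) * X := by
    have h1 : 3 * (y0 + 1 : ℝ) * P / ε ≤ X := by
      rw [hX, le_div_iff₀ hlx0]; exact hy0x
    have h2 : (1 : ℝ) / P ≤ N / Nat.totient P := by
      rw [div_le_div_iff₀ hP0 hφ0]
      calc 1 * (Nat.totient P : ℝ) ≤ 1 * P := by linarith
        _ ≤ N * P := mul_le_mul_of_nonneg_right hN0 hP0.le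
    calc (y0 + 1 : ℝ) = ε / 3 * (1 / P) * (3 * (y0 + 1 : ℝ) * P / ε) := by field_simp
      _ ≤ ε / 3 * (N / Nat.totient P) * X := by gcongr
  have g3 : (1 - ε / 3) * (N / Nat.totient P) * X ≤ N * (pi1 x / (Nat.totient P : ℝ)) := by
    calc (1 - ε / 3) * (N / Nat.totient P) * X = (N / Nat.totient P) * ((1 - ε / 3) * X) := by ring
      _ ≤ (N / Nat.totient P) * pi1 x := by gcongr
      _ = _ := by ring
  rw [hXl, mul_sub] at hsum
  have e4 : (1 - ε) * (N / Nat.totient P) * X = (1 - ε / 3) * (N / Nat.totient P) * X -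
      ε / 3 * (N / Nat.totient P) * X - ε / 3 * (N / Nat.totient P) * X := by ring
  rw [e4]
  linarith

end Pool.Agent.W218.PF
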