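import Mathlib
import Pool.Agent.W218.PF.Rough3

set_option autoImplicit false

/-! For most `b` the singular series is close to its truncation. -/

namespace Pool.Agent.W218.PF

open Finset Pool.Agent.Erdos456 Pool.Agent.Erdos456.Mert Pool.Agent.W218.HF Pool.Agent.W218.LF

/-- the primes in `(z, Y]` -/
def PY (z Y : ℕ) : Finset ℕ := (Ioc z Y).filter Nat.Prime

lemma sum_PY_sq (z Y : ℕ) (hz : 1 ≤ z) : ∑ p ∈ PY z Y, 1 / (p : ℝ) ^ 2 ≤ 1 / (z : ℝ) := by
  by_cases h : z ≤ Y
  · have h1 := sum_Ioc_inv_sq_le_sub (α := ℝ) (k := z) (n := Y) (by omega) h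
    have h2 : ∑ p ∈ PY z Y, 1 / (p : ℝ) ^ 2 ≤ ∑ i ∈ Ioc z Y, ((i : ℝ) ^ 2)⁻¹ := by
      calc ∑ p ∈ PY z Y, 1 / (p : ℝ) ^ 2 ≤ ∑ p ∈ Ioc z Y, 1 / (p : ℝ) ^ 2 :=
            sum_le_sum_of_subset_of_nonneg (filter_subset _ _) fun p _ _ => by positivity
        _ = _ := by
            apply sum_congr rfl; intro p _; rw [one_div]
    have h3 : (0 : ℝ) ≤ (Y : ℝ)⁻¹ := by positivity
    rw [one_div]
    linarith
  · have : PY z Y = ∅ := by
      unfold PY
      rw [Ioc_eq_empty (by omega)]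
      simp
    rw [this, sum_empty]
    positivity

lemma sum_PY (z Y : ℕ) : ∑ p ∈ PY z Y, 1 / (p : ℝ) ≤ 1 + Real.log Y := by
  have h1 := harmonic_le_one_add_log Y
  refine le_trans ?_ h1
  rw [harmonic_eq_sum_Icc]
  push_cast
  calc ∑ p ∈ PY z Y, 1 / (p : ℝ) ≤ ∑ p ∈ Icc 1 Y, 1 / (p : ℝ) := by
        apply sum_le_sum_of_subset_of_nonneg
        · intro p hp
          have := mem_Ioc.1 (mem_filter.1 hp).1
          exact mem_Icc.2 ⟨by omega, this.2⟩
        · intro p _ _; positivity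
    _ = _ := by
        apply sum_congr rfl; intro p _; rw [one_div]

open Classical in
lemma div_sum (z Y B : ℕ) (α β : ℤ) (hz : 1 ≤ z) (hα : α ≠ 0) (hαz : α.natAbs ≤ z) :
    ∑ v ∈ Ioc B (2 * B), ∑ p ∈ (PY z Y).filter (fun p : ℕ => (p : ℤ) ∣ α * v - β), 1 / (p : ℝ) ≤
      2 * B / z + (1 + Real.log Y) := by
  have h1 : ∑ v ∈ Ioc B (2 * B), ∑ p ∈ (PY z Y).filter (fun p : ℕ => (p : ℤ) ∣ α * v - β), 1 / (p : ℝ) =
      ∑ p ∈ PY z Y, (((Ioc B (2 * B)).filter (fun v : ℕ => (p : ℤ) ∣ α * v - β)).card : ℝ) * (1 / (p : ℝ)) := by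
    simp only [sum_filter]
    rw [sum_comm]
    apply sum_congr rfl
    intro p _
    rw [← sum_filter, sum_const, nsmul_eq_mul]
  rw [h1]
  have h2 : ∀ p ∈ PY z Y, (((Ioc B (2 * B)).filter (fun v : ℕ => (p : ℤ) ∣ α * v - β)).card : ℝ) *
      (1 / (p : ℝ)) ≤ 2 * B * (1 / (p : ℝ) ^ 2) + 1 / (p : ℝ) := by
    intro p hp
    have hpp : p.Prime := (mem_filter.1 hp).2
    have hpz : z < p := (mem_Ioc.1 (mem_filter.1 hp).1).1
    have hp0 : (0 : ℝ) < p := by exact_mod_cast hpp.pos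
    have hcop : IsCoprime (p : ℤ) α := by
      rw [Int.isCoprime_iff_gcd_eq_one, Int.gcd, Int.natAbs_natCast]
      rw [← Nat.coprime_iff_gcd_eq_one, hpp.coprime_iff_not_dvd]
      intro h
      have := Nat.le_of_dvd (Int.natAbs_pos.2 hα) h
      omega
    have h3 := card_congr_le (X := 2 * B) (d := p)
      ((Ioc B (2 * B)).filter (fun v : ℕ => (p : ℤ) ∣ α * v - β)) (by
      intro v hv
      have := mem_Ioc.1 (mem_filter.1 hv).1
      exact mem_Icc.2 ⟨by omega, this.2⟩) (by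
      intro s hs t ht
      have hs' := (mem_filter.1 hs).2
      have ht' := (mem_filter.1 ht).2
      rw [Nat.modEq_iff_dvd]
      have h4 : (p : ℤ) ∣ α * ((t : ℤ) - s) := by
        have := dvd_sub ht' hs'
        have e : α * (t : ℤ) - β - (α * s - β) = α * ((t : ℤ) - s) := by ring
        rwa [e] at this
      exact hcop.dvd_of_dvd_mul_left h4)
    calc _ ≤ (((2 * B : ℕ) : ℝ) / p + 1) * (1 / (p : ℝ)) := by gcongr
      _ = _ := by push_cast; field_simp
  refine (sum_le_sum h2).trans ?_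
  rw [sum_add_distrib, ← mul_sum]
  have h3 := sum_PY_sq z Y hz
  have h4 := sum_PY z Y
  have h5 : 2 * (B : ℝ) * ∑ p ∈ PY z Y, 1 / (p : ℝ) ^ 2 ≤ 2 * B * (1 / z) := by gcongr
  have e : 2 * (B : ℝ) * (1 / z) = 2 * B / z := by ring
  linarith

/-- averaging over one coordinate -/
lemma slice {k : ℕ} (B : ℕ) (j : Fin k) (H : (Fin k → ℕ) → ℝ) (M : ℝ)
    (hH : ∀ b ∈ Fintype.piFinset (fun _ : Fin k => Ioc B (2 * B)),
      ∑ v ∈ Ioc B (2 * B), H (Function.update b j v) ≤ M) :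
    (B : ℝ) * ∑ b ∈ Fintype.piFinset (fun _ : Fin k => Ioc B (2 * B)), H b ≤ (B : ℝ) ^ k * M := by
  classical
  set Box := Fintype.piFinset (fun _ : Fin k => Ioc B (2 * B)) with hBox
  have hI : ((Ioc B (2 * B)).card : ℝ) = B := by
    rw [Nat.card_Ioc]
    have : 2 * B - B = B := by omega
    rw [this]
  have hBcard : (Box.card : ℝ) = (B : ℝ) ^ k := by
    rw [hBox, Fintype.card_piFinset]
    push_cast
    rw [hI, prod_const, card_univ, Fintype.card_fin]
  have h1 : ∑ b ∈ Box, ∑ v ∈ Ioc B (2 * B), H (Function.update b j v) =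
      ∑ b ∈ Box, ∑ _v ∈ Ioc B (2 * B), H b := by
    rw [← sum_product', ← sum_product']
    apply sum_nbij' (fun q => (Function.update q.1 j q.2, q.1 j))
      (fun q => (Function.update q.1 j q.2, q.1 j))
    · intro q hq
      rw [mem_product, hBox, Fintype.mem_piFinset] at hq ⊢
      refine ⟨fun i => ?_, hq.1 j⟩
      by_cases h : i = j
      · subst h; simpa using hq.2
      · simpa [h] using hq.1 i
    · intro q hq
      rw [mem_product, hBox, Fintype.mem_piFinset] at hq ⊢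
      refine ⟨fun i => ?_, hq.1 j⟩
      by_cases h : i = j
      · subst h; simpa using hq.2
      · simpa [h] using hq.1 i
    · intro q _
      simp
    · intro q _
      simp
    · intro q _
      rfl
  have h2 : ∑ b ∈ Box, ∑ _v ∈ Ioc B (2 * B), H b = B * ∑ b ∈ Box, H b := by
    rw [mul_sum]
    apply sum_congr rfl
    intro b _
    rw [sum_const, nsmul_eq_mul, hI]
  rw [← h2, ← h1]
  calc _ ≤ ∑ _b ∈ Box, M := sum_le_sum hH
    _ = _ := by rw [sum_const, nsmul_eq_mul, hBcard]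

open Classical in
/-- the exceptional primes -/
noncomputable def Ex {k : ℕ} (z Y : ℕ) (a : Fin k → ℤ) (b : Fin k → ℕ) : Finset ℕ :=
  (PY z Y).filter (fun p : ℕ => (∃ i, (p : ℤ) ∣ (b i : ℤ)) ∨
    ∃ i j, i ≠ j ∧ (p : ℤ) ∣ a i * (b j : ℤ) - a j * (b i : ℤ))

open Classical in
/-- the cost of `b` -/
noncomputable def cost {k : ℕ} (z Y : ℕ) (a : Fin k → ℤ) (b : Fin k → ℕ) : ℝ :=
  ∑ i, ∑ p ∈ (PY z Y).filter (fun p : ℕ => (p : ℤ) ∣ (b i : ℤ)), 1 / (p : ℝ) +
  ∑ i, ∑ j, if i ≠ j then (∑ p ∈ (PY z Y).filter (fun p : ℕ => (p : ℤ) ∣ a i * (b j : ℤ) -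
    a j * (b i : ℤ)), 1 / (p : ℝ) + if a i * (b j : ℤ) = a j * (b i : ℤ) then 1 else 0) else 0

lemma Ex_le_cost {k : ℕ} (z Y : ℕ) (a : Fin k → ℤ) (b : Fin k → ℕ) :
    ∑ p ∈ Ex z Y a b, 1 / (p : ℝ) ≤ cost z Y a b := by
  classical
  unfold Ex cost
  have h1 : ∀ p ∈ PY z Y, (if ((∃ i, (p : ℤ) ∣ (b i : ℤ)) ∨
      ∃ i j, i ≠ j ∧ (p : ℤ) ∣ a i * (b j : ℤ) - a j * (b i : ℤ)) then 1 / (p : ℝ) else 0) ≤
      ∑ i, (if (p : ℤ) ∣ (b i : ℤ) then 1 / (p : ℝ) else 0) +
      ∑ i, ∑ j, if i ≠ j then (if (p : ℤ) ∣ a i * (b j : ℤ) - a j * (b i : ℤ) then 1 / (p : ℝ) else 0)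
        else 0 := by
    intro p _
    have hn1 : 0 ≤ ∑ i, (if (p : ℤ) ∣ (b i : ℤ) then 1 / (p : ℝ) else 0) :=
      sum_nonneg fun i _ => by split_ifs <;> positivity
    have hn2 : 0 ≤ ∑ i, ∑ j, if i ≠ j then
        (if (p : ℤ) ∣ a i * (b j : ℤ) - a j * (b i : ℤ) then 1 / (p : ℝ) else 0) else 0 :=
      sum_nonneg fun i _ => sum_nonneg fun j _ => by split_ifs <;> positivity
    split_ifs with h
    · rcases h with ⟨i, hi⟩ | ⟨i, j, hij, hd⟩
      · have h2 : (if (p : ℤ) ∣ (b i : ℤ) then 1 / (p : ℝ) else 0) ≤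
            ∑ i, (if (p : ℤ) ∣ (b i : ℤ) then 1 / (p : ℝ) else 0) :=
          single_le_sum (f := fun i => if (p : ℤ) ∣ (b i : ℤ) then 1 / (p : ℝ) else 0)
            (fun i _ => by split_ifs <;> positivity) (mem_univ i)
        rw [if_pos hi] at h2
        linarith
      · have h2 : (if i ≠ j then (if (p : ℤ) ∣ a i * (b j : ℤ) - a j * (b i : ℤ) then 1 / (p : ℝ) else 0)
            else 0) ≤ ∑ j, if i ≠ j then
              (if (p : ℤ) ∣ a i * (b j : ℤ) - a j * (b i : ℤ) then 1 / (p : ℝ) else 0) else 0 :=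
          single_le_sum (f := fun j => if i ≠ j then
              (if (p : ℤ) ∣ a i * (b j : ℤ) - a j * (b i : ℤ) then 1 / (p : ℝ) else 0) else 0)
            (fun j _ => by split_ifs <;> positivity) (mem_univ j)
        have h3 : (∑ j, if i ≠ j then
              (if (p : ℤ) ∣ a i * (b j : ℤ) - a j * (b i : ℤ) then 1 / (p : ℝ) else 0) else 0) ≤
            ∑ i, ∑ j, if i ≠ j then
              (if (p : ℤ) ∣ a i * (b j : ℤ) - a j * (b i : ℤ) then 1 / (p : ℝ) else 0) else 0 :=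
          single_le_sum (f := fun i => ∑ j, if i ≠ j then
              (if (p : ℤ) ∣ a i * (b j : ℤ) - a j * (b i : ℤ) then 1 / (p : ℝ) else 0) else 0)
            (fun i _ => sum_nonneg fun j _ => by split_ifs <;> positivity) (mem_univ i)
        rw [if_pos hij, if_pos hd] at h2
        linarith
    · linarith
  rw [sum_filter]
  refine (sum_le_sum h1).trans ?_
  rw [sum_add_distrib, sum_comm]
  apply add_le_add
  · apply le_of_eq
    apply sum_congr rfl
    intro i _
    rw [sum_filter]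
  · rw [sum_comm]
    apply sum_le_sum
    intro i _
    rw [sum_comm]
    apply sum_le_sum
    intro j _
    by_cases hij : i ≠ j
    · simp only [if_pos hij]
      rw [sum_filter]
      have : (0 : ℝ) ≤ if a i * (b j : ℤ) = a j * (b i : ℤ) then 1 else 0 := by split_ifs <;> norm_num
      linarith
    · simp only [if_neg hij, sum_const_zero, le_refl]

lemma cost_sum {k : ℕ} (z Y B : ℕ) (hz : 1 ≤ z) (a : Fin k → ℤ) (ha : ∀ i, a i ≠ 0)
    (haz : ∀ i, (a i).natAbs ≤ z) :
    (B : ℝ) * ∑ b ∈ Fintype.piFinset (fun _ : Fin k => Ioc B (2 * B)), cost z Y a b ≤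
      (B : ℝ) ^ k * ((k + k ^ 2) * (2 * B / z + (2 + Real.log Y))) := by
  classical
  have hlY : 0 ≤ Real.log Y := Real.log_natCast_nonneg Y
  set M : ℝ := 2 * B / z + (2 + Real.log Y) with hM
  have hM0 : 0 ≤ M := by positivity
  unfold cost
  rw [sum_add_distrib, mul_add, sum_comm, mul_sum]
  have h1 : ∀ i : Fin k, (B : ℝ) * ∑ b ∈ Fintype.piFinset (fun _ : Fin k => Ioc B (2 * B)),
      ∑ p ∈ (PY z Y).filter (fun p : ℕ => (p : ℤ) ∣ (b i : ℤ)), 1 / (p : ℝ) ≤ (B : ℝ) ^ k * M := by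
    intro i
    apply slice B i (fun b => ∑ p ∈ (PY z Y).filter (fun p : ℕ => (p : ℤ) ∣ (b i : ℤ)), 1 / (p : ℝ))
    intro b _
    simp only [Function.update_self]
    have h2 := div_sum z Y B 1 0 hz one_ne_zero (by simpa using hz)
    simp only [one_mul, sub_zero] at h2
    rw [hM]; linarith
  have h2 : ∀ i j : Fin k, (B : ℝ) * ∑ b ∈ Fintype.piFinset (fun _ : Fin k => Ioc B (2 * B)),
      (if i ≠ j then (∑ p ∈ (PY z Y).filter (fun p : ℕ => (p : ℤ) ∣ a i * (b j : ℤ) -
        a j * (b i : ℤ)), 1 / (p : ℝ) + if a i * (b j : ℤ) = a j * (b i : ℤ) then 1 else 0) else 0) ≤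
      (B : ℝ) ^ k * M := by
    intro i j
    by_cases hij : i ≠ j
    · simp only [if_pos hij]
      apply slice B j (fun b => (∑ p ∈ (PY z Y).filter (fun p : ℕ => (p : ℤ) ∣ a i * (b j : ℤ) -
        a j * (b i : ℤ)), 1 / (p : ℝ) + if a i * (b j : ℤ) = a j * (b i : ℤ) then 1 else 0))
      intro b _
      simp only [Function.update_self, Function.update_of_ne hij]
      rw [sum_add_distrib]
      have h3 := div_sum z Y B (a i) (a j * (b i : ℤ)) hz (ha i) (haz i)
      have h4 : ∑ v ∈ Ioc B (2 * B), (if a i * (v : ℤ) = a j * (b i : ℤ) then (1 : ℝ) else 0) ≤ 1 := by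
        rw [← sum_filter, sum_const, nsmul_eq_mul, mul_one]
        have : ((Ioc B (2 * B)).filter (fun v : ℕ => a i * (v : ℤ) = a j * (b i : ℤ))).card ≤ 1 := by
          rw [card_le_one]
          intro s hs t ht
          have h5 : a i * (s : ℤ) = a i * t := (mem_filter.1 hs).2.trans (mem_filter.1 ht).2.symm
          exact_mod_cast mul_left_cancel₀ (ha i) h5
        exact_mod_cast this
      rw [hM]; linarith
    · simp only [if_neg hij, sum_const_zero, mul_zero]
      positivity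
  have h3 : ∑ i : Fin k, (B : ℝ) * ∑ b ∈ Fintype.piFinset (fun _ : Fin k => Ioc B (2 * B)),
      ∑ p ∈ (PY z Y).filter (fun p : ℕ => (p : ℤ) ∣ (b i : ℤ)), 1 / (p : ℝ) ≤ k * ((B : ℝ) ^ k * M) := by
    calc _ ≤ ∑ _i : Fin k, (B : ℝ) ^ k * M := sum_le_sum fun i _ => h1 i
      _ = _ := by rw [sum_const, card_univ, Fintype.card_fin, nsmul_eq_mul]
  have h4 : (B : ℝ) * ∑ b ∈ Fintype.piFinset (fun _ : Fin k => Ioc B (2 * B)),
      ∑ i, ∑ j, (if i ≠ j then (∑ p ∈ (PY z Y).filter (fun p : ℕ => (p : ℤ) ∣ a i * (b j : ℤ) -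
        a j * (b i : ℤ)), 1 / (p : ℝ) + if a i * (b j : ℤ) = a j * (b i : ℤ) then 1 else 0) else 0) ≤
      k ^ 2 * ((B : ℝ) ^ k * M) := by
    rw [sum_comm, mul_sum]
    calc _ ≤ ∑ _i : Fin k, ((k : ℝ) * ((B : ℝ) ^ k * M)) := by
          apply sum_le_sum
          intro i _
          rw [sum_comm, mul_sum]
          calc _ ≤ ∑ _j : Fin k, (B : ℝ) ^ k * M := sum_le_sum fun j _ => h2 i j
            _ = _ := by rw [sum_const, card_univ, Fintype.card_fin, nsmul_eq_mul]
      _ = _ := by rw [sum_const, card_univ, Fintype.card_fin, nsmul_eq_mul]; ring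
  have e : (B : ℝ) ^ k * ((k + k ^ 2) * M) = k * ((B : ℝ) ^ k * M) + k ^ 2 * ((B : ℝ) ^ k * M) := by ring
  rw [e]
  exact add_le_add h3 h4

open Classical in
/-- for most `b` the singular series is at most `1 + ε` times its truncation -/
theorem tail_bad (k : ℕ) (ε η : ℝ) (hε : 0 < ε) (hε1 : ε ≤ 1) (hη : 0 < η) : ∃ z0 : ℕ, ∀ z : ℕ,
    z0 ≤ z → ∃ B0 : ℕ, ∀ B : ℕ, B0 ≤ B → ∀ a : Fin k → ℤ, (∀ i, a i ≠ 0) →
    (∀ i, (a i).natAbs ≤ z) →
    ((((Fintype.piFinset (fun _ : Fin k => Ioc B (2 * B))).filter (fun b =>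
      ¬ singular a (fun i => (b i : ℤ)) ≤
        (1 + ε) * ∏ p ∈ PS z, fac a (fun i => (b i : ℤ)) p)).card : ℕ) : ℝ) ≤ η * B ^ k := by
  set ε' : ℝ := ε / 2 ^ (k + 3) with hε'
  have hε'0 : 0 < ε' := by positivity
  have hε'1 : ε' < 1 := by
    rw [hε', div_lt_one (by positivity)]
    have : (2 : ℝ) ^ 3 ≤ 2 ^ (k + 3) := pow_le_pow_right₀ (by norm_num) (by omega)
    linarith
  set c : ℝ := (k + k ^ 2) / ε' with hc
  have hc0 : 0 ≤ c := by positivity
  refine ⟨⌈4 * c / η⌉₊ + 1, ?_⟩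
  intro z hz
  have hz1 : 1 ≤ z := by omega
  have hzr : 4 * c / η ≤ z := (Nat.le_ceil _).trans (by
    have : ⌈4 * c / η⌉₊ ≤ z := by omega
    exact_mod_cast this)
  have hz0 : (0 : ℝ) < z := by exact_mod_cast hz1
  obtain ⟨x1, hx1⟩ := isLittle 1 (4 * c / η + 1) (by positivity)
  refine ⟨max (max x1 1) ⌈(4 * c / η + 1) * (2 + Real.log (4 * z))⌉₊, ?_⟩
  intro B hB a ha haz
  have hBx1 : x1 ≤ B := (le_max_left _ _).trans ((le_max_left _ _).trans hB)
  have hB1 : 1 ≤ B := (le_max_right _ _).trans ((le_max_left _ _).trans hB)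
  have hB2 : (4 * c / η + 1) * (2 + Real.log (4 * z)) ≤ B :=
    (Nat.le_ceil _).trans (by exact_mod_cast (le_max_right _ _).trans hB)
  have hB0 : (0 : ℝ) < B := by exact_mod_cast hB1
  have hBr1 : (1 : ℝ) ≤ B := by exact_mod_cast hB1
  set Y : ℕ := 4 * z * B with hY
  set Box := Fintype.piFinset (fun _ : Fin k => Ioc B (2 * B)) with hBox
  have hcs := cost_sum z Y B hz1 a ha haz
  set Bad := Box.filter (fun b => ¬ singular a (fun i => (b i : ℤ)) ≤
        (1 + ε) * ∏ p ∈ PS z, fac a (fun i => (b i : ℤ)) p) with hBad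
  have hnn : ∀ b : Fin k → ℕ, 0 ≤ cost z Y a b := by
    intro b
    unfold cost
    apply add_nonneg
    · exact sum_nonneg fun i _ => sum_nonneg fun p _ => by positivity
    · refine sum_nonneg fun i _ => sum_nonneg fun j _ => ?_
      split_ifs
      · exact add_nonneg (sum_nonneg fun p _ => by positivity) (by norm_num)
      · exact add_nonneg (sum_nonneg fun p _ => by positivity) (by norm_num)
      · exact le_rfl
  have hbadcost : ∀ b ∈ Bad, ε' ≤ cost z Y a b := by
    intro b hb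
    rw [hBad, mem_filter] at hb
    by_contra hcon
    push Not at hcon
    apply hb.2
    have hbox := hb.1
    rw [hBox, Fintype.mem_piFinset] at hbox
    have hbi : ∀ i, B < b i ∧ b i ≤ 2 * B := fun i => mem_Ioc.1 (hbox i)
    -- no degenerate pair
    have hnd : ∀ i j, i ≠ j → a i * (b j : ℤ) ≠ a j * (b i : ℤ) := by
      intro i j hij heq
      have h1 : (1 : ℝ) ≤ cost z Y a b := by
        unfold cost
        have h2 : (if i ≠ j then (∑ p ∈ (PY z Y).filter (fun p : ℕ => (p : ℤ) ∣ a i * (b j : ℤ) -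
            a j * (b i : ℤ)), 1 / (p : ℝ) + if a i * (b j : ℤ) = a j * (b i : ℤ) then 1 else 0) else 0) ≤
            ∑ j, (if i ≠ j then (∑ p ∈ (PY z Y).filter (fun p : ℕ => (p : ℤ) ∣ a i * (b j : ℤ) -
            a j * (b i : ℤ)), 1 / (p : ℝ) + if a i * (b j : ℤ) = a j * (b i : ℤ) then 1 else 0) else 0) :=
          single_le_sum (f := fun j => if i ≠ j then (∑ p ∈ (PY z Y).filter (fun p : ℕ =>
            (p : ℤ) ∣ a i * (b j : ℤ) - a j * (b i : ℤ)), 1 / (p : ℝ) +
            if a i * (b j : ℤ) = a j * (b i : ℤ) then 1 else 0) else 0)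
            (fun j _ => by
              split_ifs
              · exact add_nonneg (sum_nonneg fun p _ => by positivity) (by norm_num)
              · exact add_nonneg (sum_nonneg fun p _ => by positivity) (by norm_num)
              · exact le_rfl) (mem_univ j)
        have h3 : (∑ j, (if i ≠ j then (∑ p ∈ (PY z Y).filter (fun p : ℕ => (p : ℤ) ∣ a i * (b j : ℤ) -
            a j * (b i : ℤ)), 1 / (p : ℝ) + if a i * (b j : ℤ) = a j * (b i : ℤ) then 1 else 0) else 0)) ≤
            ∑ i, ∑ j, (if i ≠ j then (∑ p ∈ (PY z Y).filter (fun p : ℕ => (p : ℤ) ∣ a i * (b j : ℤ) -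
            a j * (b i : ℤ)), 1 / (p : ℝ) + if a i * (b j : ℤ) = a j * (b i : ℤ) then 1 else 0) else 0) :=
          single_le_sum (f := fun i => ∑ j, if i ≠ j then (∑ p ∈ (PY z Y).filter (fun p : ℕ =>
            (p : ℤ) ∣ a i * (b j : ℤ) - a j * (b i : ℤ)), 1 / (p : ℝ) +
            if a i * (b j : ℤ) = a j * (b i : ℤ) then 1 else 0) else 0)
            (fun i _ => sum_nonneg fun j _ => by
              split_ifs
              · exact add_nonneg (sum_nonneg fun p _ => by positivity) (by norm_num)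
              · exact add_nonneg (sum_nonneg fun p _ => by positivity) (by norm_num)
              · exact le_rfl) (mem_univ i)
        rw [if_pos hij, if_pos heq] at h2
        have h4 : 0 ≤ ∑ p ∈ (PY z Y).filter (fun p : ℕ => (p : ℤ) ∣ a i * (b j : ℤ) -
            a j * (b i : ℤ)), 1 / (p : ℝ) := sum_nonneg fun p _ => by positivity
        have h5 : 0 ≤ ∑ i, ∑ p ∈ (PY z Y).filter (fun p : ℕ => (p : ℤ) ∣ (b i : ℤ)), 1 / (p : ℝ) :=
          sum_nonneg fun i _ => sum_nonneg fun p _ => by positivity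
        linarith
      linarith
    have hs := singular_le a (fun i => (b i : ℤ)) z (Ex z Y a b) (by
      intro p hp
      unfold Ex at hp
      rw [mem_filter] at hp
      exact (mem_filter.1 hp.1).2) (by
      intro p hp hzp hpE
      have key : ∀ n : ℤ, n ≠ 0 → n.natAbs ≤ Y → (p : ℤ) ∣ n → p ∈ PY z Y := by
        intro n hn hnY hd
        unfold PY
        rw [mem_filter, mem_Ioc]
        have := Nat.le_of_dvd (Int.natAbs_pos.2 hn) (Int.natCast_dvd.1 hd)
        exact ⟨⟨hzp, by omega⟩, hp⟩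
      refine ⟨?_, ?_, ?_⟩
      · intro i hd
        have := Nat.le_of_dvd (Int.natAbs_pos.2 (ha i)) (Int.natCast_dvd.1 hd)
        have := haz i
        omega
      · intro i hd
        apply hpE
        unfold Ex
        rw [mem_filter]
        refine ⟨key (b i : ℤ) (by have := (hbi i).1; omega) ?_ hd, Or.inl ⟨i, hd⟩⟩
        rw [Int.natAbs_natCast, hY]
        have h1 := (hbi i).2
        have h2 : 1 * B ≤ z * B := Nat.mul_le_mul_right B hz1
        have e : 4 * z * B = 4 * (z * B) := by ring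
        omega
      · intro i j hij hd
        apply hpE
        unfold Ex
        rw [mem_filter]
        refine ⟨key (a i * (b j : ℤ) - a j * (b i : ℤ)) (sub_ne_zero.2 (hnd i j hij)) ?_ hd,
          Or.inr ⟨i, j, hij, hd⟩⟩
        have h1 : (a i * (b j : ℤ) - a j * (b i : ℤ)).natAbs ≤
            (a i * (b j : ℤ)).natAbs + (a j * (b i : ℤ)).natAbs := Int.natAbs_sub_le _ _
        rw [Int.natAbs_mul, Int.natAbs_mul, Int.natAbs_natCast, Int.natAbs_natCast] at h1
        have h2 : (a i).natAbs * b j ≤ z * (2 * B) := Nat.mul_le_mul (haz i) (hbi j).2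
        have h3 : (a j).natAbs * b i ≤ z * (2 * B) := Nat.mul_le_mul (haz j) (hbi i).2
        rw [hY]
        have e : 4 * z * B = z * (2 * B) + z * (2 * B) := by ring
        omega)
    refine hs.trans ?_
    have hP0 : 0 ≤ ∏ p ∈ PS z, fac a (fun i => (b i : ℤ)) p :=
      prod_nonneg fun p hp => fac_nonneg _ _ (prime_PS hp)
    have hexp : Real.exp (∑ p ∈ Ex z Y a b, 2 ^ (k + 2) / (p : ℝ)) ≤ 1 + ε := by
      have h1 : ∑ p ∈ Ex z Y a b, 2 ^ (k + 2) / (p : ℝ) = 2 ^ (k + 2) * ∑ p ∈ Ex z Y a b, 1 / (p : ℝ) := by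
        rw [mul_sum]; apply sum_congr rfl; intro p _; ring
      have h2 := Ex_le_cost z Y a b
      have h3 : ∑ p ∈ Ex z Y a b, 2 ^ (k + 2) / (p : ℝ) ≤ ε / 2 := by
        rw [h1]
        calc (2 : ℝ) ^ (k + 2) * ∑ p ∈ Ex z Y a b, 1 / (p : ℝ) ≤ 2 ^ (k + 2) * ε' := by
              apply mul_le_mul_of_nonneg_left _ (by positivity)
              linarith
          _ = ε / 2 := by rw [hε', pow_succ (2 : ℝ) (k + 2)]; field_simp
      have h4 : Real.exp (ε / 2) ≤ 1 + ε := by
        have h5 := Real.abs_exp_sub_one_sub_id_le (x := ε / 2) (by rw [abs_of_nonneg (by linarith)]; linarith)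
        have h6 := (abs_le.1 h5).2
        nlinarith
      exact (Real.exp_le_exp.2 h3).trans h4
    rw [mul_comm]
    exact mul_le_mul_of_nonneg_right hexp hP0
  have h1 : (Bad.card : ℝ) * ε' ≤ ∑ b ∈ Box, cost z Y a b := by
    calc (Bad.card : ℝ) * ε' = ∑ _b ∈ Bad, ε' := by rw [sum_const, nsmul_eq_mul]
      _ ≤ ∑ b ∈ Bad, cost z Y a b := sum_le_sum hbadcost
      _ ≤ _ := sum_le_sum_of_subset_of_nonneg (filter_subset _ _) fun b _ _ => hnn b
  have h2 : (B : ℝ) * ((Bad.card : ℝ) * ε') ≤ (B : ℝ) ^ k * ((k + k ^ 2) * (2 * B / z + (2 + Real.log Y))) :=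
    le_trans (by gcongr) hcs
  have hYlog : Real.log Y = Real.log (4 * z) + Real.log B := by
    rw [hY]; push_cast
    rw [Real.log_mul (by positivity) (by positivity)]
  have h3 : c * (2 * B / z + (2 + Real.log Y)) ≤ η * B := by
    have g1 : c * (2 * B / z) ≤ η / 2 * B := by
      have : c / z ≤ η / 4 := by
        rw [div_le_iff₀ hz0]
        rw [div_le_iff₀ hη] at hzr
        linarith
      calc c * (2 * B / z) = 2 * B * (c / z) := by ring
        _ ≤ 2 * B * (η / 4) := by gcongr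
        _ = _ := by ring
    have g2 : c * (2 + Real.log (4 * z)) ≤ η / 4 * B := by
      have h4 : 0 ≤ 2 + Real.log (4 * z) := by
        have : 0 ≤ Real.log ((4 : ℝ) * z) := Real.log_nonneg (by
          have : (1 : ℝ) ≤ z := by exact_mod_cast hz1
          linarith)
        linarith
      have h5 : 4 * c / η * (2 + Real.log (4 * z)) ≤ B := by
        have : 4 * c / η * (2 + Real.log (4 * z)) ≤ (4 * c / η + 1) * (2 + Real.log (4 * z)) := by
          gcongr; linarith
        linarith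
      calc c * (2 + Real.log (4 * z)) = η / 4 * (4 * c / η * (2 + Real.log (4 * z))) := by field_simp
        _ ≤ η / 4 * B := by gcongr
    have g3 : c * Real.log B ≤ η / 4 * B := by
      have h4 := hx1 B hBx1
      rw [pow_one] at h4
      have h5 : 4 * c / η * Real.log B ≤ B := by
        have h6 : 0 ≤ Real.log B := Real.log_nonneg hBr1
        have : 4 * c / η * Real.log B ≤ (4 * c / η + 1) * Real.log B := by gcongr; linarith
        linarith
      calc c * Real.log B = η / 4 * (4 * c / η * Real.log B) := by field_simp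
        _ ≤ η / 4 * B := by gcongr
    rw [hYlog]
    have e : c * (2 * B / z + (2 + (Real.log (4 * z) + Real.log B))) =
        c * (2 * B / z) + c * (2 + Real.log (4 * z)) + c * Real.log B := by ring
    rw [e]
    linarith
  have h4 : (B : ℝ) * (Bad.card : ℝ) ≤ (B : ℝ) ^ k * (η * B) := by
    have e : (B : ℝ) * (Bad.card : ℝ) = ((B : ℝ) * ((Bad.card : ℝ) * ε')) / ε' := by field_simp
    rw [e]
    calc ((B : ℝ) * ((Bad.card : ℝ) * ε')) / ε' ≤
          ((B : ℝ) ^ k * ((k + k ^ 2) * (2 * B / z + (2 + Real.log Y)))) / ε' := by gcongr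
      _ = (B : ℝ) ^ k * (c * (2 * B / z + (2 + Real.log Y))) := by rw [hc]; ring
      _ ≤ _ := by gcongr
  have h5 : (B : ℝ) * (Bad.card : ℝ) ≤ B * (η * (B : ℝ) ^ k) := by linarith
  exact le_of_mul_le_mul_left h5 hB0

end Pool.Agent.W218.PF
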