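import Mathlib
import Pool.Agent.W218.PF.Tail

set_option autoImplicit false

/-! Primes `q` with `a_i + q d_i` prime, `a_i` fixed, for a positive proportion of the `d`. -/

namespace Pool.Agent.W218.PF

open Finset Pool.Agent.Erdos456 Pool.Agent.Erdos456.Mert Pool.Agent.W218.HF Pool.Agent.W218.LF H343E

/-- moment of the differences -/
lemma det_const (m : ℕ) (hm : 1 ≤ m) (z : ℕ) : ∃ C : ℝ, 0 < C ∧ ∀ (x : ℕ) (α : ℤ) (T : Finset ℕ), 2 ≤ x →
    z ≤ x → α ≠ 0 → α.natAbs ≤ z → T ⊆ PP x →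
    ∑ t₁ ∈ T, ∑ t₂ ∈ T, GG ((t₁ : ℤ) * α - (t₂ : ℤ) * α).natAbs ^ m ≤ C * (x / Real.log x) ^ 2 := by
  classical
  obtain ⟨C₁, hC₁, h⟩ := gmomP m 1 hm
  set C : ℝ := C₁ * (2 * (z + 1)) ^ m * 80 with hC
  refine ⟨C, by positivity, ?_⟩
  intro x α T hx hzx hα hαz hT
  have hxr : (2 : ℝ) ≤ x := by exact_mod_cast hx
  have hx0 : (0 : ℝ) < x := by linarith
  have hlx : 0 < Real.log x := Real.log_pos (by linarith)
  have hX0 : 0 < x / Real.log x := by positivity
  have hGα : GG α.natAbs ≤ z + 1 := by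
    have h1 : 1 ≤ Nat.totient α.natAbs := Nat.totient_pos.2 (Int.natAbs_pos.2 hα)
    have h1r : (1 : ℝ) ≤ Nat.totient α.natAbs := by exact_mod_cast h1
    have h2 : (α.natAbs : ℝ) ≤ z := by exact_mod_cast hαz
    unfold GG
    rw [div_le_iff₀ (by linarith)]
    have h3 : (0 : ℝ) ≤ z := Nat.cast_nonneg z
    have h4 : ((z : ℝ) + 1) * 1 ≤ (z + 1) * Nat.totient α.natAbs :=
      mul_le_mul_of_nonneg_left h1r (by linarith)
    linarith
  have hin : ∀ t₁ ∈ T, ∑ t₂ ∈ T, GG ((t₁ : ℤ) * α - (t₂ : ℤ) * α).natAbs ^ m ≤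
      C₁ * (2 * (z + 1)) ^ m * (x / Real.log x) := by
    intro t₁ h₁
    have ht₁ := mem_PP (hT h₁)
    have h2 := h x (fun t₂ : ℕ => (t₁ : ℤ) * α - (t₂ : ℤ) * α) (t₁ * α.natAbs) hx
      (Nat.mul_pos ht₁.1 (Int.natAbs_pos.2 hα)) (by
        intro t ht
        have ht' := mem_PP ht
        have e : (t₁ : ℤ) * α - (t : ℤ) * α = α * ((t₁ : ℤ) - t) := by ring
        rw [e, Int.natAbs_mul]
        have h3 : ((t₁ : ℤ) - t).natAbs ≤ x := by omega
        have h4 : α.natAbs * ((t₁ : ℤ) - t).natAbs ≤ x * x := Nat.mul_le_mul (hαz.trans hzx) h3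
        have h5 : ((α.natAbs * ((t₁ : ℤ) - t).natAbs : ℕ) : ℝ) ≤ (x : ℝ) * x := by exact_mod_cast h4
        refine h5.trans ?_
        have h6 : (x : ℝ) ≤ Real.exp x := by
          have := Real.add_one_le_exp (x : ℝ); linarith
        calc (x : ℝ) * x ≤ Real.exp x * Real.exp x := by gcongr
          _ = Real.exp (2 * x) := by rw [← Real.exp_add]; congr 1; ring
          _ ≤ _ := Real.exp_le_exp.2 (by linarith)) (by
        intro p hp hpd
        refine ⟨{t₁ % p}, ?_, by simp, ?_⟩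
        · intro r hr
          rw [mem_singleton] at hr
          subst hr
          exact mem_range.2 (Nat.mod_lt _ hp.pos)
        · intro t ht
          rw [mem_singleton]
          have e : (t₁ : ℤ) * α - (t : ℤ) * α = α * ((t₁ : ℤ) - t) := by ring
          rw [e, Int.natAbs_mul] at ht
          rcases (hp.dvd_mul).1 ht with h3 | h3
          · exact absurd (dvd_mul_of_dvd_right h3 t₁) hpd
          · have h4 : t ≡ t₁ [MOD p] := by
              rw [Nat.modEq_iff_dvd]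
              exact Int.natCast_dvd.2 h3
            exact h4)
    have h3 : ∑ t₂ ∈ T, GG ((t₁ : ℤ) * α - (t₂ : ℤ) * α).natAbs ^ m ≤
        ∑ t₂ ∈ PP x, GG ((t₁ : ℤ) * α - (t₂ : ℤ) * α).natAbs ^ m :=
      sum_le_sum_of_subset_of_nonneg hT fun t _ _ => pow_nonneg (GG_nonneg _) _
    refine h3.trans (h2.trans ?_)
    have h4 : GG (t₁ * α.natAbs) ≤ 2 * (z + 1) := by
      have hz0 : (0 : ℝ) ≤ z := Nat.cast_nonneg z
      calc GG (t₁ * α.natAbs) ≤ GG t₁ * GG α.natAbs := GG_mul_le _ _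
        _ ≤ 2 * (z + 1) := mul_le_mul (GG_prime ht₁.2.2) hGα (GG_nonneg _) (by norm_num)
    have h5 := GG_nonneg (t₁ * α.natAbs)
    gcongr
  refine (sum_le_sum hin).trans ?_
  rw [sum_const, nsmul_eq_mul]
  have h6 : (T.card : ℝ) ≤ 80 * (x / Real.log x) := by
    have h7 : (T.card : ℝ) ≤ ((PP x).card : ℝ) := by exact_mod_cast card_le_card hT
    exact h7.trans (cheb hx)
  calc (T.card : ℝ) * (C₁ * (2 * (z + 1)) ^ m * (x / Real.log x))
      ≤ (80 * (x / Real.log x)) * (C₁ * (2 * (z + 1)) ^ m * (x / Real.log x)) := by gcongr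
    _ = _ := by rw [hC]; ring

/-- at most `k + 1` roots -/
lemma om_le_succ {k : ℕ} (a b : Fin k → ℤ) {p : ℕ} (hp : p.Prime) (ha : ∀ i, ¬ (p : ℤ) ∣ a i) :
    om a b p ≤ k + 1 := by
  classical
  have hpi : Prime (p : ℤ) := Nat.prime_iff_prime_int.1 hp
  have hsub : (range p).filter (fun r : ℕ => (p : ℤ) ∣ (r : ℤ) * ∏ i, (a i + b i * r)) ⊆
      {0} ∪ (univ : Finset (Fin k)).biUnion (fun i => (range p).filter (fun r : ℕ => (p : ℤ) ∣ a i + b i * r)) := by
    intro r hr
    rw [mem_filter, mem_range] at hr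
    rw [mem_union, mem_singleton, mem_biUnion]
    rcases hpi.dvd_or_dvd hr.2 with h | h
    · left
      have h1 : p ∣ r := by exact_mod_cast h
      exact Nat.eq_zero_of_dvd_of_lt h1 hr.1
    · right
      obtain ⟨i, _, hi⟩ := hpi.exists_mem_finset_dvd h
      exact ⟨i, mem_univ i, mem_filter.2 ⟨mem_range.2 hr.1, hi⟩⟩
  have hone : ∀ i, ((range p).filter (fun r : ℕ => (p : ℤ) ∣ a i + b i * r)).card ≤ 1 := by
    intro i
    rw [card_le_one]
    intro r hr s hs
    rw [mem_filter, mem_range] at hr hs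
    have hb : ¬ (p : ℤ) ∣ b i := by
      intro h
      apply ha i
      have := dvd_sub hr.2 (dvd_mul_of_dvd_left h (r : ℤ))
      rwa [add_sub_cancel_right] at this
    have h1 : (p : ℤ) ∣ b i * ((r : ℤ) - s) := by
      have := dvd_sub hr.2 hs.2
      have e : a i + b i * (r : ℤ) - (a i + b i * s) = b i * ((r : ℤ) - s) := by ring
      rwa [e] at this
    rcases hpi.dvd_or_dvd h1 with h2 | h2
    · exact absurd h2 hb
    · have h3 : s ≡ r [MOD p] := (Nat.modEq_iff_dvd).2 h2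
      exact (Nat.ModEq.eq_of_lt_of_lt h3 hs.1 hr.1).symm
  unfold om
  calc _ ≤ ({0} ∪ (univ : Finset (Fin k)).biUnion (fun i => (range p).filter
        (fun r : ℕ => (p : ℤ) ∣ a i + b i * r))).card := card_le_card hsub
    _ ≤ 1 + ∑ i : Fin k, ((range p).filter (fun r : ℕ => (p : ℤ) ∣ a i + b i * r)).card := by
        refine (card_union_le _ _).trans ?_
        rw [card_singleton]
        exact Nat.add_le_add_left card_biUnion_le 1
    _ ≤ 1 + ∑ _i : Fin k, 1 := Nat.add_le_add_left (sum_le_sum fun i _ => hone i) 1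
    _ = k + 1 := by simp [add_comm]

/-- admissibility from a large prime point -/
lemma adm_of_point {k : ℕ} (a : Fin k → ℤ) (b : Fin k → ℕ) (y0 q : ℕ) (hy : k + 1 < y0)
    (ha : ∀ i, a i ≠ 0 ∧ (a i).natAbs < y0) (hq : q.Prime) (hqy : y0 < q)
    (hb : ∀ i, 2 ≤ b i) (hpr : ∀ i, (a i + b i * q).toNat.Prime) (p : ℕ) (hp : p.Prime) :
    ∃ n : ℕ, ¬ (p : ℤ) ∣ (n : ℤ) * ∏ i, (a i + (b i : ℤ) * n) := by
  by_contra hcon
  push Not at hcon
  have hpi : Prime (p : ℤ) := Nat.prime_iff_prime_int.1 hp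
  have hpy : y0 < p := by
    rcases hpi.dvd_or_dvd (hcon q) with h | h
    · have h1 : p ∣ q := by exact_mod_cast h
      have := (Nat.prime_dvd_prime_iff_eq hp hq).1 h1
      omega
    · obtain ⟨i, _, hi⟩ := hpi.exists_mem_finset_dvd h
      have hpos : 0 ≤ a i + b i * q := by
        by_contra hneg
        push Not at hneg
        have h2 : (a i + b i * q).toNat = 0 := Int.toNat_of_nonpos hneg.le
        have := hpr i
        rw [h2] at this
        exact Nat.not_prime_zero this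
      have h3 : p ∣ (a i + b i * q).toNat := by
        have : (p : ℤ) ∣ (((a i + b i * q).toNat : ℕ) : ℤ) := by
          rw [Int.toNat_of_nonneg hpos]; exact hi
        exact_mod_cast this
      have h4 := (Nat.prime_dvd_prime_iff_eq hp (hpr i)).1 h3
      have h5 : (p : ℤ) = a i + b i * q := by rw [h4, Int.toNat_of_nonneg hpos]
      have h6 := (ha i).2
      have h7 : (2 : ℤ) * q ≤ b i * q := by
        have : 2 * q ≤ b i * q := Nat.mul_le_mul_right q (hb i)
        exact_mod_cast this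
      omega
  have h1 : om a (fun i => (b i : ℤ)) p = p := by
    unfold om
    rw [filter_true_of_mem (fun r _ => hcon r), card_range]
  have h2 := om_le_succ a (fun i => (b i : ℤ)) hp (by
    intro i h
    have := Nat.le_of_dvd (Int.natAbs_pos.2 (ha i).1) (Int.natCast_dvd.1 h)
    have := (ha i).2
    omega)
  omega

lemma om_lt_of_adm {k : ℕ} (a : Fin k → ℤ) (b : Fin k → ℕ) {p : ℕ} (hp : p.Prime)
    (h : ∃ n : ℕ, ¬ (p : ℤ) ∣ (n : ℤ) * ∏ i, (a i + (b i : ℤ) * n)) :
    om a (fun i => (b i : ℤ)) p < p := by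
  obtain ⟨n, hn⟩ := h
  unfold om
  calc _ < (range p).card := by
        apply card_lt_card
        rw [ssubset_iff_of_subset (filter_subset _ _)]
        refine ⟨n % p, mem_range.2 (Nat.mod_lt _ hp.pos), ?_⟩
        intro hmem
        have h1 := (mem_filter.1 hmem).2
        rw [dvd_mod_iff3] at h1
        exact hn h1
    _ = p := card_range p

lemma gcd_of_adm {k : ℕ} (a : Fin k → ℤ) (b : Fin k → ℕ)
    (h : ∀ p : ℕ, p.Prime → ∃ n : ℕ, ¬ (p : ℤ) ∣ (n : ℤ) * ∏ i, (a i + (b i : ℤ) * n)) (i : Fin k) :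
    Int.gcd (a i) (b i) = 1 := by
  by_contra hne
  obtain ⟨p, hp, hpd⟩ := Nat.exists_prime_and_dvd hne
  obtain ⟨n, hn⟩ := h p hp
  apply hn
  have h1 : (p : ℤ) ∣ a i := (Int.natCast_dvd_natCast.2 hpd).trans (Int.gcd_dvd_left _ _)
  have h2 : (p : ℤ) ∣ (b i : ℤ) := (Int.natCast_dvd_natCast.2 hpd).trans (Int.gcd_dvd_right _ _)
  apply dvd_mul_of_dvd_right
  exact (dvd_add h1 (dvd_mul_of_dvd_left h2 _)).trans
    (dvd_prod_of_mem (fun j => a j + (b j : ℤ) * (n : ℤ)) (mem_univ i))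

/-- the number of primes `q ≤ x` for which all `a_i + q d_i` are prime -/
def numQ {k : ℕ} (a : Fin k → ℤ) (d : Fin k → ℕ) (x : ℕ) : ℕ :=
  ((Icc 1 x).filter (fun q : ℕ => q.Prime ∧ ∀ i, (a i + q * d i).toNat.Prime)).card

open Classical in
theorem final8 (k : ℕ) (hk : 1 ≤ k) : ∃ K : ℕ, ∀ a : Fin k → ℤ, (∀ i, a i ≠ 0) → ∀ c : ℝ, 0 < c →
    ∀ θ : ℝ, θ < 1 → ∃ κ : ℝ, 0 < κ ∧ ∃ D0 : ℕ, ∀ D : ℕ, D0 ≤ D → ∀ x : ℕ,
    c * Real.log D ^ k ≤ x / Real.log x → x * Real.log D ^ K ≤ D →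
    κ * D ^ k ≤ (((Fintype.piFinset (fun _ : Fin k => Icc 1 D)).filter (fun d =>
      (∀ i, Int.gcd (a i) (d i) = 1) ∧
      (∀ p : ℕ, p.Prime → ∃ n : ℕ, ¬ (p : ℤ) ∣ (n : ℤ) * ∏ i, (a i + (d i : ℤ) * n)) ∧
      θ * singular a (fun i => (d i : ℤ)) * (x / (Real.log x * Real.log (D * x) ^ k)) ≤
        numQ a d x)).card : ℝ) := by
  obtain ⟨K, hmain⟩ := main3 k hk
  refine ⟨K + 1, ?_⟩
  intro a ha c hc θ hθ
  set θ₀ : ℝ := max θ 0 with hθ₀
  have hθ0 : 0 ≤ θ₀ := le_max_right _ _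
  have hθ1 : θ₀ < 1 := max_lt hθ one_pos
  have hθθ : θ ≤ θ₀ := le_max_left _ _
  set θ₁ : ℝ := (θ₀ + 1) / 2 with hθ₁
  set ε : ℝ := (1 - θ₀) / 4 with hε
  have hε0 : 0 < ε := by rw [hε]; linarith
  have hε1 : ε ≤ 1 := by rw [hε]; linarith
  set zA : ℕ := ∑ i, (a i).natAbs with hzA
  have hazA : ∀ i, (a i).natAbs ≤ zA := fun i =>
    single_le_sum (f := fun i => (a i).natAbs) (fun _ _ => Nat.zero_le _) (mem_univ i)
  obtain ⟨C₃, hC₃, hdet⟩ := det_const (6 * k) (by omega) zA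
  obtain ⟨η, hη, B₁, hmain⟩ := hmain 0 (1 / 2) (1 / c) C₃ (by norm_num) (by positivity) hC₃.le θ₁
    (by rw [hθ₁]; linarith)
  obtain ⟨z0, htail⟩ := tail_bad k ε (η / 2) hε0 hε1 (by positivity)
  set z : ℕ := max z0 zA with hz
  have haz : ∀ i, (a i).natAbs ≤ z := fun i => (hazA i).trans (le_max_right _ _)
  obtain ⟨B₂, htail⟩ := htail z (le_max_left _ _)
  set y0 : ℕ := z + k + 2 with hy0
  obtain ⟨x₁, hrough⟩ := rough_low3 k z y0 (by omega) ε hε0
  obtain ⟨x₂, hpnt⟩ := pnt_low (1 / 4) (by norm_num)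
  set R : ℝ := ((max (max x₁ x₂) (max y0 3) : ℕ) : ℝ) + 4 * y0 with hR
  refine ⟨η / 2 / 3 ^ k, by positivity, max (max (2 * B₁ + 2) (2 * B₂ + 2))
    (max (max (2 * z + 6) (2 * ⌈(Pz z : ℝ) / η⌉₊ + 2)) ⌈Real.exp (3 + R / c)⌉₊), ?_⟩
  intro D hD x hcx hxD
  have hDB1 : 2 * B₁ + 2 ≤ D := (le_max_left _ _).trans ((le_max_left _ _).trans hD)
  have hDB2 : 2 * B₂ + 2 ≤ D := (le_max_right _ _).trans ((le_max_left _ _).trans hD)
  have hDz : 2 * z + 6 ≤ D := (le_max_left _ _).trans ((le_max_left _ _).trans ((le_max_right _ _).trans hD))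
  have hDP : 2 * ⌈(Pz z : ℝ) / η⌉₊ + 2 ≤ D :=
    (le_max_right _ _).trans ((le_max_left _ _).trans ((le_max_right _ _).trans hD))
  have hDe : Real.exp (3 + R / c) ≤ D := (Nat.le_ceil _).trans (by
    exact_mod_cast (le_max_right _ _).trans ((le_max_right _ _).trans hD))
  set B : ℕ := D / 2 with hB
  have hBB1 : B₁ ≤ B := by omega
  have hBB2 : B₂ ≤ B := by omega
  have hBz : z + 3 ≤ B := by omega
  have hBP : ⌈(Pz z : ℝ) / η⌉₊ ≤ B := by omega
  have hB2D : 2 * B ≤ D := by omega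
  have hD3B : D ≤ 3 * B := by omega
  have hBr3 : (3 : ℝ) ≤ B := by
    have : 3 ≤ B := by omega
    exact_mod_cast this
  have hB0 : (0 : ℝ) < B := by linarith
  have hDB : (B : ℝ) ≤ D := by
    have : B ≤ D := by omega
    exact_mod_cast this
  have hD0 : (0 : ℝ) < D := by linarith
  have hlD : 3 + R / c ≤ Real.log D := by
    rw [Real.le_log_iff_exp_le hD0]; exact hDe
  have hR0 : 0 ≤ R := by rw [hR]; positivity
  have hRc : 0 ≤ R / c := by positivity
  have hlD3 : 3 ≤ Real.log D := by linarith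
  have hlBD : Real.log B ≤ Real.log D := Real.log_le_log hB0 hDB
  have hlB0 : 0 ≤ Real.log B := Real.log_nonneg (by linarith)
  set X : ℝ := x / Real.log x with hX
  -- sizes
  have hXR : R ≤ X := by
    refine le_trans ?_ hcx
    have h1 : R / c ≤ Real.log D ^ k := by
      calc R / c ≤ Real.log D := by linarith
        _ ≤ Real.log D ^ k := le_self_pow₀ (by linarith) (by omega)
    rw [div_le_iff₀ hc] at h1
    linarith
  have hM3 : ((3 : ℕ) : ℝ) ≤ ((max (max x₁ x₂) (max y0 3) : ℕ) : ℝ) := by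
    exact_mod_cast (le_max_right _ _).trans (le_max_right _ _)
  have hy00 : (0 : ℝ) ≤ y0 := Nat.cast_nonneg y0
  have hX3 : 3 ≤ X := by
    have : (3 : ℝ) ≤ R := by
      rw [hR]; push_cast at hM3 ⊢; linarith
    linarith
  have hx3 : 3 ≤ x := by
    by_contra hcon
    have hx2 : x ≤ 2 := by omega
    have h2 : X < 3 := by
      rw [hX]
      interval_cases x
      · simp
      · simp
      · have h3 := Real.log_two_gt_d9
        rw [div_lt_iff₀ (by push_cast; linarith)]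
        push_cast
        linarith
    linarith
  have hx3r : (3 : ℝ) ≤ x := by exact_mod_cast hx3
  have hx0 : 0 < (x : ℝ) := by linarith
  have hlx1 : 1 ≤ Real.log x := by
    rw [Real.le_log_iff_exp_le hx0]
    have := Real.exp_one_lt_d9
    linarith
  have hlx0 : 0 < Real.log x := by linarith
  have hXx : X ≤ x := by
    rw [hX, div_le_iff₀ hlx0]
    have := mul_le_mul_of_nonneg_left hlx1 hx0.le
    linarith
  have hX0 : 0 < X := by linarith
  have hxM : max (max x₁ x₂) (max y0 3) ≤ x := by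
    have : ((max (max x₁ x₂) (max y0 3) : ℕ) : ℝ) ≤ x := by
      have : ((max (max x₁ x₂) (max y0 3) : ℕ) : ℝ) ≤ R := by rw [hR]; linarith
      linarith
    exact_mod_cast this
  have hxx1 : x₁ ≤ x := (le_max_left _ _).trans ((le_max_left _ _).trans hxM)
  have hxx2 : x₂ ≤ x := (le_max_right _ _).trans ((le_max_left _ _).trans hxM)
  have hxy0 : y0 ≤ x := (le_max_left _ _).trans ((le_max_right _ _).trans hxM)
  have hXy0 : 4 * (y0 : ℝ) ≤ X := by
    have : 4 * (y0 : ℝ) ≤ R := by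
      rw [hR]
      have : (0 : ℝ) ≤ ((max (max x₁ x₂) (max y0 3) : ℕ) : ℝ) := Nat.cast_nonneg _
      linarith
    linarith
  -- the set of arguments
  set T : Finset ℕ := TT x y0 with hT
  have hTsub : T ⊆ PP x := filter_subset _ _
  have hTmem : ∀ t ∈ T, t.Prime ∧ y0 < t ∧ 1 ≤ t ∧ t ≤ x := by
    intro t ht
    rw [hT, TT, mem_filter] at ht
    have h1 := mem_PP ht.1
    exact ⟨h1.2.2, ht.2, h1.1, h1.2.1⟩
  have hTcard : 1 / 2 * X ≤ T.card := by
    have h1 := hpnt x hxx2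
    have h2 : pi1 x ≤ T.card + y0 := by
      have h3 : ((Icc 1 x).filter (fun p => p.Prime)) ⊆ T ∪ Icc 1 y0 := by
        intro p hp
        rw [mem_filter, mem_Icc] at hp
        rw [mem_union, mem_Icc, hT, TT, mem_filter]
        by_cases h4 : y0 < p
        · left
          refine ⟨?_, h4⟩
          simp only [PP, mem_filter, mem_Icc]
          exact hp
        · right; omega
      have h4 := (card_le_card h3).trans (card_union_le _ _)
      rw [Nat.card_Icc, Nat.add_sub_cancel] at h4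
      unfold pi1
      exact_mod_cast h4
    have h5 : (1 - 1 / 4) * X ≤ T.card + y0 := h1.trans h2
    linarith
  have hab : ∀ i, |((a i : ℤ) : ℝ)| ≤ B := by
    intro i
    have h1 : (((a i).natAbs : ℕ) : ℝ) = |((a i : ℤ) : ℝ)| := Nat.cast_natAbs _ |>.trans (by push_cast; rfl)
    rw [← h1]
    have : (a i).natAbs ≤ B := (haz i).trans (by omega)
    exact_mod_cast this
  have hM := hmain B hBB1 z (by
      have h1 : (Pz z : ℝ) / η ≤ B := (Nat.le_ceil _).trans (by exact_mod_cast hBP)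
      rw [div_le_iff₀ hη] at h1
      linarith) x (fun i _ => a i) T hTsub
    (by
      intro t ht i
      obtain ⟨h1, h2, _, _⟩ := hTmem t ht
      rw [Int.isCoprime_iff_gcd_eq_one, Int.gcd, Int.natAbs_natCast]
      rw [← Nat.coprime_iff_gcd_eq_one, h1.coprime_iff_not_dvd]
      intro h
      have h3 := Nat.le_of_dvd (Int.natAbs_pos.2 (ha i)) h
      have h4 := haz i
      omega)
    (by
      intro i t _
      have h1 : (0 : ℝ) ≤ B * t := by positivity
      have := hab i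
      linarith)
    (by
      intro i e he _ y hy _
      refine ⟨0, by
        rw [abs_zero]
        have : 0 ≤ y := le_trans (by positivity) hy
        positivity, ?_⟩
      intro t _ _ _
      rw [sub_zero]
      have h1 := hab i
      have : (0 : ℝ) ≤ ((0 : ℕ) : ℝ) * e * (B * y) := by simp
      linarith)
    (fun i => hdet x (a i) T (by omega) (by
      have : zA ≤ z := le_max_right _ _
      omega) (ha i) (hazA i) hTsub)
    (by
      have h1 : Real.log B ^ k ≤ Real.log D ^ k := pow_le_pow_left₀ hlB0 hlBD k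
      calc Real.log B ^ k ≤ Real.log D ^ k := h1
        _ = 1 / c * (c * Real.log D ^ k) := by field_simp
        _ ≤ 1 / c * X := by gcongr)
    (by
      have h1 : (x : ℝ) * Real.log D ^ K * 3 ≤ D := by
        calc (x : ℝ) * Real.log D ^ K * 3 ≤ x * Real.log D ^ K * Real.log D := by gcongr
          _ = x * Real.log D ^ (K + 1) := by ring
          _ ≤ D := hxD
      have h2 : (D : ℝ) ≤ 3 * B := by exact_mod_cast hD3B
      have h3 : (x : ℝ) * Real.log B ^ K ≤ x * Real.log D ^ K := by gcongr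
      linarith)
    hTcard
  have hbadc := htail B hBB2 a ha haz
  set PB := Fintype.piFinset (fun _ : Fin k => Ioc B (2 * B)) with hPB
  set S := PB.filter (fun b =>
      θ₁ * (roughG z (fun i _ => a i) b T / Wz z ^ k) / Real.log (B * x) ^ k ≤ primeG (fun i _ => a i) b T ∧
      η * X / Real.log B ^ k ≤ primeG (fun i _ => a i) b T) with hS
  set Bad := PB.filter (fun b => ¬ singular a (fun i => (b i : ℤ)) ≤
        (1 + ε) * ∏ p ∈ PS z, fac a (fun i => (b i : ℤ)) p) with hBad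
  have hM' : η * (B : ℝ) ^ k ≤ (S.card : ℝ) := hM
  have hgood : η / 2 * (B : ℝ) ^ k ≤ ((S \ Bad).card : ℝ) := by
    have h1 : S.card ≤ (S \ Bad).card + Bad.card := by
      have := card_le_card_sdiff_add_card (s := S) (t := Bad)
      omega
    have h2 : (S.card : ℝ) ≤ ((S \ Bad).card : ℝ) + (Bad.card : ℝ) := by exact_mod_cast h1
    linarith
  have hsub : S \ Bad ⊆ (Fintype.piFinset (fun _ : Fin k => Icc 1 D)).filter (fun d =>
      (∀ i, Int.gcd (a i) (d i) = 1) ∧
      (∀ p : ℕ, p.Prime → ∃ n : ℕ, ¬ (p : ℤ) ∣ (n : ℤ) * ∏ i, (a i + (d i : ℤ) * n)) ∧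
      θ * singular a (fun i => (d i : ℤ)) * (x / (Real.log x * Real.log (D * x) ^ k)) ≤
        numQ a d x) := by
    intro b hb
    rw [mem_sdiff, hS, mem_filter] at hb
    obtain ⟨⟨hbB, hb1, hb2⟩, hb3⟩ := hb
    have hbB' := hbB
    rw [hPB, Fintype.mem_piFinset] at hbB'
    have hbi : ∀ i, B < b i ∧ b i ≤ 2 * B := fun i => mem_Ioc.1 (hbB' i)
    have hsing : singular a (fun i => (b i : ℤ)) ≤
        (1 + ε) * ∏ p ∈ PS z, fac a (fun i => (b i : ℤ)) p := by
      by_contra h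
      exact hb3 (by rw [hBad, mem_filter]; exact ⟨hbB, h⟩)
    have hlBpos : 0 < Real.log B := Real.log_pos (by linarith)
    -- a prime point
    have hpos : 0 < primeG (fun i _ => a i) b T := by
      have h1 : (0 : ℝ) < η * X / Real.log B ^ k := by positivity
      have h2 : (0 : ℝ) < primeG (fun i _ => a i) b T := lt_of_lt_of_le h1 hb2
      exact_mod_cast h2
    unfold primeG at hpos
    rw [card_pos] at hpos
    obtain ⟨q, hq⟩ := hpos
    rw [mem_filter] at hq
    obtain ⟨hqT, hqp⟩ := hq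
    obtain ⟨q1, q2, q3, q4⟩ := hTmem q hqT
    have hadm : ∀ p : ℕ, p.Prime → ∃ n : ℕ, ¬ (p : ℤ) ∣ (n : ℤ) * ∏ i, (a i + (b i : ℤ) * n) := by
      intro p hp
      exact adm_of_point a b y0 q (by omega) (fun i => ⟨ha i, by have := haz i; omega⟩) q1 q2
        (fun i => by have := (hbi i).1; omega) hqp p hp
    rw [mem_filter, Fintype.mem_piFinset]
    refine ⟨fun i => mem_Icc.2 ⟨by have := (hbi i).1; omega, by have := (hbi i).2; omega⟩,
      gcd_of_adm a b hadm, hadm, ?_⟩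
    have hrg := hrough x hxx1 a b (fun p hp => om_lt_of_adm a b (prime_PS hp) (hadm p (prime_PS hp)))
    rw [← hT, ← hX] at hrg
    set F : ℝ := ∏ p ∈ PS z, fac a (fun i => (b i : ℤ)) p with hF
    have hF0 : 0 ≤ F := prod_nonneg fun p hp => fac_nonneg _ _ (prime_PS hp)
    set Sg : ℝ := singular a (fun i => (b i : ℤ)) with hSg
    set L : ℝ := Real.log (B * x) with hL
    have hBx : (1 : ℝ) < B * x := by
      have : (3 : ℝ) * 3 ≤ B * x := mul_le_mul hBr3 hx3r (by norm_num) hB0.le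
      linarith
    have hL0 : 0 < L := Real.log_pos hBx
    have hLD : L ≤ Real.log (D * x) := by
      apply Real.log_le_log (by linarith)
      gcongr
    have hnum : (primeG (fun i _ => a i) b T : ℝ) ≤ numQ a b x := by
      have : primeG (fun i _ => a i) b T ≤ numQ a b x := by
        unfold primeG numQ
        apply card_le_card
        intro t ht
        rw [mem_filter] at ht
        obtain ⟨t1, t2, t3, t4⟩ := hTmem t ht.1
        rw [mem_filter, mem_Icc]
        refine ⟨⟨t3, t4⟩, t1, fun i => ?_⟩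
        have := ht.2 i
        have e : a i + (t : ℤ) * b i = a i + b i * t := by ring
        rw [e]; exact this
      exact_mod_cast this
    refine le_trans ?_ (hb1.trans hnum)
    have hLk : 0 < L ^ k := by positivity
    have hkey : θ₀ * ((1 + ε) * F) ≤ θ₁ * ((1 - ε) * F) := by
      have h1 : θ₀ * (1 + ε) ≤ θ₁ * (1 - ε) := by
        rw [hθ₁, hε]
        have e : (θ₀ + 1) / 2 * (1 - (1 - θ₀) / 4) - θ₀ * (1 + (1 - θ₀) / 4) = 3 / 8 * (1 - θ₀) ^ 2 := by ring
        have := sq_nonneg (1 - θ₀)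
        linarith
      calc θ₀ * ((1 + ε) * F) = (θ₀ * (1 + ε)) * F := by ring
        _ ≤ (θ₁ * (1 - ε)) * F := mul_le_mul_of_nonneg_right h1 hF0
        _ = _ := by ring
    have hθ₁0 : 0 ≤ θ₁ := by rw [hθ₁]; linarith
    have e1 : (x : ℝ) / (Real.log x * Real.log (D * x) ^ k) = X / Real.log (D * x) ^ k := by
      rw [hX]; field_simp
    rw [e1]
    have hLDk : L ^ k ≤ Real.log (D * x) ^ k := pow_le_pow_left₀ hL0.le hLD k
    have hXL : X / Real.log (D * x) ^ k ≤ X / L ^ k := div_le_div_of_nonneg_left hX0.le hLk hLDk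
    have hXL0 : 0 ≤ X / Real.log (D * x) ^ k := div_nonneg hX0.le (hLk.le.trans hLDk)
    have hXL1 : 0 ≤ X / L ^ k := by positivity
    have hSg0 : θ * Sg ≤ θ₀ * ((1 + ε) * F) := by
      by_cases hS0 : 0 ≤ Sg
      · calc θ * Sg ≤ θ₀ * Sg := mul_le_mul_of_nonneg_right hθθ hS0
          _ ≤ _ := mul_le_mul_of_nonneg_left hsing hθ0
      · exfalso
        apply hS0
        rw [hSg]
        unfold singular
        by_cases hmul : Multipliable (fun p : Nat.Primes => fac a (fun i => (b i : ℤ)) p)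
        · exact ge_of_tendsto' hmul.hasProd fun s => prod_nonneg fun p _ => fac_nonneg _ _ p.2
        · rw [tprod_eq_one_of_not_multipliable hmul]
          exact zero_le_one
    calc θ * Sg * (X / Real.log (D * x) ^ k) ≤ θ₀ * ((1 + ε) * F) * (X / Real.log (D * x) ^ k) :=
          mul_le_mul_of_nonneg_right hSg0 hXL0
      _ ≤ θ₁ * ((1 - ε) * F) * (X / L ^ k) := by
          apply mul_le_mul hkey hXL hXL0
          have : 0 ≤ θ₀ * ((1 + ε) * F) := mul_nonneg hθ0 (mul_nonneg (by linarith) hF0)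
          linarith
      _ = θ₁ * ((1 - ε) * F * X) / L ^ k := by ring
      _ ≤ θ₁ * (roughG z (fun i _ => a i) b T / Wz z ^ k) / L ^ k := by gcongr
  have hfin := card_le_card hsub
  have hfin' : ((S \ Bad).card : ℝ) ≤ (((Fintype.piFinset (fun _ : Fin k => Icc 1 D)).filter (fun d =>
      (∀ i, Int.gcd (a i) (d i) = 1) ∧
      (∀ p : ℕ, p.Prime → ∃ n : ℕ, ¬ (p : ℤ) ∣ (n : ℤ) * ∏ i, (a i + (d i : ℤ) * n)) ∧
      θ * singular a (fun i => (d i : ℤ)) * (x / (Real.log x * Real.log (D * x) ^ k)) ≤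
        numQ a d x)).card : ℝ) := by exact_mod_cast hfin
  refine le_trans ?_ (hgood.trans hfin')
  have h1 : ((D : ℝ) / 3) ^ k ≤ (B : ℝ) ^ k := by
    apply pow_le_pow_left₀ (by positivity)
    have h2 : (D : ℝ) ≤ 3 * B := by exact_mod_cast hD3B
    linarith
  calc η / 2 / 3 ^ k * (D : ℝ) ^ k = η / 2 * ((D : ℝ) / 3) ^ k := by rw [div_pow]; ring
    _ ≤ η / 2 * (B : ℝ) ^ k := by gcongr

end Pool.Agent.W218.PF
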