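import Mathlib
import Pool.Agent.W218.PF.Final8

set_option autoImplicit false

/-! Second moment over the constant terms. -/

namespace Pool.Agent.W218.PF

open Finset Pool.Agent.Erdos456 Pool.Agent.Erdos456.Mert Pool.Agent.W218.HF Pool.Agent.W218.LF

/-- two values -/
theorem pair4 : ∃ C : ℝ, 0 < C ∧ ∀ (B b1 : ℕ) (G₁ G₂ : ℤ), 4 ≤ B → B ≤ b1 →
    2 * b1 ≤ 3 * B → G₁ ≠ G₂ → 0 ≤ G₁ + b1 → 0 ≤ G₂ + b1 →
    ∑ b ∈ Ioc b1 (2 * B), pr (G₁ + b) * pr (G₂ + b) ≤
      C * GG (G₁ - G₂).natAbs ^ 2 * (B / Real.log B ^ 2) := by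
  obtain ⟨C₃, hC₃, hsv⟩ := sieve_two'
  refine ⟨C₃ * 4, by positivity, ?_⟩
  intro B b1 G₁ G₂ hB h1 h2 hne12 hG₁ hG₂
  obtain ⟨hlB, hN2, _, hNl2⟩ := window_logs hB h1 h2
  rw [ioc_image, sum_image (fun n _ m _ h => by
      have h' : b1 + n = b1 + m := h
      omega)]
  set N := 2 * B - b1 with hN
  have hlN : 0 ≤ Real.log N := Real.log_natCast_nonneg N
  set e₁ : ℕ := (G₁ + b1).toNat with he₁
  set e₂ : ℕ := (G₂ + b1).toNat with he₂
  have hee₁ : ((e₁ : ℕ) : ℤ) = G₁ + b1 := Int.toNat_of_nonneg hG₁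
  have hee₂ : ((e₂ : ℕ) : ℤ) = G₂ + b1 := Int.toNat_of_nonneg hG₂
  have hkey : ((1 * e₂ : ℕ) : ℤ) - ((1 * e₁ : ℕ) : ℤ) = G₂ - G₁ := by
    push_cast
    rw [hee₁, hee₂]; ring
  have hne : 1 * e₂ ≠ 1 * e₁ := by
    intro h
    rw [h, sub_self] at hkey
    apply hne12
    linarith
  have h3 := hsv 1 e₁ 1 e₂ N one_pos one_pos (Nat.coprime_one_left _) (Nat.coprime_one_left _) hne hN2
  rw [hkey] at h3
  rw [sum_pr_pr]
  have h4 : (Icc 1 N).filter (fun n : ℕ => (G₁ + ((b1 + n : ℕ) : ℤ)).toNat.Prime ∧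
      (G₂ + ((b1 + n : ℕ) : ℤ)).toNat.Prime) =
      (Icc 1 N).filter (fun n => (1 * n + e₁).Prime ∧ (1 * n + e₂).Prime) := by
    apply filter_congr
    intro n _
    have h5 : G₁ + ((b1 + n : ℕ) : ℤ) = ((1 * n + e₁ : ℕ) : ℤ) := by
      push_cast; rw [hee₁]; ring
    have h6 : G₂ + ((b1 + n : ℕ) : ℤ) = ((1 * n + e₂ : ℕ) : ℤ) := by
      push_cast; rw [hee₂]; ring
    rw [h5, h6, Int.toNat_natCast, Int.toNat_natCast]
  rw [h4]
  refine h3.trans ?_
  have e0 : (G₂ - G₁).natAbs = (G₁ - G₂).natAbs := by omega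
  rw [one_mul, one_mul, e0]
  calc C₃ * GG (G₁ - G₂).natAbs ^ 2 * N / Real.log N ^ 2
      = C₃ * GG (G₁ - G₂).natAbs ^ 2 * (N / Real.log N ^ 2) := by ring
    _ ≤ C₃ * GG (G₁ - G₂).natAbs ^ 2 * (4 * (B / Real.log B ^ 2)) := by gcongr
    _ = _ := by ring

/-- the second moment: `M` measures the size of the set `T` of arguments -/
theorem second4 (k : ℕ) (hk : 1 ≤ k) : ∃ C : ℝ, 0 < C ∧
    ∀ (B b1 : ℕ) (G : Fin k → ℕ → ℤ) (T : Finset ℕ) (M A C₃ : ℝ), 4 ≤ B → B ≤ b1 →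
    2 * b1 ≤ 3 * B → 1 ≤ Real.log B → 0 ≤ M → 0 ≤ A → 0 ≤ C₃ →
    Real.log B ^ k ≤ A * M → (T.card : ℝ) ≤ M →
    (∀ t ∈ T, ∀ i, 0 ≤ G i t + b1) →
    (∀ t₁ ∈ T, ∀ t₂ ∈ T, t₁ ≠ t₂ → ∀ i, G i t₁ ≠ G i t₂) →
    (∀ i, ∑ t₁ ∈ T, ∑ t₂ ∈ T, GG (G i t₁ - G i t₂).natAbs ^ (2 * k) ≤ C₃ * M ^ 2) →
    ∑ b ∈ Fintype.piFinset (fun _ : Fin k => Ioc b1 (2 * B)),
      (∑ t ∈ T, ∏ i, pr (G i t + b i)) ^ 2 ≤
      C * (A + C₃) * (M ^ 2 * (B / Real.log B ^ 2) ^ k) := by
  classical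
  obtain ⟨C₄, hC₄, hpair⟩ := pair4
  refine ⟨80 ^ k + C₄ ^ k * k, by positivity, ?_⟩
  intro B b1 G T M A C₃ hB hb1 hb2 hlB1 hM hA hC₃ hlog hTcard hTc hinj hdet
  have hBr : (4 : ℝ) ≤ B := by exact_mod_cast hB
  have hlB0 : 0 < Real.log B := by linarith
  set Q : ℝ := B / Real.log B ^ 2 with hQ
  have hQ0 : 0 ≤ Q := by positivity
  -- expand
  have hexp : ∑ b ∈ Fintype.piFinset (fun _ : Fin k => Ioc b1 (2 * B)),
      (∑ t ∈ T, ∏ i, pr (G i t + b i)) ^ 2 =
      ∑ t₁ ∈ T, ∑ t₂ ∈ T, ∏ i, ∑ β ∈ Ioc b1 (2 * B),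
        pr (G i t₁ + β) * pr (G i t₂ + β) := by
    have h1 : ∀ b : Fin k → ℕ, (∑ t ∈ T, ∏ i, pr (G i t + b i)) ^ 2 =
        ∑ t₁ ∈ T, ∑ t₂ ∈ T, ∏ i, (pr (G i t₁ + b i) * pr (G i t₂ + b i)) := by
      intro b
      rw [sq, sum_mul_sum]
      apply sum_congr rfl
      intro t₁ _
      apply sum_congr rfl
      intro t₂ _
      rw [prod_mul_distrib]
    rw [sum_congr rfl fun b _ => h1 b, sum_comm]
    apply sum_congr rfl
    intro t₁ _
    rw [sum_comm]
    apply sum_congr rfl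
    intro t₂ _
    rw [Finset.prod_univ_sum]
  rw [hexp]
  have hterm : ∀ t₁ ∈ T, ∀ t₂ ∈ T, ∏ i, ∑ β ∈ Ioc b1 (2 * B),
        pr (G i t₁ + β) * pr (G i t₂ + β) ≤
      (if t₁ = t₂ then 80 ^ k * (A * M * Q ^ k) else 0) +
      C₄ ^ k * Q ^ k * ∑ i, GG (G i t₁ - G i t₂).natAbs ^ (2 * k) := by
    intro t₁ h₁ t₂ h₂
    have hoff0 : 0 ≤ C₄ ^ k * Q ^ k * ∑ i, GG (G i t₁ - G i t₂).natAbs ^ (2 * k) := by
      refine mul_nonneg (by positivity) (sum_nonneg fun i _ => ?_)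
      exact pow_nonneg (GG_nonneg _) _
    by_cases h12 : t₁ = t₂
    · subst h12
      rw [if_pos rfl]
      have h3 : ∏ i, ∑ β ∈ Ioc b1 (2 * B), pr (G i t₁ + β) * pr (G i t₁ + β) ≤
          ∏ _i : Fin k, (80 * (B / Real.log B)) := by
        apply prod_le_prod
        · intro i _
          exact sum_nonneg fun β _ => mul_nonneg (pr_nonneg _) (pr_nonneg _)
        · intro i _
          have h4 := single_count hB hb1 hb2 (t := 1) (G := G i t₁) le_rfl (by
            have := hTc t₁ h₁ i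
            push_cast; linarith)
          have e1 : GG 1 = 1 := by simp [GG]
          rw [e1] at h4
          have h5 : (0 : ℝ) ≤ B / Real.log B := by positivity
          have h6 : ∑ b ∈ Ioc b1 (2 * B), pr (G i t₁ + b * ((1 : ℕ) : ℤ)) =
              ∑ β ∈ Ioc b1 (2 * B), pr (G i t₁ + β) * pr (G i t₁ + β) := by
            apply sum_congr rfl
            intro β _
            rw [pr_sq]
            push_cast
            rw [mul_one]
          rw [h6] at h4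
          linarith
      rw [prod_const, card_univ, Fintype.card_fin] at h3
      have h5 : (80 * (B / Real.log B)) ^ k = 80 ^ k * (Real.log B ^ k * Q ^ k) := by
        rw [← mul_pow, ← mul_pow]
        congr 1
        rw [hQ]; field_simp
      have h6 : 80 ^ k * (Real.log B ^ k * Q ^ k) ≤ 80 ^ k * (A * M * Q ^ k) := by
        gcongr
      linarith
    · rw [if_neg h12, zero_add]
      have h3 : ∏ i, ∑ β ∈ Ioc b1 (2 * B), pr (G i t₁ + β) * pr (G i t₂ + β) ≤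
          ∏ i : Fin k, (C₄ * Q * GG (G i t₁ - G i t₂).natAbs ^ 2) := by
        apply prod_le_prod
        · intro i _
          exact sum_nonneg fun β _ => mul_nonneg (pr_nonneg _) (pr_nonneg _)
        · intro i _
          have h4 := hpair B b1 (G i t₁) (G i t₂) hB hb1 hb2 (hinj t₁ h₁ t₂ h₂ h12 i)
            (hTc t₁ h₁ i) (hTc t₂ h₂ i)
          refine h4.trans (le_of_eq ?_)
          ring
      rw [prod_mul_distrib, prod_const, card_univ, Fintype.card_fin, mul_pow] at h3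
      refine h3.trans ?_
      apply mul_le_mul_of_nonneg_left _ (by positivity)
      refine (prod_le_sum_pow hk _ fun i => sq_nonneg _).trans (le_of_eq ?_)
      apply sum_congr rfl
      intro i _
      rw [← pow_mul]
  have h1 := sum_le_sum fun t₁ h₁ => sum_le_sum fun t₂ h₂ => hterm t₁ h₁ t₂ h₂
  refine h1.trans ?_
  have hcard0 : (0 : ℝ) ≤ T.card := Nat.cast_nonneg _
  have e1 : ∑ t₁ ∈ T, ∑ t₂ ∈ T, ((if t₁ = t₂ then 80 ^ k * (A * M * Q ^ k) else 0) +
      C₄ ^ k * Q ^ k * ∑ i, GG (G i t₁ - G i t₂).natAbs ^ (2 * k)) =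
      T.card * (80 ^ k * (A * M * Q ^ k)) + C₄ ^ k * Q ^ k * ∑ i : Fin k, ∑ t₁ ∈ T, ∑ t₂ ∈ T,
        GG (G i t₁ - G i t₂).natAbs ^ (2 * k) := by
    have h2 : ∀ t₁ ∈ T, ∑ t₂ ∈ T, ((if t₁ = t₂ then 80 ^ k * (A * M * Q ^ k) else 0) +
      C₄ ^ k * Q ^ k * ∑ i, GG (G i t₁ - G i t₂).natAbs ^ (2 * k)) =
        80 ^ k * (A * M * Q ^ k) + C₄ ^ k * Q ^ k * ∑ t₂ ∈ T, ∑ i,
          GG (G i t₁ - G i t₂).natAbs ^ (2 * k) := by
      intro t₁ h₁
      rw [sum_add_distrib, sum_ite_eq, if_pos h₁, ← mul_sum]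
    rw [sum_congr rfl h2, sum_add_distrib, sum_const, nsmul_eq_mul, ← mul_sum,
      sum3_comm T (fun t₁ t₂ i => GG (G i t₁ - G i t₂).natAbs ^ (2 * k))]
  rw [e1]
  have h3 : ∑ i : Fin k, ∑ t₁ ∈ T, ∑ t₂ ∈ T, GG (G i t₁ - G i t₂).natAbs ^ (2 * k) ≤
      k * (C₃ * M ^ 2) := by
    calc _ ≤ ∑ _i : Fin k, C₃ * M ^ 2 := sum_le_sum fun i _ => hdet i
      _ = _ := by rw [sum_const, card_univ, Fintype.card_fin, nsmul_eq_mul]
  calc _ ≤ M * (80 ^ k * (A * M * Q ^ k)) + C₄ ^ k * Q ^ k * (k * (C₃ * M ^ 2)) := by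
        gcongr
    _ ≤ _ := by
        have p1 : 0 ≤ C₄ ^ k * k * A * (M ^ 2 * Q ^ k) := by positivity
        have p2 : 0 ≤ (80 : ℝ) ^ k * C₃ * (M ^ 2 * Q ^ k) := by positivity
        have e : (80 ^ k + C₄ ^ k * k) * (A + C₃) * (M ^ 2 * Q ^ k) =
            M * (80 ^ k * (A * M * Q ^ k)) + C₄ ^ k * Q ^ k * (k * (C₃ * M ^ 2)) +
            C₄ ^ k * k * A * (M ^ 2 * Q ^ k) + 80 ^ k * C₃ * (M ^ 2 * Q ^ k) := by ring
        rw [e]
        linarith

/-- the `t ∈ T` for which all `G_i(t) + b_i` have no prime factor `≤ z` -/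
noncomputable def roughS (z : ℕ) {k : ℕ} (G : Fin k → ℕ → ℤ) (b : Fin k → ℕ)
    (T : Finset ℕ) : ℕ :=
  (T.filter (fun t : ℕ => ∀ i, ∀ p ≤ z, p.Prime → ¬ ((p : ℤ) ∣ G i t + b i))).card

/-- the number of `t ∈ T` for which all `G_i(t) + b_i` are prime -/
noncomputable def primeS {k : ℕ} (G : Fin k → ℕ → ℤ) (b : Fin k → ℕ) (T : Finset ℕ) : ℕ :=
  (T.filter (fun t : ℕ => ∀ i, (G i t + b i).toNat.Prime)).card

lemma primeS_eq {k : ℕ} (G : Fin k → ℕ → ℤ) (b : Fin k → ℕ) (T : Finset ℕ) :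
    (primeS G b T : ℝ) = ∑ t ∈ T, ∏ i, pr (G i t + b i) := by
  classical
  unfold primeS
  rw [card_filter]
  push_cast
  apply sum_congr rfl
  intro t _
  by_cases h : ∀ i, (G i t + b i).toNat.Prime
  · rw [if_pos h]
    symm
    apply prod_eq_one
    intro i _
    unfold pr
    rw [if_pos (h i)]
  · rw [if_neg h]
    push Not at h
    obtain ⟨i, hi⟩ := h
    symm
    apply prod_eq_zero (mem_univ i)
    unfold pr
    rw [if_neg hi]

lemma roughS_eq (z : ℕ) {k : ℕ} (G : Fin k → ℕ → ℤ) (b : Fin k → ℕ) (T : Finset ℕ) :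
    (roughS z G b T : ℝ) = ∑ t ∈ T, ∏ i, ro z (G i t + b i) := by
  classical
  unfold roughS
  rw [card_filter]
  push_cast
  apply sum_congr rfl
  intro t _
  by_cases h : ∀ i, ∀ p ≤ z, p.Prime → ¬ ((p : ℤ) ∣ G i t + b i)
  · rw [if_pos h]
    symm
    apply prod_eq_one
    intro i _
    unfold ro
    rw [if_pos (h i)]
  · rw [if_neg h]
    push Not at h
    obtain ⟨i, hi⟩ := h
    symm
    apply prod_eq_zero (mem_univ i)
    unfold ro
    rw [if_neg]
    push Not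
    exact hi

lemma ro_sum1 (z B : ℕ) (G : ℤ) : (∑ β ∈ Ioc B (2 * B), ro z (G + β)) / Wz z ≤ B + Pz z := by
  have h := ro_sum z B 1 G one_pos
  have e1 : GG 1 = 1 := by simp [GG]
  rw [e1, mul_one] at h
  refine le_trans (le_of_eq ?_) h
  congr 1
  apply sum_congr rfl
  intro β _
  congr 1
  push_cast
  ring

/-- the number of primes in the shifted window -/
lemma window4 (η : ℝ) (hη : 0 < η) (hη1 : η ≤ 1 / 16) : ∃ B0 : ℕ, ∀ B : ℕ, B0 ≤ B →
    ∀ G : ℤ, |(G : ℝ)| ≤ η * B →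
    (1 - 3 * η) * (B / Real.log B) ≤ ∑ β ∈ Ioc (lo η B) (2 * B), pr (G + β) := by
  obtain ⟨x₀, h⟩ := Pool.Agent.H373R2.SH.pnt_windowB 4 (by norm_num) (η / 2) (by positivity)
  refine ⟨max (2 * x₀ + 16) ⌈4 / η⌉₊, ?_⟩
  intro B hB G hG
  have hB1 : 2 * x₀ + 16 ≤ B := (le_max_left _ _).trans hB
  have hB2 : 4 / η ≤ B := (Nat.le_ceil _).trans (by exact_mod_cast (le_max_right _ _).trans hB)
  have hBr : (16 : ℝ) ≤ B := by
    have : 16 ≤ B := by omega
    exact_mod_cast this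
  have hB0 : (0 : ℝ) < B := by linarith
  have hηB : 4 ≤ η * B := by
    rw [div_le_iff₀ hη] at hB2; linarith
  set b1 := lo η B with hb1
  have hb1le : (b1 : ℝ) ≤ (1 + η) * B := Nat.floor_le (by positivity)
  have hb1lt : (1 + η) * B < b1 + 1 := Nat.lt_floor_add_one _
  have hη16 : η * B ≤ 1 / 16 * B := mul_le_mul_of_nonneg_right hη1 hB0.le
  have hb12 : b1 ≤ 2 * B := by
    have : (b1 : ℝ) ≤ 2 * B := by linarith
    exact_mod_cast this
  have hGabs := abs_le.1 hG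
  have hG0 : 0 ≤ G + b1 := by
    have : (0 : ℝ) ≤ (G : ℝ) + b1 := by linarith [hGabs.1]
    exact_mod_cast this
  set j : ℕ := (G + b1).toNat with hj
  have hjj : ((j : ℕ) : ℤ) = G + b1 := Int.toNat_of_nonneg hG0
  have hjr : (j : ℝ) = G + b1 := by exact_mod_cast hjj
  set N := 2 * B - b1 with hN
  have hNr : (N : ℝ) = 2 * B - b1 := by rw [hN, Nat.cast_sub hb12]; push_cast; ring
  have hNlow : (1 - η) * B ≤ N := by rw [hNr]; linarith
  have hN2 : B ≤ 2 * N := by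
    have : (B : ℝ) ≤ 2 * N := by linarith
    exact_mod_cast this
  have hNB : (N : ℝ) ≤ B := by
    rw [hNr]
    linarith
  have hjN : j ≤ 4 * N := by
    have h1 : (j : ℝ) ≤ 4 * N := by
      rw [hjr]
      have h2 := hGabs.2
      have h3 : (1 + η) * B + η * B ≤ 4 * ((1 - η) * B) := by
        have : (1 + η) * B + η * B = B + 2 * (η * B) := by ring
        have e2 : 4 * ((1 - η) * B) = 4 * B - 4 * (η * B) := by ring
        rw [this, e2]; linarith
      linarith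
    exact_mod_cast h1
  have h1 := h N (by omega) j hjN
  have hN8 : (8 : ℝ) ≤ N := by
    have : 8 ≤ N := by omega
    exact_mod_cast this
  have hlN0 : 0 < Real.log N := Real.log_pos (by linarith)
  have hlNB : Real.log N ≤ Real.log B := Real.log_le_log (by linarith) hNB
  have hsum : ∑ β ∈ Ioc b1 (2 * B), pr (G + β) = (Nat.primeCounting (N + j) : ℝ) - Nat.primeCounting j := by
    have e0 : ∑ β ∈ Ioc b1 (2 * B), pr (G + β) =
        (((Ioc b1 (2 * B)).filter (fun β : ℕ => (G + β).toNat.Prime)).card : ℝ) := sum_pr _ _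
    rw [e0]
    have e1 : ((Ioc b1 (2 * B)).filter (fun β : ℕ => (G + β).toNat.Prime)).card =
        ((Ioc j (N + j)).filter Nat.Prime).card := by
      apply card_bij (fun (β : ℕ) _ => (G + (β : ℤ)).toNat)
      · intro β hβ
        rw [mem_filter, mem_Ioc] at hβ
        rw [mem_filter, mem_Ioc]
        refine ⟨?_, hβ.2⟩
        omega
      · intro β hβ β' hβ' h
        rw [mem_filter, mem_Ioc] at hβ hβ'
        omega
      · intro p hp
        rw [mem_filter, mem_Ioc] at hp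
        refine ⟨(p - G).toNat, ?_, ?_⟩
        · rw [mem_filter, mem_Ioc]
          have e : G + ((p - G).toNat : ℤ) = p := by omega
          rw [e, Int.toNat_natCast]
          refine ⟨by omega, hp.2⟩
        · omega
    rw [e1]
    have e2 : ((Ioc j (N + j)).filter Nat.Prime).card = Nat.primeCounting (N + j) - Nat.primeCounting j := by
      have h3 : Nat.primeCounting (N + j) = ((Icc 0 (N + j)).filter Nat.Prime).card := by
        rw [Nat.primeCounting, Nat.primeCounting', Nat.count_eq_card_filter_range]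
        congr 2
        ext p; simp
      have h4 : Nat.primeCounting j = ((Icc 0 j).filter Nat.Prime).card := by
        rw [Nat.primeCounting, Nat.primeCounting', Nat.count_eq_card_filter_range]
        congr 2
        ext p; simp
      rw [h3, h4]
      have h5 : ((Icc 0 (N + j)).filter Nat.Prime) =
          ((Icc 0 j).filter Nat.Prime) ∪ ((Ioc j (N + j)).filter Nat.Prime) := by
        rw [← filter_union]
        congr 1
        ext p
        simp only [mem_union, mem_Icc, mem_Ioc]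
        omega
      rw [h5, card_union_of_disjoint]
      · omega
      · rw [disjoint_left]
        intro p hp hp'
        rw [mem_filter, mem_Icc] at hp
        rw [mem_filter, mem_Ioc] at hp'
        omega
    rw [e2, Nat.cast_sub]
    exact Nat.monotone_primeCounting (by omega)
  rw [hsum]
  refine le_trans ?_ h1
  have h5 : (1 - η) * (B / Real.log B) ≤ N / Real.log N := by
    calc (1 - η) * (B / Real.log B) = ((1 - η) * B) / Real.log B := by ring
      _ ≤ N / Real.log B := by gcongr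
      _ ≤ N / Real.log N := by gcongr
  have h6 : 0 ≤ B / Real.log B := div_nonneg hB0.le (hlN0.le.trans hlNB)
  calc (1 - 3 * η) * (B / Real.log B) ≤ (1 - η / 2) * ((1 - η) * (B / Real.log B)) := by
        have e : (1 - η / 2) * ((1 - η) * (B / Real.log B)) =
            (1 - 3 * η / 2 + η ^ 2 / 2) * (B / Real.log B) := by ring
        rw [e]
        apply mul_le_mul_of_nonneg_right _ h6
        have := sq_nonneg η
        linarith
    _ ≤ (1 - η / 2) * (N / Real.log N) := by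
        apply mul_le_mul_of_nonneg_left h5
        linarith

end Pool.Agent.W218.PF
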