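import Mathlib
import Pool.Agent.W218.PF.Second4

set_option autoImplicit false

/-! The main theorem on constant terms. -/

namespace Pool.Agent.W218.PF

open Finset Pool.Agent.Erdos456 Pool.Agent.Erdos456.Mert Pool.Agent.W218.HF Pool.Agent.W218.LF

theorem main4 (k : ℕ) (hk : 1 ≤ k) : ∀ A C₃ : ℝ, 0 < A → 0 ≤ C₃ →
    ∀ θ : ℝ, θ < 1 → ∃ η : ℝ, 0 < η ∧ ∃ B0 : ℕ, ∀ B : ℕ, B0 ≤ B → ∀ z : ℕ, Pz z ≤ η * B →
    ∀ (G : Fin k → ℕ → ℤ) (T : Finset ℕ),
    (∀ i, ∀ t ∈ T, |((G i t : ℤ) : ℝ)| ≤ η * B) →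
    (∀ t₁ ∈ T, ∀ t₂ ∈ T, t₁ ≠ t₂ → ∀ i, G i t₁ ≠ G i t₂) →
    (∀ i, ∑ t₁ ∈ T, ∑ t₂ ∈ T, GG (G i t₁ - G i t₂).natAbs ^ (2 * k) ≤ C₃ * (T.card : ℝ) ^ 2) →
    Real.log B ^ k ≤ A * T.card →
    η * B ^ k ≤ ((((Fintype.piFinset (fun _ : Fin k => Ioc B (2 * B))).filter (fun b =>
      θ * (roughS z G b T / Wz z ^ k) / Real.log B ^ k ≤ primeS G b T ∧
      η * T.card / Real.log B ^ k ≤ primeS G b T)).card : ℕ) : ℝ) := by
  classical
  intro A C₃ hA hC₃ θ hθ
  obtain ⟨C₂', hC₂', hsecond⟩ := second4 k hk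
  have hkr : (1 : ℝ) ≤ k := by exact_mod_cast hk
  set C₂ : ℝ := C₂' * (A + C₃) with hC₂def
  have hC₂ : 0 < C₂ := by positivity
  set θ₀ : ℝ := max θ 0 with hθ₀
  have hθ0 : 0 ≤ θ₀ := le_max_right _ _
  have hθ1 : θ₀ < 1 := max_lt hθ one_pos
  have hθθ : θ ≤ θ₀ := le_max_left _ _
  set κ : ℝ := 1 - θ₀ with hκ
  have hκ0 : 0 < κ := by rw [hκ]; linarith
  have hκ1 : κ ≤ 1 := by rw [hκ]; linarith
  set η₀ : ℝ := κ / (48 * k) with hη₀
  have hη0 : 0 < η₀ := by positivity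
  have haη : 3 * k * η₀ = κ / 16 := by rw [hη₀]; field_simp; norm_num
  have hη48 : η₀ ≤ 1 / 48 := by
    rw [hη₀, div_le_div_iff₀ (by positivity) (by norm_num)]
    calc κ * 48 ≤ 1 * 48 := by gcongr
      _ ≤ 1 * (48 * k) := by linarith
  obtain ⟨B₁, hwin⟩ := window4 η₀ hη0 (by linarith)
  set ηf : ℝ := min η₀ (min (κ / (8 * 2 ^ k)) (min (κ / 8) (κ ^ 2 / 4 / C₂))) with hηf
  have hηf0 : 0 < ηf := by positivity
  refine ⟨ηf, hηf0, max B₁ 4, ?_⟩
  intro B hB z hBP G T hval hinj hdet hlogk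
  have hB1 : B₁ ≤ B := (le_max_left _ _).trans hB
  have hB4 : 4 ≤ B := (le_max_right _ _).trans hB
  have hBr : (4 : ℝ) ≤ B := by exact_mod_cast hB4
  have hB0 : (0 : ℝ) < B := by linarith
  have hlB : 1 ≤ Real.log B := by
    rw [Real.le_log_iff_exp_le hB0]
    have := Real.exp_one_lt_d9
    linarith
  have hlB0 : 0 < Real.log B := by linarith
  set L : ℝ := Real.log B with hL
  set M : ℝ := (T.card : ℝ) with hM
  have hM0 : 0 < M := by
    have h1 : 0 < A * M := lt_of_lt_of_le (by positivity) hlogk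
    exact pos_of_mul_pos_right h1 hA.le
  set b1 : ℕ := lo η₀ B with hb1
  have hb1le : (b1 : ℝ) ≤ (1 + η₀) * B := Nat.floor_le (by positivity)
  have hb1lt : (1 + η₀) * B < b1 + 1 := Nat.lt_floor_add_one _
  have hb1B : B ≤ b1 := by
    apply Nat.le_floor
    have : 0 ≤ η₀ * (B : ℝ) := by positivity
    linarith
  have hb12 : 2 * b1 ≤ 3 * B := by
    have : (2 : ℝ) * b1 ≤ 3 * B := by
      have h1 : η₀ * (B : ℝ) ≤ 1 / 48 * B := mul_le_mul_of_nonneg_right hη48 hB0.le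
      linarith
    exact_mod_cast this
  have hval0 : ∀ i, ∀ t ∈ T, |((G i t : ℤ) : ℝ)| ≤ η₀ * B := fun i t ht =>
    (hval i t ht).trans (mul_le_mul_of_nonneg_right (min_le_left _ _) hB0.le)
  -- second moment
  have hS := hsecond B b1 G T M A C₃ hB4 hb1B hb12 hlB hM0.le hA.le hC₃ hlogk le_rfl
    (by
      intro t ht i
      have h1 := (abs_le.1 (hval0 i t ht)).1
      have h2 : (B : ℝ) ≤ b1 := by exact_mod_cast hb1B
      have h3 : η₀ * (B : ℝ) ≤ 1 / 48 * B := mul_le_mul_of_nonneg_right hη48 hB0.le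
      have h7 : (0 : ℝ) ≤ ((G i t : ℤ) : ℝ) + (b1 : ℝ) := by linarith
      exact_mod_cast h7) hinj hdet
  rw [← hC₂def] at hS
  set PF := Fintype.piFinset (fun _ : Fin k => Ioc b1 (2 * B)) with hPF
  set PB := Fintype.piFinset (fun _ : Fin k => Ioc B (2 * B)) with hPB
  have hPFsub : PF ⊆ PB := by
    intro b hb
    rw [hPF, Fintype.mem_piFinset] at hb
    rw [hPB, Fintype.mem_piFinset]
    intro i
    have := mem_Ioc.1 (hb i)
    exact mem_Ioc.2 ⟨by omega, this.2⟩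
  set N' : (Fin k → ℕ) → ℝ := fun b => ∑ t ∈ T, ∏ i, pr (G i t + b i) with hN'
  have hN'eq : ∀ b, N' b = primeS G b T := fun b => (primeS_eq G b T).symm
  have hN'0 : ∀ b, 0 ≤ N' b := fun b => by rw [hN'eq]; exact Nat.cast_nonneg _
  set Q : ℝ := B / L with hQ
  have hQ0 : 0 < Q := by positivity
  -- first moment
  have hF : (1 - κ / 16) * (Q ^ k * M) ≤ ∑ b ∈ PF, N' b := by
    have hswap : ∑ t ∈ T, ∏ i, ∑ β ∈ Ioc b1 (2 * B), pr (G i t + β) = ∑ b ∈ PF, N' b := by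
      simp only [hN']
      rw [sum_comm]
      apply sum_congr rfl
      intro t _
      rw [hPF, Finset.prod_univ_sum]
    rw [← hswap]
    have h1 : ∀ t ∈ T, (1 - κ / 16) * Q ^ k ≤ ∏ i : Fin k, ∑ β ∈ Ioc b1 (2 * B), pr (G i t + β) := by
      intro t ht
      have h2 : ∏ _i : Fin k, ((1 - 3 * η₀) * Q) ≤ ∏ i : Fin k, ∑ β ∈ Ioc b1 (2 * B), pr (G i t + β) := by
        apply prod_le_prod
        · intro i _
          apply mul_nonneg _ hQ0.le
          linarith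
        · intro i _
          exact hwin B hB1 (G i t) (hval0 i t ht)
      rw [prod_const, card_univ, Fintype.card_fin, mul_pow] at h2
      refine le_trans ?_ h2
      apply mul_le_mul_of_nonneg_right _ (by positivity)
      have h3 := one_add_mul_le_pow (show (-2 : ℝ) ≤ -(3 * η₀) by linarith) k
      have e : 1 + -(3 * η₀) = 1 - 3 * η₀ := by ring
      rw [e] at h3
      have e2 : (k : ℝ) * -(3 * η₀) = -(3 * k * η₀) := by ring
      rw [e2, haη] at h3
      linarith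
    have h2 := sum_le_sum h1
    rw [sum_const, nsmul_eq_mul] at h2
    calc (1 - κ / 16) * (Q ^ k * M) = M * ((1 - κ / 16) * Q ^ k) := by ring
      _ ≤ _ := h2
  have hWz := Wz_pos z
  -- sieve average
  have hR : ∑ b ∈ PB, (roughS z G b T : ℝ) / Wz z ^ k ≤ (B + Pz z) ^ k * M := by
    have h1 : ∑ b ∈ PB, (roughS z G b T : ℝ) / Wz z ^ k =
        ∑ t ∈ T, ∏ i, ((∑ β ∈ Ioc B (2 * B), ro z (G i t + β)) / Wz z) := by
      rw [← sum_div, sum_congr rfl fun b _ => roughS_eq z G b T, sum_comm, sum_div]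
      apply sum_congr rfl
      intro t _
      rw [prod_div_distrib, prod_const, card_univ, Fintype.card_fin, Finset.prod_univ_sum]
    rw [h1]
    have h2 : ∀ t ∈ T, ∏ i, ((∑ β ∈ Ioc B (2 * B), ro z (G i t + β)) / Wz z) ≤ (B + Pz z : ℝ) ^ k := by
      intro t _
      calc _ ≤ ∏ _i : Fin k, (B + Pz z : ℝ) := by
            apply prod_le_prod
            · intro i _
              exact div_nonneg (sum_nonneg fun β _ => ro_nonneg _ _) hWz.le
            · intro i _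
              exact ro_sum1 z B _
        _ = _ := by rw [prod_const, card_univ, Fintype.card_fin]
    refine (sum_le_sum h2).trans (le_of_eq ?_)
    rw [sum_const, nsmul_eq_mul, mul_comm]
  set S := PB.filter (fun b =>
      θ * (roughS z G b T / Wz z ^ k) / L ^ k ≤ primeS G b T ∧
      ηf * M / L ^ k ≤ primeS G b T) with hSdef
  have hPBcard : (PB.card : ℝ) = B ^ k := by
    rw [hPB, Fintype.card_piFinset]
    simp only [prod_const, card_univ, Fintype.card_fin, Nat.card_Ioc]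
    have : 2 * B - B = B := by omega
    rw [this]; push_cast; rfl
  -- the bad b
  have hbad : ∑ b ∈ PF.filter (fun b => b ∉ S), N' b ≤
      θ₀ * ((B + Pz z) ^ k * M) / L ^ k + B ^ k * (κ / 8 * M / L ^ k) := by
    have h1 : ∀ b ∈ PF.filter (fun b => b ∉ S), N' b ≤
        θ₀ * ((roughS z G b T : ℝ) / Wz z ^ k) / L ^ k + κ / 8 * M / L ^ k := by
      intro b hb
      rw [mem_filter] at hb
      have hb1 : b ∈ PB := hPFsub hb.1
      have h2 : ¬ (θ * (roughS z G b T / Wz z ^ k) / L ^ k ≤ primeS G b T ∧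
          ηf * M / L ^ k ≤ primeS G b T) := by
        intro h
        exact hb.2 (by rw [hSdef, mem_filter]; exact ⟨hb1, h⟩)
      have hR0 : 0 ≤ (roughS z G b T : ℝ) / Wz z ^ k := by positivity
      have h3 : 0 ≤ θ₀ * ((roughS z G b T : ℝ) / Wz z ^ k) / L ^ k := by positivity
      have h4 : 0 ≤ κ / 8 * M / L ^ k := by positivity
      rw [hN'eq]
      rw [not_and_or, not_le, not_le] at h2
      rcases h2 with h2 | h2
      · have h5 : θ * ((roughS z G b T : ℝ) / Wz z ^ k) / L ^ k ≤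
            θ₀ * ((roughS z G b T : ℝ) / Wz z ^ k) / L ^ k := by gcongr
        linarith
      · have h5 : ηf * M / L ^ k ≤ κ / 8 * M / L ^ k := by
          have h6 : ηf ≤ κ / 8 := (min_le_right _ _).trans ((min_le_right _ _).trans (min_le_left _ _))
          gcongr
        linarith
    refine (sum_le_sum h1).trans ?_
    rw [sum_add_distrib]
    have hsub : PF.filter (fun b => b ∉ S) ⊆ PB := (filter_subset _ _).trans hPFsub
    apply add_le_add
    · calc _ ≤ ∑ b ∈ PB, θ₀ * ((roughS z G b T : ℝ) / Wz z ^ k) / L ^ k := by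
            apply sum_le_sum_of_subset_of_nonneg hsub
            intro b _ _; positivity
        _ = θ₀ * (∑ b ∈ PB, (roughS z G b T : ℝ) / Wz z ^ k) / L ^ k := by
            rw [← sum_div, ← mul_sum]
        _ ≤ _ := by gcongr
    · rw [sum_const, nsmul_eq_mul]
      have h2 : ((PF.filter (fun b => b ∉ S)).card : ℝ) ≤ B ^ k := by
        rw [← hPBcard]
        exact_mod_cast card_le_card hsub
      gcongr
  have hPzk : ((B : ℝ) + Pz z) ^ k ≤ (1 + κ / 8) * B ^ k := by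
    have h1 : (Pz z : ℝ) ≤ (κ / (8 * 2 ^ k)) * B :=
      hBP.trans (mul_le_mul_of_nonneg_right ((min_le_right _ _).trans (min_le_left _ _)) hB0.le)
    have h2 : (B : ℝ) + Pz z ≤ (1 + κ / (8 * 2 ^ k)) * B := by linarith
    have h3 : κ / (8 * 2 ^ k) ≤ 1 := by
      rw [div_le_one (by positivity)]
      have : (1 : ℝ) ≤ 2 ^ k := one_le_pow₀ (by norm_num)
      linarith
    calc ((B : ℝ) + Pz z) ^ k ≤ ((1 + κ / (8 * 2 ^ k)) * B) ^ k := pow_le_pow_left₀ (by positivity) h2 k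
      _ = (1 + κ / (8 * 2 ^ k)) ^ k * B ^ k := mul_pow _ _ _
      _ ≤ (1 + 2 ^ k * (κ / (8 * 2 ^ k))) * B ^ k := by
          have := pow_le_lin (show 0 ≤ κ / (8 * 2 ^ k) by positivity) h3 k
          gcongr
      _ = _ := by
          congr 2
          field_simp
  have hbad2 : θ₀ * ((B + Pz z) ^ k * M) / L ^ k + B ^ k * (κ / 8 * M / L ^ k) ≤
      (θ₀ + κ / 4) * (Q ^ k * M) := by
    have eQ : Q ^ k = B ^ k / L ^ k := by rw [hQ, div_pow]
    have h1 : θ₀ * ((B + Pz z) ^ k * M) / L ^ k ≤ (θ₀ + κ / 8) * (Q ^ k * M) := by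
      have h2 : θ₀ * ((B + Pz z) ^ k) ≤ (θ₀ + κ / 8) * B ^ k := by
        calc θ₀ * ((B + Pz z) ^ k) ≤ θ₀ * ((1 + κ / 8) * B ^ k) := by gcongr
          _ = (θ₀ + θ₀ * (κ / 8)) * B ^ k := by ring
          _ ≤ (θ₀ + 1 * (κ / 8)) * B ^ k := by gcongr
          _ = _ := by ring
      calc θ₀ * ((B + Pz z) ^ k * M) / L ^ k = (θ₀ * ((B + Pz z) ^ k)) * M / L ^ k := by ring
        _ ≤ ((θ₀ + κ / 8) * B ^ k) * M / L ^ k := by gcongr
        _ = _ := by rw [eQ]; ring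
    have h2 : B ^ k * (κ / 8 * M / L ^ k) = κ / 8 * (Q ^ k * M) := by
      rw [eQ]; ring
    linarith
  have hgood : (κ / 2) * (Q ^ k * M) ≤ ∑ b ∈ PF.filter (fun b => b ∈ S), N' b := by
    have h1 := sum_filter_add_sum_filter_not PF (fun b => b ∈ S) N'
    have h3 : θ₀ = 1 - κ := by rw [hκ]; ring
    have h4 : (1 - κ / 16) * (Q ^ k * M) - (θ₀ + κ / 4) * (Q ^ k * M) = (11 * κ / 16) * (Q ^ k * M) := by
      rw [h3]; ring
    have hQM : 0 ≤ Q ^ k * M := mul_nonneg (pow_nonneg hQ0.le _) hM0.le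
    have h5 : (κ / 2) * (Q ^ k * M) ≤ (11 * κ / 16) * (Q ^ k * M) := by
      apply mul_le_mul_of_nonneg_right _ hQM
      linarith
    linarith
  -- Cauchy-Schwarz
  have hCS : (∑ b ∈ PF.filter (fun b => b ∈ S), N' b) ^ 2 ≤
      (S.card : ℝ) * (C₂ * (M ^ 2 * (B / L ^ 2) ^ k)) := by
    have h1 := sum_mul_sq_le_sq_mul_sq (PF.filter (fun b => b ∈ S)) (fun _ => (1 : ℝ)) N'
    simp only [one_mul, one_pow, sum_const, nsmul_eq_mul, mul_one] at h1
    refine h1.trans ?_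
    apply mul_le_mul
    · have : (PF.filter (fun b => b ∈ S)).card ≤ S.card := by
        apply card_le_card
        intro b hb
        exact (mem_filter.1 hb).2
      exact_mod_cast this
    · refine le_trans ?_ hS
      exact sum_le_sum_of_subset_of_nonneg (filter_subset _ _) fun b _ _ => by positivity
    · exact sum_nonneg fun b _ => by positivity
    · positivity
  have hfin : (κ / 2 * (Q ^ k * M)) ^ 2 ≤ (S.card : ℝ) * (C₂ * (M ^ 2 * (B / L ^ 2) ^ k)) := by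
    refine le_trans ?_ hCS
    have hQM : 0 ≤ Q ^ k * M := mul_nonneg (pow_nonneg hQ0.le _) hM0.le
    exact pow_le_pow_left₀ (mul_nonneg (by linarith) hQM) hgood 2
  have e1 : (κ / 2 * (Q ^ k * M)) ^ 2 = (κ ^ 2 / 4 * B ^ k) * (M ^ 2 * (B / L ^ 2) ^ k) := by
    rw [hQ, div_pow, div_pow, ← pow_mul, mul_comm 2 k, pow_mul]
    field_simp
    ring
  rw [e1] at hfin
  have hpos : 0 < M ^ 2 * (B / L ^ 2) ^ k := by positivity
  have hfin3 : κ ^ 2 / 4 * B ^ k ≤ S.card * C₂ := by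
    have h1 : (S.card : ℝ) * (C₂ * (M ^ 2 * (B / L ^ 2) ^ k)) =
        (S.card * C₂) * (M ^ 2 * (B / L ^ 2) ^ k) := by ring
    rw [h1] at hfin
    exact le_of_mul_le_mul_right hfin hpos
  have hfin4 : κ ^ 2 / 4 / C₂ * B ^ k ≤ S.card := by
    have e2 : κ ^ 2 / 4 / C₂ * B ^ k = (κ ^ 2 / 4 * B ^ k) / C₂ := by ring
    rw [e2, div_le_iff₀ hC₂]
    exact hfin3
  have hfin5 : ηf * B ^ k ≤ κ ^ 2 / 4 / C₂ * B ^ k := by
    gcongr
    exact (min_le_right _ _).trans ((min_le_right _ _).trans (min_le_right _ _))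
  exact hfin5.trans hfin4

end Pool.Agent.W218.PF
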