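import Mathlib
import Pool.Agent.W218.PF.Main4

set_option autoImplicit false

/-! Primes `q` with `b_i + a_i q` prime, `a_i` fixed, for a positive proportion of the `b`. -/

namespace Pool.Agent.W218.PF

open Finset Pool.Agent.Erdos456 Pool.Agent.Erdos456.Mert Pool.Agent.W218.HF Pool.Agent.W218.LF H343E

/-- inversion of the residues -/
lemma om_inv {k : ℕ} (a b a' b' : Fin k → ℤ) {p : ℕ} (hp : p.Prime)
    (h : ∀ i (u v : ZMod p), u * v = 1 →
      ((a i : ZMod p) + b i * u = 0 ↔ (a' i : ZMod p) + b' i * v = 0)) :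
    om a b p = om a' b' p := by
  classical
  have : Fact p.Prime := ⟨hp⟩
  have hz : ∀ n : ℤ, (p : ℤ) ∣ n ↔ (n : ZMod p) = 0 := fun n => (ZMod.intCast_zmod_eq_zero_iff_dvd n p).symm
  have key : ∀ (a b a' b' : Fin k → ℤ), (∀ i (u v : ZMod p), u * v = 1 →
      ((a i : ZMod p) + b i * u = 0 ↔ (a' i : ZMod p) + b' i * v = 0)) → ∀ r : ℕ,
      (p : ℤ) ∣ (r : ℤ) * ∏ i, (a i + b i * r) →
      (p : ℤ) ∣ ((((r : ZMod p)⁻¹).val : ℕ) : ℤ) * ∏ i, (a' i + b' i * ((((r : ZMod p)⁻¹).val : ℕ) : ℤ)) := by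
    intro a b a' b' h r hr
    rw [hz] at hr ⊢
    push_cast at hr ⊢
    rw [ZMod.natCast_val, ZMod.cast_id]
    rw [mul_eq_zero, prod_eq_zero_iff] at hr ⊢
    by_cases hr0 : (r : ZMod p) = 0
    · left; rw [hr0, inv_zero]
    · right
      rcases hr with hr | ⟨i, hi, hr⟩
      · exact absurd hr hr0
      · exact ⟨i, hi, (h i _ _ (mul_inv_cancel₀ hr0)).1 hr⟩
  unfold om
  apply card_bij' (fun (r : ℕ) _ => ((r : ZMod p)⁻¹).val) (fun (r : ℕ) _ => ((r : ZMod p)⁻¹).val)
  · intro r hr
    rw [mem_filter, mem_range] at hr ⊢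
    exact ⟨ZMod.val_lt _, key a b a' b' h r hr.2⟩
  · intro r hr
    rw [mem_filter, mem_range] at hr ⊢
    refine ⟨ZMod.val_lt _, key a' b' a b (fun i u v huv => ?_) r hr.2⟩
    exact (h i v u (by rw [mul_comm]; exact huv)).symm
  · intro r hr
    rw [mem_filter, mem_range] at hr
    rw [ZMod.natCast_val, ZMod.cast_id, inv_inv, ZMod.val_natCast, Nat.mod_eq_of_lt hr.1]
  · intro r hr
    rw [mem_filter, mem_range] at hr
    rw [ZMod.natCast_val, ZMod.cast_id, inv_inv, ZMod.val_natCast, Nat.mod_eq_of_lt hr.1]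

/-- exchanging the coefficients -/
lemma om_swap {k : ℕ} (a b : Fin k → ℤ) {p : ℕ} (hp : p.Prime) : om b a p = om a b p := by
  have : Fact p.Prime := ⟨hp⟩
  apply om_inv b a a b hp
  intro i u v huv
  have hu : u ≠ 0 := left_ne_zero_of_mul_eq_one huv
  have hv : v ≠ 0 := right_ne_zero_of_mul_eq_one huv
  have e : (a i : ZMod p) + b i * v = v * ((b i : ZMod p) + a i * u) := by
    linear_combination -(a i : ZMod p) * huv
  rw [e, mul_eq_zero, or_iff_right hv]

/-- signs -/
lemma om_sign {k : ℕ} (a b s : Fin k → ℤ) (hs : ∀ i, s i = 1 ∨ s i = -1) (p : ℕ) :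
    om (fun i => s i * a i) (fun i => s i * b i) p = om a b p := by
  unfold om
  congr 1
  apply filter_congr
  intro r _
  have e : ∏ i, (s i * a i + s i * b i * (r : ℤ)) = (∏ i, s i) * ∏ i, (a i + b i * r) := by
    rw [← prod_mul_distrib]
    apply prod_congr rfl
    intro i _; ring
  have h1 : IsUnit (∏ i, s i) := by
    rw [IsUnit.prod_univ_iff]
    intro i
    rcases hs i with h | h <;> rw [h] <;> simp
  rw [e]
  have e2 : (r : ℤ) * ((∏ i, s i) * ∏ i, (a i + b i * r)) = (∏ i, s i) * ((r : ℤ) * ∏ i, (a i + b i * r)) := by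
    ring
  rw [e2]
  exact h1.dvd_mul_left

lemma om_final {k : ℕ} (a : Fin k → ℤ) (b : Fin k → ℕ) {p : ℕ} (hp : p.Prime) :
    om (fun i => (a i).sign * (b i : ℤ)) (fun i => (((a i).natAbs : ℕ) : ℤ)) p =
      om (fun i => (b i : ℤ)) a p ∨ ∃ i, a i = 0 := by
  by_cases h0 : ∃ i, a i = 0
  · exact Or.inr h0
  · left
    push Not at h0
    have h1 := om_sign (fun i => (b i : ℤ)) a (fun i => (a i).sign) (fun i => by
      rcases lt_or_gt_of_ne (h0 i) with h | h
      · right; exact Int.sign_eq_neg_one_of_neg h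
      · left; exact Int.sign_eq_one_of_pos h) p
    rw [← h1]
    congr 1
    funext i
    exact (Int.sign_mul_self_eq_natAbs (a i)).symm

/-- the number of primes `q ≤ x` for which all `b_i + a_i q` are prime -/
def numR {k : ℕ} (a : Fin k → ℤ) (b : Fin k → ℕ) (x : ℕ) : ℕ :=
  ((Icc 1 x).filter (fun q : ℕ => q.Prime ∧ ∀ i, ((b i : ℤ) + a i * q).toNat.Prime)).card

open Classical in
theorem final9 (k : ℕ) (hk : 1 ≤ k) : ∀ a : Fin k → ℤ, (∀ i, a i ≠ 0) → ∀ c : ℝ, 0 < c →
    ∀ θ : ℝ, θ < 1 → ∃ κ : ℝ, 0 < κ ∧ ∃ D0 : ℕ, ∀ D : ℕ, D0 ≤ D → ∀ x : ℕ,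
    c * Real.log D ^ k ≤ x / Real.log x → x ≤ κ * D →
    κ * D ^ k ≤ (((Fintype.piFinset (fun _ : Fin k => Icc 1 D)).filter (fun b =>
      (∀ p : ℕ, p.Prime → ∃ n : ℕ, ¬ (p : ℤ) ∣ (n : ℤ) * ∏ i, ((b i : ℤ) + a i * n)) ∧
      θ * singular (fun i => (b i : ℤ)) a * (x / (Real.log x * Real.log D ^ k)) ≤
        numR a b x)).card : ℝ) := by
  intro a ha c hc θ hθ
  set θ₀ : ℝ := max θ 0 with hθ₀
  have hθ0 : 0 ≤ θ₀ := le_max_right _ _
  have hθ1 : θ₀ < 1 := max_lt hθ one_pos
  have hθθ : θ ≤ θ₀ := le_max_left _ _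
  set θ₁ : ℝ := (θ₀ + 1) / 2 with hθ₁
  set ε : ℝ := (1 - θ₀) / 4 with hε
  have hε0 : 0 < ε := by rw [hε]; linarith
  have hε1 : ε ≤ 1 := by rw [hε]; linarith
  set zA : ℕ := ∑ i, (a i).natAbs with hzA
  have hazA : ∀ i, (a i).natAbs ≤ zA := fun i =>
    single_le_sum (f := fun i => (a i).natAbs) (fun _ _ => Nat.zero_le _) (mem_univ i)
  obtain ⟨C₃, hC₃, hdet⟩ := det_const (2 * k) (by omega) zA
  obtain ⟨η, hη, B₁, hmain⟩ := main4 k hk (2 / c) (4 * C₃) (by positivity) (by positivity) θ₁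
    (by rw [hθ₁]; linarith)
  obtain ⟨z0, htail⟩ := tail_bad k ε (η / 2) hε0 hε1 (by positivity)
  set z : ℕ := max z0 zA with hz
  have haz : ∀ i, (a i).natAbs ≤ z := fun i => (hazA i).trans (le_max_right _ _)
  obtain ⟨B₂, htail⟩ := htail z (le_max_left _ _)
  set y0 : ℕ := z + k + 2 with hy0
  obtain ⟨x₁, hrough⟩ := rough_low3 k z y0 (by omega) ε hε0
  obtain ⟨x₂, hpnt⟩ := pnt_low (1 / 4) (by norm_num)
  set R : ℝ := ((max (max x₁ x₂) (max y0 3) : ℕ) : ℝ) + 4 * y0 with hR
  set κ : ℝ := min (η / 2 / 3 ^ k) (min (η / (3 * (zA + 1))) (1 / (6 * (zA + 1)))) with hκ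
  refine ⟨κ, by positivity, max (max (2 * B₁ + 2) (2 * B₂ + 2))
    (max (max (4 * y0 + 6) (2 * ⌈(Pz z : ℝ) / η⌉₊ + 2)) ⌈Real.exp (3 + R / c)⌉₊), ?_⟩
  intro D hD x hcx hxD
  have hDB1 : 2 * B₁ + 2 ≤ D := (le_max_left _ _).trans ((le_max_left _ _).trans hD)
  have hDB2 : 2 * B₂ + 2 ≤ D := (le_max_right _ _).trans ((le_max_left _ _).trans hD)
  have hDz : 4 * y0 + 6 ≤ D := (le_max_left _ _).trans ((le_max_left _ _).trans ((le_max_right _ _).trans hD))
  have hDP : 2 * ⌈(Pz z : ℝ) / η⌉₊ + 2 ≤ D :=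
    (le_max_right _ _).trans ((le_max_left _ _).trans ((le_max_right _ _).trans hD))
  have hDe : Real.exp (3 + R / c) ≤ D := (Nat.le_ceil _).trans (by
    exact_mod_cast (le_max_right _ _).trans ((le_max_right _ _).trans hD))
  set B : ℕ := D / 2 with hB
  have hBB1 : B₁ ≤ B := by omega
  have hBB2 : B₂ ≤ B := by omega
  have hBz : 2 * y0 + 3 ≤ B := by omega
  have hBP : ⌈(Pz z : ℝ) / η⌉₊ ≤ B := by omega
  have hB2D : 2 * B ≤ D := by omega
  have hD3B : D ≤ 3 * B := by omega
  have hBr3 : (3 : ℝ) ≤ B := by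
    have : 3 ≤ B := by omega
    exact_mod_cast this
  have hB0 : (0 : ℝ) < B := by linarith
  have hDB : (B : ℝ) ≤ D := by
    have : B ≤ D := by omega
    exact_mod_cast this
  have hD0 : (0 : ℝ) < D := by linarith
  have hDr3B : (D : ℝ) ≤ 3 * B := by exact_mod_cast hD3B
  have hlD : 3 + R / c ≤ Real.log D := by
    rw [Real.le_log_iff_exp_le hD0]; exact hDe
  have hR0 : 0 ≤ R := by rw [hR]; positivity
  have hRc : 0 ≤ R / c := by positivity
  have hlD3 : 3 ≤ Real.log D := by linarith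
  have hlBD : Real.log B ≤ Real.log D := Real.log_le_log hB0 hDB
  have hlB0 : 0 ≤ Real.log B := Real.log_nonneg (by linarith)
  set X : ℝ := x / Real.log x with hX
  -- sizes
  have hXR : R ≤ X := by
    refine le_trans ?_ hcx
    have h1 : R / c ≤ Real.log D ^ k := by
      calc R / c ≤ Real.log D := by linarith
        _ ≤ Real.log D ^ k := le_self_pow₀ (by linarith) (by omega)
    rw [div_le_iff₀ hc] at h1
    linarith
  have hM3 : ((3 : ℕ) : ℝ) ≤ ((max (max x₁ x₂) (max y0 3) : ℕ) : ℝ) := by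
    exact_mod_cast (le_max_right _ _).trans (le_max_right _ _)
  have hy00 : (0 : ℝ) ≤ y0 := Nat.cast_nonneg y0
  have hX3 : 3 ≤ X := by
    have : (3 : ℝ) ≤ R := by
      rw [hR]; push_cast at hM3 ⊢; linarith
    linarith
  have hx3 : 3 ≤ x := by
    by_contra hcon
    have hx2 : x ≤ 2 := by omega
    have h2 : X < 3 := by
      rw [hX]
      interval_cases x
      · simp
      · simp
      · have h3 := Real.log_two_gt_d9
        rw [div_lt_iff₀ (by push_cast; linarith)]
        push_cast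
        linarith
    linarith
  have hx3r : (3 : ℝ) ≤ x := by exact_mod_cast hx3
  have hx0 : 0 < (x : ℝ) := by linarith
  have hlx1 : 1 ≤ Real.log x := by
    rw [Real.le_log_iff_exp_le hx0]
    have := Real.exp_one_lt_d9
    linarith
  have hlx0 : 0 < Real.log x := by linarith
  have hXx : X ≤ x := by
    rw [hX, div_le_iff₀ hlx0]
    have := mul_le_mul_of_nonneg_left hlx1 hx0.le
    linarith
  have hX0 : 0 < X := by linarith
  have hxM : max (max x₁ x₂) (max y0 3) ≤ x := by
    have : ((max (max x₁ x₂) (max y0 3) : ℕ) : ℝ) ≤ x := by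
      have : ((max (max x₁ x₂) (max y0 3) : ℕ) : ℝ) ≤ R := by rw [hR]; linarith
      linarith
    exact_mod_cast this
  have hxx1 : x₁ ≤ x := (le_max_left _ _).trans ((le_max_left _ _).trans hxM)
  have hxx2 : x₂ ≤ x := (le_max_right _ _).trans ((le_max_left _ _).trans hxM)
  have hxy0 : y0 ≤ x := (le_max_left _ _).trans ((le_max_right _ _).trans hxM)
  have hXy0 : 4 * (y0 : ℝ) ≤ X := by
    have : 4 * (y0 : ℝ) ≤ R := by
      rw [hR]
      have : (0 : ℝ) ≤ ((max (max x₁ x₂) (max y0 3) : ℕ) : ℝ) := Nat.cast_nonneg _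
      linarith
    linarith
  -- the set of arguments
  set T : Finset ℕ := TT x y0 with hT
  have hTsub : T ⊆ PP x := filter_subset _ _
  have hTmem : ∀ t ∈ T, t.Prime ∧ y0 < t ∧ 1 ≤ t ∧ t ≤ x := by
    intro t ht
    rw [hT, TT, mem_filter] at ht
    have h1 := mem_PP ht.1
    exact ⟨h1.2.2, ht.2, h1.1, h1.2.1⟩
  have hTcard : 1 / 2 * X ≤ T.card := by
    have h1 := hpnt x hxx2
    have h2 : pi1 x ≤ T.card + y0 := by
      have h3 : ((Icc 1 x).filter (fun p => p.Prime)) ⊆ T ∪ Icc 1 y0 := by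
        intro p hp
        rw [mem_filter, mem_Icc] at hp
        rw [mem_union, mem_Icc, hT, TT, mem_filter]
        by_cases h4 : y0 < p
        · left
          refine ⟨?_, h4⟩
          simp only [PP, mem_filter, mem_Icc]
          exact hp
        · right; omega
      have h4 := (card_le_card h3).trans (card_union_le _ _)
      rw [Nat.card_Icc, Nat.add_sub_cancel] at h4
      unfold pi1
      exact_mod_cast h4
    have h5 : (1 - 1 / 4) * X ≤ T.card + y0 := h1.trans h2
    linarith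
  -- the values
  have hzA0 : (0 : ℝ) ≤ zA := Nat.cast_nonneg _
  have hxκ : (x : ℝ) * (zA + 1) ≤ η * B ∧ (x : ℝ) * (zA + 1) ≤ 1 / 2 * B := by
    have h1 : (x : ℝ) ≤ κ * (3 * B) := hxD.trans (by gcongr)
    constructor
    · have h2 : κ ≤ η / (3 * (zA + 1)) := (min_le_right _ _).trans (min_le_left _ _)
      calc (x : ℝ) * (zA + 1) ≤ (κ * (3 * B)) * (zA + 1) := by gcongr
        _ ≤ (η / (3 * (zA + 1)) * (3 * B)) * (zA + 1) := by gcongr
        _ = η * B := by field_simp
    · have h2 : κ ≤ 1 / (6 * (zA + 1)) := (min_le_right _ _).trans (min_le_right _ _)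
      calc (x : ℝ) * (zA + 1) ≤ (κ * (3 * B)) * (zA + 1) := by gcongr
        _ ≤ (1 / (6 * (zA + 1)) * (3 * B)) * (zA + 1) := by gcongr
        _ = 1 / 2 * B := by field_simp; norm_num
  have habs : ∀ i, ∀ t ∈ T, |((a i * (t : ℤ) : ℤ) : ℝ)| ≤ x * (zA + 1) := by
    intro i t ht
    obtain ⟨h1, h2, h3, h4⟩ := hTmem t ht
    have h5 : (((a i * (t : ℤ)).natAbs : ℕ) : ℝ) = |((a i * (t : ℤ) : ℤ) : ℝ)| :=
      Nat.cast_natAbs _ |>.trans (by push_cast; rfl)
    rw [← h5, Int.natAbs_mul, Int.natAbs_natCast]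
    push_cast
    have h6 : ((a i).natAbs : ℝ) ≤ zA + 1 := by
      have : ((a i).natAbs : ℝ) ≤ zA := by exact_mod_cast hazA i
      linarith
    have h7 : (t : ℝ) ≤ x := by exact_mod_cast h4
    calc ((a i).natAbs : ℝ) * t ≤ (zA + 1) * x := by gcongr
      _ = _ := mul_comm _ _
  have hM := hmain B hBB1 z (by
      have h1 : (Pz z : ℝ) / η ≤ B := (Nat.le_ceil _).trans (by exact_mod_cast hBP)
      rw [div_le_iff₀ hη] at h1
      linarith) (fun i t => a i * (t : ℤ)) T
    (fun i t ht => (habs i t ht).trans hxκ.1)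
    (by
      intro t₁ _ t₂ _ hne i h
      apply hne
      have := mul_left_cancel₀ (ha i) h
      exact_mod_cast this)
    (by
      intro i
      have h1 := hdet x (a i) T (by omega) (by
        have : zA ≤ z := le_max_right _ _
        omega) (ha i) (hazA i) hTsub
      have h2 : (x / Real.log x) ^ 2 ≤ 4 * (T.card : ℝ) ^ 2 := by
        have h3 : X ≤ 2 * T.card := by linarith
        calc (x / Real.log x) ^ 2 = X ^ 2 := by rw [hX]
          _ ≤ (2 * T.card : ℝ) ^ 2 := pow_le_pow_left₀ hX0.le h3 2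
          _ = _ := by ring
      calc ∑ t₁ ∈ T, ∑ t₂ ∈ T, GG (a i * (t₁ : ℤ) - a i * (t₂ : ℤ)).natAbs ^ (2 * k)
          = ∑ t₁ ∈ T, ∑ t₂ ∈ T, GG ((t₁ : ℤ) * a i - (t₂ : ℤ) * a i).natAbs ^ (2 * k) := by
            apply sum_congr rfl; intro t₁ _
            apply sum_congr rfl; intro t₂ _
            rw [mul_comm (a i), mul_comm (a i)]
        _ ≤ C₃ * (x / Real.log x) ^ 2 := h1
        _ ≤ C₃ * (4 * (T.card : ℝ) ^ 2) := by gcongr
        _ = _ := by ring)
    (by
      have h1 : Real.log B ^ k ≤ Real.log D ^ k := pow_le_pow_left₀ hlB0 hlBD k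
      have h3 : X ≤ 2 * T.card := by linarith
      calc Real.log B ^ k ≤ Real.log D ^ k := h1
        _ = 1 / c * (c * Real.log D ^ k) := by field_simp
        _ ≤ 1 / c * X := by gcongr
        _ ≤ 1 / c * (2 * T.card) := by gcongr
        _ = _ := by ring)
  have hbadc := htail B hBB2 a ha haz
  set PB := Fintype.piFinset (fun _ : Fin k => Ioc B (2 * B)) with hPB
  set S := PB.filter (fun b =>
      θ₁ * (roughS z (fun i t => a i * (t : ℤ)) b T / Wz z ^ k) / Real.log B ^ k ≤
        primeS (fun i t => a i * (t : ℤ)) b T ∧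
      η * T.card / Real.log B ^ k ≤ primeS (fun i t => a i * (t : ℤ)) b T) with hS
  set Bad := PB.filter (fun b => ¬ singular a (fun i => (b i : ℤ)) ≤
        (1 + ε) * ∏ p ∈ PS z, fac a (fun i => (b i : ℤ)) p) with hBad
  have hM' : η * (B : ℝ) ^ k ≤ (S.card : ℝ) := hM
  have hgood : η / 2 * (B : ℝ) ^ k ≤ ((S \ Bad).card : ℝ) := by
    have h1 : S.card ≤ (S \ Bad).card + Bad.card := by
      have := card_le_card_sdiff_add_card (s := S) (t := Bad)
      omega
    have h2 : (S.card : ℝ) ≤ ((S \ Bad).card : ℝ) + (Bad.card : ℝ) := by exact_mod_cast h1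
    linarith
  have hfacswap : ∀ (b : Fin k → ℕ) (p : ℕ), p.Prime →
      fac (fun i => (b i : ℤ)) a p = fac a (fun i => (b i : ℤ)) p := by
    intro b p hp
    unfold fac
    rw [om_swap a (fun i => (b i : ℤ)) hp]
  have hsingswap : ∀ b : Fin k → ℕ, singular (fun i => (b i : ℤ)) a = singular a (fun i => (b i : ℤ)) := by
    intro b
    unfold singular
    congr 1
    funext p
    exact hfacswap b p p.2
  have hfacsign : ∀ (b : Fin k → ℕ) (p : ℕ), p.Prime →
      om (fun i => (a i).sign * (b i : ℤ)) (fun i => (((a i).natAbs : ℕ) : ℤ)) p =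
        om a (fun i => (b i : ℤ)) p := by
    intro b p hp
    rcases om_final a b hp with h | ⟨i, h⟩
    · rw [h]; exact om_swap a _ hp
    · exact absurd h (ha i)
  have hroughS : ∀ b : Fin k → ℕ, roughS z (fun i t => a i * (t : ℤ)) b T =
      roughG z (fun i _ => (a i).sign * (b i : ℤ)) (fun i => (a i).natAbs) T := by
    intro b
    unfold roughS roughG
    congr 1
    apply filter_congr
    intro t _
    have e : ∀ i, (a i).sign * (b i : ℤ) + (((a i).natAbs : ℕ) : ℤ) * (t : ℤ) =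
        (a i).sign * (a i * (t : ℤ) + b i) := by
      intro i
      have := Int.sign_mul_self_eq_natAbs (a i)
      linear_combination -(t : ℤ) * this
    have hu : ∀ i, IsUnit ((a i).sign) := by
      intro i
      rcases lt_or_gt_of_ne (ha i) with h | h
      · rw [Int.sign_eq_neg_one_of_neg h]; simp
      · rw [Int.sign_eq_one_of_pos h]; simp
    constructor
    · intro h i p hpz hpp hd
      rw [e i, (hu i).dvd_mul_left] at hd
      exact h i p hpz hpp hd
    · intro h i p hpz hpp hd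
      apply h i p hpz hpp
      rw [e i, (hu i).dvd_mul_left]
      exact hd
  have hsub : S \ Bad ⊆ (Fintype.piFinset (fun _ : Fin k => Icc 1 D)).filter (fun b =>
      (∀ p : ℕ, p.Prime → ∃ n : ℕ, ¬ (p : ℤ) ∣ (n : ℤ) * ∏ i, ((b i : ℤ) + a i * n)) ∧
      θ * singular (fun i => (b i : ℤ)) a * (x / (Real.log x * Real.log D ^ k)) ≤
        numR a b x) := by
    intro b hb
    rw [mem_sdiff, hS, mem_filter] at hb
    obtain ⟨⟨hbB, hb1, hb2⟩, hb3⟩ := hb
    have hbB' := hbB
    rw [hPB, Fintype.mem_piFinset] at hbB'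
    have hbi : ∀ i, B < b i ∧ b i ≤ 2 * B := fun i => mem_Ioc.1 (hbB' i)
    have hsing : singular a (fun i => (b i : ℤ)) ≤
        (1 + ε) * ∏ p ∈ PS z, fac a (fun i => (b i : ℤ)) p := by
      by_contra h
      exact hb3 (by rw [hBad, mem_filter]; exact ⟨hbB, h⟩)
    have hlBpos : 0 < Real.log B := Real.log_pos (by linarith)
    have hTpos : (0 : ℝ) < T.card := by linarith
    -- a prime point
    have hpos : 0 < primeS (fun i t => a i * (t : ℤ)) b T := by
      have h1 : (0 : ℝ) < η * T.card / Real.log B ^ k := by positivity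
      have h2 : (0 : ℝ) < primeS (fun i t => a i * (t : ℤ)) b T := lt_of_lt_of_le h1 hb2
      exact_mod_cast h2
    unfold primeS at hpos
    rw [card_pos] at hpos
    obtain ⟨q, hq⟩ := hpos
    rw [mem_filter] at hq
    obtain ⟨hqT, hqp⟩ := hq
    obtain ⟨q1, q2, q3, q4⟩ := hTmem q hqT
    -- the values are large
    have hlarge : ∀ i, (y0 : ℤ) < a i * (q : ℤ) + b i := by
      intro i
      have h1 := (abs_le.1 ((habs i q hqT).trans hxκ.2)).1
      have h2 : (B : ℝ) ≤ b i := by exact_mod_cast (hbi i).1.le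
      have h3 : (2 * y0 + 3 : ℝ) ≤ B := by exact_mod_cast hBz
      have h4 : ((y0 : ℤ) : ℝ) < ((a i * (q : ℤ) + b i : ℤ) : ℝ) := by
        push_cast at h1 ⊢
        linarith
      exact_mod_cast h4
    have homlt : ∀ p : ℕ, p.Prime → om (fun i => (b i : ℤ)) a p < p := by
      intro p hp
      by_cases hpy : p ≤ y0
      · have hpi : Prime (p : ℤ) := Nat.prime_iff_prime_int.1 hp
        have hnd : ¬ (p : ℤ) ∣ ((q : ℕ) : ℤ) * ∏ i, ((b i : ℤ) + a i * ((q : ℕ) : ℤ)) := by
          intro hd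
          rcases hpi.dvd_or_dvd hd with h | h
          · have h1 : p ∣ q := by exact_mod_cast h
            have := (Nat.prime_dvd_prime_iff_eq hp q1).1 h1
            omega
          · obtain ⟨i, _, hi⟩ := hpi.exists_mem_finset_dvd h
            have hl := hlarge i
            have hpr : (a i * (q : ℤ) + b i).toNat.Prime := hqp i
            have h3 : p ∣ (a i * (q : ℤ) + b i).toNat := by
              have : (p : ℤ) ∣ (((a i * (q : ℤ) + b i).toNat : ℕ) : ℤ) := by
                rw [Int.toNat_of_nonneg (by omega), add_comm]; exact hi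
              exact_mod_cast this
            have h4 := (Nat.prime_dvd_prime_iff_eq hp hpr).1 h3
            omega
        unfold om
        calc _ < (range p).card := by
              apply card_lt_card
              rw [ssubset_iff_of_subset (filter_subset _ _)]
              refine ⟨q % p, mem_range.2 (Nat.mod_lt _ hp.pos), ?_⟩
              intro hmem
              have h1 := (mem_filter.1 hmem).2
              apply hnd
              have h2 : ((q % p : ℕ) : ℤ) ≡ (q : ℤ) [ZMOD p] := by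
                push_cast; exact Int.mod_modEq _ _
              have h3 : ((q % p : ℕ) : ℤ) * ∏ i, ((b i : ℤ) + a i * ((q % p : ℕ) : ℤ)) ≡
                  (q : ℤ) * ∏ i, ((b i : ℤ) + a i * (q : ℤ)) [ZMOD p] := by
                refine Int.ModEq.mul h2 ?_
                apply Int.ModEq.prod
                intro i _
                exact Int.ModEq.add_left _ (Int.ModEq.mul_left _ h2)
              rw [Int.dvd_iff_emod_eq_zero] at h1 ⊢
              rw [← h3]; exact h1
          _ = p := card_range p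
      · rw [om_swap a (fun i => (b i : ℤ)) hp]
        have h2 := om_le_succ a (fun i => (b i : ℤ)) hp (by
          intro i h
          have := Nat.le_of_dvd (Int.natAbs_pos.2 (ha i)) (Int.natCast_dvd.1 h)
          have := haz i
          omega)
        omega
    have hadm : ∀ p : ℕ, p.Prime → ∃ n : ℕ, ¬ (p : ℤ) ∣ (n : ℤ) * ∏ i, ((b i : ℤ) + a i * n) := by
      intro p hp
      by_contra hcon
      push Not at hcon
      have h1 : om (fun i => (b i : ℤ)) a p = p := by
        unfold om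
        rw [filter_true_of_mem (fun r _ => hcon r), card_range]
      have := homlt p hp
      omega
    rw [mem_filter, Fintype.mem_piFinset]
    refine ⟨fun i => mem_Icc.2 ⟨by have := (hbi i).1; omega, by have := (hbi i).2; omega⟩, hadm, ?_⟩
    have hrg := hrough x hxx1 (fun i => (a i).sign * (b i : ℤ)) (fun i => (a i).natAbs)
      (fun p hp => by
        rw [hfacsign b p (prime_PS hp), ← om_swap a (fun i => (b i : ℤ)) (prime_PS hp)]
        exact homlt p (prime_PS hp))
    rw [← hT, ← hX, ← hroughS b] at hrg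
    have hFe : ∏ p ∈ PS z, fac (fun i => (a i).sign * (b i : ℤ)) (fun i => (((a i).natAbs : ℕ) : ℤ)) p =
        ∏ p ∈ PS z, fac a (fun i => (b i : ℤ)) p := by
      apply prod_congr rfl
      intro p hp
      unfold fac
      rw [hfacsign b p (prime_PS hp)]
    rw [hFe] at hrg
    rw [hsingswap b]
    set F : ℝ := ∏ p ∈ PS z, fac a (fun i => (b i : ℤ)) p with hF
    have hF0 : 0 ≤ F := prod_nonneg fun p hp => fac_nonneg _ _ (prime_PS hp)
    set Sg : ℝ := singular a (fun i => (b i : ℤ)) with hSg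
    have hnum : (primeS (fun i t => a i * (t : ℤ)) b T : ℝ) ≤ numR a b x := by
      have : primeS (fun i t => a i * (t : ℤ)) b T ≤ numR a b x := by
        unfold primeS numR
        apply card_le_card
        intro t ht
        rw [mem_filter] at ht
        obtain ⟨t1, t2, t3, t4⟩ := hTmem t ht.1
        rw [mem_filter, mem_Icc]
        refine ⟨⟨t3, t4⟩, t1, fun i => ?_⟩
        have := ht.2 i
        have e : (b i : ℤ) + a i * t = a i * t + b i := by ring
        rw [e]; exact this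
      exact_mod_cast this
    refine le_trans ?_ (hb1.trans hnum)
    set L : ℝ := Real.log B with hL
    have hL0 : 0 < L := hlBpos
    have hLk : 0 < L ^ k := by positivity
    have hkey : θ₀ * ((1 + ε) * F) ≤ θ₁ * ((1 - ε) * F) := by
      have h1 : θ₀ * (1 + ε) ≤ θ₁ * (1 - ε) := by
        rw [hθ₁, hε]
        have e : (θ₀ + 1) / 2 * (1 - (1 - θ₀) / 4) - θ₀ * (1 + (1 - θ₀) / 4) = 3 / 8 * (1 - θ₀) ^ 2 := by ring
        have := sq_nonneg (1 - θ₀)
        linarith
      calc θ₀ * ((1 + ε) * F) = (θ₀ * (1 + ε)) * F := by ring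
        _ ≤ (θ₁ * (1 - ε)) * F := mul_le_mul_of_nonneg_right h1 hF0
        _ = _ := by ring
    have hθ₁0 : 0 ≤ θ₁ := by rw [hθ₁]; linarith
    have e1 : (x : ℝ) / (Real.log x * Real.log D ^ k) = X / Real.log D ^ k := by
      rw [hX]; field_simp
    rw [e1]
    have hLDk : L ^ k ≤ Real.log D ^ k := pow_le_pow_left₀ hL0.le hlBD k
    have hXL : X / Real.log D ^ k ≤ X / L ^ k := div_le_div_of_nonneg_left hX0.le hLk hLDk
    have hXL0 : 0 ≤ X / Real.log D ^ k := div_nonneg hX0.le (hLk.le.trans hLDk)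
    have hSg0 : θ * Sg ≤ θ₀ * ((1 + ε) * F) := by
      by_cases hS0 : 0 ≤ Sg
      · calc θ * Sg ≤ θ₀ * Sg := mul_le_mul_of_nonneg_right hθθ hS0
          _ ≤ _ := mul_le_mul_of_nonneg_left hsing hθ0
      · exfalso
        apply hS0
        rw [hSg]
        unfold singular
        by_cases hmul : Multipliable (fun p : Nat.Primes => fac a (fun i => (b i : ℤ)) p)
        · exact ge_of_tendsto' hmul.hasProd fun s => prod_nonneg fun p _ => fac_nonneg _ _ p.2
        · rw [tprod_eq_one_of_not_multipliable hmul]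
          exact zero_le_one
    calc θ * Sg * (X / Real.log D ^ k) ≤ θ₀ * ((1 + ε) * F) * (X / Real.log D ^ k) :=
          mul_le_mul_of_nonneg_right hSg0 hXL0
      _ ≤ θ₁ * ((1 - ε) * F) * (X / L ^ k) := by
          apply mul_le_mul hkey hXL hXL0
          have : 0 ≤ θ₀ * ((1 + ε) * F) := mul_nonneg hθ0 (mul_nonneg (by linarith) hF0)
          linarith
      _ = θ₁ * ((1 - ε) * F * X) / L ^ k := by ring
      _ ≤ _ := by gcongr
  have hfin := card_le_card hsub
  have hfin' : ((S \ Bad).card : ℝ) ≤ (((Fintype.piFinset (fun _ : Fin k => Icc 1 D)).filter (fun b =>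
      (∀ p : ℕ, p.Prime → ∃ n : ℕ, ¬ (p : ℤ) ∣ (n : ℤ) * ∏ i, ((b i : ℤ) + a i * n)) ∧
      θ * singular (fun i => (b i : ℤ)) a * (x / (Real.log x * Real.log D ^ k)) ≤
        numR a b x)).card : ℝ) := by exact_mod_cast hfin
  refine le_trans ?_ (hgood.trans hfin')
  have h1 : ((D : ℝ) / 3) ^ k ≤ (B : ℝ) ^ k := by
    apply pow_le_pow_left₀ (by positivity)
    linarith
  calc κ * (D : ℝ) ^ k ≤ η / 2 / 3 ^ k * (D : ℝ) ^ k := by
        gcongr
        exact min_le_left _ _
    _ = η / 2 * ((D : ℝ) / 3) ^ k := by rw [div_pow]; ring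
    _ ≤ η / 2 * (B : ℝ) ^ k := by gcongr

end Pool.Agent.W218.PF
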