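import Mathlib
import Pool.Agent.W218.PF.Final9

set_option autoImplicit false

/-! Few vectors have equal coordinates. -/

namespace Pool.Agent.W218.PF

open Finset

open Classical in
lemma eq_card {k D : ℕ} (i j : Fin k) (hij : i ≠ j) :
    D * ((Fintype.piFinset (fun _ : Fin k => Icc 1 D)).filter (fun a => a i = a j)).card ≤ D ^ k := by
  have h1 : D * ((Fintype.piFinset (fun _ : Fin k => Icc 1 D)).filter (fun a => a i = a j)).card =
      ((Icc 1 D) ×ˢ ((Fintype.piFinset (fun _ : Fin k => Icc 1 D)).filter (fun a => a i = a j))).card := by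
    rw [card_product, Nat.card_Icc, Nat.add_sub_cancel]
  have h2 : (Fintype.piFinset (fun _ : Fin k => Icc 1 D)).card = D ^ k := by
    rw [Fintype.card_piFinset]
    simp
  rw [h1, ← h2]
  apply card_le_card_of_injOn (fun q => Function.update q.2 i q.1)
  · intro q hq
    rw [mem_coe, mem_product, mem_filter, Fintype.mem_piFinset] at hq
    rw [mem_coe, Fintype.mem_piFinset]
    intro l
    by_cases h : l = i
    · subst h; simpa using hq.1
    · simpa [h] using hq.2.1 l
  · intro q hq q' hq' h
    rw [mem_coe, mem_product, mem_filter] at hq hq'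
    have h3 : q.1 = q'.1 := by
      have := congrFun h i
      simpa using this
    have h4 : ∀ l, l ≠ i → q.2 l = q'.2 l := by
      intro l hl
      have := congrFun h l
      simpa [hl] using this
    apply Prod.ext h3
    funext l
    by_cases hl : l = i
    · rw [hl, hq.2.2, hq'.2.2]
      exact h4 j (Ne.symm hij)
    · exact h4 l hl

open Classical in
lemma noninj_card (k D : ℕ) :
    D * ((Fintype.piFinset (fun _ : Fin k => Icc 1 D)).filter (fun a => ¬ Function.Injective a)).card ≤
      k ^ 2 * D ^ k := by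
  have hsub : (Fintype.piFinset (fun _ : Fin k => Icc 1 D)).filter (fun a => ¬ Function.Injective a) ⊆
      ((univ : Finset (Fin k × Fin k)).filter (fun q => q.1 ≠ q.2)).biUnion (fun q =>
        (Fintype.piFinset (fun _ : Fin k => Icc 1 D)).filter (fun a => a q.1 = a q.2)) := by
    intro a ha
    rw [mem_filter] at ha
    obtain ⟨h1, h2⟩ := ha
    rw [Function.Injective] at h2
    push Not at h2
    obtain ⟨i, j, h3, h4⟩ := h2
    rw [mem_biUnion]
    exact ⟨(i, j), by simp [h4], mem_filter.2 ⟨h1, h3⟩⟩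
  calc D * ((Fintype.piFinset (fun _ : Fin k => Icc 1 D)).filter (fun a => ¬ Function.Injective a)).card
      ≤ D * ∑ q ∈ (univ : Finset (Fin k × Fin k)).filter (fun q => q.1 ≠ q.2),
        ((Fintype.piFinset (fun _ : Fin k => Icc 1 D)).filter (fun a => a q.1 = a q.2)).card :=
        Nat.mul_le_mul_left _ ((card_le_card hsub).trans card_biUnion_le)
    _ = ∑ q ∈ (univ : Finset (Fin k × Fin k)).filter (fun q => q.1 ≠ q.2),
        D * ((Fintype.piFinset (fun _ : Fin k => Icc 1 D)).filter (fun a => a q.1 = a q.2)).card := mul_sum _ _ _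
    _ ≤ ∑ _q ∈ (univ : Finset (Fin k × Fin k)).filter (fun q => q.1 ≠ q.2), D ^ k := by
        apply sum_le_sum
        intro q hq
        exact eq_card q.1 q.2 (mem_filter.1 hq).2
    _ ≤ k ^ 2 * D ^ k := by
        rw [sum_const, smul_eq_mul]
        apply Nat.mul_le_mul_right
        calc _ ≤ (univ : Finset (Fin k × Fin k)).card := card_filter_le _ _
          _ = k ^ 2 := by simp [sq]

open Classical in
/-- passing to injective vectors -/
lemma to_inj (k : ℕ) (κ : ℝ) (hκ : 0 < κ) (D : ℕ) (hD : 2 * (k : ℝ) ^ 2 / κ ≤ D) (hD0 : 0 < D)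
    (S : Finset (Fin k → ℕ)) (hS : S ⊆ Fintype.piFinset (fun _ : Fin k => Icc 1 D))
    (h : κ * (D : ℝ) ^ k ≤ S.card) :
    κ / 2 * (D : ℝ) ^ k ≤ ((S.filter (fun a => Function.Injective a)).card : ℝ) := by
  have hDr : (0 : ℝ) < D := by exact_mod_cast hD0
  have h1 := card_filter_add_card_filter_not (s := S) (fun a => Function.Injective a)
  have h2 : (S.filter (fun a => ¬ Function.Injective a)).card ≤
      ((Fintype.piFinset (fun _ : Fin k => Icc 1 D)).filter (fun a => ¬ Function.Injective a)).card :=
    card_le_card (filter_subset_filter _ hS)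
  have h3 := noninj_card k D
  have h4 : (D : ℝ) * ((S.filter (fun a => ¬ Function.Injective a)).card : ℝ) ≤ (k : ℝ) ^ 2 * (D : ℝ) ^ k := by
    have : D * (S.filter (fun a => ¬ Function.Injective a)).card ≤ k ^ 2 * D ^ k :=
      (Nat.mul_le_mul_left D h2).trans h3
    exact_mod_cast this
  have h5 : ((S.filter (fun a => ¬ Function.Injective a)).card : ℝ) ≤ κ / 2 * (D : ℝ) ^ k := by
    have h6 : (k : ℝ) ^ 2 ≤ κ / 2 * D := by
      rw [div_le_iff₀ hκ] at hD; linarith
    have h7 : (D : ℝ) * ((S.filter (fun a => ¬ Function.Injective a)).card : ℝ) ≤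
        D * (κ / 2 * (D : ℝ) ^ k) := by
      calc _ ≤ (k : ℝ) ^ 2 * (D : ℝ) ^ k := h4
        _ ≤ (κ / 2 * D) * (D : ℝ) ^ k := by gcongr
        _ = _ := by ring
    exact le_of_mul_le_mul_left h7 hDr
  have h8 : (S.card : ℝ) = ((S.filter (fun a => Function.Injective a)).card : ℝ) +
      ((S.filter (fun a => ¬ Function.Injective a)).card : ℝ) := by exact_mod_cast h1.symm
  linarith

end Pool.Agent.W218.PF
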