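import Mathlib
import Pool.Agent.W218.PG.Poly
import Pool.Agent.W218.PF.Main3
import Pool.Agent.W218.PF.Final8
import Pool.Agent.W218.PF.Inj

set_option autoImplicit false

/-! Prime values of `a_i n + 1` for `n` in an arbitrary dense set of primes. -/

namespace Pool.Agent.W218.PF

open Finset Pool.Agent.Erdos456 Pool.Agent.Erdos456.Mert Pool.Agent.W218.HF Pool.Agent.W218.LF

/-- the number of `n ∈ T` with all `a_i n + 1` prime -/
def NC {k : ℕ} (a : Fin k → ℕ) (T : Finset ℕ) : ℕ := (T.filter (fun n : ℕ => ∀ i, (a i * n + 1).Prime)).card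

/-- the number of `n ∈ T` for which no `a_i n + 1` has a prime factor `≤ z` -/
def RC {k : ℕ} (z : ℕ) (a : Fin k → ℕ) (T : Finset ℕ) : ℕ :=
  (T.filter (fun n : ℕ => ∀ i, ∀ p ≤ z, p.Prime → ¬ p ∣ a i * n + 1)).card

open Classical in
theorem denseC (k : ℕ) (hk : 1 ≤ k) : ∃ K : ℕ, ∀ c δ : ℝ, 0 < c → 0 < δ → ∀ θ : ℝ, 0 < θ → θ < 1 →
    ∃ κ : ℝ, 0 < κ ∧ ∃ D₀ : ℕ, ∀ D : ℕ, D₀ ≤ D → ∀ z : ℕ, (Pz z : ℝ) ≤ κ * D → ∀ x : ℕ,
      c * Real.log D ^ k ≤ x / Real.log x → x * Real.log D ^ K ≤ D →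
      ∀ T : Finset ℕ, T ⊆ (Ioc (k + 2) x).filter Nat.Prime → δ * (x / Real.log x) ≤ T.card →
      κ * D ^ k ≤ (((Fintype.piFinset (fun _ : Fin k => Icc 1 D)).filter (fun a =>
        Function.Injective a ∧
        (∀ p : ℕ, p.Prime → ∃ n : ℕ, ¬ p ∣ n * ∏ i, (a i * n + 1)) ∧
        κ * T.card / Real.log D ^ k ≤ NC a T ∧
        θ * (RC z a T / Wz z ^ k) / Real.log (D * x) ^ k ≤ NC a T)).card : ℝ) := by
  obtain ⟨K, hmain⟩ := main3 k hk
  refine ⟨K + 1, fun c δ hc hδ θ hθ0 hθ => ?_⟩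
  obtain ⟨C, hC, X0, hX⟩ := Pool.Agent.W218.PG.mom_P (6 * k) (by omega) Polynomial.X (by simp)
  obtain ⟨η, hη, B₀, hM⟩ := hmain 0 δ (1 / c) (C * 80) hδ (by positivity) (by positivity) θ hθ
  set κ₀ : ℝ := min (min (η / 80) (η / 3 ^ k)) (η / 3) with hκ₀
  have hκ₀0 : 0 < κ₀ := by positivity
  have hκ1 : κ₀ ≤ η / 80 := (min_le_left _ _).trans (min_le_left _ _)
  have hκ2 : κ₀ ≤ η / 3 ^ k := (min_le_left _ _).trans (min_le_right _ _)
  have hκ3 : κ₀ ≤ η / 3 := min_le_right _ _
  refine ⟨κ₀ / 2, by positivity,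
    max (max (2 * B₀ + 8) ⌈2 * (k : ℝ) ^ 2 / κ₀⌉₊) ⌈Real.exp (3 + (X0 + 3 : ℕ) / c)⌉₊, fun D hD z hz x hcx hxD T hT hTc => ?_⟩
  have hD1 : 2 * B₀ + 8 ≤ D := ((le_max_left _ _).trans (le_max_left _ _)).trans hD
  have hD2 : 2 * (k : ℝ) ^ 2 / κ₀ ≤ D := (Nat.le_ceil _).trans (by
    exact_mod_cast ((le_max_right _ _).trans (le_max_left _ _)).trans hD)
  have hD3 : Real.exp (3 + (X0 + 3 : ℕ) / c) ≤ D := (Nat.le_ceil _).trans (by
    exact_mod_cast (le_max_right _ _).trans hD)
  have hD0 : (0:ℝ) < D := lt_of_lt_of_le (Real.exp_pos _) hD3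
  have hlD : 3 + ((X0 + 3 : ℕ) : ℝ) / c ≤ Real.log D := by
    rwa [Real.le_log_iff_exp_le hD0]
  have hlD3 : 3 ≤ Real.log D := by
    have : (0 : ℝ) ≤ ((X0 + 3 : ℕ) : ℝ) / c := by positivity
    linarith
  set B : ℕ := D / 2 with hB
  have hB4 : 4 ≤ B := by omega
  have hBB : B₀ ≤ B := by omega
  have hB2D : 2 * B ≤ D := by omega
  have hDB : D ≤ 3 * B := by omega
  have hB0 : (0:ℝ) < B := by exact_mod_cast (by omega : 0 < B)
  have hBD : (B:ℝ) ≤ D := by exact_mod_cast (by omega : B ≤ D)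
  have hDBr : (D:ℝ) ≤ 3 * B := by exact_mod_cast hDB
  have hlBD : Real.log B ≤ Real.log D := Real.log_le_log hB0 hBD
  have hlB0 : 0 < Real.log B := Real.log_pos (by exact_mod_cast (by omega : 1 < B))
  have hXX : ((X0 + 3 : ℕ) : ℝ) ≤ x / Real.log x := by
    refine le_trans ?_ hcx
    have h1 : ((X0 + 3 : ℕ) : ℝ) / c ≤ Real.log D ^ k := by
      calc ((X0 + 3 : ℕ) : ℝ) / c ≤ Real.log D := by linarith
        _ ≤ Real.log D ^ k := le_self_pow₀ (by linarith) (by omega)
    rw [div_le_iff₀ hc] at h1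
    linarith
  have hX3 : (3 : ℝ) ≤ x / Real.log x := by
    push_cast at hXX
    have : (0 : ℝ) ≤ X0 := Nat.cast_nonneg _
    linarith
  have hx3 : 3 ≤ x := by
    by_contra hcon
    have hx2 : x ≤ 2 := by omega
    have h2 : (x : ℝ) / Real.log x < 3 := by
      interval_cases x
      · simp
      · simp
      · have h3 := Real.log_two_gt_d9
        rw [div_lt_iff₀ (by push_cast; linarith)]
        push_cast
        linarith
    linarith
  have hx3r : (3 : ℝ) ≤ x := by exact_mod_cast hx3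
  have hx0 : (0 : ℝ) < x := by linarith
  have hlx1 : 1 ≤ Real.log x := by
    rw [Real.le_log_iff_exp_le hx0]
    have := Real.exp_one_lt_d9
    linarith
  have hXx : (x : ℝ) / Real.log x ≤ x := by
    rw [div_le_iff₀ (by linarith)]
    nlinarith
  have hx1 : X0 ≤ x := by
    have : ((X0 + 3 : ℕ) : ℝ) ≤ x := hXX.trans hXx
    have h2 : X0 + 3 ≤ x := by exact_mod_cast this
    omega
  have hTmem : ∀ t ∈ T, k + 2 < t ∧ t ≤ x ∧ t.Prime := by
    intro t ht
    have := hT ht
    rw [mem_filter, mem_Ioc] at this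
    exact ⟨this.1.1, this.1.2, this.2⟩
  have hTPP : T ⊆ PP x := by
    intro t ht
    obtain ⟨h1, h2, h3⟩ := hTmem t ht
    simp only [PP, mem_filter, mem_Icc]
    exact ⟨⟨by omega, h2⟩, h3⟩
  have hTup : (T.card : ℝ) ≤ 80 * (x / Real.log x) :=
    le_trans (by exact_mod_cast card_le_card hTPP) (cheb (by omega))
  have hTpos : (0 : ℝ) < T.card := lt_of_lt_of_le (by positivity) hTc
  have key := hM B hBB z (by
      calc (Pz z : ℝ) ≤ κ₀ / 2 * D := hz
        _ ≤ η / 3 * D := by
            apply mul_le_mul_of_nonneg_right _ hD0.le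
            linarith
        _ ≤ η / 3 * (3 * B) := mul_le_mul_of_nonneg_left hDBr (by positivity)
        _ = η * B := by ring) x (fun _ _ => 1) T hTPP
    (fun t _ i => isCoprime_one_right)
    (by
      intro i t _
      have h1 : (1:ℝ) ≤ B := by exact_mod_cast (by omega : 1 ≤ B)
      have h2 : (0:ℝ) ≤ B * t := by positivity
      simp only [Int.cast_one, abs_one]
      linarith)
    (by
      intro i ε hε hε1 y hy1 hy2
      have hy0 : 0 ≤ y := le_trans (by positivity) hy1
      refine ⟨0, by rw [abs_zero]; positivity, fun t _ _ _ => ?_⟩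
      have h1 : (1:ℝ) ≤ B := by exact_mod_cast (by omega : 1 ≤ B)
      simp only [Int.cast_one, sub_zero, abs_one, Nat.cast_zero, zero_mul, zero_add]
      exact h1)
    (by
      intro i
      have h1 := hX x hx1 T hTPP
      simp only [Polynomial.eval_X] at h1
      simp only [mul_one]
      refine h1.trans ?_
      calc C * ((x : ℝ) / Real.log x) * T.card ≤ C * ((x : ℝ) / Real.log x) * (80 * (x / Real.log x)) := by
            gcongr
        _ = _ := by ring)
    (by
      calc Real.log B ^ k ≤ Real.log D ^ k := pow_le_pow_left₀ hlB0.le hlBD k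
        _ = 1 / c * (c * Real.log D ^ k) := by field_simp
        _ ≤ 1 / c * (x / Real.log x) := by gcongr)
    (by
      have h1 : x * Real.log D ^ K * Real.log D ≤ D := by
        rw [mul_assoc, ← pow_succ]; exact hxD
      have h2 : x * Real.log B ^ K ≤ x * Real.log D ^ K := by
        apply mul_le_mul_of_nonneg_left _ hx0.le
        exact pow_le_pow_left₀ hlB0.le hlBD K
      have h3 : x * Real.log D ^ K * 3 ≤ D := by
        refine le_trans ?_ h1
        apply mul_le_mul_of_nonneg_left hlD3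
        positivity
      linarith)
    hTc
  set S₀ := (Fintype.piFinset (fun _ : Fin k => Icc 1 D)).filter (fun a =>
        (∀ p : ℕ, p.Prime → ∃ n : ℕ, ¬ p ∣ n * ∏ i, (a i * n + 1)) ∧
        κ₀ / 2 * T.card / Real.log D ^ k ≤ NC a T ∧
        θ * (RC z a T / Wz z ^ k) / Real.log (D * x) ^ k ≤ NC a T) with hS₀
  have hS₀c : κ₀ * (D:ℝ) ^ k ≤ S₀.card := by
    have e1 : κ₀ * (D:ℝ) ^ k ≤ η * (B:ℝ) ^ k := by
      calc κ₀ * (D:ℝ) ^ k ≤ (η / 3 ^ k) * (3 * B) ^ k := by gcongr
        _ = η * (B:ℝ) ^ k := by rw [mul_pow]; field_simp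
    refine e1.trans (key.trans ?_)
    apply Nat.cast_le.2
    apply card_le_card
    intro a ha
    rw [mem_filter, Fintype.mem_piFinset] at ha
    obtain ⟨ha1, ha2, ha3⟩ := ha
    have hab : ∀ i, B < a i ∧ a i ≤ 2 * B := fun i => mem_Ioc.1 (ha1 i)
    have hNC : primeG (fun _ _ => 1) a T = NC a T := by
      unfold primeG NC
      congr 1
      apply filter_congr
      intro n _
      have e : ∀ i, ((1:ℤ) + a i * n).toNat = a i * n + 1 := by
        intro i
        have : ((1:ℤ) + a i * n) = ((a i * n + 1 : ℕ) : ℤ) := by push_cast; ring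
        rw [this, Int.toNat_natCast]
      simp only [e]
    have hRC : roughG z (fun _ _ => 1) a T = RC z a T := by
      unfold roughG RC
      congr 1
      apply filter_congr
      intro n _
      have e : ∀ i (p : ℕ), ((p : ℤ) ∣ (1:ℤ) + a i * n) ↔ p ∣ a i * n + 1 := by
        intro i p
        rw [← Int.natCast_dvd_natCast]
        push_cast
        rw [add_comm]
      simp only [e]
    rw [hNC] at ha2 ha3
    rw [hRC] at ha2
    have hNCl : κ₀ / 2 * T.card / Real.log D ^ k ≤ NC a T := by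
      refine le_trans ?_ ha3
      apply div_le_div₀ (by positivity) _ (by positivity) (pow_le_pow_left₀ hlB0.le hlBD k)
      calc κ₀ / 2 * T.card ≤ η / 80 * (80 * (x / Real.log x)) := by
            apply mul_le_mul _ hTup hTpos.le (by positivity)
            linarith
        _ = η * (x / Real.log x) := by ring
    rw [hS₀, mem_filter, Fintype.mem_piFinset]
    refine ⟨fun i => mem_Icc.2 ⟨by have := hab i; omega, by have := hab i; omega⟩, ?_, hNCl, ?_⟩
    · -- admissible
      have hpos : (0:ℝ) < NC a T := lt_of_lt_of_le (by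
        have : 0 < Real.log (D:ℝ) := by linarith
        positivity) hNCl
      have hpos' : 0 < NC a T := by exact_mod_cast hpos
      unfold NC at hpos'
      obtain ⟨q, hq⟩ := card_pos.1 hpos'
      rw [mem_filter] at hq
      obtain ⟨hq1, hq2⟩ := hq
      obtain ⟨h1, h2, h3⟩ := hTmem q hq1
      intro p hp
      obtain ⟨n, hn⟩ := adm_of_point (fun _ => (1:ℤ)) a (k + 2) q (by omega) (fun i => ⟨by norm_num, by norm_num⟩)
        h3 h1 (fun i => by have := hab i; omega) (fun i => by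
          have : ((1:ℤ) + a i * q) = ((a i * q + 1 : ℕ) : ℤ) := by push_cast; ring
          rw [this, Int.toNat_natCast]
          exact hq2 i) p hp
      refine ⟨n, fun hd => hn ?_⟩
      have h4 : ((p : ℕ) : ℤ) ∣ ((n * ∏ i, (a i * n + 1) : ℕ) : ℤ) := Int.natCast_dvd_natCast.2 hd
      push_cast at h4
      simpa only [add_comm] using h4
    · refine le_trans ?_ ha2
      have hlBx : Real.log ((B:ℝ) * x) ≤ Real.log (D * x) :=
        Real.log_le_log (by positivity) (mul_le_mul_of_nonneg_right hBD hx0.le)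
      have hBx1 : 0 < Real.log ((B:ℝ) * x) := by
        apply Real.log_pos
        have : (4:ℝ) ≤ B := by exact_mod_cast hB4
        nlinarith
      have hW := Wz_pos z
      apply div_le_div_of_nonneg_left _ (by positivity) (pow_le_pow_left₀ hBx1.le hlBx k)
      positivity
  have hfin := to_inj k κ₀ hκ₀0 D hD2 (by exact_mod_cast hD0) S₀ (filter_subset _ _) hS₀c
  refine hfin.trans ?_
  apply Nat.cast_le.2
  apply card_le_card
  intro a ha
  rw [mem_filter, hS₀, mem_filter] at ha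
  rw [mem_filter]
  exact ⟨ha.1.1, ha.2, ha.1.2⟩

end Pool.Agent.W218.PF
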