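import Mathlib
import Pool.Agent.W218.PF.Final8

set_option autoImplicit false

/-! The equation `a p - b q = c` with `a`, `c` fixed. -/

namespace Pool.Agent.W218.PF

open Finset Pool.Agent.Erdos456 Pool.Agent.Erdos456.Mert Pool.Agent.W218.HF Pool.Agent.W218.LF H343E

/-- the value `(c + r q) / a` -/
def G63 (a r : ℕ) (c : ℤ) (q : ℕ) : ℤ := (c + r * q) / a

/-- the arguments: primes `q ≤ x`, `q > y0`, `q ≡ q0 mod a` -/
def T63 (x y0 a q0 : ℕ) : Finset ℕ := (TT x y0).filter (fun q => q ≡ q0 [MOD a])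

lemma G63_eq {a r q q0 : ℕ} {c : ℤ} (h : (a : ℤ) ∣ c + r * q0) (hq : q ≡ q0 [MOD a]) :
    (a : ℤ) * G63 a r c q = c + r * q := by
  unfold G63
  apply Int.mul_ediv_cancel'
  have h1 : (a : ℤ) ∣ (q : ℤ) - q0 := by
    have := (Nat.modEq_iff_dvd).1 hq.symm
    exact this
  have h2 := dvd_add h (dvd_mul_of_dvd_right h1 (r : ℤ))
  have e : c + (r : ℤ) * q0 + r * (q - q0) = c + r * q := by ring
  rwa [e] at h2

lemma GG_mono {m n : ℕ} (h : n ∣ m) (hm : 0 < m) : GG n ≤ GG m := by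
  have hn : 0 < n := Nat.pos_of_dvd_of_pos h hm
  rw [GG_eq_prod hn, GG_eq_prod hm]
  apply Finset.prod_le_prod_of_subset_of_one_le (Nat.primeFactors_mono h hm.ne')
  · intro p hp
    exact zero_le_one.trans (factor_ge_one (Nat.prime_of_mem_primeFactors hp))
  · intro p hp _
    exact factor_ge_one (Nat.prime_of_mem_primeFactors hp)

/-- the determinants -/
lemma det63 (m : ℕ) (hm : 1 ≤ m) (z : ℕ) : ∃ C : ℝ, 0 < C ∧ ∀ (x y0 a q0 r : ℕ) (c : ℤ), 2 ≤ x →
    z ≤ x → 1 ≤ a → c ≠ 0 → c.natAbs ≤ z → (a : ℤ) ∣ c + r * q0 →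
    ∑ t₁ ∈ T63 x y0 a q0, ∑ t₂ ∈ T63 x y0 a q0,
      GG ((t₁ : ℤ) * G63 a r c t₂ - (t₂ : ℤ) * G63 a r c t₁).natAbs ^ m ≤ C * (x / Real.log x) ^ 2 := by
  obtain ⟨C, hC, h⟩ := det_const m hm z
  refine ⟨C, hC, ?_⟩
  intro x y0 a q0 r c hx hzx ha hc hcz hdvd
  have hsub : T63 x y0 a q0 ⊆ PP x := (filter_subset _ _).trans (filter_subset _ _)
  refine le_trans ?_ (h x c (T63 x y0 a q0) hx hzx hc hcz hsub)
  apply sum_le_sum
  intro t₁ h₁
  apply sum_le_sum
  intro t₂ h₂
  apply pow_le_pow_left₀ (GG_nonneg _)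
  have e₁ := G63_eq hdvd (mem_filter.1 h₁).2
  have e₂ := G63_eq hdvd (mem_filter.1 h₂).2
  by_cases h12 : t₁ = t₂
  · subst h12
    simp
  · have e : (a : ℤ) * ((t₁ : ℤ) * G63 a r c t₂ - (t₂ : ℤ) * G63 a r c t₁) =
        (t₁ : ℤ) * c - (t₂ : ℤ) * c := by linear_combination (t₁ : ℤ) * e₂ - (t₂ : ℤ) * e₁
    apply GG_mono
    · rw [← Int.natCast_dvd_natCast, Int.natCast_natAbs, Int.natCast_natAbs, abs_dvd_abs, ← e]
      exact dvd_mul_left _ _
    · apply Int.natAbs_pos.2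
      have e3 : (t₁ : ℤ) * c - (t₂ : ℤ) * c = ((t₁ : ℤ) - t₂) * c := by ring
      rw [e3]
      apply mul_ne_zero _ hc
      intro h
      apply h12
      omega

/-- the admissible `b` -/
def Adm63 (a b : ℕ) (c : ℤ) : Prop :=
  Nat.Coprime a b ∧ Int.gcd b c = 1 ∧ (2 : ℤ) ∣ a * b * c

lemma om63_one {a b : ℕ} {c : ℤ} (hac : Int.gcd a c = 1) (h : Adm63 a b c) {p : ℕ} (hp : p.Prime)
    (hd : (p : ℤ) ∣ a * b * c) :
    om (fun _ : Fin 1 => (a : ℤ) * c) (fun _ : Fin 1 => (b : ℤ)) p = 1 := by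
  classical
  have hpi : Prime (p : ℤ) := Nat.prime_iff_prime_int.1 hp
  obtain ⟨h1, h2, _⟩ := h
  have hab : ¬ ((p : ℤ) ∣ (a : ℤ) ∧ (p : ℤ) ∣ (b : ℤ)) := by
    rintro ⟨ha, hb⟩
    have ha' : p ∣ a := by exact_mod_cast ha
    have hb' : p ∣ b := by exact_mod_cast hb
    have := Nat.dvd_gcd ha' hb'
    rw [Nat.Coprime] at h1
    rw [h1] at this
    exact hp.one_lt.ne' (Nat.dvd_one.1 this)
  have hbc : ¬ ((p : ℤ) ∣ (b : ℤ) ∧ (p : ℤ) ∣ c) := by
    rintro ⟨hb, hc⟩
    have := Int.dvd_coe_gcd hb hc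
    rw [h2] at this
    have h3 : p ∣ 1 := by exact_mod_cast this
    exact hp.one_lt.ne' (Nat.dvd_one.1 h3)
  unfold om
  have : (range p).filter (fun r : ℕ => (p : ℤ) ∣ (r : ℤ) * ∏ _i : Fin 1, ((a : ℤ) * c + (b : ℤ) * r)) = {0} := by
    ext r
    rw [mem_filter, mem_range, mem_singleton]
    constructor
    · rintro ⟨hr, hdr⟩
      simp only [univ_unique, prod_const, card_singleton, pow_one] at hdr
      have hpr : (p : ℤ) ∣ (r : ℤ) := by
        by_cases hb : (p : ℤ) ∣ (b : ℤ)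
        · rcases hpi.dvd_or_dvd hdr with h | h
          · exact h
          · exfalso
            have h3 : (p : ℤ) ∣ (a : ℤ) * c := by
              have := dvd_sub h (dvd_mul_of_dvd_left hb (r : ℤ))
              rwa [add_sub_cancel_right] at this
            rcases hpi.dvd_or_dvd h3 with h4 | h4
            · exact hab ⟨h4, hb⟩
            · exact hbc ⟨hb, h4⟩
        · have hac' : (p : ℤ) ∣ (a : ℤ) * c := by
            have h3 : (p : ℤ) ∣ (b : ℤ) * ((a : ℤ) * c) := by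
              have e : (b : ℤ) * ((a : ℤ) * c) = a * b * c := by ring
              rw [e]; exact hd
            rcases hpi.dvd_or_dvd h3 with h4 | h4
            · exact absurd h4 hb
            · exact h4
          rcases hpi.dvd_or_dvd hdr with h | h
          · exact h
          · have h3 : (p : ℤ) ∣ (b : ℤ) * r := by
              have := dvd_sub h hac'
              rwa [add_sub_cancel_left] at this
            rcases hpi.dvd_or_dvd h3 with h4 | h4
            · exact absurd h4 hb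
            · exact h4
      have hpr' : p ∣ r := by exact_mod_cast hpr
      exact Nat.eq_zero_of_dvd_of_lt hpr' hr
    · rintro rfl
      exact ⟨hp.pos, by simp⟩
  rw [this, card_singleton]

lemma om63_two {a b : ℕ} {c : ℤ} {p : ℕ} (hp : p.Prime) (hd : ¬ (p : ℤ) ∣ a * b * c) :
    om (fun _ : Fin 1 => (a : ℤ) * c) (fun _ : Fin 1 => (b : ℤ)) p = 2 := by
  apply om_eq _ _ hp
  · intro _ h
    apply hd
    have e : (a : ℤ) * b * c = ((a : ℤ) * c) * b := by ring
    rw [e]; exact dvd_mul_of_dvd_left h _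
  · intro _ h
    apply hd
    have e : (a : ℤ) * b * c = (b : ℤ) * (a * c) := by ring
    rw [e]; exact dvd_mul_of_dvd_left h _
  · intro i j hij
    exact absurd (Subsingleton.elim i j) hij

/-- a local count: the residues `n` with `(q0 + a n)(e + b n)` prime to `p` -/
lemma local63 {a b q0 : ℕ} {c e : ℤ} (hac : Int.gcd a c = 1) (h : Adm63 a b c)
    (hq0 : Nat.Coprime q0 a) (he : (a : ℤ) * e = c + b * q0) {p : ℕ} (hp : p.Prime) :
    p - om (fun _ : Fin 1 => (a : ℤ) * c) (fun _ : Fin 1 => (b : ℤ)) p ≤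
      ((range p).filter (fun n : ℕ => ¬ (p : ℤ) ∣ ((q0 : ℤ) + a * n) * (e + b * n))).card := by
  classical
  have hpi : Prime (p : ℤ) := Nat.prime_iff_prime_int.1 hp
  obtain ⟨h1, h2, h22⟩ := h
  have hab : ¬ ((p : ℤ) ∣ (a : ℤ) ∧ (p : ℤ) ∣ (b : ℤ)) := by
    rintro ⟨ha, hb⟩
    have ha' : p ∣ a := by exact_mod_cast ha
    have hb' : p ∣ b := by exact_mod_cast hb
    have := Nat.dvd_gcd ha' hb'
    rw [Nat.Coprime] at h1
    rw [h1] at this
    exact hp.one_lt.ne' (Nat.dvd_one.1 this)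
  have hbc : ¬ ((p : ℤ) ∣ (b : ℤ) ∧ (p : ℤ) ∣ c) := by
    rintro ⟨hb, hc⟩
    have := Int.dvd_coe_gcd hb hc
    rw [h2] at this
    have h3 : p ∣ 1 := by exact_mod_cast this
    exact hp.one_lt.ne' (Nat.dvd_one.1 h3)
  have hqa : ¬ ((p : ℤ) ∣ (q0 : ℤ) ∧ (p : ℤ) ∣ (a : ℤ)) := by
    rintro ⟨hb, ha⟩
    have ha' : p ∣ a := by exact_mod_cast ha
    have hb' : p ∣ q0 := by exact_mod_cast hb
    have := Nat.dvd_gcd hb' ha'
    rw [Nat.Coprime] at hq0
    rw [hq0] at this
    exact hp.one_lt.ne' (Nat.dvd_one.1 this)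
  set R₁ := (range p).filter (fun n : ℕ => (p : ℤ) ∣ (q0 : ℤ) + a * n) with hR₁
  set R₂ := (range p).filter (fun n : ℕ => (p : ℤ) ∣ e + b * n) with hR₂
  have hone : ∀ (u v : ℤ), ¬ (p : ℤ) ∣ v → ((range p).filter (fun n : ℕ => (p : ℤ) ∣ u + v * n)).card ≤ 1 := by
    intro u v hv
    rw [card_le_one]
    intro r hr s hs
    rw [mem_filter, mem_range] at hr hs
    have h1 : (p : ℤ) ∣ v * ((r : ℤ) - s) := by
      have := dvd_sub hr.2 hs.2
      have e : u + v * (r : ℤ) - (u + v * s) = v * ((r : ℤ) - s) := by ring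
      rwa [e] at this
    rcases hpi.dvd_or_dvd h1 with h2 | h2
    · exact absurd h2 hv
    · have h3 : s ≡ r [MOD p] := (Nat.modEq_iff_dvd).2 h2
      exact (Nat.ModEq.eq_of_lt_of_lt h3 hs.1 hr.1).symm
  have hR₁c : R₁.card ≤ 1 ∧ ((p : ℤ) ∣ (a : ℤ) → R₁ = ∅) := by
    by_cases ha : (p : ℤ) ∣ (a : ℤ)
    · have : R₁ = ∅ := by
        apply filter_eq_empty_iff.2
        intro n _ hn
        apply hqa
        refine ⟨?_, ha⟩
        have := dvd_sub hn (dvd_mul_of_dvd_left ha (n : ℤ))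
        rwa [add_sub_cancel_right] at this
      exact ⟨by rw [this]; simp, fun _ => this⟩
    · exact ⟨hone _ _ ha, fun h => absurd h ha⟩
  have hR₂c : R₂.card ≤ 1 ∧ ((p : ℤ) ∣ (b : ℤ) → R₂ = ∅) := by
    by_cases hb : (p : ℤ) ∣ (b : ℤ)
    · have : R₂ = ∅ := by
        apply filter_eq_empty_iff.2
        intro n _ hn
        have h3 : (p : ℤ) ∣ e := by
          have := dvd_sub hn (dvd_mul_of_dvd_left hb (n : ℤ))
          rwa [add_sub_cancel_right] at this
        apply hbc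
        refine ⟨hb, ?_⟩
        have h4 := dvd_sub (dvd_mul_of_dvd_right h3 (a : ℤ)) (dvd_mul_of_dvd_left hb (q0 : ℤ))
        have e4 : (a : ℤ) * e - b * q0 = c := by rw [he]; ring
        rwa [e4] at h4
      exact ⟨by rw [this]; simp, fun _ => this⟩
    · exact ⟨hone _ _ hb, fun h => absurd h hb⟩
  have hsub : (range p).filter (fun n : ℕ => (p : ℤ) ∣ ((q0 : ℤ) + a * n) * (e + b * n)) ⊆ R₁ ∪ R₂ := by
    intro n hn
    rw [mem_filter] at hn
    rw [mem_union, hR₁, hR₂, mem_filter, mem_filter]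
    rcases hpi.dvd_or_dvd hn.2 with h | h
    · exact Or.inl ⟨hn.1, h⟩
    · exact Or.inr ⟨hn.1, h⟩
  have hcomp := card_filter_add_card_filter_not (s := range p)
    (fun n : ℕ => (p : ℤ) ∣ ((q0 : ℤ) + a * n) * (e + b * n))
  rw [card_range] at hcomp
  have hU := (card_le_card hsub)
  have hbound : (R₁ ∪ R₂).card ≤ om (fun _ : Fin 1 => (a : ℤ) * c) (fun _ : Fin 1 => (b : ℤ)) p := by
    by_cases hd : (p : ℤ) ∣ a * b * c
    · rw [om63_one hac ⟨h1, h2, h22⟩ hp hd]
      by_cases ha : (p : ℤ) ∣ (a : ℤ)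
      · rw [hR₁c.2 ha, empty_union]; exact hR₂c.1
      · by_cases hb : (p : ℤ) ∣ (b : ℤ)
        · rw [hR₂c.2 hb, union_empty]; exact hR₁c.1
        · have hc : (p : ℤ) ∣ c := by
            rcases hpi.dvd_or_dvd hd with h | h
            · rcases hpi.dvd_or_dvd h with h | h
              · exact absurd h ha
              · exact absurd h hb
            · exact h
          have : R₁ ∪ R₂ ⊆ R₁ := by
            apply union_subset (le_refl _)
            intro n hn
            rw [hR₂, mem_filter] at hn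
            rw [hR₁, mem_filter]
            refine ⟨hn.1, ?_⟩
            have h3 : (p : ℤ) ∣ (b : ℤ) * ((q0 : ℤ) + a * n) := by
              have h4 := dvd_sub (dvd_mul_of_dvd_right hn.2 (a : ℤ)) hc
              have e4 : (a : ℤ) * (e + b * n) - c = b * (q0 + a * n) := by linear_combination he
              rwa [e4] at h4
            rcases hpi.dvd_or_dvd h3 with h4 | h4
            · exact absurd h4 hb
            · exact h4
          exact (card_le_card this).trans hR₁c.1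
    · rw [om63_two hp hd]
      have := card_union_le R₁ R₂
      have := hR₁c.1
      have := hR₂c.1
      omega
  omega

end Pool.Agent.W218.PF
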