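import Mathlib
import Pool.Agent.W218.PF.Eq63

set_option autoImplicit false

/-! The equation `a p - b q = c`: the rough count. -/

namespace Pool.Agent.W218.PF

open Finset Pool.Agent.Erdos456 Pool.Agent.Erdos456.Mert Pool.Agent.W218.HF Pool.Agent.W218.LF H343E

lemma mem_T63 {x y0 a q0 t : ℕ} (h : t ∈ T63 x y0 a q0) :
    t.Prime ∧ y0 < t ∧ 1 ≤ t ∧ t ≤ x ∧ t ≡ q0 [MOD a] := by
  rw [T63, mem_filter, TT, mem_filter] at h
  have h1 := mem_PP h.1.1
  exact ⟨h1.2.2, h.1.2, h1.1, h1.2.1, h.2⟩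

/-- primes in a class, lower bound -/
lemma piAP_low (P : ℕ) (hP1 : 1 ≤ P) : ∃ x0 : ℕ, ∀ x : ℕ, x0 ≤ x → ∀ u : ℕ, u < P → Nat.Coprime P u →
    pi1 x / (Nat.totient P : ℝ) - x / Real.log x ^ 2 ≤ piAP x P u := by
  have hP0 : (0 : ℝ) < P := by exact_mod_cast hP1
  obtain ⟨K, X0, hBV⟩ := bvR 2
  obtain ⟨x1, hx1⟩ := isLittle K ((P : ℝ) ^ 2) (by positivity)
  refine ⟨max (max X0 x1) 3, ?_⟩
  intro x hx u hu hcopu
  have hxX0 : X0 ≤ x := ((le_max_left _ _).trans (le_max_left _ _)).trans hx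
  have hxx1 : x1 ≤ x := ((le_max_right _ _).trans (le_max_left _ _)).trans hx
  have hx3' : 3 ≤ x := (le_max_right _ _).trans hx
  have hxr : (3 : ℝ) ≤ x := by exact_mod_cast hx3'
  have hx0 : (0 : ℝ) < x := by linarith
  have hlx1 : 1 ≤ Real.log x := by
    rw [Real.le_log_iff_exp_le hx0]
    have := Real.exp_one_lt_d9
    linarith
  have hlx0 : 0 < Real.log x := by linarith
  have hPsq : (P : ℝ) ^ 2 ≤ x / Real.log x ^ K := by
    rw [le_div_iff₀ (by positivity)]
    exact hx1 x hxx1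
  have hPle : (P : ℝ) ≤ x / Real.log x ^ K := by
    refine le_trans ?_ hPsq
    have : P ≤ P ^ 2 := Nat.le_self_pow (by norm_num) P
    exact_mod_cast this
  have hcop : IsCoprime (P : ℤ) (u : ℤ) := by
    rw [Nat.isCoprime_iff_coprime]; exact hcopu
  have h := hBV x hxX0 P hPle hPsq (fun _ => (u : ℤ)) {P} (by
    rw [singleton_subset_iff, mem_Icc]; exact ⟨hP1, le_rfl⟩) (by
    intro t ht
    rw [mem_singleton] at ht
    rw [ht]; exact hcop)
  rw [sum_singleton] at h
  have e : ((u : ℤ) % (P : ℤ)).toNat = u := by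
    rw [← Int.natCast_mod, Int.toNat_natCast, Nat.mod_eq_of_lt hu]
  rw [e] at h
  have := (abs_le.1 h).1
  linarith

/-- the number of arguments -/
lemma T63_card (a y0 : ℕ) (ha : 1 ≤ a) : ∃ x0 : ℕ, ∀ x : ℕ, x0 ≤ x → ∀ q0 : ℕ, q0 < a →
    Nat.Coprime q0 a → 1 / (2 * a) * ((x : ℝ) / Real.log x) ≤ (T63 x y0 a q0).card := by
  have har : (1 : ℝ) ≤ a := by exact_mod_cast ha
  have ha0 : (0 : ℝ) < a := by linarith
  obtain ⟨x1, h1⟩ := piAP_low a ha
  obtain ⟨x2, h2⟩ := pnt_low (1 / 8) (by norm_num)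
  obtain ⟨x3, h3⟩ := isLittle 1 (8 * (y0 + 1 : ℝ) * a) (by positivity)
  refine ⟨max (max x1 x2) (max x3 (max 3 ⌈Real.exp (8 * a)⌉₊)), ?_⟩
  intro x hx q0 hq0 hcop
  have hx1 : x1 ≤ x := ((le_max_left _ _).trans (le_max_left _ _)).trans hx
  have hx2 : x2 ≤ x := ((le_max_right _ _).trans (le_max_left _ _)).trans hx
  have hx3 : x3 ≤ x := ((le_max_left _ _).trans (le_max_right _ _)).trans hx
  have hx3' : 3 ≤ x := ((le_max_left _ _).trans ((le_max_right _ _).trans (le_max_right _ _))).trans hx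
  have hxe : ⌈Real.exp (8 * a)⌉₊ ≤ x :=
    ((le_max_right _ _).trans ((le_max_right _ _).trans (le_max_right _ _))).trans hx
  have hxr : (3 : ℝ) ≤ x := by exact_mod_cast hx3'
  have hx0 : (0 : ℝ) < x := by linarith
  have hlx1 : 1 ≤ Real.log x := by
    rw [Real.le_log_iff_exp_le hx0]
    have := Real.exp_one_lt_d9
    linarith
  have hlx0 : 0 < Real.log x := by linarith
  have hlxa : 8 * (a : ℝ) ≤ Real.log x := by
    rw [Real.le_log_iff_exp_le hx0]
    exact (Nat.le_ceil _).trans (by exact_mod_cast hxe)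
  have hy0x := h3 x hx3
  rw [pow_one] at hy0x
  set X : ℝ := x / Real.log x with hX
  have hX0 : 0 < X := by rw [hX]; positivity
  have hXl : x / Real.log x ^ 2 = X / Real.log x := by rw [hX]; field_simp
  have hφ1 : (Nat.totient a : ℝ) ≤ a := by exact_mod_cast Nat.totient_le a
  have hφ0 : (0 : ℝ) < Nat.totient a := by exact_mod_cast Nat.totient_pos.2 (by omega)
  have g1 := h1 x hx1 q0 hq0 hcop.symm
  have g2 := h2 x hx2
  have g3 : piAP x a q0 ≤ (T63 x y0 a q0).card + (y0 + 1 : ℝ) := by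
    have h4 : (Icc 1 x).filter (fun p => p.Prime ∧ p ≡ q0 [MOD a]) ⊆ T63 x y0 a q0 ∪ range (y0 + 1) := by
      intro p hp
      rw [mem_filter, mem_Icc] at hp
      rw [mem_union, mem_range]
      by_cases h5 : p ≤ y0
      · right; omega
      · left
        rw [T63, mem_filter, TT, mem_filter]
        refine ⟨⟨?_, by omega⟩, hp.2.2⟩
        simp only [PP, mem_filter, mem_Icc]
        exact ⟨hp.1, hp.2.1⟩
    have h5 := (card_le_card h4).trans (card_union_le _ _)
    rw [card_range] at h5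
    unfold piAP
    exact_mod_cast h5
  have g4 : (1 - 1 / 8) * X / a ≤ pi1 x / (Nat.totient a : ℝ) := by
    rw [div_le_div_iff₀ ha0 hφ0]
    have hp0 : (0 : ℝ) ≤ pi1 x := by unfold pi1; positivity
    calc (1 - 1 / 8) * X * (Nat.totient a : ℝ) ≤ pi1 x * (Nat.totient a : ℝ) := by gcongr
      _ ≤ pi1 x * a := by gcongr
  have g5 : X / Real.log x ≤ X / (8 * a) := by gcongr
  have g6 : (y0 + 1 : ℝ) ≤ X / (8 * a) := by
    rw [le_div_iff₀ (by positivity), hX, le_div_iff₀ hlx0]
    calc (y0 + 1 : ℝ) * (8 * a) * Real.log x = 8 * (y0 + 1 : ℝ) * a * Real.log x := by ring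
      _ ≤ x := hy0x
  rw [hXl] at g1
  have e1 : (1 - 1 / 8) * X / a = 7 * (X / (8 * a)) := by field_simp; norm_num
  have e2 : 1 / (2 * a) * X = 4 * (X / (8 * a)) := by field_simp; norm_num
  have e3 : 0 < X / (8 * a) := by positivity
  rw [e2]
  linarith

lemma dvd_mod_iff63 (q0 a b p n : ℕ) (e : ℤ) :
    (p : ℤ) ∣ ((q0 : ℤ) + a * ((n % p : ℕ) : ℤ)) * (e + b * ((n % p : ℕ) : ℤ)) ↔
      (p : ℤ) ∣ ((q0 : ℤ) + a * (n : ℤ)) * (e + b * (n : ℤ)) := by
  have h : ((n % p : ℕ) : ℤ) ≡ (n : ℤ) [ZMOD p] := by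
    push_cast
    exact Int.mod_modEq _ _
  have h2 : ((q0 : ℤ) + a * ((n % p : ℕ) : ℤ)) * (e + b * ((n % p : ℕ) : ℤ)) ≡
      ((q0 : ℤ) + a * (n : ℤ)) * (e + b * (n : ℤ)) [ZMOD p] :=
    Int.ModEq.mul (Int.ModEq.add_left _ (Int.ModEq.mul_left _ h))
      (Int.ModEq.add_left _ (Int.ModEq.mul_left _ h))
  rw [Int.dvd_iff_emod_eq_zero, Int.dvd_iff_emod_eq_zero, h2]

open Classical in
/-- the number of good classes -/
lemma good63 (z : ℕ) (q0 a b : ℕ) (e : ℤ) :
    (((range (∏ p ∈ PS z, p)).filter (fun n : ℕ => ∀ p ∈ PS z,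
      ¬ (p : ℤ) ∣ ((q0 : ℤ) + a * (n : ℤ)) * (e + b * (n : ℤ)))).card) =
      ∏ p ∈ PS z, ((range p).filter (fun n : ℕ =>
        ¬ (p : ℤ) ∣ ((q0 : ℤ) + a * (n : ℤ)) * (e + b * (n : ℤ)))).card := by
  have h2 := Pool.Agent.H373R2.BH.crt_count (PS z) (fun p hp => prime_PS hp)
    (fun p n => ¬ (p : ℤ) ∣ ((q0 : ℤ) + a * (n : ℤ)) * (e + b * (n : ℤ)))
  rw [← h2]
  congr 1
  apply filter_congr
  intro u _
  simp only [dvd_mod_iff63]

open Classical in
theorem rough63 (z y0 a : ℕ) (ha : 1 ≤ a) (haz : a ≤ z) (hzy : z ≤ y0) (ε : ℝ) (hε : 0 < ε) :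
    ∃ x0 : ℕ, ∀ x : ℕ, x0 ≤ x →
    ∀ (c : ℤ) (r q0 b' : ℕ), Int.gcd a c = 1 → q0 < a → Nat.Coprime q0 a → (a : ℤ) ∣ c + r * q0 →
    Adm63 a (r + a * b') c →
    (1 - ε) * (∏ p ∈ PS z, fac (fun _ : Fin 1 => (a : ℤ) * c) (fun _ : Fin 1 => ((r + a * b' : ℕ) : ℤ)) p) *
      (x / Real.log x) / a ≤
      (roughG z (fun (_ : Fin 1) t => G63 a r c t) (fun _ => b') (T63 x y0 a q0) : ℝ) / Wz z ^ 1 := by
  set P : ℕ := ∏ p ∈ PS z, p with hP
  have hP1 : 1 ≤ P := Nat.succ_le_of_lt (prod_pos fun p hp => (prime_PS hp).pos)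
  have hP0 : (0 : ℝ) < P := by exact_mod_cast hP1
  have har : (1 : ℝ) ≤ a := by exact_mod_cast ha
  have ha0 : (0 : ℝ) < a := by linarith
  have haP1 : 1 ≤ a * P := Nat.mul_pos ha hP1
  obtain ⟨x1, hx1⟩ := piAP_low (a * P) haP1
  obtain ⟨x2, hx2⟩ := pnt_low (ε / 3) (by positivity)
  obtain ⟨x3, hx3⟩ := isLittle 1 (3 * (y0 + 1 : ℝ) * (a * P) / ε) (by positivity)
  refine ⟨max x1 (max (max x2 x3) (max 3 ⌈Real.exp (3 * (a * P) / ε)⌉₊)), ?_⟩
  intro x hx c r q0 b' hac hq0 hq0a hdvd hadm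
  have hxx1 : x1 ≤ x := (le_max_left _ _).trans hx
  have hxx2 : x2 ≤ x := ((le_max_left _ _).trans ((le_max_left _ _).trans (le_max_right _ _))).trans hx
  have hxx3 : x3 ≤ x := ((le_max_right _ _).trans ((le_max_left _ _).trans (le_max_right _ _))).trans hx
  have hx3' : 3 ≤ x := ((le_max_left _ _).trans ((le_max_right _ _).trans (le_max_right _ _))).trans hx
  have hxe : ⌈Real.exp (3 * (a * P) / ε)⌉₊ ≤ x :=
    ((le_max_right _ _).trans ((le_max_right _ _).trans (le_max_right _ _))).trans hx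
  have hxr : (3 : ℝ) ≤ x := by exact_mod_cast hx3'
  have hx0 : (0 : ℝ) < x := by linarith
  have hlx1 : 1 ≤ Real.log x := by
    rw [Real.le_log_iff_exp_le hx0]
    have := Real.exp_one_lt_d9
    linarith
  have hlx0 : 0 < Real.log x := by linarith
  have hlxP : 3 * (a * P) / ε ≤ Real.log x := by
    rw [Real.le_log_iff_exp_le hx0]
    exact (Nat.le_ceil _).trans (by exact_mod_cast hxe)
  have hPNT := hx2 x hxx2
  have hy0x := hx3 x hxx3
  rw [pow_one] at hy0x
  obtain ⟨e, he⟩ := hdvd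
  have he' : (a : ℤ) * (e + b' * q0) = c + ((r + a * b' : ℕ) : ℤ) * q0 := by
    push_cast
    linear_combination -he
  set b : ℕ := r + a * b' with hb
  set Gd := (range P).filter (fun n : ℕ => ∀ p ∈ PS z,
      ¬ (p : ℤ) ∣ ((q0 : ℤ) + a * (n : ℤ)) * ((e + b' * q0) + b * (n : ℤ))) with hGd
  have hcard : ∏ p ∈ PS z, (p - om (fun _ : Fin 1 => (a : ℤ) * c) (fun _ : Fin 1 => (b : ℤ)) p) ≤ Gd.card := by
    rw [hGd, hP, good63]
    apply prod_le_prod
    · intro p _; exact Nat.zero_le _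
    · intro p hp
      exact local63 hac hadm hq0a he' (prime_PS hp)
  have homlt : ∀ p ∈ PS z, om (fun _ : Fin 1 => (a : ℤ) * c) (fun _ : Fin 1 => (b : ℤ)) p < p := by
    intro p hp
    have hpp := prime_PS hp
    by_cases hd : (p : ℤ) ∣ a * b * c
    · rw [om63_one hac hadm hpp hd]; exact hpp.one_lt
    · rw [om63_two hpp hd]
      rcases hpp.two_le.lt_or_eq with h | h
      · exact h
      · exfalso
        apply hd
        rw [← h]
        exact hadm.2.2
  have hN1 : 1 ≤ ∏ p ∈ PS z, (p - om (fun _ : Fin 1 => (a : ℤ) * c) (fun _ : Fin 1 => (b : ℤ)) p) :=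
    Nat.succ_le_of_lt (prod_pos fun p hp => by have := homlt p hp; omega)
  have hφP' : Nat.totient P = ∏ p ∈ PS z, (p - 1) := by
    have : ∀ s : Finset ℕ, (∀ p ∈ s, p.Prime) → Nat.totient (∏ p ∈ s, p) = ∏ p ∈ s, (p - 1) := by
      intro s hs
      induction s using Finset.induction_on with
      | empty => simp
      | insert p s hp ih =>
        rw [prod_insert hp, prod_insert hp, Nat.totient_mul, Nat.totient_prime (hs p (mem_insert_self _ _)),
          ih fun q hq => hs q (mem_insert_of_mem hq)]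
        exact Nat.Coprime.prod_right fun q hq =>
          (Nat.coprime_primes (hs p (mem_insert_self _ _)) (hs q (mem_insert_of_mem hq))).2 (by
            rintro rfl; exact hp hq)
    exact this (PS z) fun p hp => prime_PS hp
  have hφ : Nat.totient (a * P) = a * Nat.totient P := by
    have hpf : (a * P).primeFactors = P.primeFactors := by
      rw [Nat.primeFactors_mul (by omega) (by omega)]
      apply union_eq_right.2
      intro p hp
      have hpp := Nat.prime_of_mem_primeFactors hp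
      have hpd := Nat.dvd_of_mem_primeFactors hp
      have hple := Nat.le_of_dvd (by omega) hpd
      rw [Nat.mem_primeFactors]
      refine ⟨hpp, ?_, by omega⟩
      exact dvd_prod_of_mem (fun p => p) (by
        unfold PS
        rw [mem_filter, mem_range]; exact ⟨by omega, hpp⟩)
    have h1 := Nat.totient_mul_prod_primeFactors (a * P)
    have h2 := Nat.totient_mul_prod_primeFactors P
    rw [hpf] at h1
    have h3 : 0 < ∏ p ∈ P.primeFactors, p := Nat.pos_of_ne_zero (by
      apply prod_ne_zero_iff.2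
      intro p hp
      exact (Nat.prime_of_mem_primeFactors hp).ne_zero)
    have h4 : Nat.totient (a * P) * ∏ p ∈ P.primeFactors, p =
        (a * Nat.totient P) * ∏ p ∈ P.primeFactors, p := by
      rw [h1, mul_assoc, mul_assoc, h2]
    exact Nat.eq_of_mul_eq_mul_right h3 h4
  have hφ0 : (0 : ℝ) < Nat.totient P := by exact_mod_cast Nat.totient_pos.2 (by omega)
  have hφP : (Nat.totient P : ℝ) ≤ P := by exact_mod_cast Nat.totient_le P
  -- each good class
  have hclass : ∀ n ∈ Gd, pi1 x / (a * (Nat.totient P : ℝ)) - x / Real.log x ^ 2 ≤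
      piAP x (a * P) (q0 + a * n) := by
    intro n hn
    rw [hGd, mem_filter, mem_range] at hn
    have hlt : q0 + a * n < a * P := by
      calc q0 + a * n < a + a * n := by omega
        _ = a * (n + 1) := by ring
        _ ≤ a * P := Nat.mul_le_mul_left a hn.1
    have hcop : Nat.Coprime (a * P) (q0 + a * n) := by
      apply Nat.Coprime.mul_left
      · rw [Nat.coprime_add_mul_left_right]
        exact hq0a.symm
      · rw [hP]
        apply Nat.Coprime.prod_left
        intro p hp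
        rw [(prime_PS hp).coprime_iff_not_dvd]
        intro hpr
        apply hn.2 p hp
        apply dvd_mul_of_dvd_left
        exact_mod_cast hpr
    have h := hx1 x hxx1 (q0 + a * n) hlt hcop
    rw [hφ] at h
    push_cast at h
    exact h
  -- the rough count
  have hcount : ∑ n ∈ Gd, piAP x (a * P) (q0 + a * n) ≤
      (roughG z (fun (_ : Fin 1) t => G63 a r c t) (fun _ => b') (T63 x y0 a q0) : ℝ) + (y0 + 1 : ℝ) := by
    have h1 : ∑ n ∈ Gd, piAP x (a * P) (q0 + a * n) =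
        (((Gd.biUnion fun n => (Icc 1 x).filter (fun p => p.Prime ∧ p ≡ q0 + a * n [MOD (a * P)])).card : ℕ) : ℝ) := by
      rw [card_biUnion]
      · push_cast
        rfl
      · intro n hn m hm hnm
        rw [Function.onFun, disjoint_left]
        intro p hp hp'
        rw [mem_filter] at hp hp'
        rw [mem_coe, hGd, mem_filter, mem_range] at hn hm
        apply hnm
        have h2 : q0 + a * n ≡ q0 + a * m [MOD (a * P)] := hp.2.2.symm.trans hp'.2.2
        have h3 : a * n ≡ a * m [MOD (a * P)] := Nat.ModEq.add_left_cancel' q0 h2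
        have h4 : n ≡ m [MOD P] := Nat.ModEq.mul_left_cancel' (by omega) h3
        exact Nat.ModEq.eq_of_lt_of_lt h4 hn.1 hm.1
    rw [h1]
    have h2 : (Gd.biUnion fun n => (Icc 1 x).filter (fun p => p.Prime ∧ p ≡ q0 + a * n [MOD (a * P)])) ⊆
        ((T63 x y0 a q0).filter (fun t : ℕ => ∀ i, ∀ p ≤ z, p.Prime →
          ¬ ((p : ℤ) ∣ (fun (_ : Fin 1) t => G63 a r c t) i t + ((fun _ => b') i : ℕ) * t))) ∪ range (y0 + 1) := by
      intro t ht
      rw [mem_biUnion] at ht
      obtain ⟨n, hn, ht⟩ := ht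
      rw [mem_filter, mem_Icc] at ht
      rw [hGd, mem_filter, mem_range] at hn
      rw [mem_union, mem_range]
      by_cases hty : t ≤ y0
      · right; omega
      · left
        have htq : t ≡ q0 [MOD a] := by
          have h3 : t ≡ q0 + a * n [MOD a] := ht.2.2.of_mul_right P
          have h4 : q0 + a * n ≡ q0 [MOD a] := by
            unfold Nat.ModEq
            simp
          exact h3.trans h4
        rw [mem_filter]
        refine ⟨?_, ?_⟩
        · rw [T63, mem_filter, TT, mem_filter]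
          refine ⟨⟨?_, by omega⟩, htq⟩
          simp only [PP, mem_filter, mem_Icc]
          exact ⟨ht.1, ht.2.1⟩
        · intro i p hpz hpp hdvd
          have hp : p ∈ PS z := by
            unfold PS
            rw [mem_filter, mem_range]; exact ⟨by omega, hpp⟩
          apply hn.2 p hp
          apply dvd_mul_of_dvd_right
          have hdvd' : (p : ℤ) ∣ G63 a r c t + b' * t := hdvd
          have hG := G63_eq (⟨e, he⟩ : (a : ℤ) ∣ c + r * q0) htq
          -- `t = q0 + a n + a P m`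
          have h5 : ((a * P : ℕ) : ℤ) ∣ (t : ℤ) - ((q0 + a * n : ℕ) : ℤ) :=
            (Nat.modEq_iff_dvd).1 ht.2.2.symm
          obtain ⟨m, hm⟩ := h5
          have ha0' : (a : ℤ) ≠ 0 := by exact_mod_cast (by omega : a ≠ 0)
          have h6 : G63 a r c t + b' * t = (e + b' * q0 + b * n) + P * (b * m) := by
            apply mul_left_cancel₀ ha0'
            have h7 : (a : ℤ) * (G63 a r c t + b' * t) = c + b * t := by
              rw [mul_add, hG, hb]; push_cast; ring
            rw [h7]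
            push_cast at hm
            have h8 : (t : ℤ) = q0 + a * n + a * P * m := by linear_combination hm
            rw [h8, hb]
            push_cast
            linear_combination he
          rw [h6] at hdvd'
          have h9 : (p : ℤ) ∣ (P : ℤ) * (b * m) := by
            apply dvd_mul_of_dvd_left
            exact_mod_cast dvd_prod_of_mem (fun p => p) hp
          have := dvd_sub hdvd' h9
          rwa [add_sub_cancel_right] at this
    have h3 := (card_le_card h2).trans (card_union_le _ _)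
    rw [card_range] at h3
    have h4 : (((Gd.biUnion fun n => (Icc 1 x).filter (fun p => p.Prime ∧ p ≡ q0 + a * n [MOD (a * P)])).card : ℕ) : ℝ) ≤
        ((roughG z (fun (_ : Fin 1) t => G63 a r c t) (fun _ => b') (T63 x y0 a q0) + (y0 + 1) : ℕ) : ℝ) := by
      refine Nat.cast_le.2 (h3.trans (le_of_eq ?_))
      unfold roughG
      congr
    refine h4.trans (le_of_eq ?_)
    push_cast
    ring
  -- combine
  have hWz : Wz z = ∏ p ∈ PS z, (1 - 1 / (p : ℝ)) := by
    unfold Wz; rw [PS_eq]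
  have hWz0 := Wz_pos z
  set N0 : ℕ := ∏ p ∈ PS z, (p - om (fun _ : Fin 1 => (a : ℤ) * c) (fun _ : Fin 1 => (b : ℤ)) p) with hN0
  set F : ℝ := ∏ p ∈ PS z, fac (fun _ : Fin 1 => (a : ℤ) * c) (fun _ : Fin 1 => (b : ℤ)) p with hF
  have hFeq : F * Wz z ^ 1 = N0 / Nat.totient P := by
    rw [hF, hWz, hN0, hφP', ← prod_pow, ← prod_mul_distrib]
    push_cast
    rw [← prod_div_distrib]
    apply prod_congr rfl
    intro p hp
    have hpp := prime_PS hp
    have hp1 : 1 ≤ p := hpp.one_lt.le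
    rw [Nat.cast_sub (om_le _ _ _), Nat.cast_sub hp1]
    have h1 := one_sub_inv_pos hpp
    have hp0 : (0 : ℝ) < p := by exact_mod_cast hpp.pos
    have hp2 : (2 : ℝ) ≤ p := by exact_mod_cast hpp.two_le
    have hpm : (p : ℝ) - 1 ≠ 0 := by
      have : (0 : ℝ) < (p : ℝ) - 1 := by linarith
      exact this.ne'
    unfold fac
    rw [pow_succ (1 - 1 / (p : ℝ)) 1]
    have e1 : 1 - 1 / (p : ℝ) = ((p : ℝ) - 1) / p := by field_simp
    have e2 : (1 - (om (fun _ : Fin 1 => (a : ℤ) * c) (fun _ : Fin 1 => (b : ℤ)) p : ℝ) / p) =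
        ((p : ℝ) - om (fun _ : Fin 1 => (a : ℤ) * c) (fun _ : Fin 1 => (b : ℤ)) p) / p := by
      field_simp
    have h2 : (1 - 1 / (p : ℝ)) ^ 1 ≠ 0 := by positivity
    rw [e2, div_mul_eq_mul_div, mul_comm ((1 - 1 / (p : ℝ)) ^ 1) (1 - 1 / (p : ℝ)),
      mul_div_mul_right _ _ h2, e1]
    push_cast
    field_simp
  have hsum := sum_le_sum hclass
  rw [sum_const, nsmul_eq_mul] at hsum
  set N : ℝ := (Gd.card : ℝ) with hN
  have hN0N : (N0 : ℝ) ≤ N := by rw [hN]; exact_mod_cast hcard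
  have hN01 : (1 : ℝ) ≤ N0 := by exact_mod_cast hN1
  have hNge1 : 1 ≤ N := hN01.trans hN0N
  have hNp : 0 < N := by linarith
  set X : ℝ := x / Real.log x with hX
  have hX0 : 0 < X := by rw [hX]; positivity
  have hXl : x / Real.log x ^ 2 = X / Real.log x := by rw [hX]; field_simp
  set φ : ℝ := (Nat.totient P : ℝ) with hφd
  by_cases hε1 : 1 - ε < 0
  · refine le_trans ?_ (show (0 : ℝ) ≤ _ by positivity)
    have hF0 : 0 ≤ F := prod_nonneg fun p hp => fac_nonneg _ _ (prime_PS hp)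
    have : 0 ≤ F * X / a := by positivity
    have e0 : (1 - ε) * F * X / a = (1 - ε) * (F * X / a) := by ring
    rw [e0]
    exact mul_nonpos_of_nonpos_of_nonneg hε1.le this
  push Not at hε1
  rw [le_div_iff₀ (by positivity)]
  have e3 : (1 - ε) * F * X / a * Wz z ^ 1 = (1 - ε) * (N0 / (a * φ)) * X := by
    calc (1 - ε) * F * X / a * Wz z ^ 1 = (1 - ε) * (F * Wz z ^ 1) / a * X := by ring
      _ = _ := by rw [hFeq]; field_simp
  rw [e3]
  have e3' : (1 - ε) * (N0 / (a * φ)) * X ≤ (1 - ε) * (N / (a * φ)) * X := by gcongr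
  refine e3'.trans ?_
  have g1 : N * (X / Real.log x) ≤ ε / 3 * (N / (a * φ)) * X := by
    have h1 : a * φ ≤ ε / 3 * Real.log x := by
      rw [div_le_iff₀ hε] at hlxP
      have : a * φ ≤ a * P := by gcongr
      linarith
    have h2 : 1 / Real.log x ≤ ε / 3 / (a * φ) := by
      rw [div_le_div_iff₀ hlx0 (by positivity)]; linarith
    calc N * (X / Real.log x) = N * X * (1 / Real.log x) := by ring
      _ ≤ N * X * (ε / 3 / (a * φ)) := by gcongr
      _ = _ := by ring
  have g2 : (y0 + 1 : ℝ) ≤ ε / 3 * (N / (a * φ)) * X := by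
    have h1 : 3 * (y0 + 1 : ℝ) * (a * P) / ε ≤ X := by
      rw [hX, le_div_iff₀ hlx0]; exact hy0x
    have h2 : (1 : ℝ) / (a * P) ≤ N / (a * φ) := by
      rw [div_le_div_iff₀ (by positivity) (by positivity)]
      calc 1 * (a * φ) ≤ 1 * (a * P) := by gcongr
        _ ≤ N * (a * P) := by gcongr
    calc (y0 + 1 : ℝ) = ε / 3 * (1 / (a * P)) * (3 * (y0 + 1 : ℝ) * (a * P) / ε) := by field_simp
      _ ≤ ε / 3 * (N / (a * φ)) * X := by gcongr
  have g3 : (1 - ε / 3) * (N / (a * φ)) * X ≤ N * (pi1 x / (a * φ)) := by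
    calc (1 - ε / 3) * (N / (a * φ)) * X = (N / (a * φ)) * ((1 - ε / 3) * X) := by ring
      _ ≤ (N / (a * φ)) * pi1 x := by gcongr
      _ = _ := by ring
  rw [hXl, mul_sub] at hsum
  have e4 : (1 - ε) * (N / (a * φ)) * X = (1 - ε / 3) * (N / (a * φ)) * X -
      ε / 3 * (N / (a * φ)) * X - ε / 3 * (N / (a * φ)) * X := by ring
  rw [e4]
  linarith

end Pool.Agent.W218.PF
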