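import Mathlib
import Pool.Agent.W218.PF.Eq63b

set_option autoImplicit false

/-! The equation `a p - b q = c` with `a`, `c` fixed: many `b` with the expected number of solutions. -/

namespace Pool.Agent.W218.PF

open Finset Pool.Agent.Erdos456 Pool.Agent.Erdos456.Mert Pool.Agent.W218.HF Pool.Agent.W218.LF H343E

lemma exists_q0 {a r : ℕ} {c : ℤ} (ha : 1 ≤ a) (hac : Int.gcd a c = 1) (har : Nat.Coprime r a) :
    ∃ q0 : ℕ, q0 < a ∧ Nat.Coprime q0 a ∧ (a : ℤ) ∣ c + r * q0 := by
  have hcop : IsCoprime (r : ℤ) (a : ℤ) := by rw [Nat.isCoprime_iff_coprime]; exact har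
  obtain ⟨v, u, huv⟩ := hcop
  have ha0 : (0 : ℤ) < a := by exact_mod_cast ha
  set q : ℤ := (-c * v) % a with hq
  have hq0 : 0 ≤ q := Int.emod_nonneg _ ha0.ne'
  have hqa : q < a := Int.emod_lt_of_pos _ ha0
  have hqe : ((q.toNat : ℕ) : ℤ) = q := Int.toNat_of_nonneg hq0
  have hd : (a : ℤ) ∣ c + r * q := by
    have h1 : (a : ℤ) ∣ (-c * v) - q := by
      rw [hq]; exact Int.dvd_self_sub_emod
    have h2 : (a : ℤ) ∣ c + r * (-c * v) := ⟨c * u, by linear_combination -c * huv⟩
    have h3 := dvd_sub h2 (dvd_mul_of_dvd_right h1 (r : ℤ))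
    have e : c + (r : ℤ) * (-c * v) - r * (-c * v - q) = c + r * q := by ring
    rwa [e] at h3
  refine ⟨q.toNat, by omega, ?_, by rw [hqe]; exact hd⟩
  rw [Nat.coprime_iff_gcd_eq_one]
  by_contra hne
  obtain ⟨p, hp, hpd⟩ := Nat.exists_prime_and_dvd hne
  have h1 : (p : ℤ) ∣ (a : ℤ) := by exact_mod_cast hpd.trans (Nat.gcd_dvd_right _ _)
  have h2 : (p : ℤ) ∣ q := by
    rw [← hqe]; exact_mod_cast hpd.trans (Nat.gcd_dvd_left _ _)
  have h3 : (p : ℤ) ∣ c := by
    have := dvd_sub (h1.trans hd) (dvd_mul_of_dvd_right h2 (r : ℤ))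
    rwa [add_sub_cancel_right] at this
  have h4 := Int.dvd_coe_gcd h1 h3
  rw [hac] at h4
  have h5 : p ∣ 1 := by exact_mod_cast h4
  exact hp.one_lt.ne' (Nat.dvd_one.1 h5)

open Classical in
/-- the number of primes `q ≤ x` for which `a p - b q = c` for a prime `p` -/
noncomputable def sol63 (a b : ℕ) (c : ℤ) (x : ℕ) : ℕ :=
  ((Icc 1 x).filter (fun q : ℕ => q.Prime ∧ ∃ p : ℕ, p.Prime ∧ (a : ℤ) * p - b * q = c)).card

/-- the singular series -/
noncomputable def ser63 (a b : ℕ) (c : ℤ) : ℝ :=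
  ∏' p : Nat.Primes, if ((p : ℕ) : ℤ) ∣ a * b * c then (1 - 1 / ((p : ℕ) : ℝ))⁻¹
    else 1 - 1 / (((p : ℕ) : ℝ) - 1) ^ 2

lemma ser63_eq {a b : ℕ} {c : ℤ} (hac : Int.gcd a c = 1) (h : Adm63 a b c) :
    ser63 a b c = singular (fun _ : Fin 1 => (a : ℤ) * c) (fun _ : Fin 1 => (b : ℤ)) := by
  unfold ser63 singular
  congr 1
  funext p
  have hp := p.2
  have h1 := one_sub_inv_pos hp
  have hp2 : (2 : ℝ) ≤ ((p : ℕ) : ℝ) := by exact_mod_cast hp.two_le
  have hp0 : (0 : ℝ) < ((p : ℕ) : ℝ) := by linarith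
  by_cases hd : ((p : ℕ) : ℤ) ∣ a * b * c
  · rw [if_pos hd]
    unfold fac
    rw [om63_one hac h hp hd]
    push_cast
    field_simp
  · rw [if_neg hd]
    unfold fac
    rw [om63_two hp hd]
    push_cast
    have h2 : ((p : ℕ) : ℝ) - 1 ≠ 0 := by
      have : (0 : ℝ) < ((p : ℕ) : ℝ) - 1 := by linarith
      exact this.ne'
    field_simp
    ring

/-- admissibility from a large solution -/
lemma adm63_of_point {a b r p t : ℕ} {c : ℤ} (hac : Int.gcd a c = 1) (hc : c ≠ 0) (har : Nat.Coprime r a)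
    (hbr : b ≡ r [MOD a]) (hp : p.Prime) (ht : t.Prime) (hpc : c.natAbs < p) (hp2 : 2 < p) (ht2 : 2 < t)
    (heq : (a : ℤ) * p - b * t = c) : Adm63 a b c := by
  refine ⟨?_, ?_, ?_⟩
  · rw [Nat.coprime_comm, Nat.coprime_iff_gcd_eq_one, hbr.gcd_eq, ← Nat.coprime_iff_gcd_eq_one]
    exact har
  · by_contra hne
    obtain ⟨l, hl, hld⟩ := Nat.exists_prime_and_dvd hne
    have hli : Prime (l : ℤ) := Nat.prime_iff_prime_int.1 hl
    have h1 : (l : ℤ) ∣ (b : ℤ) := (Int.natCast_dvd_natCast.2 hld).trans (Int.gcd_dvd_left _ _)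
    have h2 : (l : ℤ) ∣ c := (Int.natCast_dvd_natCast.2 hld).trans (Int.gcd_dvd_right _ _)
    have h3 : (l : ℤ) ∣ (a : ℤ) * p := by
      have := dvd_add h2 (dvd_mul_of_dvd_left h1 (t : ℤ))
      have e : c + (b : ℤ) * t = a * p := by linear_combination -heq
      rwa [e] at this
    rcases hli.dvd_or_dvd h3 with h4 | h4
    · have h5 := Int.dvd_coe_gcd h4 h2
      rw [hac] at h5
      have h6 : l ∣ 1 := by exact_mod_cast h5
      exact hl.one_lt.ne' (Nat.dvd_one.1 h6)
    · have h5 : l ∣ p := by exact_mod_cast h4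
      have h6 := (Nat.prime_dvd_prime_iff_eq hl hp).1 h5
      have h7 := Nat.le_of_dvd (Int.natAbs_pos.2 hc) (Int.natCast_dvd.1 h2)
      omega
  · have hpo : p % 2 = 1 := hp.eq_two_or_odd.resolve_left (by omega)
    have hto : t % 2 = 1 := ht.eq_two_or_odd.resolve_left (by omega)
    rcases Int.even_or_odd (a : ℤ) with ha | ha
    · exact dvd_mul_of_dvd_left (dvd_mul_of_dvd_left ha.two_dvd _) _
    rcases Int.even_or_odd (b : ℤ) with hb | hb
    · exact dvd_mul_of_dvd_left (dvd_mul_of_dvd_right hb.two_dvd _) _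
    apply dvd_mul_of_dvd_right
    rw [← heq]
    have h1 : Odd ((a : ℤ) * p) := ha.mul (by
      rw [Int.odd_iff]; omega)
    have h2 : Odd ((b : ℤ) * t) := hb.mul (by
      rw [Int.odd_iff]; omega)
    exact (h1.sub_odd h2).two_dvd

open Classical in
theorem final63 : ∃ K : ℕ, ∀ (a : ℕ) (c : ℤ), 1 ≤ a → c ≠ 0 → Int.gcd a c = 1 → ∀ c₀ : ℝ, 0 < c₀ →
    ∀ θ : ℝ, θ < 1 → ∃ κ : ℝ, 0 < κ ∧ ∃ D0 : ℕ, ∀ D : ℕ, D0 ≤ D → ∀ x : ℕ,
    c₀ * Real.log D ≤ x / Real.log x → x * Real.log D ^ K ≤ D → ∀ r₀ : ℕ, Nat.Coprime r₀ a →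
    κ * D ≤ (((Icc 1 D).filter (fun b => b ≡ r₀ [MOD a] ∧ Adm63 a b c ∧
      θ * ser63 a b c * (x / (a * Real.log x * Real.log (D * x))) ≤ sol63 a b c x)).card : ℝ) := by
  obtain ⟨K, hmain⟩ := main3 1 le_rfl
  refine ⟨K + 1, ?_⟩
  intro a c ha hc hac c₀ hc₀ θ hθ
  have har : (1 : ℝ) ≤ a := by exact_mod_cast ha
  have ha0 : (0 : ℝ) < a := by linarith
  set θ₀ : ℝ := max θ 0 with hθ₀
  have hθ0 : 0 ≤ θ₀ := le_max_right _ _
  have hθ1 : θ₀ < 1 := max_lt hθ one_pos
  have hθθ : θ ≤ θ₀ := le_max_left _ _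
  set θ₁ : ℝ := (θ₀ + 1) / 2 with hθ₁
  set ε : ℝ := (1 - θ₀) / 4 with hε
  have hε0 : 0 < ε := by rw [hε]; linarith
  have hε1 : ε ≤ 1 := by rw [hε]; linarith
  set zA : ℕ := a * c.natAbs + a + c.natAbs with hzA
  obtain ⟨C₃, hC₃, hdet⟩ := det63 (6 * 1) (by omega) zA
  obtain ⟨η, hη, B₁, hmain⟩ := hmain 1 (1 / (2 * a)) (1 / c₀) C₃ (by positivity) (by positivity) hC₃.le θ₁
    (by rw [hθ₁]; linarith)
  obtain ⟨z0, htail⟩ := tail_bad 1 ε (η / (4 * a)) hε0 hε1 (by positivity)
  set z : ℕ := max z0 zA with hz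
  have hzz : zA ≤ z := le_max_right _ _
  obtain ⟨B₂, htail⟩ := htail z (le_max_left _ _)
  set y0 : ℕ := z + 3 with hy0
  obtain ⟨x₁, hrough⟩ := rough63 z y0 a ha (by omega) (by omega) ε hε0
  obtain ⟨x₂, hcardT⟩ := T63_card a y0 ha
  set M : ℕ := max (max x₁ x₂) (max zA 3) with hM
  refine ⟨η / 2 / (6 * a), by positivity, max (max (3 * a * (B₁ + 1)) (3 * a * (B₂ + 1)))
    (max (max (3 * a * (z + 4)) (3 * a * (⌈((Pz z : ℝ) + 4) / η⌉₊ + 1))) ⌈Real.exp (6 * a + (M + 4) / c₀)⌉₊), ?_⟩
  intro D hD x hcx hxD r₀ hr₀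
  have hDB1 : 3 * a * (B₁ + 1) ≤ D := (le_max_left _ _).trans ((le_max_left _ _).trans hD)
  have hDB2 : 3 * a * (B₂ + 1) ≤ D := (le_max_right _ _).trans ((le_max_left _ _).trans hD)
  have hDz : 3 * a * (z + 4) ≤ D := (le_max_left _ _).trans ((le_max_left _ _).trans ((le_max_right _ _).trans hD))
  have hDP : 3 * a * (⌈((Pz z : ℝ) + 4) / η⌉₊ + 1) ≤ D :=
    (le_max_right _ _).trans ((le_max_left _ _).trans ((le_max_right _ _).trans hD))
  have hDe : Real.exp (6 * a + (M + 4) / c₀) ≤ D := (Nat.le_ceil _).trans (by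
    exact_mod_cast (le_max_right _ _).trans ((le_max_right _ _).trans hD))
  set B : ℕ := D / (3 * a) with hB
  have h3a : 0 < 3 * a := by omega
  have hBB1 : B₁ + 1 ≤ B := by rw [hB, Nat.le_div_iff_mul_le h3a, mul_comm]; exact hDB1
  have hBB2 : B₂ + 1 ≤ B := by rw [hB, Nat.le_div_iff_mul_le h3a, mul_comm]; exact hDB2
  have hBz : z + 4 ≤ B := by rw [hB, Nat.le_div_iff_mul_le h3a, mul_comm]; exact hDz
  have hBP : ⌈((Pz z : ℝ) + 4) / η⌉₊ + 1 ≤ B := by rw [hB, Nat.le_div_iff_mul_le h3a, mul_comm]; exact hDP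
  have hBD : 3 * a * B ≤ D := Nat.mul_div_le _ _
  have hDBlt : D < 3 * a * (B + 1) := by
    have := Nat.lt_mul_div_succ D h3a
    exact this
  have hD6 : D ≤ 6 * a * B := by
    have h1 : 3 * a * (B + 1) ≤ 3 * a * (2 * B) := Nat.mul_le_mul_left _ (by omega)
    have e : 3 * a * (2 * B) = 6 * a * B := by ring
    omega
  have hBr3 : (3 : ℝ) ≤ B := by
    have : 3 ≤ B := by omega
    exact_mod_cast this
  have hB0 : (0 : ℝ) < B := by linarith
  have hDBN : B ≤ D := by
    calc B = 1 * B := (one_mul _).symm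
      _ ≤ 3 * a * B := Nat.mul_le_mul_right B (by omega)
      _ ≤ D := hBD
  have hDB : (B : ℝ) ≤ D := by exact_mod_cast hDBN
  have hD0 : (0 : ℝ) < D := by linarith
  have hlD : 6 * a + (M + 4) / c₀ ≤ Real.log D := by
    rw [Real.le_log_iff_exp_le hD0]; exact hDe
  have hRc : 0 ≤ ((M : ℝ) + 4) / c₀ := by positivity
  have hlD3 : 6 * a ≤ Real.log D := by linarith
  have hlDp : 0 < Real.log D := by linarith
  have hlBD : Real.log B ≤ Real.log D := Real.log_le_log hB0 hDB
  have hlB0 : 0 ≤ Real.log B := Real.log_nonneg (by linarith)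
  set X : ℝ := x / Real.log x with hX
  -- sizes
  have hXR : (M : ℝ) + 4 ≤ X := by
    refine le_trans ?_ hcx
    have h1 : ((M : ℝ) + 4) / c₀ ≤ Real.log D := by linarith
    rw [div_le_iff₀ hc₀] at h1
    linarith
  have hM0 : (0 : ℝ) ≤ M := Nat.cast_nonneg M
  have hX3 : 3 ≤ X := by linarith
  have hx3 : 3 ≤ x := by
    by_contra hcon
    have hx2 : x ≤ 2 := by omega
    have h2 : X < 3 := by
      rw [hX]
      interval_cases x
      · simp
      · simp
      · have h3 := Real.log_two_gt_d9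
        rw [div_lt_iff₀ (by push_cast; linarith)]
        push_cast
        linarith
    linarith
  have hx3r : (3 : ℝ) ≤ x := by exact_mod_cast hx3
  have hx0 : 0 < (x : ℝ) := by linarith
  have hlx1 : 1 ≤ Real.log x := by
    rw [Real.le_log_iff_exp_le hx0]
    have := Real.exp_one_lt_d9
    linarith
  have hlx0 : 0 < Real.log x := by linarith
  have hXx : X ≤ x := by
    rw [hX, div_le_iff₀ hlx0]
    have := mul_le_mul_of_nonneg_left hlx1 hx0.le
    linarith
  have hX0 : 0 < X := by linarith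
  have hxM : M ≤ x := by
    have : (M : ℝ) ≤ x := by linarith
    exact_mod_cast this
  have hxx1 : x₁ ≤ x := (le_max_left _ _).trans ((le_max_left _ _).trans hxM)
  have hxx2 : x₂ ≤ x := (le_max_right _ _).trans ((le_max_left _ _).trans hxM)
  have hxzA : zA ≤ x := (le_max_left _ _).trans ((le_max_right _ _).trans hxM)
  -- the class
  set r : ℕ := r₀ % a with hr
  have hra : r < a := Nat.mod_lt _ (by omega)
  have hrr : r ≡ r₀ [MOD a] := Nat.mod_modEq _ _
  have hrcop : Nat.Coprime r a := by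
    rw [Nat.coprime_iff_gcd_eq_one, hrr.gcd_eq]
    exact hr₀
  obtain ⟨q0, hq0a, hq0c, hq0d⟩ := exists_q0 ha hac hrcop
  set T : Finset ℕ := T63 x y0 a q0 with hT
  have hTsub : T ⊆ PP x := (filter_subset _ _).trans (filter_subset _ _)
  have hTcard : 1 / (2 * a) * X ≤ T.card := hcardT x hxx2 q0 hq0a hq0c
  have hcB : ((c.natAbs : ℕ) : ℝ) ≤ B := by
    have : c.natAbs ≤ B := by omega
    exact_mod_cast this
  have hcabs : (((c.natAbs : ℕ) : ℝ)) = |((c : ℤ) : ℝ)| := Nat.cast_natAbs _ |>.trans (by push_cast; rfl)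
  have hGval : ∀ t ∈ T, (a : ℝ) * ((G63 a r c t : ℤ) : ℝ) = c + r * t := by
    intro t ht
    have := G63_eq hq0d (mem_T63 ht).2.2.2.2
    exact_mod_cast this
  have hrr' : (r : ℝ) ≤ a := by exact_mod_cast hra.le
  have hr0' : (0 : ℝ) ≤ r := Nat.cast_nonneg r
  have hM' := hmain B (by omega) z (by
      have h1 : ((Pz z : ℝ) + 4) / η ≤ B := (Nat.le_ceil _).trans (by
        have : ⌈((Pz z : ℝ) + 4) / η⌉₊ ≤ B := by omega
        exact_mod_cast this)
      rw [div_le_iff₀ hη] at h1
      linarith) x (fun (_ : Fin 1) t => G63 a r c t) T hTsub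
    (by
      intro t ht i
      obtain ⟨h1, h2, _, _, h5⟩ := mem_T63 ht
      rw [Int.isCoprime_iff_gcd_eq_one, Int.gcd, Int.natAbs_natCast]
      rw [← Nat.coprime_iff_gcd_eq_one, h1.coprime_iff_not_dvd]
      intro h
      have h3 : (t : ℤ) ∣ c := by
        have h4 : (t : ℤ) ∣ G63 a r c t := Int.natCast_dvd.2 h
        have h6 := dvd_sub (dvd_mul_of_dvd_right h4 (a : ℤ)) (dvd_mul_left (t : ℤ) (r : ℤ))
        rw [G63_eq hq0d h5, add_sub_cancel_right] at h6
        exact h6
      have h4 := Nat.le_of_dvd (Int.natAbs_pos.2 hc) (Int.natCast_dvd.1 h3)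
      omega)
    (by
      intro i t ht
      have h1 := hGval t ht
      have ht0 : (0 : ℝ) ≤ t := Nat.cast_nonneg t
      have h2 : ((G63 a r c t : ℤ) : ℝ) = (c + r * t) / a := by
        rw [eq_div_iff ha0.ne', mul_comm]; exact h1
      show |((G63 a r c t : ℤ) : ℝ)| ≤ _
      rw [h2, abs_div, abs_of_pos ha0, div_le_iff₀ ha0]
      have h3 : |(c : ℝ) + r * t| ≤ |(c : ℝ)| + r * t := by
        refine (abs_add_le _ _).trans ?_
        rw [abs_of_nonneg (mul_nonneg hr0' ht0)]
      have h4 : |(c : ℝ)| ≤ B := by rw [← hcabs]; exact hcB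
      have h5 : (r : ℝ) * t ≤ a * t := by gcongr
      have h6 : (a : ℝ) * t ≤ a * (B * t) := by
        have : (1 : ℝ) * t ≤ B * t := by gcongr; linarith
        gcongr
        linarith
      have h7 : (B : ℝ) ≤ a * B := by
        have : 1 * (B : ℝ) ≤ a * B := by gcongr
        linarith
      calc |(c : ℝ) + r * t| ≤ a * B + a * (B * t) := by linarith
        _ = (B + B * t) * a := by ring)
    (by
      intro i e he he1 y hy hyx
      have hy0 : 0 ≤ y := le_trans (by positivity) hy
      have h7 : (r : ℝ) / a ≤ 1 := by rw [div_le_one ha0]; exact hrr'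
      have h7' : 0 ≤ (r : ℝ) / a := by positivity
      refine ⟨r / a * y, by
        rw [abs_of_nonneg (by positivity)]
        have h1 : (1 : ℝ) ≤ B := by linarith
        calc (r : ℝ) / a * y ≤ 1 * y := by gcongr
          _ ≤ B * y := by gcongr, ?_⟩
      intro t ht hty hty'
      have h1 := hGval t ht
      have h2 : ((G63 a r c t : ℤ) : ℝ) = c / a + r / a * t := by
        field_simp
        linarith
      show |((G63 a r c t : ℤ) : ℝ) - _| ≤ _
      rw [h2]
      have e2 : (c : ℝ) / a + r / a * t - r / a * y = c / a + r / a * (t - y) := by ring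
      rw [e2]
      refine (abs_add_le _ _).trans ?_
      have h3 : |(c : ℝ) / a| ≤ B := by
        rw [abs_div, abs_of_pos ha0, div_le_iff₀ ha0]
        have h4 : |(c : ℝ)| ≤ B := by rw [← hcabs]; exact hcB
        have h5 : (B : ℝ) * 1 ≤ B * a := by gcongr
        linarith
      have h4 : |(r : ℝ) / a * (t - y)| ≤ e * y := by
        rw [abs_mul, abs_of_nonneg h7']
        have h5 : |(t : ℝ) - y| ≤ e * y := by
          rw [abs_le]; constructor <;> linarith
        calc (r : ℝ) / a * |(t : ℝ) - y| ≤ 1 * (e * y) := by gcongr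
          _ = _ := one_mul _
      have h5 : e * y ≤ ((1 : ℕ) : ℝ) * e * (B * y) := by
        push_cast
        have h6 : e * y * 1 ≤ e * y * B := by
          apply mul_le_mul_of_nonneg_left (by linarith) (by positivity)
        calc e * y ≤ e * y * B := by linarith
          _ = _ := by ring
      refine (add_le_add h3 (h4.trans h5)).trans (le_of_eq ?_)
      exact add_comm _ _)
    (fun _ => hdet x y0 a q0 r c (by omega) hxzA ha hc (by omega) hq0d)
    (by
      rw [pow_one]
      calc Real.log B ≤ Real.log D := hlBD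
        _ = 1 / c₀ * (c₀ * Real.log D) := by field_simp
        _ ≤ 1 / c₀ * X := by gcongr)
    (by
      have h1 : (x : ℝ) * Real.log D ^ K * (6 * a) ≤ D := by
        calc (x : ℝ) * Real.log D ^ K * (6 * a) ≤ x * Real.log D ^ K * Real.log D := by gcongr
          _ = x * Real.log D ^ (K + 1) := by ring
          _ ≤ D := hxD
      have h2 : (D : ℝ) ≤ (6 * a) * B := by exact_mod_cast hD6
      have h3 : (x : ℝ) * Real.log B ^ K ≤ x * Real.log D ^ K := by gcongr
      have h4 : (x : ℝ) * Real.log D ^ K * (6 * a) ≤ B * (6 * a) := by linarith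
      have h5 := le_of_mul_le_mul_right h4 (by positivity)
      linarith)
    hTcard
  have haBnat : B₂ ≤ a * B := by
    calc B₂ ≤ 1 * B := by omega
      _ ≤ a * B := Nat.mul_le_mul_right B ha
  have hacz : ((a : ℤ) * c).natAbs ≤ z := by
    rw [Int.natAbs_mul, Int.natAbs_natCast]; omega
  have hac0 : (a : ℤ) * c ≠ 0 := mul_ne_zero (by exact_mod_cast (by omega : a ≠ 0)) hc
  have hbadc := htail (a * B) haBnat (fun _ => (a : ℤ) * c) (fun _ => hac0) (fun _ => hacz)
  set PB := Fintype.piFinset (fun _ : Fin 1 => Ioc B (2 * B)) with hPB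
  set S := PB.filter (fun b =>
      θ₁ * (roughG z (fun (_ : Fin 1) t => G63 a r c t) b T / Wz z ^ 1) / Real.log (B * x) ^ 1 ≤
        primeG (fun (_ : Fin 1) t => G63 a r c t) b T ∧
      η * X / Real.log B ^ 1 ≤ primeG (fun (_ : Fin 1) t => G63 a r c t) b T) with hS
  set Bad0 := (Fintype.piFinset (fun _ : Fin 1 => Ioc (a * B) (2 * (a * B)))).filter (fun b =>
      ¬ singular (fun _ : Fin 1 => (a : ℤ) * c) (fun i => (b i : ℤ)) ≤
        (1 + ε) * ∏ p ∈ PS z, fac (fun _ : Fin 1 => (a : ℤ) * c) (fun i => (b i : ℤ)) p) with hBad0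
  set f : (Fin 1 → ℕ) → (Fin 1 → ℕ) := fun b' i => r + a * b' i with hf
  have hfinj : Function.Injective f := by
    intro u v huv
    funext i
    have h1 := congrFun huv i
    simp only [hf] at h1
    exact Nat.eq_of_mul_eq_mul_left (by omega : 0 < a) (Nat.add_left_cancel h1)
  set Bad := S.filter (fun b' => f b' ∈ Bad0 ∨ b' 0 = 2 * B) with hBad
  have hBadcard : (Bad.card : ℝ) ≤ η / 2 * B := by
    have h1 : Bad ⊆ S.filter (fun b' => f b' ∈ Bad0) ∪ {fun _ => 2 * B} := by
      intro b' hb'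
      rw [hBad, mem_filter] at hb'
      rw [mem_union, mem_filter, mem_singleton]
      rcases hb'.2 with h | h
      · exact Or.inl ⟨hb'.1, h⟩
      · right
        funext i
        rw [Subsingleton.elim i 0]; exact h
    have h2 : (S.filter (fun b' => f b' ∈ Bad0)).card ≤ Bad0.card := by
      apply card_le_card_of_injOn f
      · intro b' hb'
        exact (mem_filter.1 hb').2
      · exact hfinj.injOn
    have h3 := (card_le_card h1).trans (card_union_le _ _)
    rw [card_singleton] at h3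
    have h4 : (Bad.card : ℝ) ≤ Bad0.card + 1 := by
      have : Bad.card ≤ Bad0.card + 1 := by omega
      exact_mod_cast this
    have h5 : (Bad0.card : ℝ) ≤ η / 4 * B := by
      refine hbadc.trans (le_of_eq ?_)
      push_cast
      field_simp
    have h6 : 1 ≤ η / 4 * B := by
      have h1 : ((Pz z : ℝ) + 4) / η ≤ B := (Nat.le_ceil _).trans (by
        have : ⌈((Pz z : ℝ) + 4) / η⌉₊ ≤ B := by omega
        exact_mod_cast this)
      rw [div_le_iff₀ hη] at h1
      have h7 : (0 : ℝ) ≤ Pz z := Nat.cast_nonneg _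
      linarith
    linarith
  rw [pow_one] at hM'
  have hM'' : η * (B : ℝ) ≤ (S.card : ℝ) := hM'
  have hgood : η / 2 * (B : ℝ) ≤ ((S \ Bad).card : ℝ) := by
    have h1 : S.card ≤ (S \ Bad).card + Bad.card := by
      have := card_le_card_sdiff_add_card (s := S) (t := Bad)
      omega
    have h2 : (S.card : ℝ) ≤ ((S \ Bad).card : ℝ) + (Bad.card : ℝ) := by exact_mod_cast h1
    linarith
  have hinj : ((S \ Bad).card : ℕ) ≤ (((Icc 1 D).filter (fun b => b ≡ r₀ [MOD a] ∧ Adm63 a b c ∧
      θ * ser63 a b c * (x / (a * Real.log x * Real.log (D * x))) ≤ sol63 a b c x)).card) := by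
    apply card_le_card_of_injOn (fun b' => r + a * b' 0)
    · intro b hb
      rw [mem_coe, mem_sdiff, hS, mem_filter] at hb
      obtain ⟨⟨hbB, hb1, hb2⟩, hb3⟩ := hb
      have hbB' := hbB
      rw [hPB, Fintype.mem_piFinset] at hbB'
      have hbi : B < b 0 ∧ b 0 ≤ 2 * B := mem_Ioc.1 (hbB' 0)
      have hnb : f b ∉ Bad0 ∧ b 0 ≠ 2 * B := by
        constructor
        · intro h
          exact hb3 (by rw [hBad, mem_filter]; exact ⟨by rw [hS, mem_filter]; exact ⟨hbB, hb1, hb2⟩, Or.inl h⟩)
        · intro h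
          exact hb3 (by rw [hBad, mem_filter]; exact ⟨by rw [hS, mem_filter]; exact ⟨hbB, hb1, hb2⟩, Or.inr h⟩)
      set b' : ℕ := b 0 with hb'
      have hbfun : b = fun _ => b' := by
        funext i
        rw [Subsingleton.elim i 0]
      set β : ℕ := r + a * b' with hβ
      have hβlo : a * B < β := by
        have h1 : a * (B + 1) ≤ a * b' := Nat.mul_le_mul_left a hbi.1
        have e : a * (B + 1) = a * B + a := by ring
        omega
      have hβhi : β ≤ 2 * (a * B) := by
        have h1 : b' + 1 ≤ 2 * B := by omega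
        have h2 : a * (b' + 1) ≤ a * (2 * B) := Nat.mul_le_mul_left a h1
        have e1 : a * (b' + 1) = a * b' + a := by ring
        have e2 : a * (2 * B) = 2 * (a * B) := by ring
        omega
      have hβB : B < β := by
        have : 1 * B ≤ a * B := Nat.mul_le_mul_right B ha
        omega
      have hsing : singular (fun _ : Fin 1 => (a : ℤ) * c) (fun _ => (β : ℤ)) ≤
          (1 + ε) * ∏ p ∈ PS z, fac (fun _ : Fin 1 => (a : ℤ) * c) (fun _ => (β : ℤ)) p := by
        by_contra h
        apply hnb.1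
        rw [hBad0, mem_filter]
        refine ⟨?_, ?_⟩
        · rw [Fintype.mem_piFinset]
          intro i
          rw [hf, mem_Ioc]
          simp only
          rw [Subsingleton.elim i 0]
          exact ⟨hβlo, hβhi⟩
        · have e : (fun i => ((f b i : ℕ) : ℤ)) = fun _ : Fin 1 => (β : ℤ) := by
            funext i
            rw [Subsingleton.elim i 0]
          rw [e]; exact h
      have hlBpos : 0 < Real.log B := Real.log_pos (by linarith)
      -- a prime point
      have hpos : 0 < primeG (fun (_ : Fin 1) t => G63 a r c t) b T := by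
        have h1 : (0 : ℝ) < η * X / Real.log B ^ 1 := by positivity
        have h2 : (0 : ℝ) < primeG (fun (_ : Fin 1) t => G63 a r c t) b T := lt_of_lt_of_le h1 hb2
        exact_mod_cast h2
      have heqt : ∀ t ∈ T, (a : ℤ) * (G63 a r c t + b' * t) - β * t = c := by
        intro t ht
        have h1 := G63_eq hq0d (mem_T63 ht).2.2.2.2
        rw [hβ]; push_cast
        linear_combination h1
      have hadm : Adm63 a β c := by
        unfold primeG at hpos
        rw [card_pos] at hpos
        obtain ⟨t, ht⟩ := hpos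
        rw [mem_filter] at ht
        obtain ⟨htT, htp⟩ := ht
        obtain ⟨t1, t2, t3, t4, t5⟩ := mem_T63 htT
        have hpr := htp 0
        set pz : ℤ := G63 a r c t + b' * t with hpz
        have hpr' : pz.toNat.Prime := hpr
        have hpz0 : 0 ≤ pz := by
          by_contra hneg
          push Not at hneg
          rw [Int.toNat_of_nonpos hneg.le] at hpr'
          exact Nat.not_prime_zero hpr'
        have hpe : ((pz.toNat : ℕ) : ℤ) = pz := Int.toNat_of_nonneg hpz0
        have h6 := heqt t htT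
        -- the size of the prime
        have hsize : (zA : ℤ) + 3 < pz := by
          by_contra hcon
          push Not at hcon
          have h7 : (a : ℤ) * pz ≤ a * (zA + 3) := mul_le_mul_of_nonneg_left hcon (by positivity)
          have h8 : (β : ℤ) * 1 ≤ β * t := mul_le_mul_of_nonneg_left (by exact_mod_cast t3) (by positivity)
          have h9 : (a : ℤ) * (z + 4) ≤ β := by
            have : a * (z + 4) ≤ β := by
              have : a * (z + 4) ≤ a * B := Nat.mul_le_mul_left a hBz
              omega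
            exact_mod_cast this
          have h10 : (a : ℤ) * (z + 4) = a * z + 4 * a := by ring
          have h11 : (a : ℤ) * (zA + 3) = a * zA + 3 * a := by ring
          have h12 : (a : ℤ) * zA ≤ a * z := mul_le_mul_of_nonneg_left (by exact_mod_cast hzz) (by positivity)
          have h13 : (y0 : ℤ) * β ≤ t * β := mul_le_mul_of_nonneg_right (by exact_mod_cast t2.le) (by positivity)
          have h14 : (zA : ℤ) * β ≤ y0 * β := mul_le_mul_of_nonneg_right (by
            have : zA ≤ y0 := by omega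
            exact_mod_cast this) (by positivity)
          have h15 : (zA : ℤ) + 3 ≤ y0 := by
            have : zA + 3 ≤ y0 := by omega
            exact_mod_cast this
          have h16 : ((zA : ℤ) + 3) * β ≤ y0 * β := mul_le_mul_of_nonneg_right h15 (by positivity)
          have h17 : |c| ≤ zA := by
            rw [Int.abs_eq_natAbs]
            have : c.natAbs ≤ zA := by omega
            exact_mod_cast this
          have h18 := neg_abs_le c
          have hβ1 : (1 : ℤ) ≤ β := by
            have : 1 ≤ β := by omega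
            exact_mod_cast this
          have h19 : (zA : ℤ) * 1 ≤ zA * β := mul_le_mul_of_nonneg_left hβ1 (by positivity)
          -- `a pz = c + β t ≥ c + (zA + 3) β ≥ 3 β > a (zA + 3)`
          have h20 : (a : ℤ) * pz = c + β * t := by linear_combination h6
          have h21 : ((zA : ℤ) + 3) * β = zA * β + 3 * β := by ring
          have h22 : (t : ℤ) * β = β * t := by ring
          have h23 : (0 : ℤ) < a := by exact_mod_cast ha
          linarith
        have h7 : (zA : ℤ) + 3 < ((pz.toNat : ℕ) : ℤ) := by rw [hpe]; exact hsize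
        have h8 : zA + 3 < pz.toNat := by exact_mod_cast h7
        apply adm63_of_point hac hc hrcop (b := β) (r := r) (p := pz.toNat) (t := t) _ hpr' t1 (by omega)
          (by omega) (by omega) (by rw [hpe]; exact h6)
        rw [hβ]
        unfold Nat.ModEq
        simp
      show β ∈ _
      rw [mem_coe, mem_filter, mem_Icc]
      refine ⟨⟨by omega, ?_⟩, ?_, hadm, ?_⟩
      · have e : 3 * a * B = 3 * (a * B) := by ring
        omega
      · have : β ≡ r [MOD a] := by
          rw [hβ]; unfold Nat.ModEq; simp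
        exact this.trans hrr
      have hrg := hrough x hxx1 c r q0 b' hac hq0a hq0c hq0d hadm
      rw [← hT, ← hX, ← hbfun] at hrg
      rw [ser63_eq hac hadm]
      set F : ℝ := ∏ p ∈ PS z, fac (fun _ : Fin 1 => (a : ℤ) * c) (fun _ : Fin 1 => (β : ℤ)) p with hF
      have hF0 : 0 ≤ F := prod_nonneg fun p hp => fac_nonneg _ _ (prime_PS hp)
      set Sg : ℝ := singular (fun _ : Fin 1 => (a : ℤ) * c) (fun _ : Fin 1 => (β : ℤ)) with hSg
      set L : ℝ := Real.log (B * x) with hL
      have hBx : (1 : ℝ) < B * x := by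
        have : (3 : ℝ) * 3 ≤ B * x := mul_le_mul hBr3 hx3r (by norm_num) hB0.le
        linarith
      have hL0 : 0 < L := Real.log_pos hBx
      have hLD : L ≤ Real.log (D * x) := by
        apply Real.log_le_log (by linarith)
        gcongr
      have hnum : (primeG (fun (_ : Fin 1) t => G63 a r c t) b T : ℝ) ≤ sol63 a β c x := by
        have : primeG (fun (_ : Fin 1) t => G63 a r c t) b T ≤ sol63 a β c x := by
          unfold primeG sol63
          apply card_le_card
          intro t ht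
          rw [mem_filter] at ht
          obtain ⟨t1, t2, t3, t4, t5⟩ := mem_T63 ht.1
          rw [mem_filter, mem_Icc]
          refine ⟨⟨t3, t4⟩, t1, (G63 a r c t + b' * t).toNat, ht.2 0, ?_⟩
          have hpr' : (G63 a r c t + b' * t).toNat.Prime := ht.2 0
          have hpz0 : 0 ≤ G63 a r c t + b' * t := by
            by_contra hneg
            push Not at hneg
            rw [Int.toNat_of_nonpos hneg.le] at hpr'
            exact Nat.not_prime_zero hpr'
          rw [Int.toNat_of_nonneg hpz0]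
          exact heqt t ht.1
        exact_mod_cast this
      refine le_trans ?_ (hb1.trans hnum)
      have hkey : θ₀ * ((1 + ε) * F) ≤ θ₁ * ((1 - ε) * F) := by
        have h1 : θ₀ * (1 + ε) ≤ θ₁ * (1 - ε) := by
          rw [hθ₁, hε]
          have e : (θ₀ + 1) / 2 * (1 - (1 - θ₀) / 4) - θ₀ * (1 + (1 - θ₀) / 4) = 3 / 8 * (1 - θ₀) ^ 2 := by ring
          have := sq_nonneg (1 - θ₀)
          linarith
        calc θ₀ * ((1 + ε) * F) = (θ₀ * (1 + ε)) * F := by ring
          _ ≤ (θ₁ * (1 - ε)) * F := mul_le_mul_of_nonneg_right h1 hF0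
          _ = _ := by ring
      have hθ₁0 : 0 ≤ θ₁ := by rw [hθ₁]; linarith
      have hLDp : 0 < Real.log (D * x) := by linarith
      have e1 : (x : ℝ) / (a * Real.log x * Real.log (D * x)) = X / a / Real.log (D * x) := by
        rw [hX]; field_simp
      rw [e1]
      have hXL : X / a / Real.log (D * x) ≤ X / a / L :=
        div_le_div_of_nonneg_left (by positivity) hL0 hLD
      have hXL0 : 0 ≤ X / a / Real.log (D * x) := by positivity
      have hSg0 : θ * Sg ≤ θ₀ * ((1 + ε) * F) := by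
        by_cases hS0 : 0 ≤ Sg
        · calc θ * Sg ≤ θ₀ * Sg := mul_le_mul_of_nonneg_right hθθ hS0
            _ ≤ _ := mul_le_mul_of_nonneg_left hsing hθ0
        · exfalso
          apply hS0
          rw [hSg]
          unfold singular
          by_cases hmul : Multipliable (fun p : Nat.Primes => fac (fun _ : Fin 1 => (a : ℤ) * c) (fun _ : Fin 1 => (β : ℤ)) p)
          · exact ge_of_tendsto' hmul.hasProd fun s => prod_nonneg fun p _ => fac_nonneg _ _ p.2
          · rw [tprod_eq_one_of_not_multipliable hmul]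
            exact zero_le_one
      rw [pow_one]
      rw [pow_one] at hrg
      calc θ * Sg * (X / a / Real.log (D * x)) ≤ θ₀ * ((1 + ε) * F) * (X / a / Real.log (D * x)) :=
            mul_le_mul_of_nonneg_right hSg0 hXL0
        _ ≤ θ₁ * ((1 - ε) * F) * (X / a / L) := by
            apply mul_le_mul hkey hXL hXL0
            have : 0 ≤ θ₀ * ((1 + ε) * F) := mul_nonneg hθ0 (mul_nonneg (by linarith) hF0)
            linarith
        _ = θ₁ * ((1 - ε) * F * X / a) / L := by ring
        _ ≤ _ := by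
            rw [pow_one]
            gcongr
    · intro u _ v _ huv
      funext i
      rw [Subsingleton.elim i 0]
      have h1 : r + a * u 0 = r + a * v 0 := huv
      exact Nat.eq_of_mul_eq_mul_left (by omega : 0 < a) (Nat.add_left_cancel h1)
  have hfin : ((S \ Bad).card : ℝ) ≤ (((Icc 1 D).filter (fun b => b ≡ r₀ [MOD a] ∧ Adm63 a b c ∧
      θ * ser63 a b c * (x / (a * Real.log x * Real.log (D * x))) ≤ sol63 a b c x)).card : ℝ) := by
    exact_mod_cast hinj
  refine le_trans ?_ (hgood.trans hfin)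
  have h2 : (D : ℝ) ≤ 6 * a * B := by exact_mod_cast hD6
  calc η / 2 / (6 * a) * (D : ℝ) ≤ η / 2 / (6 * a) * (6 * a * B) := by gcongr
    _ = η / 2 * B := by field_simp

end Pool.Agent.W218.PF
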